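import Pool.Agent.H757_X15.StmB

/-!
# Project X15-B, job B4 (BIL2B): evaluation of `cp + cp5`
-/

set_option autoImplicit false

namespace Pool.Agent.H757_X15.BB.BIL2B

open Finset Matrix
open Pool.Agent.Z700 (V3 fac hh)
open Pool.Agent.H757_X15.DD (Fm)
open Pool.Agent.H757_X15.BB

theorem mem_vec (n : ℤ) (v : V3) : v ∈ vec n ↔ nm v = n := by
  unfold vec
  rw [Finset.mem_filter]
  constructor
  · exact fun h => h.2
  · intro h
    refine ⟨?_, h⟩
    rw [Fintype.mem_piFinset]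
    intro i
    rw [Finset.mem_Icc]
    unfold nm at h
    have h0 := sq_nonneg (v 0)
    have h1 := sq_nonneg (v 1)
    have h2 := sq_nonneg (v 2)
    have h3 := sq_nonneg (2 * v 1 - v 2)
    have h4 := sq_nonneg (2 * v 2 - v 1)
    have key : 3 * v i ^ 2 ≤ 4 * n := by
      fin_cases i
      · show 3 * v 0 ^ 2 ≤ 4 * n
        nlinarith
      · show 3 * v 1 ^ 2 ≤ 4 * n
        nlinarith
      · show 3 * v 2 ^ 2 ≤ 4 * n
        nlinarith
    have hn : 0 ≤ n := by nlinarith [sq_nonneg (v i)]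
    constructor
    · by_contra hc
      push Not at hc
      nlinarith [sq_nonneg (3 * v i + 2)]
    · by_contra hc
      push Not at hc
      nlinarith [sq_nonneg (3 * v i - 2)]

theorem fact5 : Fact (Nat.Prime 5) := ⟨by norm_num⟩

theorem two_ne : (2 : ZMod 5) ≠ 0 := by decide

theorem four_ne : (4 : ZMod 5) ≠ 0 := by decide

theorem e36 : (36 : ZMod 5) = 1 := by decide

theorem dvd5 (x : ℤ) : (5 : ℤ) ∣ x ↔ (x : ZMod 5) = 0 :=
  (ZMod.intCast_zmod_eq_zero_iff_dvd x 5).symm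

theorem fm_ne5 (D : ℕ) (h : Fm D) : (D : ZMod 5) ≠ 0 := by
  intro h0
  rw [ZMod.natCast_eq_zero_iff] at h0
  unfold Fm at h
  omega

theorem be_ne (D : ℕ) (h : Fm D) (β : ZMod 5) (hβ : β ^ 2 = -(D : ZMod 5)) : β ≠ 0 := by
  have := fact5
  intro h0
  rw [h0] at hβ
  have h3 : (0 : ZMod 5) ^ 2 = 0 := zero_pow two_ne_zero
  rw [h3] at hβ
  have h5 := congrArg Neg.neg hβ
  rw [neg_neg, neg_zero] at h5
  exact fm_ne5 D h h5.symm

/-! ### the nonpositive case -/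

theorem no_sq (D1 D2 : ℕ) (β1 β2 : ZMod 5) (s1 : Squarefree D1) (f1 : Fm D1) (s2 : Squarefree D2)
    (hne : D1 ≠ 1 ∨ D2 ≠ 1) (hc : Nat.Coprime D1 D2 ∨ (D1 = D2 ∧ β1 = β2))
    (e1 : β1 ^ 2 = -(D1 : ZMod 5)) (b : ℤ) (hb : b % 3 = 1)
    (hb5 : (b : ZMod 5) = -2 * (β1 * β2)) : b ^ 2 ≠ 4 * (D1 : ℤ) * (D2 : ℤ) := by
  have := fact5
  intro hbb
  rcases hc with hc | ⟨hc, hβ⟩
  · have hsq : Squarefree (D1 * D2) := (Nat.squarefree_mul hc).2 ⟨s1, s2⟩
    have h3 : (b.natAbs) ^ 2 = 2 ^ 2 * (D1 * D2) := by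
      have : ((b.natAbs ^ 2 : ℕ) : ℤ) = ((2 ^ 2 * (D1 * D2) : ℕ) : ℤ) := by
        push_cast
        rw [sq_abs, hbb]
        ring
      exact_mod_cast this
    have h4 : 2 ∣ b.natAbs := by
      have : 2 ∣ b.natAbs ^ 2 := by rw [h3]; exact Dvd.dvd.mul_right (by norm_num) _
      exact Nat.prime_two.dvd_of_dvd_pow this
    obtain ⟨c, hc'⟩ := h4
    rw [hc', mul_pow] at h3
    have h5 : c ^ 2 = D1 * D2 := Nat.eq_of_mul_eq_mul_left (by norm_num) h3
    rw [← h5] at hsq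
    have h6 : IsUnit c := hsq c (by rw [sq])
    rw [Nat.isUnit_iff] at h6
    rw [h6] at h5
    have h7 : D1 * D2 = 1 := by rw [← h5]; norm_num
    rcases hne with h | h
    · exact h (Nat.dvd_one.1 ⟨D2, h7.symm⟩)
    · exact h (Nat.dvd_one.1 ⟨D1, by rw [mul_comm]; exact h7.symm⟩)
  · subst hc
    subst hβ
    have h3 : b ^ 2 = (2 * (D1 : ℤ)) ^ 2 := by rw [hbb]; ring
    unfold Fm at f1
    rcases sq_eq_sq_iff_eq_or_eq_neg.1 h3 with h5 | h5
    · omega
    · have h6 : (b : ZMod 5) = -2 * (D1 : ZMod 5) := by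
        rw [h5]
        push_cast
        ring
      have h7 : (4 : ZMod 5) * (D1 : ZMod 5) = 0 := by
        have h8 : (b : ZMod 5) = -2 * β1 ^ 2 := by rw [hb5]; ring
        rw [e1] at h8
        linear_combination h6 - h8
      rcases mul_eq_zero.1 h7 with h8 | h8
      · exact four_ne h8
      · exact fm_ne5 D1 f1 h8

theorem cauchy (v w : V3) : (tr v w) ^ 2 ≤ 4 * nm v * nm w := by
  unfold tr nm
  nlinarith [sq_nonneg (v 1 * w 2 - v 2 * w 1),
    sq_nonneg (2 * (v 0 * w 1 - w 0 * v 1) - (v 0 * w 2 - w 0 * v 2)),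
    sq_nonneg (v 0 * w 2 - w 0 * v 2)]

theorem cp_zero (n1 b n2 : ℤ) (h : 4 * n1 * n2 < b ^ 2) : cp n1 b n2 = 0 := by
  unfold cp
  rw [Finset.card_eq_zero, Finset.filter_eq_empty_iff]
  rintro ⟨v, w⟩ hvw hb
  rw [Finset.mem_product, mem_vec, mem_vec] at hvw
  have := cauchy v w
  simp only at hvw hb
  rw [hvw.1, hvw.2, hb] at this
  linarith

theorem cp5_le (n1 b n2 : ℤ) (β1 β2 : ZMod 5) : cp5 n1 b n2 β1 β2 ≤ cp n1 b n2 := by
  unfold cp5 cp
  refine Finset.card_le_card fun q hq => ?_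
  rw [Finset.mem_filter] at hq ⊢
  exact ⟨hq.1, hq.2.1⟩

/-! ### the count of the pairs proportional modulo 5 -/

/-- the translation -/
def T5 (k : ℤ) (w v : V3) : V3 := fun i => 5 * w i + k * v i

/-- the inverse translation -/
def U5 (k : ℤ) (w v : V3) : V3 := fun i => (w i - k * v i) / 5

theorem prop5 (k : ℤ) (β1 β2 : ZMod 5) (hβ1 : β1 ≠ 0) (hk : (k : ZMod 5) * β1 = β2) (v w : V3) :
    (∀ i, β2 * (v i : ZMod 5) = β1 * (w i : ZMod 5)) ↔ ∀ i, (5 : ℤ) ∣ w i - k * v i := by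
  have := fact5
  refine forall_congr' fun i => ?_
  have h1 : (5 : ℤ) ∣ w i - k * v i ↔ ((w i - k * v i : ℤ) : ZMod 5) = 0 :=
    (ZMod.intCast_zmod_eq_zero_iff_dvd _ 5).symm
  rw [h1]
  push_cast
  constructor
  · intro h
    have : β1 * ((w i : ZMod 5) - k * v i) = 0 := by
      rw [mul_sub, ← h, ← hk]
      ring
    rcases mul_eq_zero.1 this with h2 | h2
    · exact absurd h2 hβ1
    · exact h2
  · intro h
    rw [← hk]
    linear_combination (-β1) * h

theorem cp5_eq (n1 b n2 : ℤ) (β1 β2 : ZMod 5) (hβ1 : β1 ≠ 0) (k b' n2' : ℤ)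
    (hk : (k : ZMod 5) * β1 = β2) (hb' : 5 * b' = b - 2 * k * n1)
    (hn : 25 * n2' = n2 - k * b + k ^ 2 * n1) : cp5 n1 b n2 β1 β2 = cp n1 b' n2' := by
  unfold cp5 cp
  refine Finset.card_nbij' (fun q => (q.1, U5 k q.2 q.1)) (fun q => (q.1, T5 k q.2 q.1)) ?_ ?_ ?_ ?_
  · rintro ⟨v, w⟩ h
    simp only [Finset.coe_filter, Set.mem_ofPred_eq, Finset.mem_product, mem_vec] at h ⊢
    obtain ⟨⟨h1, h2⟩, h3, h4⟩ := h
    rw [prop5 k β1 β2 hβ1 hk] at h4
    choose u hu using h4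
    have hU : U5 k w v = u := by
      funext i
      unfold U5
      rw [hu i]
      exact Int.mul_ediv_cancel_left _ (by norm_num)
    rw [hU]
    have hw : ∀ i, w i = 5 * u i + k * v i := fun i => by linarith [hu i]
    unfold nm at h1 h2 ⊢
    unfold tr at h3 ⊢
    simp only [hw] at h2 h3
    refine ⟨⟨h1, ?_⟩, ?_⟩
    · have : 25 * (3 * u 0 ^ 2 + u 1 ^ 2 - u 1 * u 2 + u 2 ^ 2) = 25 * n2' := by
        rw [hn, ← h1, ← h2, ← h3]
        ring
      linarith
    · have : 5 * (6 * (v 0 * u 0) + 2 * (v 1 * u 1) - v 1 * u 2 - v 2 * u 1 + 2 * (v 2 * u 2)) =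
          5 * b' := by
        rw [hb', ← h1, ← h3]
        ring
      linarith
  · rintro ⟨v, w⟩ h
    simp only [Finset.coe_filter, Set.mem_ofPred_eq, Finset.mem_product, mem_vec] at h ⊢
    obtain ⟨⟨h1, h2⟩, h3⟩ := h
    rw [prop5 k β1 β2 hβ1 hk]
    have hT : ∀ i, T5 k w v i = 5 * w i + k * v i := fun i => rfl
    unfold nm at h1 h2 ⊢
    unfold tr at h3 ⊢
    simp only [hT]
    refine ⟨⟨h1, ?_⟩, ?_, ?_⟩
    · have : n2 = 25 * n2' + k * b - k ^ 2 * n1 := by linarith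
      rw [this]
      have hb2 : b = 5 * b' + 2 * k * n1 := by linarith
      rw [hb2, ← h1, ← h2, ← h3]
      ring
    · have hb2 : b = 5 * b' + 2 * k * n1 := by linarith
      rw [hb2, ← h1, ← h3]
      ring
    · intro i
      exact ⟨w i, by ring⟩
  · rintro ⟨v, w⟩ h
    simp only [Finset.coe_filter, Set.mem_ofPred_eq, Finset.mem_product, mem_vec] at h ⊢
    obtain ⟨⟨h1, h2⟩, h3, h4⟩ := h
    rw [prop5 k β1 β2 hβ1 hk] at h4
    have hTU : T5 k (U5 k w v) v = w := by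
      funext i
      show 5 * ((w i - k * v i) / 5) + k * v i = w i
      rw [Int.mul_ediv_cancel' (h4 i)]
      ring
    show (v, T5 k (U5 k w v) v) = (v, w)
    rw [hTU]
  · rintro ⟨v, w⟩ h
    have hUT : U5 k (T5 k w v) v = w := by
      funext i
      show (5 * w i + k * v i - k * v i) / 5 = w i
      have : 5 * w i + k * v i - k * v i = 5 * w i := by ring
      rw [this]
      exact Int.mul_ediv_cancel_left _ (by norm_num)
    show (v, U5 k (T5 k w v) v) = (v, w)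
    rw [hUT]

theorem cp5_zero (n1 b n2 : ℤ) (β1 β2 : ZMod 5) (hβ1 : β1 ≠ 0) (k : ℤ)
    (hk : (k : ZMod 5) * β1 = β2) (h25 : ¬ (25 : ℤ) ∣ 4 * n1 * n2 - b ^ 2) :
    cp5 n1 b n2 β1 β2 = 0 := by
  unfold cp5
  rw [Finset.card_eq_zero, Finset.filter_eq_empty_iff]
  rintro ⟨v, w⟩ h h3
  simp only [Finset.mem_product, mem_vec] at h h3
  obtain ⟨h1, h2⟩ := h
  obtain ⟨h3, h4⟩ := h3
  rw [prop5 k β1 β2 hβ1 hk] at h4
  choose u hu using h4
  have hw : ∀ i, w i = 5 * u i + k * v i := fun i => by linarith [hu i]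
  apply h25
  rw [← h1, ← h2, ← h3]
  unfold nm tr
  simp only [hw]
  refine ⟨4 * (3 * v 0 ^ 2 + v 1 ^ 2 - v 1 * v 2 + v 2 ^ 2) *
    (3 * u 0 ^ 2 + u 1 ^ 2 - u 1 * u 2 + u 2 ^ 2) -
    (6 * (v 0 * u 0) + 2 * (v 1 * u 1) - v 1 * u 2 - v 2 * u 1 + 2 * (v 2 * u 2)) ^ 2, ?_⟩
  ring

/-! ### the local factors -/

theorem jac_n1 (n1 : ℕ) (β1 : ZMod 5) (h : β1 ^ 2 = -(n1 : ZMod 5)) (hβ : β1 ≠ 0) :
    jacobiSym (-(n1 : ℤ)) 5 = 1 := by
  have := fact5
  rw [← jacobiSym.legendreSym.to_jacobiSym, legendreSym.eq_one_iff]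
  · push_cast
    exact ⟨β1, by rw [← h]; ring⟩
  · push_cast
    rw [← h]
    exact pow_ne_zero 2 hβ

theorem fac5 (n1 D : ℕ) (h5 : ¬ 5 ∣ n1) (hj : jacobiSym (-(n1 : ℤ)) 5 = 1) :
    fac n1 D 5 = (D.factorization 5 : ℤ) + 1 := by
  unfold fac
  rw [if_neg h5, hj]
  simp

theorem fact25 (D' l : ℕ) (hD' : 0 < D') (hl : l.Prime) (h5 : l ≠ 5) :
    (25 * D').factorization l = D'.factorization l := by
  rw [Nat.factorization_mul (by norm_num) hD'.ne']
  have h25 : (25 : ℕ).factorization l = 0 := by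
    apply Nat.factorization_eq_zero_of_not_dvd
    intro h
    have h1 : l ∣ 5 ^ 2 := by norm_num; exact h
    have h2 := hl.dvd_of_dvd_pow h1
    rw [Nat.prime_dvd_prime_iff_eq hl (by norm_num)] at h2
    exact h5 h2
  simp [h25]

theorem fact25_5 (D' : ℕ) (hD' : 0 < D') :
    (25 * D').factorization 5 = 2 + D'.factorization 5 := by
  rw [Nat.factorization_mul (by norm_num) hD'.ne']
  have h25 : (25 : ℕ).factorization 5 = 2 := by
    have : (25 : ℕ) = 5 ^ 2 := by norm_num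
    rw [this, Nat.Prime.factorization_pow (by norm_num)]
    simp
  simp [h25]

theorem jac25 (x : ℤ) (l : ℕ) (hl : l.Prime) (h5 : l ≠ 5) :
    jacobiSym (25 * x) l = jacobiSym x l := by
  rw [jacobiSym.mul_left]
  have h1 : jacobiSym (25 : ℤ) l = 1 := by
    have : (25 : ℤ) = 5 ^ 2 := by norm_num
    rw [this]
    apply jacobiSym.sq_one'
    rw [Int.gcd_comm]
    have h2 : Nat.Coprime l 5 := (Nat.coprime_primes hl (by norm_num)).2 h5
    exact_mod_cast h2
  rw [h1, one_mul]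

theorem fac25 (n1 D' l : ℕ) (hD' : 0 < D') (hl : l.Prime) (h5 : l ≠ 5) :
    fac n1 (25 * D') l = fac n1 D' l := by
  unfold fac hh
  rw [fact25 D' l hD' hl h5]
  have h1 : 25 * D' / l ^ D'.factorization l = 25 * (D' / l ^ D'.factorization l) :=
    Nat.mul_div_assoc _ (Nat.ordProj_dvd D' l)
  rw [h1]
  have h2 : (-((25 * (D' / l ^ D'.factorization l) : ℕ) : ℤ)) =
      25 * (-((D' / l ^ D'.factorization l : ℕ) : ℤ)) := by
    push_cast
    ring
  have h3 : (-((n1 / l * (25 * (D' / l ^ D'.factorization l)) : ℕ) : ℤ)) =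
      25 * (-((n1 / l * (D' / l ^ D'.factorization l) : ℕ) : ℤ)) := by
    push_cast
    ring
  rw [h2, h3, jac25 _ l hl h5, jac25 _ l hl h5]

theorem pf25 (D' : ℕ) (hD' : 0 < D') :
    (pf3 (25 * D')).erase 5 = (pf3 D').erase 5 := by
  unfold pf3
  rw [Nat.primeFactors_mul (by norm_num) hD'.ne']
  have h25 : (25 : ℕ).primeFactors = {5} := by
    have : (25 : ℕ) = 5 ^ 2 := by norm_num
    rw [this]
    exact Nat.primeFactors_prime_pow (by norm_num) (by norm_num)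
  rw [h25]
  ext x
  simp only [Finset.mem_erase, Finset.mem_union, Finset.mem_singleton]
  tauto

theorem prod_split (n1 D : ℕ) (hD : 0 < D) (h5 : ¬ 5 ∣ n1) (hj : jacobiSym (-(n1 : ℤ)) 5 = 1) :
    ∏ l ∈ pf3 D, fac n1 D l =
      ((D.factorization 5 : ℤ) + 1) * ∏ l ∈ (pf3 D).erase 5, fac n1 D l := by
  by_cases h : 5 ∈ pf3 D
  · rw [← Finset.mul_prod_erase _ _ h, fac5 n1 D h5 hj]
  · rw [Finset.erase_eq_of_notMem h]
    have h2 : D.factorization 5 = 0 := by
      apply Nat.factorization_eq_zero_of_not_dvd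
      intro h3
      apply h
      unfold pf3
      rw [Finset.mem_erase, Finset.mem_erase, Nat.mem_primeFactors]
      exact ⟨by norm_num, by norm_num, by norm_num, h3, hD.ne'⟩
    rw [h2]
    simp

theorem chi4_25 (x : ℤ) : chi4 (25 * x) = chi4 x := by
  unfold chi4
  have h : (25 * x) % 4 = x % 4 := by omega
  rw [h]

theorem kap25 (n1 D' : ℕ) (hD' : 0 < D') : kap n1 (25 * D') = kap n1 D' := by
  unfold kap
  rw [fact25 D' 2 hD' Nat.prime_two (by norm_num)]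
  have h1 : 25 * D' / 2 ^ D'.factorization 2 = 25 * (D' / 2 ^ D'.factorization 2) :=
    Nat.mul_div_assoc _ (Nat.ordProj_dvd D' 2)
  rw [h1]
  push_cast
  rw [chi4_25]

theorem c2_25 (n1 D' : ℕ) (b b' : ℤ) (hD' : 0 < D') (hb : b' % 4 = b % 4) :
    c2 n1 (25 * D') b = c2 n1 D' b' := by
  unfold c2
  rw [kap25 n1 D' hD']
  have h2 : b' % 2 = b % 2 := by omega
  rw [hb, h2]

/-! ### the main computation -/

theorem main_pos (h : S_PC) (n1 n2 D : ℕ) (b : ℤ) (β1 β2 : ZMod 5) (hs : Squarefree n1)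
    (h1 : n1 % 12 = 1) (h2 : n2 % 12 = 1) (hD : 0 < D)
    (hDD : (D : ℤ) = 4 * n1 * n2 - b ^ 2) (hβ1 : β1 ^ 2 = -(n1 : ZMod 5))
    (hβ2 : β2 ^ 2 = -(n2 : ZMod 5)) (hβ10 : β1 ≠ 0) (hb5 : (b : ZMod 5) = -2 * (β1 * β2)) :
    ((cp n1 b n2 + cp5 n1 b n2 β1 β2 : ℕ) : ℤ) = 24 * (c2 n1 D b * loc n1 D) := by
  have := fact5
  have hj := jac_n1 n1 β1 hβ1 hβ10
  have hn5 : ¬ 5 ∣ n1 := by
    intro h5
    rw [← ZMod.natCast_eq_zero_iff] at h5
    rw [h5, neg_zero] at hβ1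
    exact hβ10 (pow_eq_zero_iff two_ne_zero |>.1 hβ1)
  have h5D : 5 ∣ D := by
    rw [← ZMod.natCast_eq_zero_iff]
    have h3 : ((D : ℤ) : ZMod 5) = 0 := by
      rw [hDD]
      push_cast
      have e1 : (n1 : ZMod 5) = -β1 ^ 2 := by rw [hβ1]; ring
      have e2 : (n2 : ZMod 5) = -β2 ^ 2 := by rw [hβ2]; ring
      rw [e1, e2, hb5]
      ring
    exact_mod_cast h3
  -- the multiplier
  set k : ℤ := 36 * ((β2 * β1⁻¹).val : ℤ) with hkdef
  have hk : (k : ZMod 5) * β1 = β2 := by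
    rw [hkdef]
    push_cast
    rw [ZMod.natCast_val, ZMod.cast_id', id]
    rw [e36, one_mul, mul_assoc, inv_mul_cancel₀ hβ10, mul_one]
  have hc1 := h n1 n2 b D hs h1 h2 hD hDD
  rw [prod_split n1 D hD hn5 hj] at hc1
  by_cases h25 : 25 ∣ D
  · obtain ⟨D', hD'⟩ := h25
    have hD'0 : 0 < D' := by
      rcases Nat.eq_zero_or_pos D' with h0 | h0
      · rw [h0] at hD'
        omega
      · exact h0
    have hd5 : (5 : ℤ) ∣ b - 2 * k * n1 := by
      rw [dvd5]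
      push_cast
      rw [hb5]
      have e1 : (n1 : ZMod 5) = -β1 ^ 2 := by rw [hβ1]; ring
      rw [e1, ← hk]
      ring
    obtain ⟨b', hb'⟩ := hd5
    have hd25 : (25 : ℤ) ∣ n2 - k * b + k ^ 2 * n1 := by
      have h3 : (25 : ℤ) ∣ (4 * n1) * (n2 - k * b + k ^ 2 * n1) := by
        have : (4 * (n1 : ℤ)) * (n2 - k * b + k ^ 2 * n1) = D + (b - 2 * k * n1) ^ 2 := by
          rw [hDD]
          ring
        rw [this, hb', hD']
        exact ⟨D' + b' ^ 2, by push_cast; ring⟩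
      have h4 : IsCoprime (25 : ℤ) (4 * (n1 : ℤ)) := by
        have h5 : Nat.Coprime 5 (4 * n1) := by
          rw [Nat.Prime.coprime_iff_not_dvd (by norm_num), Nat.Prime.dvd_mul (by norm_num)]
          rintro (h6 | h6)
          · revert h6; norm_num
          · exact hn5 h6
        have h6 : Nat.Coprime (5 ^ 2) (4 * n1) := Nat.Coprime.pow_left 2 h5
        have h7 := Nat.isCoprime_iff_coprime.2 h6
        exact_mod_cast h7
      exact h4.dvd_of_dvd_mul_left h3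
    obtain ⟨n2', hn2'⟩ := hd25
    have hDD' : (D' : ℤ) = 4 * n1 * n2' - b' ^ 2 := by
      have h3 : (25 : ℤ) * D' = 25 * (4 * n1 * n2' - b' ^ 2) := by
        have e1 : (25 : ℤ) * D' = 4 * n1 * n2 - b ^ 2 := by
          rw [← hDD, hD']
          push_cast
          ring
        rw [e1]
        have e2 : (25 : ℤ) * (4 * n1 * n2' - b' ^ 2) = 4 * n1 * (25 * n2') - (5 * b') ^ 2 := by ring
        rw [e2, ← hn2', ← hb']
        ring
      linarith
    have hn1pos : (0 : ℤ) < 4 * n1 := by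
      have : 0 < 4 * n1 := by omega
      exact_mod_cast this
    have hD'pos : (0 : ℤ) < D' := by exact_mod_cast hD'0
    have hn2pos : 0 < n2' := by
      have : 0 < (4 * (n1 : ℤ)) * n2' := by nlinarith [sq_nonneg b']
      exact (mul_pos_iff_of_pos_left hn1pos).1 this
    obtain ⟨m2, hm2⟩ := Int.eq_ofNat_of_zero_le hn2pos.le
    have hb4 : b' % 4 = b % 4 := by
      have e : 5 * b' = b - 4 * (18 * ((β2 * β1⁻¹).val : ℤ) * n1) := by
        rw [← hb', hkdef]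
        ring
      omega
    have hm12 : m2 % 12 = 1 := by
      have e1 : (25 : ℤ) * m2 = n2 + 12 * (108 * ((β2 * β1⁻¹).val : ℤ) ^ 2 * n1 -
          3 * ((β2 * β1⁻¹).val : ℤ) * b) := by
        have : (25 : ℤ) * m2 = 25 * n2' := by rw [hm2]
        rw [this, ← hn2', hkdef]
        ring
      omega
    have hDD'' : (D' : ℤ) = 4 * n1 * m2 - b' ^ 2 := by
      rw [hDD', hm2]
    have hcc := h n1 m2 b' D' hs h1 hm12 hD'0 hDD''
    rw [prod_split n1 D' hD'0 hn5 hj] at hcc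
    have h5 : cp5 n1 b n2 β1 β2 = cp n1 b' m2 := by
      have := cp5_eq n1 b n2 β1 β2 hβ10 k b' n2' hk hb'.symm hn2'.symm
      rw [this, hm2]
    push_cast
    rw [hc1, h5, hcc]
    unfold loc
    have hf3 : D.factorization 3 = D'.factorization 3 := by
      rw [hD']
      exact fact25 D' 3 hD'0 Nat.prime_three (by norm_num)
    have hf5 : D.factorization 5 = 2 + D'.factorization 5 := by
      rw [hD']
      exact fact25_5 D' hD'0
    have hprod : ∏ l ∈ (pf3 D').erase 5, fac n1 D' l =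
        ∏ l ∈ (pf3 D).erase 5, fac n1 D l := by
      rw [hD', pf25 D' hD'0]
      refine Finset.prod_congr rfl fun l hl => ?_
      rw [Finset.mem_erase] at hl
      have hl2 := hl.2
      unfold pf3 at hl2
      rw [Finset.mem_erase, Finset.mem_erase] at hl2
      exact (fac25 n1 D' l hD'0 (Nat.prime_of_mem_primeFactors hl2.2.2) hl.1).symm
    have hcc2 : c2 n1 D' b' = c2 n1 D b := by
      rw [hD']
      exact (c2_25 n1 D' b b' hD'0 hb4).symm
    rw [hprod, hcc2, ← hf3]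
    by_cases hodd : Odd (D.factorization 3)
    · rw [if_pos hodd, if_pos hodd, if_pos hodd, hf5]
      push_cast
      ring
    · rw [if_neg hodd, if_neg hodd, if_neg hodd]
      ring
  · have h25' : ¬ (25 : ℤ) ∣ 4 * (n1 : ℤ) * n2 - b ^ 2 := by
      rw [← hDD]
      intro h3
      exact h25 (by exact_mod_cast h3)
    have h5 := cp5_zero n1 b n2 β1 β2 hβ10 k hk h25'
    rw [h5]
    push_cast
    rw [hc1]
    have hf5 : D.factorization 5 = 1 := by
      have h3 : 1 ≤ D.factorization 5 := by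
        rw [← Nat.Prime.dvd_iff_one_le_factorization (by norm_num) hD.ne']
        exact h5D
      have h4 : ¬ 2 ≤ D.factorization 5 := by
        rw [← Nat.Prime.pow_dvd_iff_le_factorization (by norm_num) hD.ne']
        norm_num
        exact h25
      omega
    unfold loc
    by_cases hodd : Odd (D.factorization 3)
    · rw [if_pos hodd, if_pos hodd, hf5]
      push_cast
      ring
    · rw [if_neg hodd, if_neg hodd]
      ring

end Pool.Agent.H757_X15.BB.BIL2B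

namespace Pool.Agent.H757_X15.BB

open Pool.Agent.H757_X15.DD (Fm)

open BIL2B in
/-- BIL2B -/
theorem t_BIL2B : S_BIL2B := by
  intro h D1 D2 s1 f1 s2 f2 hne β1 β2 hc e1 e2 b hb3 hb5
  by_cases hD : 0 < dis D1 D2 b
  · rw [if_pos hD]
    have hDD : (dis D1 D2 b : ℤ) = 4 * (D1 : ℤ) * (D2 : ℤ) - b ^ 2 := by
      unfold dis at hD ⊢
      rw [Int.toNat_of_nonneg (by omega)]
    have g1 : D1 % 12 = 1 := by
      unfold Fm at f1
      omega
    have g2 : D2 % 12 = 1 := by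
      unfold Fm at f2
      omega
    exact main_pos h D1 D2 (dis D1 D2 b) b β1 β2 s1 g1 g2 hD hDD e1 e2 (be_ne D1 f1 β1 e1) hb5
  · rw [if_neg hD]
    have hle : 4 * (D1 : ℤ) * (D2 : ℤ) ≤ b ^ 2 := by
      unfold dis at hD
      omega
    have hlt : 4 * (D1 : ℤ) * (D2 : ℤ) < b ^ 2 :=
      lt_of_le_of_ne hle (no_sq D1 D2 β1 β2 s1 f1 s2 hne hc e1 b hb3 hb5).symm
    have h0 : cp (D1 : ℤ) b (D2 : ℤ) = 0 := cp_zero _ _ _ hlt
    have h5 : cp5 (D1 : ℤ) b (D2 : ℤ) β1 β2 = 0 := by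
      have := cp5_le (D1 : ℤ) b (D2 : ℤ) β1 β2
      omega
    rw [h0, h5]
    rfl

end Pool.Agent.H757_X15.BB
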