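import Pool.Agent.H757_X15.StmB

/-!
# Project X15-B, task B8: the product of two Gross sums as a sum over pairs of vectors

After `Pool.Agent.Z419.Bil1` and `Pool.Agent.Y100.ZC.SgBil`.
-/

set_option autoImplicit false

namespace Pool.Agent.H757_X15.BB

open Finset Matrix
open Pool.Agent.Z700 (V3)
open Pool.Agent.H757_X15.DD (Fm)

namespace Bil1

instance fact5 : Fact (Nat.Prime 5) := ⟨by norm_num⟩

/-! ### lines modulo five -/

lemma ln_smul {n : Fin 3 → ZMod 5} {β : ZMod 5} {v : V3} (c : ZMod 5) (h : Ln n β v) :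
    Ln (c • n) β v := by
  obtain ⟨h0, h1, h2⟩ := h
  refine ⟨?_, ?_, ?_⟩ <;> simp only [Pi.smul_apply, smul_eq_mul]
  · linear_combination c * h0
  · linear_combination c * h1
  · linear_combination c * h2

lemma h5 : (5 : ZMod 5) = 0 := by decide

lemma iso_of_ln {n : Fin 3 → ZMod 5} {β : ZMod 5} {v : V3} (hβ : β ≠ 0) (h : Ln n β v) :
    3 * n 0 ^ 2 + n 1 ^ 2 - n 1 * n 2 + n 2 ^ 2 = 0 := by
  obtain ⟨h0, h1, h2⟩ := h
  have : β * (2 * (3 * n 0 ^ 2 + n 1 ^ 2 - n 1 * n 2 + n 2 ^ 2)) = 0 := by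
    linear_combination - 6 * n 0 * h0 - (2 * n 1 - n 2) * h1 - (2 * n 2 - n 1) * h2 +
      3 * n 0 * ((v 1 : ZMod 5) * n 2 - (v 2 : ZMod 5) * n 1) * h5
  have h3 := (mul_eq_zero.1 this).resolve_left hβ
  exact (mul_eq_zero.1 h3).resolve_left (by decide)

lemma cross {n n' : Fin 3 → ZMod 5} {β : ZMod 5} {v : V3} (hβ : β ≠ 0)
    (hv : ((nm v : ℤ) : ZMod 5) ≠ 0)
    (h : Ln n β v) (h' : Ln n' β v) : n 1 * n' 2 - n 2 * n' 1 = 0 ∧ n 2 * n' 0 - n 0 * n' 2 = 0 ∧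
      n 0 * n' 1 - n 1 * n' 0 = 0 := by
  obtain ⟨h0, h1, h2⟩ := h
  obtain ⟨k0, k1, k2⟩ := h'
  unfold nm at hv
  push_cast at hv
  generalize (v 0 : ZMod 5) = a0 at *
  generalize (v 1 : ZMod 5) = a1 at *
  generalize (v 2 : ZMod 5) = a2 at *
  have e1 : (6 * a0) * n 0 + (2 * a1 - a2) * n 1 + (2 * a2 - a1) * n 2 = 0 := by
    have : β * ((6 * a0) * n 0 + (2 * a1 - a2) * n 1 + (2 * a2 - a1) * n 2) = 0 := by
      linear_combination - 6 * a0 * h0 - (2 * a1 - a2) * h1 - (2 * a2 - a1) * h2 +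
        3 * a0 * (a1 * n 2 - a2 * n 1) * h5
    exact (mul_eq_zero.1 this).resolve_left hβ
  have e2 : (6 * a0) * n' 0 + (2 * a1 - a2) * n' 1 + (2 * a2 - a1) * n' 2 = 0 := by
    have : β * ((6 * a0) * n' 0 + (2 * a1 - a2) * n' 1 + (2 * a2 - a1) * n' 2) = 0 := by
      linear_combination - 6 * a0 * k0 - (2 * a1 - a2) * k1 - (2 * a2 - a1) * k2 +
        3 * a0 * (a1 * n' 2 - a2 * n' 1) * h5
    exact (mul_eq_zero.1 this).resolve_left hβ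
  have e3 : a0 * (n 1 * n' 2 - n 2 * n' 1) + a1 * (n 2 * n' 0 - n 0 * n' 2) +
      a2 * (n 0 * n' 1 - n 1 * n' 0) = 0 := by
    have e4 : (4 : ZMod 5) * (a0 * (n 1 * n' 2 - n 2 * n' 1) + a1 * (n 2 * n' 0 - n 0 * n' 2) +
      a2 * (n 0 * n' 1 - n 1 * n' 0)) = 0 := by
      linear_combination (-6 * n' 0) * h0 - (2 * n' 1 - n' 2) * h1 - (2 * n' 2 - n' 1) * h2
        + (6 * n 0) * k0 + (2 * n 1 - n 2) * k1 + (2 * n 2 - n 1) * k2
        + (2 * a0 * (n 1 * n' 2 - n 2 * n' 1) + 5 * (a1 * (n 2 * n' 0 - n 0 * n' 2) +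
      a2 * (n 0 * n' 1 - n 1 * n' 0))) * h5
    exact (mul_eq_zero.1 e4).resolve_left (by decide)
  have h2v : (6 * a0) * a0 + (2 * a1 - a2) * a1 + (2 * a2 - a1) * a2 ≠ 0 := by
    intro hc
    apply hv
    have : (2 : ZMod 5) * (3 * a0 ^ 2 + a1 ^ 2 - a1 * a2 + a2 ^ 2) = 0 := by
      linear_combination hc
    exact (mul_eq_zero.1 this).resolve_left (by decide)
  have f0 : (n 1 * n' 2 - n 2 * n' 1) * ((6 * a0) * a0 + (2 * a1 - a2) * a1 + (2 * a2 - a1) * a2) = 0 := by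
    linear_combination (6 * a0) * e3 + (a1 * n' 2 - a2 * n' 1) * e1 - (a1 * n 2 - a2 * n 1) * e2
  have f1 : (n 2 * n' 0 - n 0 * n' 2) * ((6 * a0) * a0 + (2 * a1 - a2) * a1 + (2 * a2 - a1) * a2) = 0 := by
    linear_combination (2 * a1 - a2) * e3 + (a2 * n' 0 - a0 * n' 2) * e1 - (a2 * n 0 - a0 * n 2) * e2
  have f2 : (n 0 * n' 1 - n 1 * n' 0) * ((6 * a0) * a0 + (2 * a1 - a2) * a1 + (2 * a2 - a1) * a2) = 0 := by
    linear_combination (2 * a2 - a1) * e3 + (a0 * n' 1 - a1 * n' 0) * e1 - (a0 * n 1 - a1 * n 0) * e2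
  exact ⟨(mul_eq_zero.1 f0).resolve_right h2v, (mul_eq_zero.1 f1).resolve_right h2v,
    (mul_eq_zero.1 f2).resolve_right h2v⟩

lemma parallel {n n' : Fin 3 → ZMod 5} (hn : n ≠ 0) (h0 : n 1 * n' 2 - n 2 * n' 1 = 0)
    (h1 : n 2 * n' 0 - n 0 * n' 2 = 0) (h2 : n 0 * n' 1 - n 1 * n' 0 = 0) : ∃ c : ZMod 5, n' = c • n := by
  have hex : ∃ i, n i ≠ 0 := by
    by_contra h
    push Not at h
    exact hn (funext h)
  have hij : ∀ i j, n i * n' j = n j * n' i := by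
    intro i j
    fin_cases i <;> fin_cases j <;> simp only [Fin.zero_eta, Fin.mk_one, Fin.reduceFinMk]
    · linear_combination h2
    · linear_combination -h1
    · linear_combination -h2
    · linear_combination h0
    · linear_combination h1
    · linear_combination -h0
  obtain ⟨i, hi⟩ := hex
  refine ⟨n' i / n i, ?_⟩
  funext j
  rw [Pi.smul_apply, smul_eq_mul, div_mul_eq_mul_div, eq_div_iff hi]
  linear_combination hij i j

lemma four (β1 β2 : ZMod 5) (v w : V3) (hβ : β1 ≠ 0) (hv : ((nm v : ℤ) : ZMod 5) ≠ 0) (x : ℤ) :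
    ∑ n : Fin 3 → ZMod 5, (if n ≠ 0 ∧ Ln n β1 v ∧ Ln n β2 w then x else 0) =
      if (∃ n : Fin 3 → ZMod 5, n ≠ 0 ∧ Ln n β1 v ∧ Ln n β2 w) then 4 * x else 0 := by
  rw [← Finset.sum_filter, Finset.sum_const, nsmul_eq_mul]
  by_cases h : ∃ n : Fin 3 → ZMod 5, n ≠ 0 ∧ Ln n β1 v ∧ Ln n β2 w
  · rw [if_pos h]
    obtain ⟨n₁, hn₁, hv₁, hw₁⟩ := h
    have hcard : (Finset.univ.filter fun n : Fin 3 → ZMod 5 => n ≠ 0 ∧ Ln n β1 v ∧ Ln n β2 w).card = 4 := by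
      have h2 : (Finset.univ.filter fun n : Fin 3 → ZMod 5 => n ≠ 0 ∧ Ln n β1 v ∧ Ln n β2 w) =
          (Finset.univ.filter fun c : ZMod 5 => c ≠ 0).image fun c => c • n₁ := by
        ext n
        simp only [Finset.mem_filter, Finset.mem_univ, true_and, Finset.mem_image]
        constructor
        · rintro ⟨a, b, c⟩
          obtain ⟨k0, k1, k2⟩ := cross hβ hv hv₁ b
          obtain ⟨d, hd⟩ := parallel hn₁ k0 k1 k2
          refine ⟨d, ?_, hd.symm⟩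
          rintro rfl
          rw [zero_smul] at hd
          exact a hd
        · rintro ⟨c, hc, rfl⟩
          exact ⟨smul_ne_zero hc hn₁, ln_smul c hv₁, ln_smul c hw₁⟩
      rw [h2, Finset.card_image_of_injective _ (smul_left_injective _ hn₁)]
      decide
    rw [hcard]
    norm_num
  · rw [if_neg h]
    have h2 : (Finset.univ.filter fun n : Fin 3 → ZMod 5 => n ≠ 0 ∧ Ln n β1 v ∧ Ln n β2 w) = ∅ := by
      rw [Finset.filter_eq_empty_iff]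
      intro n _ hn
      exact h ⟨n, hn⟩
    rw [h2]
    simp

/-! ### orientations and types -/

lemma ep_cases (v : V3) : ep v = 1 ∨ ep v = -1 := by
  unfold ep
  split_ifs
  · exact Or.inl rfl
  · exact Or.inr rfl

lemma sum_mod3 {N : ℤ} (hN : N % 12 = 1) {v : V3} (hv : nm v = N) :
    (v 1 + v 2) % 3 = 1 ∨ (v 1 + v 2) % 3 = 2 := by
  unfold nm at hv
  have h : (v 1 + v 2) ^ 2 % 3 = 1 := by
    have : (v 1 + v 2) ^ 2 = N - 3 * (v 0 ^ 2 - v 1 * v 2) := by rw [← hv]; ring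
    rw [this]
    omega
  have h3 : (v 1 + v 2) % 3 = 0 ∨ (v 1 + v 2) % 3 = 1 ∨ (v 1 + v 2) % 3 = 2 := by omega
  rcases h3 with h3 | h3 | h3
  · exfalso
    rw [pow_two, Int.mul_emod, h3] at h
    norm_num at h
  · exact Or.inl h3
  · exact Or.inr h3

lemma tr_mod3 {N1 N2 : ℤ} (hN1 : N1 % 12 = 1) (hN2 : N2 % 12 = 1) {v w : V3} (hv : nm v = N1)
    (hw : nm w = N2) : tr v w % 3 = 1 ↔ ep v ≠ ep w := by
  have a := sum_mod3 hN1 hv
  have b := sum_mod3 hN2 hw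
  have h1 : tr v w = 3 * (2 * (v 0 * w 0) + v 1 * w 1 + v 2 * w 2) - (v 1 + v 2) * (w 1 + w 2) := by
    unfold tr
    ring
  have h2 : tr v w % 3 = (-((v 1 + v 2) * (w 1 + w 2))) % 3 := by
    rw [h1]
    omega
  have h4 : (-((v 1 + v 2) * (w 1 + w 2))) % 3 = (-((v 1 + v 2) % 3 * ((w 1 + w 2) % 3))) % 3 :=
    ((Int.mod_modEq _ _).symm.mul (Int.mod_modEq _ _).symm).neg
  rw [h2, h4]
  unfold ep
  rcases a with a | a <;> rcases b with b | b <;> rw [a, b] <;> norm_num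

/-- the six classes modulo four -/
lemma mod4_cases {N : ℤ} (hN : N % 4 = 1) {v : V3} (hv : nm v = N) :
    (v 1 % 4 = 1 ∧ v 2 % 4 = 0) ∨ (v 1 % 4 = 3 ∧ v 2 % 4 = 0) ∨ (v 1 % 4 = 0 ∧ v 2 % 4 = 1) ∨
    (v 1 % 4 = 0 ∧ v 2 % 4 = 3) ∨ (v 1 % 4 = 1 ∧ v 2 % 4 = 1) ∨ (v 1 % 4 = 3 ∧ v 2 % 4 = 3) := by
  have key : ∀ a b c : ZMod 4, 3 * a ^ 2 + b ^ 2 - b * c + c ^ 2 = 1 →
      (b = 1 ∧ c = 0) ∨ (b = 3 ∧ c = 0) ∨ (b = 0 ∧ c = 1) ∨ (b = 0 ∧ c = 3) ∨ (b = 1 ∧ c = 1) ∨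
      (b = 3 ∧ c = 3) := by decide
  have h1 : 3 * (v 0 : ZMod 4) ^ 2 + (v 1 : ZMod 4) ^ 2 - (v 1 : ZMod 4) * (v 2 : ZMod 4) +
      (v 2 : ZMod 4) ^ 2 = 1 := by
    have h2 : ((nm v : ℤ) : ZMod 4) = ((1 : ℤ) : ZMod 4) := by
      rw [hv]
      exact (ZMod.intCast_eq_intCast_iff' N 1 4).2 (by push_cast; omega)
    unfold nm at h2
    push_cast at h2
    exact h2
  have c : ∀ (x : ℤ) (k : ℤ), 0 ≤ k → k < 4 → ((x : ZMod 4) = (k : ZMod 4)) → x % 4 = k := by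
    intro x k h0 h4 h
    have := (ZMod.intCast_eq_intCast_iff' x k 4).1 h
    push_cast at this
    omega
  rcases key _ _ _ h1 with ⟨a, b⟩ | ⟨a, b⟩ | ⟨a, b⟩ | ⟨a, b⟩ | ⟨a, b⟩ | ⟨a, b⟩
  · exact Or.inl ⟨c _ 1 (by norm_num) (by norm_num) (by rw [a]; norm_num),
      c _ 0 (by norm_num) (by norm_num) (by rw [b]; norm_num)⟩
  · exact Or.inr (Or.inl ⟨c _ 3 (by norm_num) (by norm_num) (by rw [a]; norm_num),
      c _ 0 (by norm_num) (by norm_num) (by rw [b]; norm_num)⟩)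
  · exact Or.inr (Or.inr (Or.inl ⟨c _ 0 (by norm_num) (by norm_num) (by rw [a]; norm_num),
      c _ 1 (by norm_num) (by norm_num) (by rw [b]; norm_num)⟩))
  · exact Or.inr (Or.inr (Or.inr (Or.inl ⟨c _ 0 (by norm_num) (by norm_num) (by rw [a]; norm_num),
      c _ 3 (by norm_num) (by norm_num) (by rw [b]; norm_num)⟩)))
  · exact Or.inr (Or.inr (Or.inr (Or.inr (Or.inl ⟨c _ 1 (by norm_num) (by norm_num)
      (by rw [a]; norm_num), c _ 1 (by norm_num) (by norm_num) (by rw [b]; norm_num)⟩))))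
  · exact Or.inr (Or.inr (Or.inr (Or.inr (Or.inr ⟨c _ 3 (by norm_num) (by norm_num)
      (by rw [a]; norm_num), c _ 3 (by norm_num) (by norm_num) (by rw [b]; norm_num)⟩))))

lemma tr_mod2 {N1 N2 : ℤ} (hN1 : N1 % 4 = 1) (hN2 : N2 % 4 = 1) {v w : V3} (hv : nm v = N1)
    (hw : nm w = N2) : tr v w % 2 = 1 ↔ ty v ≠ ty w := by
  have a := mod4_cases hN1 hv
  have b := mod4_cases hN2 hw
  have h1 : tr v w = 2 * (3 * (v 0 * w 0) + v 1 * w 1 + v 2 * w 2 - v 1 * w 2 - v 2 * w 1) +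
      (v 1 * w 2 + v 2 * w 1) := by
    unfold tr
    ring
  have h2 : tr v w % 2 = (v 1 * w 2 + v 2 * w 1) % 2 := by
    rw [h1]
    omega
  have h3 : (v 1 * w 2 + v 2 * w 1) % 2 = ((v 1 % 2) * (w 2 % 2) + (v 2 % 2) * (w 1 % 2)) % 2 := by
    rw [Int.add_emod, Int.mul_emod, Int.mul_emod (v 2), ← Int.add_emod]
  rw [h2, h3]
  unfold ty
  rcases a with ⟨a1, a2⟩ | ⟨a1, a2⟩ | ⟨a1, a2⟩ | ⟨a1, a2⟩ | ⟨a1, a2⟩ | ⟨a1, a2⟩ <;>
  rcases b with ⟨b1, b2⟩ | ⟨b1, b2⟩ | ⟨b1, b2⟩ | ⟨b1, b2⟩ | ⟨b1, b2⟩ | ⟨b1, b2⟩ <;>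
  · rw [show v 1 % 2 = (v 1 % 4) % 2 by omega, show v 2 % 2 = (v 2 % 4) % 2 by omega,
      show w 1 % 2 = (w 1 % 4) % 2 by omega, show w 2 % 2 = (w 2 % 4) % 2 by omega, a1, a2, b1, b2]
    decide

/-! ### the product of the sums for a given line -/

lemma sg_prod (D1 D2 : ℕ) (β1 β2 : ZMod 5) (n : Fin 3 → ZMod 5) (R : Fin 3 → Fin 3 → Prop)
    [∀ i j, Decidable (R i j)] :
    ∑ q ∈ vec D1 ×ˢ vec D2, (if (ep q.1 ≠ ep q.2 ∧ R (ty q.1) (ty q.2)) ∧ Ln n β1 q.1 ∧ Ln n β2 q.2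
      then chv q.1 * chv q.2 else 0) =
      ∑ i : Fin 3, ∑ j : Fin 3, if R i j then
        (Tg D1 β1 n i 1 * Tg D2 β2 n j (-1) + Tg D1 β1 n i (-1) * Tg D2 β2 n j 1) else 0 := by
  have h1 : ∀ i j : Fin 3, (if R i j then
        (Tg D1 β1 n i 1 * Tg D2 β2 n j (-1) + Tg D1 β1 n i (-1) * Tg D2 β2 n j 1) else 0) =
      ∑ q ∈ vec D1 ×ˢ vec D2, (if R i j then ((if Ln n β1 q.1 ∧ ty q.1 = i ∧ ep q.1 = 1 then chv q.1 else 0) *
        (if Ln n β2 q.2 ∧ ty q.2 = j ∧ ep q.2 = -1 then chv q.2 else 0) +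
        (if Ln n β1 q.1 ∧ ty q.1 = i ∧ ep q.1 = -1 then chv q.1 else 0) *
        (if Ln n β2 q.2 ∧ ty q.2 = j ∧ ep q.2 = 1 then chv q.2 else 0)) else 0) := by
    intro i j
    by_cases hR : R i j
    · simp only [if_pos hR]
      unfold Tg
      rw [Finset.sum_filter, Finset.sum_filter, Finset.sum_filter, Finset.sum_filter,
        Finset.sum_mul_sum, Finset.sum_mul_sum, ← Finset.sum_product', ← Finset.sum_product',
        ← Finset.sum_add_distrib]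
    · simp only [if_neg hR, Finset.sum_const_zero]
  rw [Finset.sum_congr rfl fun i _ => Finset.sum_congr rfl fun j _ => h1 i j]
  rw [Finset.sum_congr rfl fun i _ => Finset.sum_comm, Finset.sum_comm]
  refine Finset.sum_congr rfl fun q _ => ?_
  rw [Finset.sum_eq_single (ty q.1), Finset.sum_eq_single (ty q.2)]
  · by_cases hR : R (ty q.1) (ty q.2)
    · by_cases a : Ln n β1 q.1
      · by_cases b : Ln n β2 q.2
        · rcases ep_cases q.1 with h1 | h1 <;> rcases ep_cases q.2 with h2 | h2 <;>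
            rw [h1, h2] <;> simp [a, b, hR]
        · simp [b]
      · simp [a]
    · simp [hR]
  · intro j _ hj
    have hj' : ¬ ty q.2 = j := fun h => hj h.symm
    simp [hj']
  · intro h
    exact absurd (Finset.mem_univ _) h
  · intro i _ hi
    refine Finset.sum_eq_zero fun j _ => ?_
    have hi' : ¬ ty q.1 = i := fun h => hi h.symm
    simp [hi']
  · intro h
    exact absurd (Finset.mem_univ _) h

lemma tg_zero {N : ℕ} {β : ZMod 5} (hβ : β ≠ 0) {n : Fin 3 → ZMod 5}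
    (hn : 3 * n 0 ^ 2 + n 1 ^ 2 - n 1 * n 2 + n 2 ^ 2 ≠ 0) (i : Fin 3) (ε : ℤ) :
    Tg N β n i ε = 0 := by
  unfold Tg
  rw [Finset.sum_filter]
  refine Finset.sum_eq_zero fun v _ => ?_
  rw [if_neg]
  rintro ⟨h, _⟩
  exact hn (iso_of_ln hβ h)

lemma sgl_cases (n : Fin 3 → ZMod 5) : sgl n = 1 ∨ sgl n = -1 := by
  unfold sgl
  split_ifs
  · exact Or.inl rfl
  · exact Or.inr rfl

/-- the bound for the inner product -/
lemma tr_bound {N1 N2 : ℤ} {v w : V3} (hv : nm v = N1) (hw : nm w = N2) :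
    tr v w ^ 2 ≤ 4 * (N1 * N2) := by
  have h : 4 * (nm v * nm w) - tr v w ^ 2 =
      3 * (2 * (v 0 * w 1 - v 1 * w 0) - (v 0 * w 2 - v 2 * w 0)) ^ 2 +
      9 * (v 0 * w 2 - v 2 * w 0) ^ 2 + 3 * (v 1 * w 2 - v 2 * w 1) ^ 2 := by
    unfold nm tr
    ring
  rw [← hv, ← hw]
  nlinarith [sq_nonneg (2 * (v 0 * w 1 - v 1 * w 0) - (v 0 * w 2 - v 2 * w 0)),
    sq_nonneg (v 0 * w 2 - v 2 * w 0), sq_nonneg (v 1 * w 2 - v 2 * w 1)]

lemma card24 : (Finset.univ.filter fun n : Fin 3 → ZMod 5 => n ≠ 0 ∧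
    3 * n 0 ^ 2 + n 1 ^ 2 - n 1 * n 2 + n 2 ^ 2 = 0).card = 24 := by
  decide +kernel

lemma rhs_eq {D1 D2 : ℕ} {β1 β2 : ZMod 5} (hD1 : D1 % 12 = 1) (hD2 : D2 % 12 = 1)
    (hβ : β1 ≠ 0) (hv5 : ((D1 : ℤ) : ZMod 5) ≠ 0) :
    4 * ∑ b ∈ (rg (D1 * D2)).filter (fun b => Ad (D1 * D2) b), DD D1 D2 β1 β2 b =
      ∑ n : Fin 3 → ZMod 5, if n ≠ 0 ∧ 3 * n 0 ^ 2 + n 1 ^ 2 - n 1 * n 2 + n 2 ^ 2 = 0 then
        (∑ i : Fin 3, ∑ j : Fin 3, if (i ≠ j ∨ (D1 * D2) % 8 = 1) then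
          (Tg D1 β1 n i 1 * Tg D2 β2 n j (-1) + Tg D1 β1 n i (-1) * Tg D2 β2 n j 1) else 0)
        else 0 := by
  have e1 : ∑ b ∈ (rg (D1 * D2)).filter (fun b => Ad (D1 * D2) b), DD D1 D2 β1 β2 b =
      ∑ q ∈ vec D1 ×ˢ vec D2, if (ep q.1 ≠ ep q.2 ∧ (ty q.1 ≠ ty q.2 ∨ (D1 * D2) % 8 = 1)) ∧
        (∃ n : Fin 3 → ZMod 5, n ≠ 0 ∧ Ln n β1 q.1 ∧ Ln n β2 q.2) then
        chv q.1 * chv q.2 else 0 := by
    unfold DD
    simp only [Finset.sum_filter (s := vec (D1 : ℤ) ×ˢ vec (D2 : ℤ))]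
    rw [Finset.sum_comm]
    refine Finset.sum_congr rfl fun q hq => ?_
    rw [Finset.mem_product] at hq
    have hq1 : nm q.1 = D1 := (Finset.mem_filter.1 hq.1).2
    have hq2 : nm q.2 = D2 := (Finset.mem_filter.1 hq.2).2
    have hmem : tr q.1 q.2 ∈ rg (D1 * D2) := by
      have hcs := tr_bound hq1 hq2
      have hB1 : (1 : ℤ) ≤ (D1 : ℤ) * D2 := by
        have a1 : (1 : ℤ) ≤ (D1 : ℤ) := by omega
        have a2 : (1 : ℤ) ≤ (D2 : ℤ) := by omega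
        nlinarith
      unfold rg
      rw [Finset.mem_Ioo]
      push_cast
      refine abs_lt.1 (abs_lt_of_sq_lt_sq ?_ (by omega))
      nlinarith
    have hfil : (tr q.1 q.2 ∈ (rg (D1 * D2)).filter fun b => Ad (D1 * D2) b) ↔
        (ep q.1 ≠ ep q.2 ∧ (ty q.1 ≠ ty q.2 ∨ (D1 * D2) % 8 = 1)) := by
      rw [Finset.mem_filter]
      unfold Ad
      rw [tr_mod3 (by omega) (by omega) hq1 hq2, tr_mod2 (by omega) (by omega) hq1 hq2]
      exact ⟨fun h => h.2, fun h => ⟨hmem, h⟩⟩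
    by_cases hc : ∃ n : Fin 3 → ZMod 5, n ≠ 0 ∧ Ln n β1 q.1 ∧ Ln n β2 q.2
    · simp only [hc, and_true]
      rw [Finset.sum_ite_eq]
      exact if_congr hfil rfl rfl
    · simp only [hc, and_false, if_false, Finset.sum_const_zero]
  rw [e1, Finset.mul_sum]
  have e2 : ∀ q ∈ vec D1 ×ˢ vec D2, (4 * if (ep q.1 ≠ ep q.2 ∧ (ty q.1 ≠ ty q.2 ∨ (D1 * D2) % 8 = 1)) ∧
        (∃ n : Fin 3 → ZMod 5, n ≠ 0 ∧ Ln n β1 q.1 ∧ Ln n β2 q.2)
      then chv q.1 * chv q.2 else 0) = ∑ n : Fin 3 → ZMod 5, if n ≠ 0 then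
        (if (ep q.1 ≠ ep q.2 ∧ (ty q.1 ≠ ty q.2 ∨ (D1 * D2) % 8 = 1)) ∧ Ln n β1 q.1 ∧ Ln n β2 q.2
          then chv q.1 * chv q.2 else 0) else 0 := by
    intro q hq
    rw [Finset.mem_product] at hq
    have hq1 : nm q.1 = D1 := (Finset.mem_filter.1 hq.1).2
    by_cases hep : (ep q.1 ≠ ep q.2 ∧ (ty q.1 ≠ ty q.2 ∨ (D1 * D2) % 8 = 1))
    · have h3 := four β1 β2 q.1 q.2 hβ (by rw [hq1]; exact hv5) (chv q.1 * chv q.2)
      have h4 : ∀ n : Fin 3 → ZMod 5, (if n ≠ 0 then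
        (if (ep q.1 ≠ ep q.2 ∧ (ty q.1 ≠ ty q.2 ∨ (D1 * D2) % 8 = 1)) ∧ Ln n β1 q.1 ∧ Ln n β2 q.2
          then chv q.1 * chv q.2 else 0) else 0) =
        if n ≠ 0 ∧ Ln n β1 q.1 ∧ Ln n β2 q.2 then chv q.1 * chv q.2 else 0 := by
        intro n
        by_cases hn : n ≠ 0
        · rw [if_pos hn]
          refine if_congr ?_ rfl rfl
          exact ⟨fun h => ⟨hn, h.2⟩, fun h => ⟨hep, h.2⟩⟩
        · rw [if_neg hn, if_neg (fun h => hn h.1)]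
      rw [Finset.sum_congr rfl fun n _ => h4 n, h3]
      by_cases hc : ∃ n : Fin 3 → ZMod 5, n ≠ 0 ∧ Ln n β1 q.1 ∧ Ln n β2 q.2
      · rw [if_pos ⟨hep, hc⟩, if_pos hc]
      · rw [if_neg (fun h => hc h.2), if_neg hc, mul_zero]
    · rw [if_neg (fun h => hep h.1), mul_zero]
      symm
      refine Finset.sum_eq_zero fun n _ => ?_
      by_cases hn : n ≠ 0
      · rw [if_pos hn, if_neg (fun h => hep h.1)]
      · rw [if_neg hn]
  rw [Finset.sum_congr rfl e2, Finset.sum_comm]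
  refine Finset.sum_congr rfl fun n _ => ?_
  by_cases hn : n ≠ 0
  · simp only [if_pos hn]
    rw [sg_prod D1 D2 β1 β2 n (fun i j => i ≠ j ∨ (D1 * D2) % 8 = 1)]
    by_cases hi : 3 * n 0 ^ 2 + n 1 ^ 2 - n 1 * n 2 + n 2 ^ 2 = 0
    · rw [if_pos ⟨hn, hi⟩]
    · rw [if_neg (fun h => hi h.2)]
      refine Finset.sum_eq_zero fun i _ => Finset.sum_eq_zero fun j _ => ?_
      rw [tg_zero hβ hi, tg_zero hβ hi]
      simp
  · rw [if_neg (fun h => hn h.1)]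
    simp only [if_neg hn, Finset.sum_const_zero]

/-- the contribution of one line -/
lemma line_val (h : S_SG) {D1 D2 : ℕ} (s1 : Squarefree D1) (f1 : Fm D1) (s2 : Squarefree D2)
    (f2 : Fm D2) (hne : D1 ≠ 1 ∨ D2 ≠ 1) {β1 β2 : ZMod 5} (hb1 : β1 ^ 2 = -(D1 : ZMod 5))
    (hb2 : β2 ^ 2 = -(D2 : ZMod 5)) (n : Fin 3 → ZMod 5) (hn : Iso n) :
    2 * (∑ i : Fin 3, ∑ j : Fin 3, if (i ≠ j ∨ (D1 * D2) % 8 = 1) then
          (Tg D1 β1 n i 1 * Tg D2 β2 n j (-1) + Tg D1 β1 n i (-1) * Tg D2 β2 n j 1) else 0) =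
      pii D1 β1 * pii D2 β2 := by
  obtain ⟨a1, a2, a3, a4⟩ := h D1 s1 f1 β1 hb1 n hn
  obtain ⟨b1, b2, b3, b4⟩ := h D2 s2 f2 β2 hb2 n hn
  have hs : sgl n * sgl n = 1 := by
    rcases sgl_cases n with s | s <;> rw [s] <;> norm_num
  -- the full sum
  have hfull : 2 * (∑ i : Fin 3, ∑ j : Fin 3,
      (Tg D1 β1 n i 1 * Tg D2 β2 n j (-1) + Tg D1 β1 n i (-1) * Tg D2 β2 n j 1)) =
      pii D1 β1 * pii D2 β2 := by
    have e : ∑ i : Fin 3, ∑ j : Fin 3,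
      (Tg D1 β1 n i 1 * Tg D2 β2 n j (-1) + Tg D1 β1 n i (-1) * Tg D2 β2 n j 1) =
      (∑ i : Fin 3, Tg D1 β1 n i 1) * (∑ j : Fin 3, Tg D2 β2 n j (-1)) +
      (∑ i : Fin 3, Tg D1 β1 n i (-1)) * (∑ j : Fin 3, Tg D2 β2 n j 1) := by
      rw [Finset.sum_mul_sum, Finset.sum_mul_sum, ← Finset.sum_add_distrib]
      refine Finset.sum_congr rfl fun i _ => ?_
      rw [← Finset.sum_add_distrib]
    rw [e]
    rw [Finset.sum_add_distrib] at a1 b1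
    rcases hne with hne | hne
    · have c := a4 hne
      rw [← c] at a1 ⊢
      linear_combination (sgl n * pii D2 β2) * a1 + (2 * ∑ i : Fin 3, Tg D1 β1 n i 1) * b1 +
        pii D1 β1 * pii D2 β2 * hs
    · have c := b4 hne
      rw [← c] at b1 ⊢
      linear_combination (sgl n * pii D1 β1) * b1 + (2 * ∑ i : Fin 3, Tg D2 β2 n i 1) * a1 +
        pii D1 β1 * pii D2 β2 * hs
  by_cases h8 : (D1 * D2) % 8 = 1
  · simp only [h8, or_true, if_true]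
    exact hfull
  · simp only [h8, or_false]
    -- the terms of equal type cancel
    have m1 : D1 % 8 = 1 ∨ D1 % 8 = 5 := by
      rcases f1 with f | f <;> omega
    have m2 : D2 % 8 = 1 ∨ D2 % 8 = 5 := by
      rcases f2 with f | f <;> omega
    have hdiag : ∀ i : Fin 3, Tg D1 β1 n i 1 * Tg D2 β2 n i (-1) +
        Tg D1 β1 n i (-1) * Tg D2 β2 n i 1 = 0 := by
      intro i
      rcases m1 with m1 | m1 <;> rcases m2 with m2 | m2
      · exact absurd (by rw [Nat.mul_mod, m1, m2]) h8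
      · obtain ⟨c1, c2, c3⟩ := b3 m2
        have d := a2 m1 i
        rw [← c1 i]
        by_cases hi : i = tl n
        · rw [hi, c2]
          ring
        · have d1 := d hi
          linear_combination (Tg D2 β2 n i 1) * d1
      · obtain ⟨c1, c2, c3⟩ := a3 m1
        have d := b2 m2 i
        rw [← c1 i]
        by_cases hi : i = tl n
        · rw [hi, c2]
          ring
        · have d1 := d hi
          linear_combination (Tg D1 β1 n i 1) * d1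
      · exact absurd (by rw [Nat.mul_mod, m1, m2]) h8
    rw [← hfull]
    congr 1
    refine Finset.sum_congr rfl fun i _ => Finset.sum_congr rfl fun j _ => ?_
    by_cases hij : i ≠ j
    · rw [if_pos hij]
    · rw [if_neg hij]
      have hij' : i = j := by simpa using hij
      rw [← hij', hdiag i]

lemma cast_ne {D : ℕ} (hD : Fm D) : (D : ZMod 5) ≠ 0 := by
  intro h
  rw [ZMod.natCast_eq_zero_iff] at h
  rcases hD with f | f <;> omega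

lemma bt_ne {D : ℕ} {β : ZMod 5} (hD : Fm D) (hβ : β ^ 2 = -(D : ZMod 5)) : β ≠ 0 := by
  intro h
  rw [h] at hβ
  apply cast_ne hD
  have : -(D : ZMod 5) = 0 := by rw [← hβ]; ring
  exact neg_eq_zero.1 this

end Bil1

/-- B8 (BIL1) -/
theorem t_BIL1 (h : S_SG) : S_BIL1 := by
  intro D1 D2 s1 f1 s2 f2 hne β1 β2 hb1 hb2
  have m1 : D1 % 12 = 1 := by rcases f1 with f | f <;> omega
  have m2 : D2 % 12 = 1 := by rcases f2 with f | f <;> omega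
  have k := Bil1.rhs_eq (D1 := D1) (D2 := D2) (β1 := β1) (β2 := β2) m1 m2 (Bil1.bt_ne f1 hb1)
    (by have := Bil1.cast_ne f1; push_cast; exact this)
  have k2 : 2 * (∑ n : Fin 3 → ZMod 5, if n ≠ 0 ∧ 3 * n 0 ^ 2 + n 1 ^ 2 - n 1 * n 2 + n 2 ^ 2 = 0 then
        (∑ i : Fin 3, ∑ j : Fin 3, if (i ≠ j ∨ (D1 * D2) % 8 = 1) then
          (Tg D1 β1 n i 1 * Tg D2 β2 n j (-1) + Tg D1 β1 n i (-1) * Tg D2 β2 n j 1) else 0)
        else 0) = 24 * (pii D1 β1 * pii D2 β2) := by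
    rw [Finset.mul_sum]
    have k3 : ∀ n : Fin 3 → ZMod 5, (2 * if n ≠ 0 ∧ 3 * n 0 ^ 2 + n 1 ^ 2 - n 1 * n 2 + n 2 ^ 2 = 0 then
        (∑ i : Fin 3, ∑ j : Fin 3, if (i ≠ j ∨ (D1 * D2) % 8 = 1) then
          (Tg D1 β1 n i 1 * Tg D2 β2 n j (-1) + Tg D1 β1 n i (-1) * Tg D2 β2 n j 1) else 0)
        else 0) =
        if n ≠ 0 ∧ 3 * n 0 ^ 2 + n 1 ^ 2 - n 1 * n 2 + n 2 ^ 2 = 0 then pii D1 β1 * pii D2 β2
        else 0 := by
      intro n
      by_cases hn : n ≠ 0 ∧ 3 * n 0 ^ 2 + n 1 ^ 2 - n 1 * n 2 + n 2 ^ 2 = 0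
      · rw [if_pos hn, if_pos hn, Bil1.line_val h s1 f1 s2 f2 hne hb1 hb2 n hn]
      · rw [if_neg hn, if_neg hn, mul_zero]
    rw [Finset.sum_congr rfl fun n _ => k3 n, ← Finset.sum_filter, Finset.sum_const,
      Bil1.card24, nsmul_eq_mul]
    norm_num
  linarith

end Pool.Agent.H757_X15.BB
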