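import Pool.Agent.H757_X15.StmB

/-!
# Project X15-B, part B7 (BIL2A): weights and common lines

Part 1: the weight of a pair of vectors is a function of the inner product.
Part 2: common isotropic lines modulo five.
-/

set_option autoImplicit false
set_option linter.unusedVariables false
set_option linter.unusedSimpArgs false

namespace Pool.Agent.H757_X15.BB.B7

open Finset
open Pool.Agent.Z700 (V3)
open Pool.Agent.H757_X15.DD (Fm)

/-! ### the weights -/

theorem mod4_cases : ∀ p q s : ZMod 4, 3 * p ^ 2 + q ^ 2 - q * s + s ^ 2 = 1 →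
    (p = 0 ∨ p = 2) ∧ ((s = 0 ∧ (q = 1 ∨ q = 3)) ∨ (q = 0 ∧ (s = 1 ∨ s = 3)) ∨
      (q = s ∧ (q = 1 ∨ q = 3))) := by decide

/-- the three types of vectors -/
def Ty (i : Fin 3) (v : V3) (x y u : ℤ) : Prop :=
  x % 2 = 1 ∧ v 0 = 2 * y ∧
    ((i = 0 ∧ v 1 = x + 2 * u ∧ v 2 = 4 * u) ∨ (i = 1 ∧ v 2 = x + 2 * u ∧ v 1 = 4 * u) ∨
      (i = 2 ∧ v 1 = x + 2 * u ∧ v 2 = x - 2 * u))

theorem exists_ty {v : V3} (h : nm v % 4 = 1) : ∃ i x y u, Ty i v x y u := by
  have h1 : ((nm v : ℤ) : ZMod 4) = ((1 : ℤ) : ZMod 4) := by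
    rw [ZMod.intCast_eq_intCast_iff']
    exact h
  unfold nm at h1
  push_cast at h1
  obtain ⟨hp, hz⟩ := mod4_cases _ _ _ h1
  have cst : ∀ (a c : ℤ), (a : ZMod 4) = ((c : ℤ) : ZMod 4) → a % 4 = c % 4 := by
    intro a c hac
    exact (ZMod.intCast_eq_intCast_iff' a c 4).1 hac
  have hp2 : v 0 % 2 = 0 := by
    rcases hp with hp | hp
    · have := cst (v 0) 0 (by rw [hp]; rfl)
      omega
    · have := cst (v 0) 2 (by rw [hp]; rfl)
      omega
  rcases hz with ⟨hs, hq⟩ | ⟨hs, hq⟩ | ⟨hs, hq⟩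
  · have k1 := cst (v 2) 0 (by rw [hs]; rfl)
    have k2 : v 1 % 2 = 1 := by
      rcases hq with hq | hq
      · have := cst (v 1) 1 (by rw [hq]; rfl)
        omega
      · have := cst (v 1) 3 (by rw [hq]; rfl)
        omega
    exact ⟨0, v 1 - 2 * (v 2 / 4), v 0 / 2, v 2 / 4, by omega, by omega,
      Or.inl ⟨rfl, by omega, by omega⟩⟩
  · have k1 := cst (v 1) 0 (by rw [hs]; rfl)
    have k2 : v 2 % 2 = 1 := by
      rcases hq with hq | hq
      · have := cst (v 2) 1 (by rw [hq]; rfl)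
        omega
      · have := cst (v 2) 3 (by rw [hq]; rfl)
        omega
    exact ⟨1, v 2 - 2 * (v 1 / 4), v 0 / 2, v 1 / 4, by omega, by omega,
      Or.inr (Or.inl ⟨rfl, by omega, by omega⟩)⟩
  · have k1 : v 1 % 4 = v 2 % 4 := cst (v 1) (v 2) hs
    have k2 : v 1 % 2 = 1 := by
      rcases hq with hq | hq
      · have := cst (v 1) 1 (by rw [hq]; rfl)
        omega
      · have := cst (v 1) 3 (by rw [hq]; rfl)
        omega
    exact ⟨2, v 1 - 2 * ((v 1 - v 2) / 4), v 0 / 2, (v 1 - v 2) / 4, by omega, by omega,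
      Or.inr (Or.inr ⟨rfl, by omega, by omega⟩)⟩

theorem nm_ty {i : Fin 3} {v : V3} {x y u : ℤ} (h : Ty i v x y u) :
    nm v = x ^ 2 + 12 * y ^ 2 + 12 * u ^ 2 := by
  obtain ⟨hx, h0, h | h | h⟩ := h
  · unfold nm; rw [h0, h.2.1, h.2.2]; ring
  · unfold nm; rw [h0, h.2.1, h.2.2]; ring
  · unfold nm; rw [h0, h.2.1, h.2.2]; ring

theorem chv_ty {i : Fin 3} {v : V3} {x y u : ℤ} (h : Ty i v x y u) :
    chv v = (if i = 2 then -1 else 1) * chi4 (x + 2 * u) := by
  obtain ⟨hx, h0, h | h | h⟩ := h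
  · obtain ⟨rfl, h1, h2⟩ := h
    unfold chv
    rw [if_pos (by omega), h1]
    simp
  · obtain ⟨rfl, h1, h2⟩ := h
    unfold chv
    rw [if_neg (by omega), if_pos (by omega), h1]
    simp
  · obtain ⟨rfl, h1, h2⟩ := h
    unfold chv
    rw [if_neg (by omega), if_neg (by omega), h1]
    simp

theorem tr_same {i : Fin 3} {v w : V3} {x y u x' y' u' : ℤ} (h : Ty i v x y u)
    (h' : Ty i w x' y' u') : tr v w = 2 * (x * x' + 12 * (y * y') + 12 * (u * u')) := by
  obtain ⟨-, h0, h⟩ := h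
  obtain ⟨-, h0', h'⟩ := h'
  rcases h with ⟨rfl, h1, h2⟩ | ⟨rfl, h1, h2⟩ | ⟨rfl, h1, h2⟩
  · rcases h' with ⟨-, h1', h2'⟩ | ⟨hf, -⟩ | ⟨hf, -⟩
    · unfold tr; rw [h0, h1, h2, h0', h1', h2']; ring
    · exact absurd hf (by decide)
    · exact absurd hf (by decide)
  · rcases h' with ⟨hf, -⟩ | ⟨-, h1', h2'⟩ | ⟨hf, -⟩
    · exact absurd hf (by decide)
    · unfold tr; rw [h0, h1, h2, h0', h1', h2']; ring
    · exact absurd hf (by decide)
  · rcases h' with ⟨hf, -⟩ | ⟨hf, -⟩ | ⟨-, h1', h2'⟩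
    · exact absurd hf (by decide)
    · exact absurd hf (by decide)
    · unfold tr; rw [h0, h1, h2, h0', h1', h2']; ring

theorem tr_diff {i j : Fin 3} {v w : V3} {x y u x' y' u' : ℤ} (hij : i ≠ j) (h : Ty i v x y u)
    (h' : Ty j w x' y' u') : ∃ k : ℤ, tr v w =
      -((if i = 2 then -1 else 1) * (if j = 2 then -1 else 1)) * ((x + 2 * u) * (x' + 2 * u')) +
        4 * k := by
  obtain ⟨-, h0, h⟩ := h
  obtain ⟨-, h0', h'⟩ := h'
  rcases h with ⟨rfl, h1, h2⟩ | ⟨rfl, h1, h2⟩ | ⟨rfl, h1, h2⟩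
  · rcases h' with ⟨rfl, -⟩ | ⟨rfl, h1', h2'⟩ | ⟨rfl, h1', h2'⟩
    · exact absurd rfl hij
    · refine ⟨6 * (y * y') + 2 * (u' * (x + 2 * u)) - 4 * (u * u') + 2 * (u * (x' + 2 * u')), ?_⟩
      unfold tr; rw [h0, h1, h2, h0', h1', h2']; simp; ring
    · refine ⟨6 * (y * y') + (x + 2 * u) * u' - u * (x' + 2 * u') + 2 * (u * (x' - 2 * u')), ?_⟩
      unfold tr; rw [h0, h1, h2, h0', h1', h2']; simp; ring
  · rcases h' with ⟨rfl, h1', h2'⟩ | ⟨rfl, -⟩ | ⟨rfl, h1', h2'⟩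
    · refine ⟨6 * (y * y') + 2 * (u * (x' + 2 * u')) - 4 * (u * u') + 2 * (u' * (x + 2 * u)), ?_⟩
      unfold tr; rw [h0, h1, h2, h0', h1', h2']; simp; ring
    · exact absurd rfl hij
    · refine ⟨6 * (y * y') + 2 * (u * (x' + 2 * u')) - u * (x' - 2 * u') - 2 * ((x + 2 * u) * u'), ?_⟩
      unfold tr; rw [h0, h1, h2, h0', h1', h2']; simp; ring
  · rcases h' with ⟨rfl, h1', h2'⟩ | ⟨rfl, h1', h2'⟩ | ⟨rfl, -⟩
    · refine ⟨6 * (y * y') + (x' + 2 * u') * u - u' * (x + 2 * u) + 2 * (u' * (x - 2 * u)), ?_⟩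
      unfold tr; rw [h0, h1, h2, h0', h1', h2']; simp; ring
    · refine ⟨6 * (y * y') + 2 * (u' * (x + 2 * u)) - u' * (x - 2 * u) - 2 * ((x' + 2 * u') * u), ?_⟩
      unfold tr; rw [h0, h1, h2, h0', h1', h2']; simp; ring
    · exact absurd rfl hij

theorem chi4_pm {m : ℤ} (hm : m % 2 = 1) : ∃ s k : ℤ, (s = 1 ∨ s = -1) ∧ m = s + 4 * k ∧
    chi4 m = s := by
  rcases (by omega : m % 4 = 1 ∨ m % 4 = 3) with h | h
  · exact ⟨1, m / 4, Or.inl rfl, by omega, by unfold chi4; rw [if_pos h]⟩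
  · exact ⟨-1, m / 4 + 1, Or.inr rfl, by omega, by
      unfold chi4; rw [if_neg (by omega), if_pos h]⟩

theorem chi4_of {m s k : ℤ} (hs : s = 1 ∨ s = -1) (h : m = s + 4 * k) : chi4 m = s := by
  unfold chi4
  rcases hs with rfl | rfl
  · rw [if_pos (by omega)]
  · rw [if_neg (by omega), if_pos (by omega)]

/-- the weight of vectors of different types -/
theorem weight_diff {i j : Fin 3} {v w : V3} {x y u x' y' u' : ℤ} (hij : i ≠ j) (h : Ty i v x y u)
    (h' : Ty j w x' y' u') (D : ℕ) : tr v w % 2 = 1 ∧ chv v * chv w = wt D (tr v w) := by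
  obtain ⟨k, hk⟩ := tr_diff hij h h'
  rw [chv_ty h, chv_ty h']
  have hx := h.1
  have hx' := h'.1
  obtain ⟨s, a, hs, ha, hc⟩ := chi4_pm (m := x + 2 * u) (by omega)
  obtain ⟨s', a', hs', ha', hc'⟩ := chi4_pm (m := x' + 2 * u') (by omega)
  rw [hc, hc', hk, ha, ha']
  obtain ⟨e, he, hee⟩ : ∃ e : ℤ, (if i = 2 then (-1 : ℤ) else 1) = e ∧ (e = 1 ∨ e = -1) := by
    split_ifs
    · exact ⟨-1, rfl, Or.inr rfl⟩
    · exact ⟨1, rfl, Or.inl rfl⟩
  obtain ⟨e', he', hee'⟩ : ∃ e : ℤ, (if j = 2 then (-1 : ℤ) else 1) = e ∧ (e = 1 ∨ e = -1) := by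
    split_ifs
    · exact ⟨-1, rfl, Or.inr rfl⟩
    · exact ⟨1, rfl, Or.inl rfl⟩
  rw [he, he']
  set r : ℤ := -(e * e') * (s * s') with hr
  have hrr : r = 1 ∨ r = -1 := by
    rw [hr]
    rcases hee with rfl | rfl <;> rcases hee' with rfl | rfl <;> rcases hs with rfl | rfl <;>
      rcases hs' with rfl | rfl <;> norm_num
  have hb : -(e * e') * ((s + 4 * a) * (s' + 4 * a')) + 4 * k =
      r + 4 * (-(e * e') * (a * s' + s * a' + 4 * (a * a')) + k) := by
    rw [hr]; ring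
  rw [hb]
  set m : ℤ := -(e * e') * (a * s' + s * a' + 4 * (a * a')) + k with hm
  have hodd : (r + 4 * m) % 2 = 1 := by
    rcases hrr with h | h <;> rw [h] <;> omega
  refine ⟨hodd, ?_⟩
  unfold wt
  rw [if_pos hodd, chi4_of hrr rfl, hr]
  ring

def fD (r y u : ℤ) : ℤ := r ^ 2 + 12 * y + 12 * u

theorem fin_check : ∀ r r' : Fin 8, ∀ y u y' u' : Fin 2,
    (r : ℕ) % 2 = 1 → (r' : ℕ) % 2 = 1 →
    (fD (r : ℕ) (y : ℕ) (u : ℕ) * fD (r' : ℕ) (y' : ℕ) (u' : ℕ)) % 8 = 1 →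
    chi4 ((r : ℕ) + 2 * (u : ℕ)) * chi4 ((r' : ℕ) + 2 * (u' : ℕ)) =
      (if (fD (r : ℕ) (y : ℕ) (u : ℕ) * fD (r' : ℕ) (y' : ℕ) (u' : ℕ)) % 16 = 1 then 1 else -1) *
      chim2 ((r : ℕ) * (r' : ℕ) + 12 * ((y : ℕ) * (y' : ℕ)) + 12 * ((u : ℕ) * (u' : ℕ))) := by
  unfold chi4 chim2 fD
  decide

theorem chi4_mod {a b : ℤ} (h : a % 4 = b % 4) : chi4 a = chi4 b := by
  unfold chi4
  rw [h]

theorem chim2_mod {a b : ℤ} (h : a % 8 = b % 8) : chim2 a = chim2 b := by
  unfold chim2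
  rw [h]

theorem mod16 (x y u : ℤ) : (x ^ 2 + 12 * y ^ 2 + 12 * u ^ 2) % 16 =
    fD (x % 8) (y % 2) (u % 2) % 16 := by
  obtain ⟨k, hk⟩ : ∃ k, x = 8 * k + x % 8 := ⟨x / 8, by omega⟩
  obtain ⟨j, hj⟩ : ∃ j, y = 2 * j + y % 2 := ⟨y / 2, by omega⟩
  obtain ⟨l, hl⟩ : ∃ l, u = 2 * l + u % 2 := ⟨u / 2, by omega⟩
  have hy : (y % 2) * (y % 2) = y % 2 := by
    rcases (by omega : y % 2 = 0 ∨ y % 2 = 1) with h | h <;> rw [h] <;> norm_num
  have hu : (u % 2) * (u % 2) = u % 2 := by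
    rcases (by omega : u % 2 = 0 ∨ u % 2 = 1) with h | h <;> rw [h] <;> norm_num
  unfold fD
  generalize x % 8 = r at *
  generalize y % 2 = y0 at *
  generalize u % 2 = u0 at *
  subst hk hj hl
  obtain ⟨A, hA⟩ : ∃ A, A = 4 * k * k + k * r := ⟨_, rfl⟩
  obtain ⟨B, hB⟩ : ∃ B, B = j * j + j * y0 := ⟨_, rfl⟩
  obtain ⟨C, hC⟩ : ∃ C, C = l * l + l * u0 := ⟨_, rfl⟩
  have : (8 * k + r) ^ 2 + 12 * (2 * j + y0) ^ 2 + 12 * (2 * l + u0) ^ 2 =
      (r ^ 2 + 12 * y0 + 12 * u0) + 16 * (A + 3 * B + 3 * C) := by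
    rw [hA, hB, hC]
    linear_combination 12 * hy + 12 * hu
  rw [this]
  omega

theorem mod8 (x y u x' y' u' : ℤ) : (x * x' + 12 * (y * y') + 12 * (u * u')) % 8 =
    ((x % 8) * (x' % 8) + 12 * ((y % 2) * (y' % 2)) + 12 * ((u % 2) * (u' % 2))) % 8 := by
  obtain ⟨k, hk⟩ : ∃ k, x = 8 * k + x % 8 := ⟨x / 8, by omega⟩
  obtain ⟨j, hj⟩ : ∃ j, y = 2 * j + y % 2 := ⟨y / 2, by omega⟩
  obtain ⟨l, hl⟩ : ∃ l, u = 2 * l + u % 2 := ⟨u / 2, by omega⟩
  obtain ⟨k', hk'⟩ : ∃ k, x' = 8 * k + x' % 8 := ⟨x' / 8, by omega⟩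
  obtain ⟨j', hj'⟩ : ∃ j, y' = 2 * j + y' % 2 := ⟨y' / 2, by omega⟩
  obtain ⟨l', hl'⟩ : ∃ l, u' = 2 * l + u' % 2 := ⟨u' / 2, by omega⟩
  generalize x % 8 = r at *
  generalize y % 2 = y0 at *
  generalize u % 2 = u0 at *
  generalize x' % 8 = r' at *
  generalize y' % 2 = y0' at *
  generalize u' % 2 = u0' at *
  subst hk hj hl hk' hj' hl'
  obtain ⟨A, hA⟩ : ∃ A, A = 8 * (k * k') + k * r' + k' * r := ⟨_, rfl⟩
  obtain ⟨B, hB⟩ : ∃ B, B = 2 * (j * j') + j * y0' + j' * y0 := ⟨_, rfl⟩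
  obtain ⟨C, hC⟩ : ∃ C, C = 2 * (l * l') + l * u0' + l' * u0 := ⟨_, rfl⟩
  have : (8 * k + r) * (8 * k' + r') + 12 * ((2 * j + y0) * (2 * j' + y0')) +
      12 * ((2 * l + u0) * (2 * l' + u0')) =
      (r * r' + 12 * (y0 * y0') + 12 * (u0 * u0')) + 8 * (A + 3 * B + 3 * C) := by
    rw [hA, hB, hC]
    ring
  rw [this]
  omega

theorem weight_same {i : Fin 3} {v w : V3} {x y u x' y' u' : ℤ} (h : Ty i v x y u)
    (h' : Ty i w x' y' u') {D1 D2 : ℕ} (hv : nm v = D1) (hw : nm w = D2)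
    (hD : (D1 * D2) % 8 = 1) : chv v * chv w = wt (D1 * D2) (tr v w) := by
  have hx := h.1
  have hx' := h'.1
  rw [chv_ty h, chv_ty h', tr_same h h']
  rw [nm_ty h] at hv
  rw [nm_ty h'] at hw
  have m1 := mod16 x y u
  have m2 := mod16 x' y' u'
  have m3 := mod8 x y u x' y' u'
  rw [hv] at m1
  rw [hw] at m2
  set S := x * x' + 12 * (y * y') + 12 * (u * u') with hS
  have hsq : ((if i = 2 then -1 else 1 : ℤ) * (if i = 2 then -1 else 1)) = 1 := by
    split_ifs <;> norm_num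
  have e1 : chi4 (x + 2 * u) = chi4 (x % 8 + 2 * (u % 2)) := chi4_mod (by omega)
  have e2 : chi4 (x' + 2 * u') = chi4 (x' % 8 + 2 * (u' % 2)) := chi4_mod (by omega)
  have e3 := chim2_mod m3
  -- the finite check
  obtain ⟨r, hr⟩ : ∃ r : Fin 8, ((r : ℕ) : ℤ) = x % 8 := ⟨⟨(x % 8).toNat, by omega⟩, by simp; omega⟩
  obtain ⟨r', hr'⟩ : ∃ r : Fin 8, ((r : ℕ) : ℤ) = x' % 8 :=
    ⟨⟨(x' % 8).toNat, by omega⟩, by simp; omega⟩
  obtain ⟨a, ha⟩ : ∃ r : Fin 2, ((r : ℕ) : ℤ) = y % 2 := ⟨⟨(y % 2).toNat, by omega⟩, by simp; omega⟩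
  obtain ⟨a', ha'⟩ : ∃ r : Fin 2, ((r : ℕ) : ℤ) = y' % 2 :=
    ⟨⟨(y' % 2).toNat, by omega⟩, by simp; omega⟩
  obtain ⟨c, hc⟩ : ∃ r : Fin 2, ((r : ℕ) : ℤ) = u % 2 := ⟨⟨(u % 2).toNat, by omega⟩, by simp; omega⟩
  obtain ⟨c', hc'⟩ : ∃ r : Fin 2, ((r : ℕ) : ℤ) = u' % 2 :=
    ⟨⟨(u' % 2).toNat, by omega⟩, by simp; omega⟩
  have key := fin_check r r' a c a' c' (by omega) (by omega)
  rw [hr, hr', ha, ha', hc, hc'] at key
  have hprod : ((D1 : ℤ) * D2) % 16 =
      (fD (x % 8) (y % 2) (u % 2) * fD (x' % 8) (y' % 2) (u' % 2)) % 16 := by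
    rw [Int.mul_emod, m1, m2, ← Int.mul_emod]
  have hD8 : ((D1 : ℤ) * D2) % 8 = 1 := by exact_mod_cast hD
  have h8 : (fD (x % 8) (y % 2) (u % 2) * fD (x' % 8) (y' % 2) (u' % 2)) % 8 = 1 := by
    generalize (fD (x % 8) (y % 2) (u % 2) * fD (x' % 8) (y' % 2) (u' % 2)) = F at *
    generalize (D1 : ℤ) * D2 = G at *
    omega
  have key2 := key h8
  rw [← hprod, ← e1, ← e2, ← e3] at key2
  have hSodd : S % 2 = 1 := by
    obtain ⟨k, hk⟩ : ∃ k, x = 2 * k + 1 := ⟨x / 2, by omega⟩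
    obtain ⟨k', hk'⟩ : ∃ k, x' = 2 * k + 1 := ⟨x' / 2, by omega⟩
    have : S = 2 * (2 * (k * k') + k + k' + 6 * (y * y') + 6 * (u * u')) + 1 := by
      rw [hS, hk, hk']; ring
    omega
  have hwt : wt (D1 * D2) (2 * S) = (-1) ^ ((D1 * D2 - 1) / 8) * chim2 S := by
    unfold wt
    rw [if_neg (by omega), if_pos (by omega)]
    congr 2
    omega
  rw [hwt]
  have hpow : ((-1 : ℤ)) ^ ((D1 * D2 - 1) / 8) = if ((D1 : ℤ) * D2) % 16 = 1 then 1 else -1 := by
    have hcast : ((D1 : ℤ) * D2) = ((D1 * D2 : ℕ) : ℤ) := by push_cast; ring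
    rw [hcast]
    generalize D1 * D2 = G at *
    split_ifs with h16
    · rw [Even.neg_one_pow]
      rw [Nat.even_iff]
      omega
    · rw [Odd.neg_one_pow]
      rw [Nat.odd_iff]
      omega
  rw [hpow, ← key2]
  linear_combination (chi4 (x + 2 * u) * chi4 (x' + 2 * u')) * hsq

theorem weight {v w : V3} {D1 D2 : ℕ} (h1 : D1 % 4 = 1) (h2 : D2 % 4 = 1) (hv : nm v = D1)
    (hw : nm w = D2) (hb : tr v w % 2 = 1 ∨ (D1 * D2) % 8 = 1) :
    chv v * chv w = wt (D1 * D2) (tr v w) := by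
  obtain ⟨i, x, y, u, h⟩ := exists_ty (v := v) (by rw [hv]; omega)
  obtain ⟨j, x', y', u', h'⟩ := exists_ty (v := w) (by rw [hw]; omega)
  by_cases hij : i = j
  · subst hij
    have hev := tr_same h h'
    rcases hb with hb | hb
    · omega
    · exact weight_same h h' hv hw hb
  · exact (weight_diff hij h h' (D1 * D2)).2

/-! ### lines modulo 5 -/

abbrev K := ZMod 5

instance fact5 : Fact (Nat.Prime 5) := ⟨by norm_num⟩

theorem two_ne : (2 : K) ≠ 0 := by decide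

theorem three_ne : (3 : K) ≠ 0 := by decide

/-- the bilinear form modulo 5 -/
def Bf (v w : Fin 3 → K) : K :=
  v 0 * w 0 + 2 * (v 1 * w 1) - v 1 * w 2 - v 2 * w 1 + 2 * (v 2 * w 2)

/-- `[v, n] = β n` over `ZMod 5` -/
def L (v n : Fin 3 → K) (β : K) : Prop :=
  3 * (v 1 * n 2 - v 2 * n 1) = β * n 0 ∧
  (v 0 * n 1 - n 0 * v 1) - 2 * (v 0 * n 2 - n 0 * v 2) = β * n 1 ∧
  2 * (v 0 * n 1 - n 0 * v 1) - (v 0 * n 2 - n 0 * v 2) = β * n 2

theorem ne_exists {n : Fin 3 → K} (h : n ≠ 0) : n 0 ≠ 0 ∨ n 1 ≠ 0 ∨ n 2 ≠ 0 := by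
  by_contra hcon
  push Not at hcon
  apply h
  ext i
  fin_cases i
  · exact hcon.1
  · exact hcon.2.1
  · exact hcon.2.2

/-- parallel vectors -/
theorem par {u y : Fin 3 → K} (hu : u ≠ 0) (h0 : u 1 * y 2 = u 2 * y 1) (h1 : u 2 * y 0 = u 0 * y 2)
    (h2 : u 0 * y 1 = u 1 * y 0) : ∃ c : K, ∀ i, y i = c * u i := by
  rcases ne_exists hu with h | h | h
  · refine ⟨y 0 / u 0, fun i => ?_⟩
    fin_cases i
    · simp only [Fin.zero_eta]; field_simp
    · simp only [Fin.mk_one]; field_simp; linear_combination h2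
    · simp only [Fin.reduceFinMk]; field_simp; linear_combination -h1
  · refine ⟨y 1 / u 1, fun i => ?_⟩
    fin_cases i
    · simp only [Fin.zero_eta]; field_simp; linear_combination -h2
    · simp only [Fin.mk_one]; field_simp
    · simp only [Fin.reduceFinMk]; field_simp; linear_combination h0
  · refine ⟨y 2 / u 2, fun i => ?_⟩
    fin_cases i
    · simp only [Fin.zero_eta]; field_simp; linear_combination h1
    · simp only [Fin.mk_one]; field_simp; linear_combination -h0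
    · simp only [Fin.reduceFinMk]; field_simp

/-- a common isotropic line -/
def Co (v w : Fin 3 → K) (β1 β2 : K) : Prop := ∃ n : Fin 3 → K, n ≠ 0 ∧ L v n β1 ∧ L w n β2

theorem zero_of {n : Fin 3 → K} (hn : n ≠ 0) {x : K} (h : ∀ i, x * n i = 0) : x = 0 := by
  rcases ne_exists hn with k | k | k
  · exact (mul_eq_zero.mp (h 0)).resolve_right k
  · exact (mul_eq_zero.mp (h 1)).resolve_right k
  · exact (mul_eq_zero.mp (h 2)).resolve_right k

theorem co_dot {v w : Fin 3 → K} {β1 β2 : K} (h1 : β1 ≠ 0) (h : Co v w β1 β2) :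
    3 * Bf v w = -(β1 * β2) := by
  obtain ⟨n, hn, ⟨a0, a1, a2⟩, b0, b1, b2⟩ := h
  have hvn : Bf v n = 0 := by
    have : β1 * Bf v n = 0 := by
      unfold Bf
      linear_combination -(v 0) * a0 - (2 * v 1 - v 2) * a1 - (2 * v 2 - v 1) * a2
    exact (mul_eq_zero.mp this).resolve_left h1
  have key : ∀ i, (3 * Bf v w + β1 * β2) * n i = 0 := by
    intro i
    unfold Bf at *
    fin_cases i
    · simp only [Fin.zero_eta]
      linear_combination 3 * w 0 * hvn - β2 * a0 - 3 * v 1 * b2 + 3 * v 2 * b1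
    · simp only [Fin.mk_one]
      linear_combination 3 * w 1 * hvn - β2 * a1 - v 0 * b1 + v 1 * b0 + 2 * v 0 * b2 -
        2 * v 2 * b0
    · simp only [Fin.reduceFinMk]
      linear_combination 3 * w 2 * hvn - β2 * a2 - 2 * v 0 * b1 + 2 * v 1 * b0 + v 0 * b2 -
        v 2 * b0
  have := zero_of hn key
  linear_combination this

theorem eig {v : Fin 3 → K} {β : K} (hβ : β ≠ 0) (hv : 3 * Bf v v = -β ^ 2) :
    ∃ n : Fin 3 → K, n ≠ 0 ∧ L v n β := by
  unfold Bf at hv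
  have h : 3 * v 0 ^ 2 + β ^ 2 ≠ 0 ∨ 3 * v 1 * (2 * v 1 - v 2) + β ^ 2 + β * v 0 ≠ 0 ∨
      3 * v 2 * (2 * v 2 - v 1) + β ^ 2 - β * v 0 ≠ 0 := by
    by_contra hcon
    push Not at hcon
    obtain ⟨h0, h1, h2⟩ := hcon
    have : 2 * β ^ 2 = 0 := by linear_combination h0 + h1 + h2 - hv
    rcases mul_eq_zero.mp this with h | h
    · exact two_ne h
    · exact hβ (pow_eq_zero_iff (by norm_num) |>.mp h)
  rcases h with h | h | h
  · refine ⟨![3 * v 0 ^ 2 + β ^ 2, 3 * v 1 * v 0 + β * (2 * v 2 - v 1),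
      3 * v 2 * v 0 + β * (v 2 - 2 * v 1)], ?_, ?_, ?_, ?_⟩
    · intro h0
      exact h (congrFun h0 0)
    · simp only [Matrix.cons_val_zero, Matrix.cons_val_one, Matrix.cons_val]
      linear_combination -β * hv
    · simp only [Matrix.cons_val_zero, Matrix.cons_val_one, Matrix.cons_val]
      ring
    · simp only [Matrix.cons_val_zero, Matrix.cons_val_one, Matrix.cons_val]
      ring
  · refine ⟨![3 * v 0 * (2 * v 1 - v 2) - 3 * β * v 2,
      3 * v 1 * (2 * v 1 - v 2) + β ^ 2 + β * v 0,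
      3 * v 2 * (2 * v 1 - v 2) + 2 * β * v 0], ?_, ?_, ?_, ?_⟩
    · intro h0
      exact h (congrFun h0 1)
    · simp only [Matrix.cons_val_zero, Matrix.cons_val_one, Matrix.cons_val]
      ring
    · simp only [Matrix.cons_val_zero, Matrix.cons_val_one, Matrix.cons_val]
      linear_combination -β * hv
    · simp only [Matrix.cons_val_zero, Matrix.cons_val_one, Matrix.cons_val]
      ring
  · refine ⟨![3 * v 0 * (2 * v 2 - v 1) + 3 * β * v 1,
      3 * v 1 * (2 * v 2 - v 1) - 2 * β * v 0,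
      3 * v 2 * (2 * v 2 - v 1) + β ^ 2 - β * v 0], ?_, ?_, ?_, ?_⟩
    · intro h0
      exact h (congrFun h0 2)
    · simp only [Matrix.cons_val_zero, Matrix.cons_val_one, Matrix.cons_val]
      ring
    · simp only [Matrix.cons_val_zero, Matrix.cons_val_one, Matrix.cons_val]
      ring
    · simp only [Matrix.cons_val_zero, Matrix.cons_val_one, Matrix.cons_val]
      linear_combination -β * hv

theorem L_smul {v u n : Fin 3 → K} {β c : K} (hc : c ≠ 0) (hn : ∀ i, n i = c * u i)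
    (h : L v n β) : L v u β := by
  obtain ⟨h0, h1, h2⟩ := h
  rw [hn 0, hn 1, hn 2] at h0 h1 h2
  refine ⟨mul_left_cancel₀ hc ?_, mul_left_cancel₀ hc ?_, mul_left_cancel₀ hc ?_⟩
  · linear_combination h0
  · linear_combination h1
  · linear_combination h2

/-- a common line is the line of `β2 v - β1 w` -/
theorem co_line {v w : Fin 3 → K} {β1 β2 : K} {u : Fin 3 → K}
    (hu : ∀ i, u i = β2 * v i - β1 * w i) (hu0 : u ≠ 0) (h : Co v w β1 β2) : L v u β1 := by
  obtain ⟨n, hn, a, b⟩ := h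
  obtain ⟨a0, a1, a2⟩ := a
  obtain ⟨b0, b1, b2⟩ := b
  obtain ⟨c, hc⟩ := par (u := u) (y := n) hu0
    (mul_left_cancel₀ three_ne (by
      rw [hu 1, hu 2]; linear_combination β2 * a0 - β1 * b0))
    (mul_left_cancel₀ three_ne (by
      rw [hu 0, hu 2]; linear_combination 2 * (β2 * a1 - β1 * b1) - (β2 * a2 - β1 * b2)))
    (mul_left_cancel₀ three_ne (by
      rw [hu 0, hu 1]; linear_combination 2 * (β2 * a2 - β1 * b2) - (β2 * a1 - β1 * b1)))
  have hc0 : c ≠ 0 := by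
    intro h0
    apply hn
    ext i
    rw [hc i, h0, zero_mul]
    rfl
  exact L_smul hc0 hc ⟨a0, a1, a2⟩

open Classical in
theorem count5 {v w : Fin 3 → K} {β1 β2 : K} (h1 : β1 ≠ 0) (h2 : β2 ≠ 0)
    (hv : 3 * Bf v v = -β1 ^ 2) (hw : 3 * Bf w w = -β2 ^ 2) (hvw : 3 * Bf v w = -(β1 * β2)) :
    (if Co v w β1 β2 then 1 else 0 : ℕ) + (if Co v w (-β1) (-β2) then 1 else 0) =
      1 + if ∀ i, β2 * v i = β1 * w i then 1 else 0 := by
  by_cases hu : ∀ i, β2 * v i = β1 * w i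
  · -- parallel
    rw [if_pos hu]
    have key : ∀ s : K, s ≠ 0 → s ^ 2 = 1 → Co v w (s * β1) (s * β2) := by
      intro s hs hs2
      obtain ⟨n, hn, a0, a1, a2⟩ := eig (v := v) (β := s * β1) (mul_ne_zero hs h1) (by
        rw [hv]
        linear_combination β1 ^ 2 * hs2)
      refine ⟨n, hn, ⟨a0, a1, a2⟩, ?_, ?_, ?_⟩
      · refine mul_left_cancel₀ h1 ?_
        linear_combination β2 * a0 - 3 * n 2 * hu 1 + 3 * n 1 * hu 2
      · refine mul_left_cancel₀ h1 ?_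
        linear_combination β2 * a1 - (n 1 - 2 * n 2) * hu 0 + n 0 * hu 1 - 2 * n 0 * hu 2
      · refine mul_left_cancel₀ h1 ?_
        linear_combination β2 * a2 - (2 * n 1 - n 2) * hu 0 + 2 * n 0 * hu 1 - n 0 * hu 2
    have k1 := key 1 one_ne_zero (by ring)
    have k2 := key (-1) (neg_ne_zero.mpr one_ne_zero) (by ring)
    rw [one_mul, one_mul] at k1
    rw [neg_one_mul, neg_one_mul] at k2
    rw [if_pos k1, if_pos k2]
  · rw [if_neg hu]
    obtain ⟨u, hue⟩ : ∃ u : Fin 3 → K, ∀ i, u i = β2 * v i - β1 * w i :=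
      ⟨fun i => β2 * v i - β1 * w i, fun _ => rfl⟩
    have hu0 : u ≠ 0 := by
      intro h0
      apply hu
      intro i
      have : u i = 0 := by rw [h0]; rfl
      rw [hue i] at this
      linear_combination this
    unfold Bf at hv hw hvw
    have huu : u 0 * u 0 + 2 * (u 1 * u 1) - u 1 * u 2 - u 2 * u 1 + 2 * (u 2 * u 2) = 0 := by
      refine mul_left_cancel₀ three_ne ?_
      rw [hue 0, hue 1, hue 2]
      linear_combination β2 ^ 2 * hv + β1 ^ 2 * hw - 2 * β1 * β2 * hvw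
    have hvu : v 0 * u 0 + 2 * (v 1 * u 1) - v 1 * u 2 - v 2 * u 1 + 2 * (v 2 * u 2) = 0 := by
      refine mul_left_cancel₀ three_ne ?_
      rw [hue 0, hue 1, hue 2]
      linear_combination β2 * hv - β1 * hvw
    -- `[v, u]` is parallel to `u`
    obtain ⟨c, hc⟩ := par (u := u) (y := ![3 * (v 1 * u 2 - v 2 * u 1),
      (v 0 * u 1 - u 0 * v 1) - 2 * (v 0 * u 2 - u 0 * v 2),
      2 * (v 0 * u 1 - u 0 * v 1) - (v 0 * u 2 - u 0 * v 2)]) hu0
      (by simp only [Matrix.cons_val_zero, Matrix.cons_val_one, Matrix.cons_val]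
          linear_combination v 0 * huu - u 0 * hvu)
      (by simp only [Matrix.cons_val_zero, Matrix.cons_val_one, Matrix.cons_val]
          linear_combination (2 * v 1 - v 2) * huu - (2 * u 1 - u 2) * hvu)
      (by simp only [Matrix.cons_val_zero, Matrix.cons_val_one, Matrix.cons_val]
          linear_combination (2 * v 2 - v 1) * huu - (2 * u 2 - u 1) * hvu)
    have c0 : 3 * (v 1 * u 2 - v 2 * u 1) = c * u 0 := hc 0
    have c1 : (v 0 * u 1 - u 0 * v 1) - 2 * (v 0 * u 2 - u 0 * v 2) = c * u 1 := hc 1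
    have c2 : 2 * (v 0 * u 1 - u 0 * v 1) - (v 0 * u 2 - u 0 * v 2) = c * u 2 := hc 2
    have hcc : c ^ 2 = β1 ^ 2 := by
      have key : ∀ i, (c ^ 2 - β1 ^ 2) * u i = 0 := by
        intro i
        fin_cases i
        · simp only [Fin.zero_eta]
          linear_combination 3 * v 0 * hvu - u 0 * hv - 3 * v 1 * c2 + 3 * v 2 * c1 - c * c0
        · simp only [Fin.mk_one]
          linear_combination 3 * v 1 * hvu - u 1 * hv - v 0 * c1 + v 1 * c0 + 2 * v 0 * c2 -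
            2 * v 2 * c0 - c * c1
        · simp only [Fin.reduceFinMk]
          linear_combination 3 * v 2 * hvu - u 2 * hv - 2 * v 0 * c1 + 2 * v 1 * c0 + v 0 * c2 -
            v 2 * c0 - c * c2
      exact sub_eq_zero.mp (zero_of hu0 key)
    have hcpm : c = β1 ∨ c = -β1 := sq_eq_sq_iff_eq_or_eq_neg.mp hcc
    -- existence
    have ex : ∀ s : K, c = s * β1 → Co v w (s * β1) (s * β2) := by
      intro s hs
      refine ⟨u, hu0, ?_, ?_⟩
      · rw [← hs]
        exact ⟨c0, c1, c2⟩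
      · have hue0 := hue 0
        have hue1 := hue 1
        have hue2 := hue 2
        refine ⟨mul_left_cancel₀ h1 ?_, mul_left_cancel₀ h1 ?_, mul_left_cancel₀ h1 ?_⟩
        · linear_combination 3 * u 2 * hue1 - 3 * u 1 * hue2 + β2 * c0 + β2 * u 0 * hs
        · linear_combination (u 1 - 2 * u 2) * hue0 - u 0 * hue1 + 2 * u 0 * hue2 + β2 * c1 +
            β2 * u 1 * hs
        · linear_combination (2 * u 1 - u 2) * hue0 - 2 * u 0 * hue1 + u 0 * hue2 + β2 * c2 +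
            β2 * u 2 * hs
    -- uniqueness
    have un : ∀ s : K, s ^ 2 = 1 → Co v w (s * β1) (s * β2) → c = s * β1 := by
      intro s hs h
      have hs0 : s ≠ 0 := by
        intro h0
        rw [h0, zero_pow (by norm_num)] at hs
        exact zero_ne_one hs
      have hl := co_line (u := fun i => s * u i) (fun i => by
        rw [hue i]
        ring) (by
          intro h0
          apply hu0
          ext i
          have : s * u i = 0 := congrFun h0 i
          exact (mul_eq_zero.mp this).resolve_left hs0) h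
      have hl2 := L_smul (u := u) hs0 (fun _ => rfl) hl
      obtain ⟨l0, l1, l2⟩ := hl2
      have key : ∀ i, (c - s * β1) * u i = 0 := by
        intro i
        fin_cases i
        · simp only [Fin.zero_eta]
          linear_combination -c0 + l0
        · simp only [Fin.mk_one]
          linear_combination -c1 + l1
        · simp only [Fin.reduceFinMk]
          linear_combination -c2 + l2
      exact sub_eq_zero.mp (zero_of hu0 key)
    have hne : β1 ≠ -β1 := by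
      intro h
      have : 2 * β1 = 0 := by linear_combination h
      rcases mul_eq_zero.mp this with h | h
      · exact two_ne h
      · exact h1 h
    have ex1 := ex 1
    have ex2 := ex (-1)
    have un1 := un 1 (by ring)
    have un2 := un (-1) (by ring)
    rw [one_mul, one_mul] at ex1 un1
    rw [neg_one_mul, neg_one_mul] at ex2 un2
    rcases hcpm with h | h
    · rw [if_pos (ex1 h), if_neg (fun h' => hne (h.symm.trans (un2 h')))]
    · rw [if_pos (ex2 h), if_neg (fun h' => hne ((un1 h').symm.trans h))]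


/-! ### assembly -/

theorem mem_vec {n : ℤ} {v : V3} (h : v ∈ vec n) : nm v = n := (mem_filter.mp h).2

theorem nm_neg (v : V3) : nm (-v) = nm v := by
  unfold nm
  simp only [Pi.neg_apply]
  ring

theorem tr_neg (v w : V3) : tr (-v) (-w) = tr v w := by
  unfold tr
  simp only [Pi.neg_apply]
  ring

theorem neg_vec {n : ℤ} {v : V3} (h : v ∈ vec n) : -v ∈ vec n := by
  unfold vec at h ⊢
  rw [mem_filter, Fintype.mem_piFinset] at h ⊢
  refine ⟨fun i => ?_, ?_⟩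
  · have := h.1 i
    rw [mem_Icc] at this ⊢
    simp only [Pi.neg_apply]
    omega
  · rw [nm_neg]
    exact h.2

theorem ln_neg {v : V3} {n : Fin 3 → K} {β : K} : Ln n β (-v) ↔ Ln n (-β) v := by
  unfold Ln
  simp only [Pi.neg_apply, Int.cast_neg]
  constructor
  · rintro ⟨a, b, c⟩
    exact ⟨by linear_combination -a, by linear_combination -b, by linear_combination -c⟩
  · rintro ⟨a, b, c⟩
    exact ⟨by linear_combination -a, by linear_combination -b, by linear_combination -c⟩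

theorem six : (6 : K) = 1 := by decide

theorem bf_cast (v w : V3) : Bf (fun i => (v i : K)) (fun i => (w i : K)) = ((tr v w : ℤ) : K) := by
  unfold Bf tr
  push_cast
  rw [six]
  ring

theorem tr_self (v : V3) : tr v v = 2 * nm v := by
  unfold tr nm
  ring

theorem bt_ne {D : ℕ} (hD : Fm D) {β : K} (hβ : β ^ 2 = -(D : K)) : β ≠ 0 := by
  rintro rfl
  have h1 : (D : K) = 0 := by linear_combination hβ
  rw [ZMod.natCast_eq_zero_iff] at h1
  rcases hD with h | h <;> omega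

theorem norm5 {D : ℕ} {β : K} (hβ : β ^ 2 = -(D : K)) {v : V3} (hv : v ∈ vec (D : ℤ)) :
    3 * Bf (fun i => (v i : K)) (fun i => (v i : K)) = -β ^ 2 := by
  rw [bf_cast, tr_self, mem_vec hv, hβ]
  push_cast
  have : (6 : K) = 1 := six
  linear_combination (D : K) * this

theorem third {x y : K} : 3 * x = -y ↔ x = -2 * y := by
  revert x y
  decide

open Classical in
theorem main {D1 D2 : ℕ} (f1 : Fm D1) (f2 : Fm D2) {β1 β2 : K} (e1 : β1 ^ 2 = -(D1 : K))
    (e2 : β2 ^ 2 = -(D2 : K)) {b : ℤ} (hb : b % 2 = 1 ∨ (D1 * D2) % 8 = 1) :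
    2 * DD D1 D2 β1 β2 b =
    if (b : ZMod 5) = -2 * (β1 * β2) then wt (D1 * D2) b * (cp D1 b D2 + cp5 D1 b D2 β1 β2)
    else 0 := by
  have hb1 := bt_ne f1 e1
  have hb2 := bt_ne f2 e2
  have g1 : D1 % 4 = 1 := by rcases f1 with h | h <;> omega
  have g2 : D2 % 4 = 1 := by rcases f2 with h | h <;> omega
  set N1 : ℤ := (D1 : ℤ) with hN1
  set N2 : ℤ := (D2 : ℤ) with hN2
  let Cq : K → K → V3 × V3 → Prop := fun a c q =>
    Co (fun i => (q.1 i : K)) (fun i => (q.2 i : K)) a c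
  have hDD : DD D1 D2 β1 β2 b = wt (D1 * D2) b *
      (((vec N1 ×ˢ vec N2).filter fun q => tr q.1 q.2 = b ∧ Cq β1 β2 q).card : ℤ) := by
    unfold DD
    have e2 : ∀ q ∈ (vec N1 ×ˢ vec N2).filter (fun q => tr q.1 q.2 = b ∧ Cq β1 β2 q),
        chv q.1 * chv q.2 = wt (D1 * D2) b := by
      intro q hq
      rw [mem_filter, mem_product] at hq
      have := weight g1 g2 (mem_vec hq.1.1) (mem_vec hq.1.2) (by rw [hq.2.1]; exact hb)
      rw [this, hq.2.1]
    calc _ = ∑ q ∈ (vec N1 ×ˢ vec N2).filter (fun q => tr q.1 q.2 = b ∧ Cq β1 β2 q),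
          chv q.1 * chv q.2 := by
          refine sum_congr ?_ fun _ _ => rfl
          ext q
          rw [mem_filter, mem_filter]
          exact Iff.rfl
      _ = _ := by
          rw [sum_congr rfl e2, sum_const, nsmul_eq_mul]
          ring
  -- the involution
  have hinv : ((vec N1 ×ˢ vec N2).filter fun q => tr q.1 q.2 = b ∧ Cq β1 β2 q).card =
      ((vec N1 ×ˢ vec N2).filter fun q => tr q.1 q.2 = b ∧ Cq (-β1) (-β2) q).card := by
    have hmap : ∀ (a c : K) (q : V3 × V3), Cq a c q → Cq (-a) (-c) (-q.1, -q.2) := by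
      rintro a c q ⟨n, hn, l1, l2⟩
      refine ⟨n, hn, ?_, ?_⟩
      · have : Ln n (-a) (-q.1) := by
          rw [ln_neg, neg_neg]
          exact l1
        exact this
      · have : Ln n (-c) (-q.2) := by
          rw [ln_neg, neg_neg]
          exact l2
        exact this
    refine card_bij' (fun q _ => (-q.1, -q.2)) (fun q _ => (-q.1, -q.2)) ?_ ?_ ?_ ?_
    · intro q hq
      rw [mem_filter, mem_product] at hq ⊢
      refine ⟨⟨neg_vec hq.1.1, neg_vec hq.1.2⟩, ?_, hmap _ _ q hq.2.2⟩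
      rw [tr_neg]
      exact hq.2.1
    · intro q hq
      rw [mem_filter, mem_product] at hq ⊢
      refine ⟨⟨neg_vec hq.1.1, neg_vec hq.1.2⟩, ?_, ?_⟩
      · rw [tr_neg]
        exact hq.2.1
      · have := hmap _ _ q hq.2.2
        rw [neg_neg, neg_neg] at this
        exact this
    · intro q _
      simp
    · intro q _
      simp
  have hdot : ∀ q : V3 × V3, tr q.1 q.2 = b →
      3 * Bf (fun i => (q.1 i : K)) (fun i => (q.2 i : K)) = 3 * (b : K) := by
    intro q hq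
    rw [bf_cast, hq]
  by_cases hbb : (b : ZMod 5) = -2 * (β1 * β2)
  · rw [if_pos hbb, hDD]
    have hcount : 2 * ((vec N1 ×ˢ vec N2).filter fun q => tr q.1 q.2 = b ∧ Cq β1 β2 q).card =
        cp N1 b N2 + cp5 N1 b N2 β1 β2 := by
      have e1' : 2 * ((vec N1 ×ˢ vec N2).filter fun q => tr q.1 q.2 = b ∧ Cq β1 β2 q).card =
          ((vec N1 ×ˢ vec N2).filter fun q => tr q.1 q.2 = b ∧ Cq β1 β2 q).card +
          ((vec N1 ×ˢ vec N2).filter fun q => tr q.1 q.2 = b ∧ Cq (-β1) (-β2) q).card := by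
        omega
      rw [e1']
      unfold cp cp5
      simp only [← filter_filter]
      rw [card_filter (fun q => Cq β1 β2 q), card_filter (fun q => Cq (-β1) (-β2) q),
        card_filter (fun q : V3 × V3 => ∀ i, β2 * (q.1 i : ZMod 5) = β1 * (q.2 i : ZMod 5)),
        ← sum_add_distrib, card_eq_sum_ones, ← sum_add_distrib]
      refine sum_congr rfl fun q hq => ?_
      rw [mem_filter, mem_product] at hq
      have := count5 (v := fun i => (q.1 i : K)) (w := fun i => (q.2 i : K)) hb1 hb2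
        (norm5 e1 hq.1.1) (norm5 e2 hq.1.2) ((hdot q hq.2).trans (third.2 hbb))
      convert this using 2
    have hcount' : (2:ℤ) * (((vec N1 ×ˢ vec N2).filter fun q => tr q.1 q.2 = b ∧
        Cq β1 β2 q).card : ℤ) = (cp N1 b N2 : ℤ) + (cp5 N1 b N2 β1 β2 : ℤ) := by
      exact_mod_cast hcount
    rw [← hcount']
    ring
  · rw [if_neg hbb, hDD]
    have h0 : ((vec N1 ×ˢ vec N2).filter fun q => tr q.1 q.2 = b ∧ Cq β1 β2 q) = ∅ := by
      rw [filter_eq_empty_iff]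
      rintro q - ⟨hq, hC⟩
      apply hbb
      have h3 := co_dot hb1 hC
      rw [hdot q hq] at h3
      exact third.1 h3
    rw [h0]
    simp

end Pool.Agent.H757_X15.BB.B7

namespace Pool.Agent.H757_X15.BB

/-- B7 (BIL2A) -/
theorem t_BIL2A : S_BIL2A := by
  intro D1 D2 _ f1 _ f2 β1 β2 e1 e2 b hb
  exact B7.main f1 f2 e1 e2 hb

end Pool.Agent.H757_X15.BB
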