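import Pool.Agent.Y288.Z7.Cnt
import Pool.Agent.H757_X15.StmB

/-!
Parametrization of the pairs of vectors with given Gram matrix (X15-B2, S_CNT).
-/

set_option autoImplicit false
set_option linter.all false

namespace Pool.Agent.H757_X15.BB.Cn

open Finset Matrix
open Pool.Agent.Z700 (V3)
open Pool.Agent.Y288.Z7 (dt dd3 cols cols_eq det_cols crs crs0 crs1 crs2 ext3 dd3_eq dd3_eq' dt_comm
  dcross crs_lin crs_sub dt_crs_left dt_crs_right dt_add dt_sub dt_smul smul_dt cramer3 small parallel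
  bez content crs_sub_smul crs_smul)

/-- the form with Gram matrix `GM` -/
def BF (v w : Fin 3 → ℤ) : ℤ :=
  2 * (v 0 * w 0) + 2 * (v 1 * w 1) - v 1 * w 2 - v 2 * w 1 + 2 * (v 2 * w 2)

/-- half of `BF v v` -/
def NF (v : Fin 3 → ℤ) : ℤ := v 0 ^ 2 + v 1 ^ 2 - v 1 * v 2 + v 2 ^ 2

/-- the adjoint form -/
def QQ (c : Fin 3 → ℤ) : ℤ := 3 * c 0 ^ 2 + 4 * c 1 ^ 2 + 4 * (c 1 * c 2) + 4 * c 2 ^ 2

theorem BF_self (v : Fin 3 → ℤ) : BF v v = 2 * NF v := by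
  simp only [BF, NF]; ring

theorem NF_nonneg (v : Fin 3 → ℤ) : 0 ≤ NF v := by
  rw [NF]
  nlinarith [sq_nonneg (v 0), sq_nonneg (v 1), sq_nonneg (v 2), sq_nonneg (v 1 - v 2)]

theorem BF_comm (v w : Fin 3 → ℤ) : BF v w = BF w v := by
  simp only [BF]; ring

theorem BF_add (v w u : Fin 3 → ℤ) : BF v (w + u) = BF v w + BF v u := by
  simp only [BF, Pi.add_apply]; ring

theorem BF_sub (v w u : Fin 3 → ℤ) : BF v (w - u) = BF v w - BF v u := by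
  simp only [BF, Pi.sub_apply]; ring

theorem BF_smul (v w : Fin 3 → ℤ) (a : ℤ) : BF v (a • w) = a * BF v w := by
  simp only [BF, Pi.smul_apply, smul_eq_mul]; ring

theorem QQ_smul (c : Fin 3 → ℤ) (a : ℤ) : QQ (a • c) = a ^ 2 * QQ c := by
  simp only [QQ, Pi.smul_apply, smul_eq_mul]; ring

theorem QQ_nonneg (c : Fin 3 → ℤ) : 0 ≤ QQ c := by
  rw [QQ]
  nlinarith [sq_nonneg (c 0), sq_nonneg (c 1), sq_nonneg (c 2), sq_nonneg (c 1 + c 2)]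

theorem lagrangeB (v w : Fin 3 → ℤ) : BF v v * BF w w - BF v w ^ 2 = QQ (crs v w) := by
  simp only [BF, QQ, crs0, crs1, crs2]; ring

theorem gram_detB (v w z : Fin 3 → ℤ) :
    BF v v * BF w w * BF z z + 2 * BF v w * BF v z * BF w z - BF v v * BF w z ^ 2 -
      BF w w * BF v z ^ 2 - BF z z * BF v w ^ 2 = 6 * dd3 v w z ^ 2 := by
  simp only [BF, dd3]; ring

theorem bnd {x n : ℤ} (h : 3 * x ^ 2 ≤ 4 * n) : -n ≤ x ∧ x ≤ n := by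
  have h0 : 0 ≤ n := by nlinarith [sq_nonneg x]
  constructor
  · by_contra hc
    push Not at hc
    have h1 : n + 1 ≤ -x := by linarith
    nlinarith
  · by_contra hc
    push Not at hc
    have h1 : n + 1 ≤ x := by linarith
    nlinarith

theorem mem_vec (n : ℤ) (v : V3) : v ∈ vec n ↔ nm v = n := by
  rw [vec, Finset.mem_filter, Fintype.mem_piFinset]
  constructor
  · exact fun h => h.2
  · intro h
    refine ⟨fun i => ?_, h⟩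
    rw [nm] at h
    have k0 : 3 * v 0 ^ 2 ≤ 4 * n := by
      nlinarith [sq_nonneg (v 0), sq_nonneg (v 1), sq_nonneg (v 2), sq_nonneg (v 1 - v 2)]
    have k1 : 3 * v 1 ^ 2 ≤ 4 * n := by
      nlinarith [sq_nonneg (v 0), sq_nonneg (v 1 - 2 * v 2)]
    have k2 : 3 * v 2 ^ 2 ≤ 4 * n := by
      nlinarith [sq_nonneg (v 0), sq_nonneg (v 2 - 2 * v 1)]
    rw [Finset.mem_Icc]
    fin_cases i
    · exact bnd k0
    · exact bnd k1
    · exact bnd k2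

/-! ### the sublattice -/

/-- the map `v ↦ (3 p, √-3 z)` -/
def ph (v : V3) : Fin 3 → ℤ := ![3 * v 0, v 1 - 2 * v 2, 2 * v 1 - v 2]

theorem ph0 (v : V3) : ph v 0 = 3 * v 0 := rfl
theorem ph1 (v : V3) : ph v 1 = v 1 - 2 * v 2 := rfl
theorem ph2 (v : V3) : ph v 2 = 2 * v 1 - v 2 := rfl

theorem BF_ph (v w : V3) : BF (ph v) (ph w) = 3 * tr v w := by
  simp only [BF, tr, ph0, ph1, ph2]; ring

theorem tr_self (v : V3) : tr v v = 2 * nm v := by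
  simp only [tr, nm]; ring

theorem ph_inj : Function.Injective ph := by
  intro v w h
  have h0 := congrFun h 0
  have h1 := congrFun h 1
  have h2 := congrFun h 2
  rw [ph0, ph0] at h0
  rw [ph1, ph1] at h1
  rw [ph2, ph2] at h2
  apply ext3 <;> linarith

/-- the sublattice -/
def Sb (x : Fin 3 → ℤ) : Prop := (3 : ℤ) ∣ x 0 ∧ (3 : ℤ) ∣ x 1 + x 2

theorem ph_surj {x : Fin 3 → ℤ} (h : Sb x) : ∃ v, ph v = x := by
  obtain ⟨⟨p, hp⟩, ⟨r, hr⟩⟩ := h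
  refine ⟨![p, r - x 1 + r, r - x 1], ?_⟩
  apply ext3
  · rw [ph0, hp]; rfl
  · rw [ph1]
    show r - x 1 + r - 2 * (r - x 1) = x 1
    ring
  · rw [ph2]
    show 2 * (r - x 1 + r) - (r - x 1) = x 2
    linarith

theorem zm3 : ∀ a b : ZMod 3, a ^ 2 + b ^ 2 = 0 → a = 0 ∧ b = 0 := by decide

theorem Sb_of_norm {x : Fin 3 → ℤ} {n : ℤ} (h : BF x x = 6 * n) : Sb x := by
  have h1 : x 0 ^ 2 + (x 1 + x 2) ^ 2 = 3 * (n + x 1 * x 2) := by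
    rw [BF_self, NF] at h
    linarith
  have h2 : ((x 0 : ℤ) : ZMod 3) ^ 2 + ((x 1 + x 2 : ℤ) : ZMod 3) ^ 2 = 0 := by
    have := congrArg (Int.cast : ℤ → ZMod 3) h1
    push_cast at this ⊢
    rw [this]
    have h3 : (3 : ZMod 3) = 0 := by decide
    rw [h3, zero_mul]
  obtain ⟨h3, h4⟩ := zm3 _ _ h2
  exact ⟨(ZMod.intCast_zmod_eq_zero_iff_dvd _ 3).1 h3, (ZMod.intCast_zmod_eq_zero_iff_dvd _ 3).1 h4⟩

theorem BF_dvd {x : Fin 3 → ℤ} (h : Sb x) (y : Fin 3 → ℤ) : ∃ t, BF x y = 3 * t := by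
  obtain ⟨⟨p, hp⟩, ⟨r, hr⟩⟩ := h
  refine ⟨2 * p * y 0 + x 1 * y 1 - x 1 * y 2 - r * y 1 + 2 * r * y 2, ?_⟩
  have hr' : x 2 = 3 * r - x 1 := by linarith
  rw [BF, hp, hr']
  ring

theorem crs_dvd {x y : Fin 3 → ℤ} (h : Sb x) (h' : Sb y) : ∀ i, (3 : ℤ) ∣ crs x y i := by
  obtain ⟨⟨p, hp⟩, ⟨r, hr⟩⟩ := h
  obtain ⟨⟨p', hp'⟩, ⟨r', hr'⟩⟩ := h'
  have e1 : x 2 = 3 * r - x 1 := by linarith
  have e2 : y 2 = 3 * r' - y 1 := by linarith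
  intro i
  fin_cases i
  · refine ⟨x 1 * r' - r * y 1, ?_⟩
    show x 1 * y 2 - x 2 * y 1 = _
    rw [e1, e2]; ring
  · refine ⟨x 2 * p' - p * y 2, ?_⟩
    show x 2 * y 0 - x 0 * y 2 = _
    rw [hp, hp']; ring
  · refine ⟨p * y 1 - x 1 * p', ?_⟩
    show x 0 * y 1 - x 1 * y 0 = _
    rw [hp, hp']; ring

theorem prim_of_sqfree {n : ℕ} (hn : Squarefree n) (h12 : n % 12 = 1) {v : Fin 3 → ℤ}
    (h : BF v v = 6 * n) : ∃ y, dt v y = 1 := by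
  apply bez
  intro g hg
  have h0 : NF v = 3 * n := by
    rw [BF_self] at h
    linarith
  have h1 : ((g * g : ℕ) : ℤ) ∣ ((3 * n : ℕ) : ℤ) := by
    push_cast
    rw [← h0, NF, sq, sq, sq]
    exact dvd_add (dvd_sub (dvd_add (mul_dvd_mul (hg 0) (hg 0)) (mul_dvd_mul (hg 1) (hg 1)))
      (mul_dvd_mul (hg 1) (hg 2))) (mul_dvd_mul (hg 2) (hg 2))
  have h2 : g * g ∣ 3 * n := by exact_mod_cast h1
  have h3 : Squarefree (3 * n) := by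
    rw [Nat.squarefree_mul_iff]
    refine ⟨?_, Nat.prime_three.squarefree, hn⟩
    rw [Nat.Prime.coprime_iff_not_dvd Nat.prime_three]
    omega
  exact Nat.isUnit_iff.1 (h3 g h2)

/-! ### Gram matrices -/

theorem gram_entry (v w z : Fin 3 → ℤ) (i j : Fin 3) :
    ((cols v w z)ᵀ * GM * cols v w z) i j = BF (![v, w, z] i) (![v, w, z] j) := by
  have e : ∀ k, (cols v w z) k j = ![v, w, z] j k := fun k => rfl
  have e' : ∀ k, ((cols v w z)ᵀ) i k = ![v, w, z] i k := fun k => rfl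
  rw [Matrix.mul_apply, Fin.sum_univ_three, Matrix.mul_apply, Matrix.mul_apply, Matrix.mul_apply,
    Fin.sum_univ_three, Fin.sum_univ_three, Fin.sum_univ_three]
  simp only [e, e']
  generalize ![v, w, z] i = x
  generalize ![v, w, z] j = y
  have g00 : GM 0 0 = 2 := rfl
  have g01 : GM 0 1 = 0 := rfl
  have g02 : GM 0 2 = 0 := rfl
  have g10 : GM 1 0 = 0 := rfl
  have g11 : GM 1 1 = 2 := rfl
  have g12 : GM 1 2 = -1 := rfl
  have g20 : GM 2 0 = 0 := rfl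
  have g21 : GM 2 1 = -1 := rfl
  have g22 : GM 2 2 = 2 := rfl
  rw [g00, g01, g02, g10, g11, g12, g20, g21, g22, BF]
  ring

theorem gram_iff (v w z : Fin 3 → ℤ) (M : Matrix (Fin 3) (Fin 3) ℤ) (hM : Mᵀ = M) :
    (cols v w z)ᵀ * GM * cols v w z = M ↔ BF v v = M 0 0 ∧ BF v w = M 0 1 ∧ BF v z = M 0 2 ∧
      BF w w = M 1 1 ∧ BF w z = M 1 2 ∧ BF z z = M 2 2 := by
  have h10 : M 1 0 = M 0 1 := congrFun (congrFun hM 0) 1
  have h20 : M 2 0 = M 0 2 := congrFun (congrFun hM 0) 2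
  have h21 : M 2 1 = M 1 2 := congrFun (congrFun hM 1) 2
  constructor
  · intro h
    have k : ∀ i j, BF (![v, w, z] i) (![v, w, z] j) = M i j := fun i j => by
      rw [← gram_entry, h]
    exact ⟨k 0 0, k 0 1, k 0 2, k 1 1, k 1 2, k 2 2⟩
  · rintro ⟨k1, k2, k3, k4, k5, k6⟩
    ext i j
    rw [gram_entry]
    fin_cases i <;> fin_cases j
    · exact k1
    · exact k2
    · exact k3
    · show BF w v = M 1 0
      rw [BF_comm, h10, k2]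
    · exact k4
    · exact k5
    · show BF z v = M 2 0
      rw [BF_comm, h20, k3]
    · show BF z w = M 2 1
      rw [BF_comm, h21, k5]
    · exact k6

/-- the conditions defining the set of parameters, with the quotients named -/
structure Wit (n1 : ℕ) (b : ℤ) (D e μ β ν D' d ee g f : ℕ) : Prop where
  he : 0 < e
  hD : D = 3 * e ^ 2 * D'
  hβ : β < D'
  hμ : μ < 2 * n1
  hν : ν < 2 * n1
  hb : (2 * n1 : ℤ) ∣ 3 * e * μ - b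
  hd : 4 * n1 * d = 3 * μ ^ 2 + D'
  hg : D' * g = β ^ 2 + 4 * n1
  hee : 2 * n1 * ee = β + 3 * μ * ν
  hf : 4 * n1 * f = g + 3 * ν ^ 2

theorem wit_of_mem {n1 D : ℕ} {b : ℤ} {e μ β ν : ℕ} (h : (e, μ, β, ν) ∈ XX n1 b D) :
    Wit n1 b D e μ β ν (D / (3 * e ^ 2)) ((3 * μ ^ 2 + D / (3 * e ^ 2)) / (4 * n1))
      ((β + 3 * μ * ν) / (2 * n1)) ((4 * n1 + β ^ 2) / (D / (3 * e ^ 2)))
      (((4 * n1 + β ^ 2) / (D / (3 * e ^ 2)) + 3 * ν ^ 2) / (4 * n1)) := by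
  simp only [XX, Finset.mem_filter, Finset.mem_product, Finset.mem_range] at h
  obtain ⟨⟨h1, h2, h3, h4⟩, h5, h6, h7, h8, h9, h10, h11, h12⟩ := h
  refine ⟨h5, (Nat.mul_div_cancel' h6).symm, h7, h2, h4, h8, Nat.mul_div_cancel' h9, ?_,
    Nat.mul_div_cancel' h11, Nat.mul_div_cancel' h12⟩
  rw [add_comm (4 * n1), Nat.mul_div_cancel' h10]

theorem mem_of_wit {n1 D : ℕ} {b : ℤ} {e μ β ν D' d ee g f : ℕ} (hD0 : 0 < D)
    (h : Wit n1 b D e μ β ν D' d ee g f) : (e, μ, β, ν) ∈ XX n1 b D ∧ D / (3 * e ^ 2) = D' ∧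
      (3 * μ ^ 2 + D / (3 * e ^ 2)) / (4 * n1) = d ∧ (β + 3 * μ * ν) / (2 * n1) = ee ∧
      ((4 * n1 + β ^ 2) / (D / (3 * e ^ 2)) + 3 * ν ^ 2) / (4 * n1) = f := by
  obtain ⟨he, hD, hβ, hμ, hν, hb, hd, hg, hee, hf⟩ := h
  have he2 : 0 < 3 * e ^ 2 := Nat.mul_pos (by norm_num) (pow_pos he 2)
  have hn : 0 < 2 * n1 := by omega
  have hn4 : 0 < 4 * n1 := by omega
  have hD' : 0 < D' := by omega
  have e1 : D / (3 * e ^ 2) = D' := by rw [hD]; exact Nat.mul_div_cancel_left _ he2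
  have e2 : (4 * n1 + β ^ 2) / (D / (3 * e ^ 2)) = g := by
    rw [e1, add_comm, ← hg]; exact Nat.mul_div_cancel_left _ hD'
  refine ⟨?_, e1, ?_, ?_, ?_⟩
  · simp only [XX, Finset.mem_filter, Finset.mem_product, Finset.mem_range]
    rw [e2, e1]
    refine ⟨⟨?_, hμ, ?_, hν⟩, he, ⟨D', hD⟩, hβ, hb, ⟨d, hd.symm⟩, ⟨g, hg.symm⟩, ⟨ee, hee.symm⟩,
      ⟨f, hf.symm⟩⟩
    · have : e ≤ e ^ 2 := Nat.le_self_pow two_ne_zero e
      have h2 : 3 * e ^ 2 * 1 ≤ 3 * e ^ 2 * D' := Nat.mul_le_mul_left _ hD'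
      omega
    · have h2 : 1 * D' ≤ 3 * e ^ 2 * D' := Nat.mul_le_mul_right _ he2
      omega
  · rw [e1, ← hd]; exact Nat.mul_div_cancel_left _ hn4
  · rw [← hee]; exact Nat.mul_div_cancel_left _ hn
  · rw [e2, ← hf]; exact Nat.mul_div_cancel_left _ hn4

/-- the Gram matrix of a tuple of parameters -/
def mm (n1 D : ℕ) (q : ℕ × ℕ × ℕ × ℕ) : Matrix (Fin 3) (Fin 3) ℤ :=
  !![6 * (n1 : ℤ), 3 * (q.2.1 : ℤ), 3 * (q.2.2.2 : ℤ);
     3 * (q.2.1 : ℤ), 2 * (((3 * q.2.1 ^ 2 + D / (3 * q.1 ^ 2)) / (4 * n1) : ℕ) : ℤ),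
       (((q.2.2.1 + 3 * q.2.1 * q.2.2.2) / (2 * n1) : ℕ) : ℤ);
     3 * (q.2.2.2 : ℤ), (((q.2.2.1 + 3 * q.2.1 * q.2.2.2) / (2 * n1) : ℕ) : ℤ),
       2 * ((((4 * n1 + q.2.2.1 ^ 2) / (D / (3 * q.1 ^ 2)) + 3 * q.2.2.2 ^ 2) / (4 * n1) : ℕ) : ℤ)]

theorem mm_symm (n1 D : ℕ) (q : ℕ × ℕ × ℕ × ℕ) : (mm n1 D q)ᵀ = mm n1 D q := by
  ext i j
  fin_cases i <;> fin_cases j <;> rfl

theorem mm_pos {n1 D : ℕ} {b : ℤ} {e μ β ν : ℕ} (h : (e, μ, β, ν) ∈ XX n1 b D) :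
    PosE (mm n1 D (e, μ, β, ν)) := by
  have hw := wit_of_mem h
  refine ⟨mm_symm _ _ _, ?_, ?_, ?_, ⟨3 * (n1 : ℤ), ?_⟩,
    ⟨(((3 * μ ^ 2 + D / (3 * e ^ 2)) / (4 * n1) : ℕ) : ℤ), ?_⟩,
    ⟨((((4 * n1 + β ^ 2) / (D / (3 * e ^ 2)) + 3 * ν ^ 2) / (4 * n1) : ℕ) : ℤ), ?_⟩⟩
  · show (0 : ℤ) < 6 * n1
    have := hw.hμ
    have h2 : (0 : ℤ) < n1 := by exact_mod_cast (by omega : 0 < n1)
    linarith
  · show (0 : ℤ) < 6 * n1 * (2 * (((3 * μ ^ 2 + D / (3 * e ^ 2)) / (4 * n1) : ℕ) : ℤ)) -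
      (3 * (μ : ℤ)) ^ 2
    have h1 := hw.hd
    have h2 : 4 * (n1 : ℤ) * (((3 * μ ^ 2 + D / (3 * e ^ 2)) / (4 * n1) : ℕ) : ℤ) =
        3 * (μ : ℤ) ^ 2 + ((D / (3 * e ^ 2) : ℕ) : ℤ) := by
      exact_mod_cast h1
    have h3 : (0 : ℤ) < ((D / (3 * e ^ 2) : ℕ) : ℤ) := by
      have := hw.hβ
      exact_mod_cast (by omega : 0 < D / (3 * e ^ 2))
    generalize (((3 * μ ^ 2 + D / (3 * e ^ 2)) / (4 * n1) : ℕ) : ℤ) = d at *
    generalize ((D / (3 * e ^ 2) : ℕ) : ℤ) = D' at *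
    linarith
  · rw [det_fin_three]
    show 6 * (n1 : ℤ) * (2 * (((3 * μ ^ 2 + D / (3 * e ^ 2)) / (4 * n1) : ℕ) : ℤ)) *
        (2 * ((((4 * n1 + β ^ 2) / (D / (3 * e ^ 2)) + 3 * ν ^ 2) / (4 * n1) : ℕ) : ℤ)) -
      6 * (n1 : ℤ) * (((β + 3 * μ * ν) / (2 * n1) : ℕ) : ℤ) * (((β + 3 * μ * ν) / (2 * n1) : ℕ) : ℤ) -
      3 * (μ : ℤ) * (3 * (μ : ℤ)) *
        (2 * ((((4 * n1 + β ^ 2) / (D / (3 * e ^ 2)) + 3 * ν ^ 2) / (4 * n1) : ℕ) : ℤ)) +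
      3 * (μ : ℤ) * (((β + 3 * μ * ν) / (2 * n1) : ℕ) : ℤ) * (3 * (ν : ℤ)) +
      3 * (ν : ℤ) * (3 * (μ : ℤ)) * (((β + 3 * μ * ν) / (2 * n1) : ℕ) : ℤ) -
      3 * (ν : ℤ) * (2 * (((3 * μ ^ 2 + D / (3 * e ^ 2)) / (4 * n1) : ℕ) : ℤ)) * (3 * (ν : ℤ)) = 6
    obtain ⟨he, hD, hβ, hμ, hν, hb, hd, hg, hee, hf⟩ := hw
    generalize (3 * μ ^ 2 + D / (3 * e ^ 2)) / (4 * n1) = d at *
    generalize (β + 3 * μ * ν) / (2 * n1) = ee at *
    generalize ((4 * n1 + β ^ 2) / (D / (3 * e ^ 2)) + 3 * ν ^ 2) / (4 * n1) = f at *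
    generalize (4 * n1 + β ^ 2) / (D / (3 * e ^ 2)) = g at *
    generalize D / (3 * e ^ 2) = D' at *
    have hn : (n1 : ℤ) ≠ 0 := by exact_mod_cast (by omega : n1 ≠ 0)
    have k1 : 4 * (n1 : ℤ) * d = 3 * μ ^ 2 + D' := by exact_mod_cast hd
    have k2 : (D' : ℤ) * g = β ^ 2 + 4 * n1 := by exact_mod_cast hg
    have k3 : 2 * (n1 : ℤ) * ee = β + 3 * μ * ν := by exact_mod_cast hee
    have k4 : 4 * (n1 : ℤ) * f = g + 3 * ν ^ 2 := by exact_mod_cast hf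
    apply mul_left_cancel₀ (mul_ne_zero (mul_ne_zero (by norm_num : (4 : ℤ) ≠ 0) hn) hn)
    have e1 : 4 * (n1 : ℤ) * n1 * (6 * (n1 : ℤ) * (2 * d) * (2 * f) - 6 * n1 * ee * ee -
        3 * μ * (3 * μ) * (2 * f) + 3 * μ * ee * (3 * ν) + 3 * ν * (3 * μ) * ee -
        3 * ν * (2 * d) * (3 * ν)) =
        6 * n1 * ((4 * n1 * d) * (4 * n1 * f) - (2 * n1 * ee) ^ 2 - 3 * μ ^ 2 * (4 * n1 * f) +
          6 * μ * ν * (2 * n1 * ee) - 3 * ν ^ 2 * (4 * n1 * d)) := by ring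
    rw [e1, k1, k3, k4]
    have e2 : (3 * (μ : ℤ) ^ 2 + D') * (g + 3 * ν ^ 2) - (β + 3 * μ * ν) ^ 2 -
        3 * μ ^ 2 * (g + 3 * ν ^ 2) + 6 * μ * ν * (β + 3 * μ * ν) -
          3 * ν ^ 2 * (3 * μ ^ 2 + D') = D' * g - β ^ 2 := by ring
    rw [e2, k2]
    ring
  · show 6 * (n1 : ℤ) = 3 * n1 + 3 * n1
    ring
  · show 2 * (((3 * μ ^ 2 + D / (3 * e ^ 2)) / (4 * n1) : ℕ) : ℤ) = _
    ring
  · show 2 * ((((4 * n1 + β ^ 2) / (D / (3 * e ^ 2)) + 3 * ν ^ 2) / (4 * n1) : ℕ) : ℤ) = _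
    ring

theorem gram_mm {n1 D : ℕ} {b : ℤ} {e μ β ν : ℕ} {A : Matrix (Fin 3) (Fin 3) ℤ}
    (hA : Aᵀ * GM * A = mm n1 D (e, μ, β, ν)) {v w z : Fin 3 → ℤ} (hc : A = cols v w z) :
    BF v v = 6 * n1 ∧ BF v w = 3 * μ ∧ BF v z = 3 * ν ∧
      BF w w = 2 * (((3 * μ ^ 2 + D / (3 * e ^ 2)) / (4 * n1) : ℕ) : ℤ) ∧
      BF w z = (((β + 3 * μ * ν) / (2 * n1) : ℕ) : ℤ) ∧
      BF z z = 2 * ((((4 * n1 + β ^ 2) / (D / (3 * e ^ 2)) + 3 * ν ^ 2) / (4 * n1) : ℕ) : ℤ) := by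
  rw [hc, gram_iff v w z _ (mm_symm _ _ _)] at hA
  exact hA

/-- the pairs -/
abbrev Pairs (n1 n2 : ℕ) (b : ℤ) : Type :=
  {q : (Fin 3 → ℤ) × (Fin 3 → ℤ) // BF q.1 q.1 = 6 * n1 ∧ BF q.2 q.2 = 6 * n2 ∧ BF q.1 q.2 = 3 * b}

/-- the pairs in the lattice of the statement -/
abbrev Pairs0 (n1 n2 : ℕ) (b : ℤ) : Type :=
  {q : V3 × V3 // nm q.1 = n1 ∧ nm q.2 = n2 ∧ tr q.1 q.2 = b}

theorem card_pairs0 (n1 n2 : ℕ) (b : ℤ) : Nat.card (Pairs0 n1 n2 b) = cp n1 b n2 := by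
  rw [cp]
  apply Nat.subtype_card
  intro q
  rw [Finset.mem_filter, Finset.mem_product, mem_vec, mem_vec, and_assoc]

theorem card_pairs (n1 n2 : ℕ) (b : ℤ) : Nat.card (Pairs n1 n2 b) = cp n1 b n2 := by
  rw [← card_pairs0]
  symm
  refine Nat.card_eq_of_bijective (fun q : Pairs0 n1 n2 b => (⟨(ph q.1.1, ph q.1.2), by
    obtain ⟨⟨v, w⟩, h1, h2, h3⟩ := q
    refine ⟨?_, ?_, ?_⟩
    · show BF (ph v) (ph v) = _
      rw [BF_ph, tr_self, h1]; ring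
    · show BF (ph w) (ph w) = _
      rw [BF_ph, tr_self, h2]; ring
    · show BF (ph v) (ph w) = _
      rw [BF_ph, h3]⟩ : Pairs n1 n2 b)) ⟨?_, ?_⟩
  · rintro ⟨⟨v, w⟩, h⟩ ⟨⟨v', w'⟩, h'⟩ heq
    have h1 := congrArg Subtype.val heq
    simp only [Prod.mk.injEq] at h1
    have h2 := ph_inj h1.1
    have h3 := ph_inj h1.2
    subst h2
    subst h3
    rfl
  · rintro ⟨⟨x, y⟩, h1, h2, h3⟩
    simp only at h1 h2 h3
    obtain ⟨v, rfl⟩ := ph_surj (Sb_of_norm h1)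
    obtain ⟨w, rfl⟩ := ph_surj (Sb_of_norm h2)
    rw [BF_ph, tr_self] at h1 h2
    rw [BF_ph] at h3
    exact ⟨⟨(v, w), by show nm v = _; linarith, by show nm w = _; linarith, by
      show tr v w = _; linarith⟩, rfl⟩

/-- the parameters and the frames -/
abbrev Fr (n1 : ℕ) (b : ℤ) (D : ℕ) : Type :=
  Σ x : {x : ℕ × ℕ × ℕ × ℕ // x ∈ XX n1 b D},
    {A : Matrix (Fin 3) (Fin 3) ℤ // Aᵀ * GM * A = mm n1 D x.1 ∧ A.det = 1}

theorem card_fr (h : S_UQ) (n1 : ℕ) (b : ℤ) (D : ℕ) :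
    Nat.card (Fr n1 b D) = 12 * (XX n1 b D).card := by
  have h1 : ∀ x : {x : ℕ × ℕ × ℕ × ℕ // x ∈ XX n1 b D},
      Nat.card {A : Matrix (Fin 3) (Fin 3) ℤ // Aᵀ * GM * A = mm n1 D x.1 ∧ A.det = 1} = 12 := by
    rintro ⟨⟨e, μ, β, ν⟩, hx⟩
    exact h _ (mm_pos hx)
  haveI : ∀ x : {x : ℕ × ℕ × ℕ × ℕ // x ∈ XX n1 b D},
      Finite {A : Matrix (Fin 3) (Fin 3) ℤ // Aᵀ * GM * A = mm n1 D x.1 ∧ A.det = 1} := fun x =>
    Nat.finite_of_card_ne_zero (by rw [h1 x]; norm_num)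
  rw [Nat.card_sigma, Finset.sum_congr rfl (fun x _ => h1 x), Finset.sum_const, smul_eq_mul,
    Finset.card_univ, Fintype.card_coe, mul_comm]

/-- the pair attached to a frame -/
def toPair (b : ℤ) (n1 : ℕ) (x : ℕ × ℕ × ℕ × ℕ) (A : Matrix (Fin 3) (Fin 3) ℤ) :
    (Fin 3 → ℤ) × (Fin 3 → ℤ) :=
  (fun i => A i 0, (3 * x.1 : ℤ) • (fun i => A i 1) +
    ((b - 3 * x.1 * x.2.1) / (2 * n1)) • (fun i => A i 0))

theorem toPair_mem {n1 n2 D : ℕ} {b : ℤ} (hDD : (D : ℤ) = 4 * n1 * n2 - b ^ 2)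
    {e μ β ν : ℕ} (hx : (e, μ, β, ν) ∈ XX n1 b D) {A : Matrix (Fin 3) (Fin 3) ℤ}
    (hA : Aᵀ * GM * A = mm n1 D (e, μ, β, ν)) :
    BF (toPair b n1 (e, μ, β, ν) A).1 (toPair b n1 (e, μ, β, ν) A).1 = 6 * n1 ∧
      BF (toPair b n1 (e, μ, β, ν) A).2 (toPair b n1 (e, μ, β, ν) A).2 = 6 * n2 ∧
      BF (toPair b n1 (e, μ, β, ν) A).1 (toPair b n1 (e, μ, β, ν) A).2 = 3 * b := by
  obtain ⟨h1, h2, h3, h4, h5, h6⟩ := gram_mm (b := b) hA (cols_eq A)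
  have hw := wit_of_mem hx
  simp only [toPair]
  generalize (fun i => A i 0) = v at *
  generalize (fun i => A i 1) = w at *
  have hn : (n1 : ℤ) ≠ 0 := by
    have := hw.hμ
    exact_mod_cast (by omega : n1 ≠ 0)
  have hn2 : (2 * n1 : ℤ) ≠ 0 := mul_ne_zero two_ne_zero hn
  have hn4 : (4 * n1 : ℤ) ≠ 0 := mul_ne_zero (by norm_num) hn
  obtain ⟨k, hk⟩ := hw.hb
  have hk' : (b - 3 * e * μ) / (2 * n1 : ℤ) = -k := by
    rw [show b - 3 * (e : ℤ) * μ = 2 * n1 * (-k) by linarith]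
    exact Int.mul_ediv_cancel_left _ hn2
  rw [hk']
  refine ⟨h1, ?_, ?_⟩
  · have e1 : BF ((3 * e : ℤ) • w + (-k) • v) ((3 * e : ℤ) • w + (-k) • v) =
        9 * e ^ 2 * BF w w - 6 * e * k * BF v w + k ^ 2 * BF v v := by
      simp only [BF, Pi.add_apply, Pi.smul_apply, smul_eq_mul]; ring
    rw [e1, h1, h2, h4]
    have k1 : 4 * (n1 : ℤ) * (((3 * μ ^ 2 + D / (3 * e ^ 2)) / (4 * n1) : ℕ) : ℤ) =
        3 * μ ^ 2 + ((D / (3 * e ^ 2) : ℕ) : ℤ) := by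
      exact_mod_cast hw.hd
    have k2 : (D : ℤ) = 3 * e ^ 2 * ((D / (3 * e ^ 2) : ℕ) : ℤ) := by exact_mod_cast hw.hD
    generalize (((3 * μ ^ 2 + D / (3 * e ^ 2)) / (4 * n1) : ℕ) : ℤ) = d at *
    generalize ((D / (3 * e ^ 2) : ℕ) : ℤ) = D' at *
    apply mul_left_cancel₀ hn4
    have e2 : (4 * n1 : ℤ) * (9 * e ^ 2 * (2 * d) - 6 * e * k * (3 * μ) + k ^ 2 * (6 * n1)) =
        18 * e ^ 2 * (4 * n1 * d) - 36 * (e * μ) * (2 * n1 * k) + 6 * (2 * n1 * k) ^ 2 := by ring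
    rw [e2, k1, ← hk]
    have e3 : 18 * (e : ℤ) ^ 2 * (3 * μ ^ 2 + D') - 36 * (e * μ) * (3 * e * μ - b) +
        6 * (3 * e * μ - b) ^ 2 = 6 * (3 * e ^ 2 * D') + 6 * b ^ 2 := by ring
    rw [e3, ← k2, hDD]
    ring
  · rw [BF_add, BF_smul, BF_smul, h1, h2]
    linarith

theorem toPair_inj {n1 D : ℕ} {b : ℤ} {e μ β ν e' μ' β' ν' : ℕ}
    (hx : (e, μ, β, ν) ∈ XX n1 b D) (hx' : (e', μ', β', ν') ∈ XX n1 b D)
    {A A' : Matrix (Fin 3) (Fin 3) ℤ} (hA : Aᵀ * GM * A = mm n1 D (e, μ, β, ν)) (hd : A.det = 1)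
    (hA' : A'ᵀ * GM * A' = mm n1 D (e', μ', β', ν')) (hd' : A'.det = 1)
    (h : toPair b n1 (e, μ, β, ν) A = toPair b n1 (e', μ', β', ν') A') :
    (e, μ, β, ν) = (e', μ', β', ν') ∧ A = A' := by
  obtain ⟨h1, h2, h3, h4, h5, h6⟩ := gram_mm (b := b) hA (cols_eq A)
  obtain ⟨h1', h2', h3', h4', h5', h6'⟩ := gram_mm (b := b) hA' (cols_eq A')
  rw [cols_eq A, det_cols] at hd
  rw [cols_eq A', det_cols] at hd'
  have hw := wit_of_mem hx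
  have hw' := wit_of_mem hx'
  simp only [toPair, Prod.mk.injEq] at h
  obtain ⟨hv, hwv⟩ := h
  rw [cols_eq A, cols_eq A']
  rw [← hv] at h1' h2' h3' hd' hwv ⊢
  generalize (fun i => A i 0) = v at *
  generalize (fun i => A i 1) = w at *
  generalize (fun i => A i 2) = z at *
  generalize (fun i => A' i 1) = w' at *
  generalize (fun i => A' i 2) = z' at *
  generalize (b - 3 * (e : ℤ) * μ) / (2 * n1 : ℤ) = k at hwv
  generalize (b - 3 * (e' : ℤ) * μ') / (2 * n1 : ℤ) = k' at hwv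
  -- the content
  have c1 := congrArg (crs v) hwv
  rw [crs_lin, crs_lin] at c1
  rw [dd3_eq] at hd hd'
  have c2 := congrArg (fun u => dt u z) c1
  have c3 := congrArg (fun u => dt u z') c1
  simp only [smul_dt, hd, hd', mul_one] at c2 c3
  have hee : e = e' := by
    apply Nat.dvd_antisymm
    · have : (e : ℤ) ∣ e' := ⟨dt (crs v w) z', by linarith⟩
      exact_mod_cast this
    · have : (e' : ℤ) ∣ e := ⟨dt (crs v w') z, by linarith⟩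
      exact_mod_cast this
  subst hee
  have he0 : (3 * e : ℤ) ≠ 0 := mul_ne_zero (by norm_num) (by exact_mod_cast hw.he.ne')
  have c4 : crs v w = crs v w' := smul_right_injective _ he0 c1
  have hyv : dt (crs w z) v = 1 := by rw [dt_comm, ← dd3_eq', dd3_eq, hd]
  have c5 : crs v (w' - w) = 0 := by rw [crs_sub, c4, sub_self]
  have c6 := parallel hyv c5
  generalize dt (crs w z) (w' - w) = α at c6
  have c7 := congrArg (BF v) c6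
  rw [BF_sub, BF_smul, h1, h2, h2'] at c7
  have hα : α = 0 := by
    have b1 : (μ : ℤ) < 2 * n1 := by exact_mod_cast hw.hμ
    have b2 : (μ' : ℤ) < 2 * n1 := by exact_mod_cast hw'.hμ
    have b3 : (0 : ℤ) ≤ μ := by positivity
    have b4 : (0 : ℤ) ≤ μ' := by positivity
    have c8 : (μ' : ℤ) - μ = α * (2 * n1) := by linarith
    exact small c8 (by linarith) (by linarith)
  rw [hα, zero_smul, sub_eq_zero] at c6
  subst c6
  have hμ : μ = μ' := by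
    rw [h2] at h2'
    have : (μ : ℤ) = μ' := by linarith
    exact_mod_cast this
  subst hμ
  -- the third vector
  have c8 : dt (crs v w') (z' - z) = 0 := by rw [dt_sub, hd, hd', sub_self]
  have c9 := cramer3 v w' z (z' - z)
  rw [dd3_eq, hd, one_smul, dt_comm (z' - z) (crs v w'), c8, zero_smul, add_zero] at c9
  generalize dt (z' - z) (crs w' z) = p at c9
  generalize dt (z' - z) (crs z v) = q at c9
  have d1 := congrArg (BF v) c9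
  have d2 := congrArg (BF w') c9
  rw [BF_sub, BF_add, BF_smul, BF_smul, h1, h2, h3, h3'] at d1
  rw [BF_sub, BF_add, BF_smul, BF_smul, BF_comm w' v, h2, h4, h5, h5'] at d2
  obtain ⟨he, hD, hβ, hμ, hν, hb, hd1, hg, hee, hf⟩ := hw
  obtain ⟨-, -, hβ', -, hν', -, -, hg', hee', hf'⟩ := hw'
  have k1 : 4 * (n1 : ℤ) * (((3 * μ ^ 2 + D / (3 * e ^ 2)) / (4 * n1) : ℕ) : ℤ) =
      3 * μ ^ 2 + ((D / (3 * e ^ 2) : ℕ) : ℤ) := by
    exact_mod_cast hd1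
  have k3 : 2 * (n1 : ℤ) * (((β + 3 * μ * ν) / (2 * n1) : ℕ) : ℤ) = β + 3 * μ * ν := by
    exact_mod_cast hee
  have k3' : 2 * (n1 : ℤ) * (((β' + 3 * μ * ν') / (2 * n1) : ℕ) : ℤ) = β' + 3 * μ * ν' := by
    exact_mod_cast hee'
  have b1 : (β : ℤ) < ((D / (3 * e ^ 2) : ℕ) : ℤ) := by exact_mod_cast hβ
  have b2 : (β' : ℤ) < ((D / (3 * e ^ 2) : ℕ) : ℤ) := by exact_mod_cast hβ'
  have b3 : (0 : ℤ) ≤ β := by positivity
  have b4 : (0 : ℤ) ≤ β' := by positivity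
  have b5 : (ν : ℤ) < 2 * n1 := by exact_mod_cast hν
  have b6 : (ν' : ℤ) < 2 * n1 := by exact_mod_cast hν'
  have b7 : (0 : ℤ) ≤ ν := by positivity
  have b8 : (0 : ℤ) ≤ ν' := by positivity
  generalize (((3 * μ ^ 2 + D / (3 * e ^ 2)) / (4 * n1) : ℕ) : ℤ) = dd at *
  generalize (((β + 3 * μ * ν) / (2 * n1) : ℕ) : ℤ) = ee at *
  generalize (((β' + 3 * μ * ν') / (2 * n1) : ℕ) : ℤ) = ee' at *
  generalize ((D / (3 * e ^ 2) : ℕ) : ℤ) = D' at *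
  have hq : (β' : ℤ) - β = q * D' := by
    linear_combination 2 * (n1 : ℤ) * d2 - (μ : ℤ) * d1 + k3 - k3' + q * k1
  have hq0 : q = 0 := small hq (by linarith) (by linarith)
  rw [hq0, zero_mul, add_zero] at d1
  have d1' : (ν' : ℤ) - ν = p * (2 * n1) := by linarith
  have hp0 : p = 0 := small d1' (by linarith) (by linarith)
  rw [hq0, zero_mul] at hq
  rw [hp0, zero_mul] at d1'
  rw [hp0, hq0, zero_smul, zero_smul, add_zero, sub_eq_zero] at c9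
  have e1 : β = β' := by exact_mod_cast (by linarith : (β : ℤ) = β')
  have e2 : ν = ν' := by exact_mod_cast (by linarith : (ν : ℤ) = ν')
  rw [e1, e2, c9]
  exact ⟨rfl, rfl⟩

theorem toPair_surj {n1 n2 D : ℕ} {b : ℤ} (hs : Squarefree n1) (h12 : n1 % 12 = 1) (hD0 : 0 < D)
    (hDD : (D : ℤ) = 4 * n1 * n2 - b ^ 2) {v w : Fin 3 → ℤ} (hv : BF v v = 6 * n1)
    (hw : BF w w = 6 * n2) (hvw : BF v w = 3 * b) :
    ∃ (x : ℕ × ℕ × ℕ × ℕ) (A : Matrix (Fin 3) (Fin 3) ℤ),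
      x ∈ XX n1 b D ∧ (Aᵀ * GM * A = mm n1 D x ∧ A.det = 1) ∧ toPair b n1 x A = (v, w) := by
  have hn0 : 0 < n1 := Nat.pos_of_ne_zero hs.ne_zero
  have hn : (0 : ℤ) < n1 := by exact_mod_cast hn0
  have hn2 : (0 : ℤ) < 2 * n1 := by linarith
  obtain ⟨y, hy⟩ := prim_of_sqfree hs h12 hv
  have hSv : Sb v := Sb_of_norm hv
  have hSw : Sb w := Sb_of_norm hw
  have hcc : QQ (crs v w) = 9 * D := by rw [← lagrangeB, hv, hw, hvw, hDD]; ring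
  have hc0 : crs v w ≠ 0 := by
    intro h0
    rw [h0] at hcc
    simp only [QQ, Pi.zero_apply, mul_zero, add_zero, ne_eq, OfNat.ofNat_ne_zero, not_false_eq_true,
      zero_pow] at hcc
    have h1 : (D : ℤ) = 0 := by linarith
    have : D = 0 := by exact_mod_cast h1
    omega
  obtain ⟨e', c, z0, he', hce', hz0⟩ := content (crs v w) hc0
  -- the content is divisible by three
  obtain ⟨e, rfl⟩ : 3 ∣ e' := by
    have h1 : (3 : ℤ) ∣ dt (crs v w) z0 := by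
      have h2 := crs_dvd hSv hSw
      rw [dt]
      exact dvd_add (dvd_add ((h2 0).mul_right _) ((h2 1).mul_right _)) ((h2 2).mul_right _)
    rw [hce', smul_dt, hz0, mul_one] at h1
    exact_mod_cast h1
  have he : 0 < e := by omega
  have heZ : (0 : ℤ) < e := by exact_mod_cast he
  have hce : crs v w = (3 * e : ℤ) • c := by
    rw [hce']
    push_cast
    rfl
  have h3e : (3 * e : ℤ) ≠ 0 := by positivity
  have hcv : dt c v = 0 := by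
    have h1 := dt_crs_left v w
    rw [hce, smul_dt] at h1
    exact (mul_eq_zero.1 h1).resolve_left h3e
  -- the second vector
  obtain ⟨w0, hw0⟩ : ∃ w0, w0 = crs c y := ⟨_, rfl⟩
  have hvw0 : crs v w0 = c := by
    rw [hw0, dcross, hy, dt_comm v c, hcv, one_smul, zero_smul, sub_zero]
  obtain ⟨t0, ht0⟩ := BF_dvd hSv w0
  obtain ⟨w1, hw1⟩ : ∃ w1, w1 = w0 - (t0 / (2 * n1)) • v := ⟨_, rfl⟩
  have hvw1 : crs v w1 = c := by rw [hw1, crs_sub_smul, hvw0]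
  have hm : BF v w1 = 3 * (t0 % (2 * n1)) := by
    rw [hw1, BF_sub, BF_smul, hv, ht0]
    have := Int.emod_add_mul_ediv t0 (2 * n1)
    linarith
  obtain ⟨mu, hmu⟩ : ∃ mu, mu = t0 % (2 * n1) := ⟨_, rfl⟩
  rw [← hmu] at hm
  have hm0 : 0 ≤ mu := by rw [hmu]; exact Int.emod_nonneg _ hn2.ne'
  have hm1 : mu < 2 * n1 := by rw [hmu]; exact Int.emod_lt_of_pos _ hn2
  -- the determinant
  have hDc : (e : ℤ) ^ 2 * QQ c = D := by
    have h1 := hcc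
    rw [hce, QQ_smul] at h1
    linarith
  have hww := BF_self w1
  obtain ⟨dd, hdd⟩ : ∃ dd, dd = 4 * n1 * NF w1 - 3 * mu ^ 2 := ⟨_, rfl⟩
  have hc2 : QQ c = 3 * dd := by
    rw [← hvw1, ← lagrangeB, hv, hm, hww, hdd]
    ring
  have hcpos : 0 < dd := by
    have h1 := QQ_nonneg c
    rw [hc2] at h1 hDc
    have h2 : 0 ≤ dd := by linarith
    rcases h2.eq_or_lt with h2 | h2
    · rw [← h2, mul_zero, mul_zero] at hDc
      have : D = 0 := by exact_mod_cast hDc.symm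
      omega
    · exact h2
  have hcw1 : dt c w1 = 0 := by rw [← hvw1]; exact dt_crs_right v w1
  -- the third vector
  obtain ⟨s0, hs0⟩ := BF_dvd hSv z0
  obtain ⟨B0, hB0⟩ : ∃ B0, B0 = 2 * n1 * BF w1 z0 - 3 * mu * s0 := ⟨_, rfl⟩
  obtain ⟨z1, hz1⟩ : ∃ z1, z1 = z0 - (B0 / dd) • w1 := ⟨_, rfl⟩
  obtain ⟨s1, hs1⟩ : ∃ s1, s1 = s0 - (B0 / dd) * mu := ⟨_, rfl⟩
  have hvz1 : BF v z1 = 3 * s1 := by
    rw [hz1, BF_sub, BF_smul, hs0, hm, hs1]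
    ring
  obtain ⟨z2, hz2⟩ : ∃ z2, z2 = z1 - (s1 / (2 * n1)) • v := ⟨_, rfl⟩
  have hcz : dt c z2 = 1 := by
    rw [hz2, dt_sub, dt_smul, hcv, hz1, dt_sub, dt_smul, hcw1, hz0]; ring
  obtain ⟨nu, hnu⟩ : ∃ nu, nu = s1 % (2 * n1) := ⟨_, rfl⟩
  have hN : BF v z2 = 3 * nu := by
    rw [hz2, BF_sub, BF_smul, hv, hvz1, hnu]
    have := Int.emod_add_mul_ediv s1 (2 * n1)
    linarith
  have hN0 : 0 ≤ nu := by rw [hnu]; exact Int.emod_nonneg _ hn2.ne'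
  have hN1 : nu < 2 * n1 := by rw [hnu]; exact Int.emod_lt_of_pos _ hn2
  have hB : 2 * n1 * BF w1 z2 - 3 * mu * nu = B0 % dd := by
    have h1 := Int.emod_add_mul_ediv B0 dd
    have h0 := Int.emod_add_mul_ediv s1 (2 * n1)
    rw [← hnu] at h0
    have h2 : 2 * n1 * BF w1 z2 - 3 * mu * nu = B0 - (B0 / dd) * dd := by
      rw [hz2, BF_sub, BF_smul, BF_comm w1 v, hm, hz1, BF_sub, BF_smul, hww]
      generalize B0 / dd = q at *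
      generalize s1 / (2 * n1 : ℤ) = r at *
      rw [hdd]
      have h3 : nu = s0 - q * mu - 2 * n1 * r := by linarith
      rw [h3, hB0]
      ring
    linarith
  have hβ0 : 0 ≤ 2 * n1 * BF w1 z2 - 3 * mu * nu := by
    rw [hB]; exact Int.emod_nonneg _ hcpos.ne'
  have hβ1 : 2 * n1 * BF w1 z2 - 3 * mu * nu < dd := by
    rw [hB]; exact Int.emod_lt_of_pos _ hcpos
  have hdet : dd3 v w1 z2 = 1 := by rw [dd3_eq, hvw1, hcz]
  have hgram := gram_detB v w1 z2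
  rw [hdet, hv, hm, hN, hww, BF_self z2] at hgram
  -- the coefficient of `v` in `w`
  have hu : crs v (w - (3 * e : ℤ) • w1) = 0 := by
    rw [crs_sub, crs_smul, hvw1, hce, sub_self]
  have hk := parallel (y := y) (by rw [dt_comm, hy]) hu
  obtain ⟨k, hkdef⟩ : ∃ k, k = dt y (w - (3 * e : ℤ) • w1) := ⟨_, rfl⟩
  rw [← hkdef] at hk
  have hbk : b - 3 * e * mu = 2 * n1 * k := by
    have h1 := congrArg (BF v) hk
    rw [BF_sub, BF_smul, BF_smul, hv, hvw, hm] at h1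
    linarith
  -- natural numbers
  obtain ⟨μ, hμ⟩ : ∃ μ : ℕ, (μ : ℤ) = mu := ⟨_, Int.toNat_of_nonneg hm0⟩
  obtain ⟨ν, hν⟩ : ∃ ν : ℕ, (ν : ℤ) = nu := ⟨_, Int.toNat_of_nonneg hN0⟩
  obtain ⟨β, hβ⟩ : ∃ β : ℕ, (β : ℤ) = 2 * n1 * BF w1 z2 - 3 * mu * nu :=
    ⟨_, Int.toNat_of_nonneg hβ0⟩
  obtain ⟨D', hD'⟩ : ∃ D' : ℕ, (D' : ℤ) = dd := ⟨_, Int.toNat_of_nonneg hcpos.le⟩
  obtain ⟨d, hd⟩ : ∃ d : ℕ, (d : ℤ) = NF w1 := ⟨_, Int.toNat_of_nonneg (NF_nonneg w1)⟩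
  obtain ⟨f, hf⟩ : ∃ f : ℕ, (f : ℤ) = NF z2 := ⟨_, Int.toNat_of_nonneg (NF_nonneg z2)⟩
  have hee0 : 0 ≤ BF w1 z2 := by
    by_contra hcon
    push Not at hcon
    have h1 : (2 * n1 : ℤ) * BF w1 z2 < 0 := mul_neg_of_pos_of_neg hn2 hcon
    have h2 := mul_nonneg hm0 hN0
    linarith
  obtain ⟨ee, hee⟩ : ∃ ee : ℕ, (ee : ℤ) = BF w1 z2 := ⟨_, Int.toNat_of_nonneg hee0⟩
  rw [← hμ, ← hν, ← hee] at hβ
  rw [← hμ, ← hν, ← hee, ← hd, ← hf] at hgram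
  rw [← hμ, ← hd, ← hD'] at hdd
  have hgeq : (D' : ℤ) * (4 * n1 * f - 3 * ν ^ 2) = β ^ 2 + 4 * n1 := by
    apply mul_left_cancel₀ (by norm_num : (3 : ℤ) ≠ 0)
    rw [hdd, hβ]
    linear_combination 2 * (n1 : ℤ) * hgram
  have hg0 : (0 : ℤ) ≤ 4 * n1 * f - 3 * ν ^ 2 := by
    by_contra hcon
    push Not at hcon
    have h1 : (D' : ℤ) * (4 * n1 * f - 3 * ν ^ 2) < 0 :=
      mul_neg_of_pos_of_neg (by rw [hD']; exact hcpos) hcon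
    have h2 := sq_nonneg (β : ℤ)
    linarith
  obtain ⟨g, hg⟩ : ∃ g : ℕ, (g : ℤ) = 4 * n1 * f - 3 * ν ^ 2 := ⟨_, Int.toNat_of_nonneg hg0⟩
  rw [← hg] at hgeq
  have hW : Wit n1 b D e μ β ν D' d ee g f := by
    refine ⟨he, ?_, ?_, ?_, ?_, ?_, ?_, ?_, ?_, ?_⟩
    · rw [hc2, ← hD'] at hDc
      have : (D : ℤ) = 3 * e ^ 2 * D' := by linarith
      exact_mod_cast this
    · have : (β : ℤ) < D' := by rw [hβ, hD', hμ, hν, hee]; exact hβ1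
      exact_mod_cast this
    · have : (μ : ℤ) < 2 * n1 := by rw [hμ]; exact hm1
      exact_mod_cast this
    · have : (ν : ℤ) < 2 * n1 := by rw [hν]; exact hN1
      exact_mod_cast this
    · refine ⟨-k, ?_⟩
      rw [hμ]
      linarith
    · have : 4 * (n1 : ℤ) * d = 3 * μ ^ 2 + D' := by rw [hdd]; ring
      exact_mod_cast this
    · exact_mod_cast hgeq
    · have : 2 * (n1 : ℤ) * ee = β + 3 * μ * ν := by rw [hβ]; ring
      exact_mod_cast this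
    · have : 4 * (n1 : ℤ) * f = g + 3 * ν ^ 2 := by rw [hg]; ring
      exact_mod_cast this
  obtain ⟨hmem, e1, e2, e3, e4⟩ := mem_of_wit hD0 hW
  refine ⟨(e, μ, β, ν), cols v w1 z2, hmem, ⟨?_, ?_⟩, ?_⟩
  · rw [gram_iff v w1 z2 _ (mm_symm _ _ _)]
    refine ⟨hv, ?_, ?_, ?_, ?_, ?_⟩
    · show BF v w1 = 3 * (μ : ℤ)
      rw [hm, hμ]
    · show BF v z2 = 3 * (ν : ℤ)
      rw [hN, hν]
    · show BF w1 w1 = 2 * (((3 * μ ^ 2 + D / (3 * e ^ 2)) / (4 * n1) : ℕ) : ℤ)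
      rw [e2, hd, hww]
    · show BF w1 z2 = (((β + 3 * μ * ν) / (2 * n1) : ℕ) : ℤ)
      rw [e3, hee]
    · show BF z2 z2 =
        2 * ((((4 * n1 + β ^ 2) / (D / (3 * e ^ 2)) + 3 * ν ^ 2) / (4 * n1) : ℕ) : ℤ)
      rw [e4, hf, BF_self]
  · rw [det_cols, hdet]
  · have hkk : (b - 3 * (e : ℤ) * μ) / (2 * n1) = k := by
      rw [hμ, hbk]
      exact Int.mul_ediv_cancel_left _ hn2.ne'
    refine Prod.ext rfl ?_
    show (3 * e : ℤ) • w1 + ((b - 3 * (e : ℤ) * μ) / (2 * n1)) • v = w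
    rw [hkk, ← hk]
    abel

end Pool.Agent.H757_X15.BB.Cn

namespace Pool.Agent.H757_X15.BB

open Pool.Agent.H757_X15.BB.Cn

theorem t_CNT : S_CNT := by
  intro h n1 n2 b D hs h12 _ hD0 hDD
  rw [← card_fr h n1 b D, ← card_pairs]
  symm
  refine Nat.card_eq_of_bijective (fun p : Fr n1 b D => (⟨toPair b n1 p.1.1 p.2.1,
    toPair_mem hDD p.1.2 p.2.2.1⟩ : Pairs n1 n2 b)) ⟨?_, ?_⟩
  · rintro ⟨⟨⟨e, μ, β, ν⟩, hx⟩, ⟨A, hA⟩⟩ ⟨⟨⟨e', μ', β', ν'⟩, hx'⟩, ⟨A', hA'⟩⟩ heq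
    have h1 := congrArg Subtype.val heq
    obtain ⟨h2, h3⟩ := toPair_inj hx hx' hA.1 hA.2 hA'.1 hA'.2 h1
    simp only [Prod.mk.injEq] at h2
    obtain ⟨rfl, rfl, rfl, rfl⟩ := h2
    subst h3
    rfl
  · rintro ⟨⟨v, w⟩, hv, hw, hvw⟩
    obtain ⟨x, A, hx, hA, hp⟩ := toPair_surj hs h12 hD0 hDD hv hw hvw
    exact ⟨⟨⟨x, hx⟩, ⟨A, hA⟩⟩, Subtype.ext hp⟩

end Pool.Agent.H757_X15.BB
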