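import Pool.Agent.H757_X15.BS.JacB
import Pool.Agent.H757_X15.StmB

/-!
# X15-B5 (helper219): Gordon's identity and the statement `S_JAC`
-/

set_option autoImplicit false

namespace Pool.Agent.H757_X15.BB

open Finset Polynomial Pool.Agent.H464R3.J Pool.Agent.Y246.Z700

/-- coefficients of products of sums of monomials -/
theorem coeff_two {ι κ : Type*} (A : Finset ι) (B : Finset κ) (f : ι → ℤ) (u : ι → ℕ) (g : κ → ℤ)
    (v : κ → ℕ) (m : ℕ) :
    ((∑ a ∈ A, C (f a) * X ^ (u a)) * (∑ b ∈ B, C (g b) * X ^ (v b)) : ℤ[X]).coeff m =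
      ∑ p ∈ (A ×ˢ B).filter (fun p => u p.1 + v p.2 = m), f p.1 * g p.2 := by
  classical
  rw [Finset.sum_mul_sum, ← Finset.sum_product', finsetSum_coeff, Finset.sum_filter]
  refine Finset.sum_congr rfl fun p _ => ?_
  rw [show C (f p.1) * X ^ (u p.1) * (C (g p.2) * X ^ (v p.2)) =
    C (f p.1 * g p.2) * X ^ (u p.1 + v p.2) by rw [C_mul, pow_add]; ring, coeff_C_mul, coeff_X_pow]
  by_cases h : u p.1 + v p.2 = m
  · rw [if_pos h, if_pos h.symm, mul_one]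
  · rw [if_neg h, if_neg (fun h' => h h'.symm), mul_zero]

/-- the series of Jacobi -/
noncomputable def Jc (n : ℕ) : ℤ[X] :=
  ∑ k ∈ range (n + 1), C ((-1) ^ k * (2 * (k : ℤ) + 1)) * X ^ ((k + 1).choose 2)

theorem Jc_eq (n : ℕ) : Jc n = ∑ k ∈ range (n + 1), (-1) ^ k * (2 * (k : ℤ[X]) + 1) *
    X ^ ((k + 1).choose 2) := by
  unfold Jc
  refine Finset.sum_congr rfl fun k _ => ?_
  simp

/-- Euler's series in `X²` -/
noncomputable def Eu (n : ℕ) : ℤ[X] :=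
  ∑ i ∈ Icc (-(n : ℤ)) n, C (sg i) * X ^ (2 * pentagonal i)

/-- Gordon's series -/
noncomputable def Go (n : ℕ) : ℤ[X] :=
  ∑ t ∈ Icc (-(n : ℤ)) n, C (1 - 6 * t) * X ^ (pentagonal t)

theorem le_pentagonal (t : ℤ) : |t| ≤ (pentagonal t : ℤ) := by
  have h := two_mul_natCast_pentagonal t
  rcases abs_cases t with ⟨e, h1⟩ | ⟨e, h1⟩ <;> rw [e] <;> nlinarith

theorem natAbs_sq_cast (j : ℤ) : ((j.natAbs ^ 2 : ℕ) : ℤ) = j ^ 2 := by
  rw [Nat.cast_pow, Int.natCast_natAbs, sq_abs]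

/-- the coefficients of the product of the series of Jacobi and of `φ(-q)` -/
theorem coeff_JP (n m : ℕ) (hm : m ≤ n) : (Jc n * Ph n).coeff m =
    ∑ p ∈ (SS m).filter (fun p => 0 ≤ p.1), wS p := by
  unfold Jc Ph
  rw [coeff_two]
  have key : ∀ (k : ℕ) (j : ℤ), (k + 1).choose 2 + j.natAbs ^ 2 = m ↔
      (k : ℤ) * (k + 1) + 2 * j ^ 2 = 2 * m := by
    intro k j
    have h4 : 2 * (((k + 1).choose 2 : ℕ) : ℤ) = (k + 1) * k := by exact_mod_cast two_tri k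
    rw [← @Nat.cast_inj ℤ, Nat.cast_add, natAbs_sq_cast]
    constructor <;> intro h <;> nlinarith
  refine Finset.sum_nbij' (fun p => ((p.1 : ℤ), p.2)) (fun p => (p.1.toNat, p.2)) ?_ ?_ ?_ ?_ ?_
  · intro p hp
    rw [Finset.mem_filter] at hp
    rw [Finset.mem_filter, mem_SS]
    exact ⟨(key p.1 p.2).1 hp.2, Int.natCast_nonneg _⟩
  · intro p hp
    rw [Finset.mem_filter, mem_SS] at hp
    obtain ⟨hp1, hp2⟩ := hp
    obtain ⟨k, hk⟩ := Int.eq_ofNat_of_zero_le hp2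
    rw [Finset.mem_filter, Finset.mem_product, Finset.mem_range, Finset.mem_Icc]
    simp only
    rw [hk] at hp1 ⊢
    have h5 := (key k p.2).2 hp1
    have h6 := k_le_tri k
    have h7 : p.2.natAbs ≤ p.2.natAbs ^ 2 := Nat.le_self_pow (by norm_num) _
    refine ⟨⟨?_, ?_, ?_⟩, ?_⟩
    · simp only [Int.toNat_natCast]; omega
    · omega
    · omega
    · simpa using h5
  · intro p _
    simp
  · intro p hp
    rw [Finset.mem_filter] at hp
    obtain ⟨k, j⟩ := p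
    ext
    · simp only
      exact Int.toNat_of_nonneg hp.2
    · rfl
  · intro p _
    unfold wS
    simp only
    rw [sg_natAbs, ← sg_mul, ← sg_natAbs (p.1 : ℤ), Int.natAbs_natCast]
    ring

/-- the coefficients of the product of Euler's and Gordon's series -/
theorem coeff_GE (n m : ℕ) (hm : m ≤ n) : (Go n * Eu n).coeff m = ∑ p ∈ TT m, wT p := by
  unfold Go Eu
  rw [coeff_two]
  refine Finset.sum_congr ?_ ?_
  · ext p
    rw [Finset.mem_filter, mem_TT, Finset.mem_product, Finset.mem_Icc, Finset.mem_Icc]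
    have h1 := two_mul_natCast_pentagonal p.1
    have h2 := two_mul_natCast_pentagonal p.2
    have h3 := le_pentagonal p.1
    have h4 := le_pentagonal p.2
    rw [abs_le] at h3 h4
    rw [← h1, ← h2, ← @Nat.cast_inj ℤ, Nat.cast_add, Nat.cast_mul, Nat.cast_ofNat]
    have h5 : (m : ℤ) ≤ n := by exact_mod_cast hm
    constructor
    · intro h
      linarith [h.2]
    · intro h
      have e : (pentagonal p.1 : ℤ) + 2 * pentagonal p.2 = m := by linarith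
      have h6 : (0 : ℤ) ≤ pentagonal p.1 := Int.natCast_nonneg _
      have h7 : (0 : ℤ) ≤ pentagonal p.2 := Int.natCast_nonneg _
      refine ⟨⟨⟨?_, ?_⟩, ?_, ?_⟩, e⟩ <;> linarith
  · intro p _
    unfold wT
    ring

theorem JP_GE (n : ℕ) : (X ^ (n + 1) : ℤ[X]) ∣ Jc n * Ph n - Go n * Eu n := by
  rw [X_pow_dvd_iff]
  intro m hm
  rw [coeff_sub, coeff_JP n m (by omega), coeff_GE n m (by omega), lat2, sub_self]

/-! ### Euler's theorem -/

theorem PP_congr {n N : ℕ} (h : n ≤ N) : (X ^ (n + 1) : ℤ[X]) ∣ PP N - PP n := by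
  have e : PP N = PP n * ∏ j ∈ Ico n N, (1 - X ^ (j + 1)) := by
    unfold PP
    rw [Finset.prod_range_mul_prod_Ico _ h]
  rw [e, show PP n * ∏ j ∈ Ico n N, (1 - X ^ (j + 1)) - PP n =
    PP n * (∏ j ∈ Ico n N, (1 - X ^ (j + 1)) - 1) by ring]
  exact (dvd_prod_sub_one n _ fun j hj => (Finset.mem_Ico.1 hj).1).mul_left _

theorem PP_coeff (n m : ℕ) (h : m ≤ n) :
    (PP n).coeff m = (PowerSeries.pentagonalSeries ℤ).coeff m := by
  obtain ⟨N0, hN0⟩ := pent_coeff m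
  have h1 := hN0 (max N0 n) (le_max_left _ _) m le_rfl
  have h2 := X_pow_dvd_iff.1 (PP_congr (le_max_right N0 n)) m (by omega)
  rw [coeff_sub, sub_eq_zero] at h2
  rw [← h1, h2]

theorem negOnePow_sg (k : ℤ) : ((Int.negOnePow k : ℤˣ) : ℤ) = sg k := by
  unfold sg
  rcases Int.even_or_odd k with h | h
  · rw [Int.negOnePow_even k h, if_pos (Int.even_iff.1 h)]
    rfl
  · rw [Int.negOnePow_odd k h, if_neg (by rw [Int.odd_iff.1 h]; norm_num)]
    rfl

theorem pentagonal_inj {a b : ℤ} (h : pentagonal a = pentagonal b) : a = b := by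
  have h1 := two_mul_natCast_pentagonal a
  have h2 := two_mul_natCast_pentagonal b
  rw [h] at h1
  have h3 : (a - b) * (3 * (a + b) - 1) = 0 := by linear_combination h2 - h1
  rcases mul_eq_zero.1 h3 with h4 | h4
  · linarith
  · omega

theorem Eu_coeff (n m : ℕ) (h : m ≤ n) : (Eu n).coeff m = (P2 n).coeff m := by
  classical
  rw [P2_eq, coeff_expand (by norm_num)]
  unfold Eu
  rw [finsetSum_coeff]
  simp only [coeff_C_mul, coeff_X_pow, mul_ite, mul_one, mul_zero]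
  by_cases hm : 2 ∣ m
  · obtain ⟨s, rfl⟩ := hm
    rw [if_pos (dvd_mul_right 2 s), Nat.mul_div_cancel_left s (by norm_num), PP_coeff n s (by omega)]
    by_cases hex : ∃ k : ℤ, pentagonal k = s
    · obtain ⟨k, hk⟩ := hex
      rw [← hk, PowerSeries.coeff_pentagonalSeries_pentagonal, Finset.sum_eq_single k]
      · rw [if_pos rfl, ← negOnePow_sg, Int.cast_id]
      · intro b _ hb
        rw [if_neg]
        intro h'
        exact hb (pentagonal_inj (by omega))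
      · intro hk2
        exfalso
        apply hk2
        have := le_pentagonal k
        rw [abs_le] at this
        rw [Finset.mem_Icc]
        have h3 : (pentagonal k : ℤ) ≤ n := by
          rw [hk]
          exact_mod_cast (by omega : s ≤ n)
        constructor <;> linarith
    · rw [PowerSeries.coeff_pentagonalSeries_eq_zero]
      · refine Finset.sum_eq_zero fun i _ => ?_
        rw [if_neg]
        intro h'
        exact hex ⟨i, by omega⟩
      · rintro ⟨k, hk⟩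
        exact hex ⟨k, hk⟩
  · rw [if_neg hm]
    refine Finset.sum_eq_zero fun i _ => ?_
    rw [if_neg]
    intro h'
    exact hm ⟨_, h'⟩

theorem Eu_congr (n : ℕ) : (X ^ (n + 1) : ℤ[X]) ∣ Eu n - P2 n := by
  rw [X_pow_dvd_iff]
  intro m hm
  rw [coeff_sub, Eu_coeff n m (by omega), sub_self]

theorem P2_coprime (n : ℕ) : IsCoprime (X : ℤ[X]) (P2 n) := by
  unfold P2
  refine IsCoprime.prod_right fun j _ => ?_
  refine ⟨X ^ (2 * j + 1), 1, ?_⟩
  rw [← pow_mul, show 2 * (j + 1) = 2 * j + 1 + 1 by ring, pow_succ X (2 * j + 1)]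
  ring

/-- Gordon's identity -/
theorem gordon (n : ℕ) : (X ^ (n + 1) : ℤ[X]) ∣ PP n * Ph n ^ 2 - Go n := by
  have h1 : (X ^ (n + 1) : ℤ[X]) ∣ P2 n * (PP n * Ph n ^ 2 - Go n) := by
    have g1 : (X ^ (n + 1) : ℤ[X]) ∣ (PP n) ^ 2 - P2 n * Ph n := by
      have a1 : (X ^ (n + 1) : ℤ[X]) ∣ (PP (2 * n)) ^ 2 - P2 n * Ph n :=
        (pow_dvd_pow _ (by omega)).trans (gauss_dvd n)
      have a2 : (X ^ (n + 1) : ℤ[X]) ∣ (PP (2 * n)) ^ 2 - (PP n) ^ 2 :=
        (PP_congr (by omega : n ≤ 2 * n)).trans (sub_dvd_pow_sub_pow _ _ 2)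
      have e : (PP n) ^ 2 - P2 n * Ph n = ((PP (2 * n)) ^ 2 - P2 n * Ph n) -
        ((PP (2 * n)) ^ 2 - (PP n) ^ 2) := by ring
      rw [e]
      exact dvd_sub a1 a2
    have g2 : (X ^ (n + 1) : ℤ[X]) ∣ (PP n) ^ 3 - Jc n := by
      rw [Jc_eq]
      exact jac_dvd n
    have g3 := JP_GE n
    have g4 := Eu_congr n
    have e : P2 n * (PP n * Ph n ^ 2 - Go n) = -(PP n * Ph n) * ((PP n) ^ 2 - P2 n * Ph n) +
        Ph n * ((PP n) ^ 3 - Jc n) + (Jc n * Ph n - Go n * Eu n) + Go n * (Eu n - P2 n) := by ring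
    rw [e]
    exact dvd_add (dvd_add (dvd_add (g1.mul_left _) (g2.mul_left _)) g3) (g4.mul_left _)
  exact ((P2_coprime n).pow_left).dvd_of_dvd_mul_left h1

theorem gordon_coeff {n m : ℕ} (hm : m ≤ n) (h : ∀ k : ℤ, pentagonal k ≠ m) :
    (PP n * Ph n ^ 2).coeff m = 0 := by
  have h1 := X_pow_dvd_iff.1 (gordon n) m (by omega)
  rw [coeff_sub, sub_eq_zero] at h1
  rw [h1]
  unfold Go
  rw [finsetSum_coeff]
  refine Finset.sum_eq_zero fun k _ => ?_
  rw [coeff_C_mul, coeff_X_pow, if_neg (fun h' => h k h'.symm), mul_zero]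

/-! ### the ternary sum -/

/-- the theta series of the second variable -/
noncomputable def Q3 (n : ℕ) : ℤ[X] :=
  ∑ y ∈ Icc (-(n : ℤ)) n, C ((fun _ : ℤ => (1 : ℤ)) y) * X ^ (12 * y.natAbs ^ 2)

/-- the theta series of the third variable -/
noncomputable def Q4 (n : ℕ) : ℤ[X] :=
  ∑ z ∈ Icc (-(n : ℤ)) n, C (sg z) * X ^ (12 * z.natAbs ^ 2)

theorem Ph_exp (n : ℕ) : expand ℤ 24 (Ph n) =
    ∑ u ∈ Icc (-(n : ℤ)) n, C (sg u) * X ^ (24 * u.natAbs ^ 2) := by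
  unfold Ph
  rw [map_sum]
  refine Finset.sum_congr rfl fun u _ => ?_
  rw [map_mul, expand_C, map_pow (expand ℤ 24) X, expand_X, sg_natAbs, ← pow_mul]

/-- the even part -/
theorem even_part (n s : ℕ) (hs : s ≤ n) :
    ∑ p ∈ ((Icc (-(n : ℤ)) n ×ˢ Icc (-(n : ℤ)) n).filter
      (fun p => 12 * p.1.natAbs ^ 2 + 12 * p.2.natAbs ^ 2 = s)).filter
        (fun p => (p.1 + p.2) % 2 = 0), (1 : ℤ) * sg p.2 =
    ∑ p ∈ (Icc (-(n : ℤ)) n ×ˢ Icc (-(n : ℤ)) n).filter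
      (fun p => 24 * p.1.natAbs ^ 2 + 24 * p.2.natAbs ^ 2 = s), sg p.1 * sg p.2 := by
  symm
  have key1 : ∀ y z : ℤ, 12 * y.natAbs ^ 2 + 12 * z.natAbs ^ 2 = s ↔ 12 * y ^ 2 + 12 * z ^ 2 = s := by
    intro y z
    rw [← natAbs_sq_cast y, ← natAbs_sq_cast z]
    norm_cast
  have key2 : ∀ y z : ℤ, 24 * y.natAbs ^ 2 + 24 * z.natAbs ^ 2 = s ↔ 24 * y ^ 2 + 24 * z ^ 2 = s := by
    intro y z
    rw [← natAbs_sq_cast y, ← natAbs_sq_cast z]
    norm_cast
  have hb : ∀ a : ℤ, a ^ 2 ≤ n → -(n : ℤ) ≤ a ∧ a ≤ n := by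
    intro a ha
    constructor <;> nlinarith [sq_nonneg (a + 1), sq_nonneg (a - 1)]
  have hs' : (s : ℤ) ≤ n := by exact_mod_cast hs
  refine Finset.sum_nbij' (fun p => (p.1 + p.2, p.1 - p.2))
    (fun p => ((p.1 + p.2) / 2, (p.1 - p.2) / 2)) ?_ ?_ ?_ ?_ ?_
  · intro p hp
    rw [Finset.mem_filter, key2] at hp
    rw [Finset.mem_filter, Finset.mem_filter, key1, Finset.mem_product, Finset.mem_Icc,
      Finset.mem_Icc]
    simp only
    have e : 12 * (p.1 + p.2) ^ 2 + 12 * (p.1 - p.2) ^ 2 = s := by linear_combination hp.2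
    refine ⟨⟨⟨hb _ ?_, hb _ ?_⟩, e⟩, by omega⟩
    · nlinarith [sq_nonneg (p.1 - p.2), sq_nonneg (p.1 + p.2)]
    · nlinarith [sq_nonneg (p.1 - p.2), sq_nonneg (p.1 + p.2)]
  · intro p hp
    rw [Finset.mem_filter, Finset.mem_filter, key1] at hp
    obtain ⟨⟨_, hp⟩, hpar⟩ := hp
    obtain ⟨u, hu⟩ : ∃ u, p.1 + p.2 = 2 * u := ⟨(p.1 + p.2) / 2, by omega⟩
    obtain ⟨w, hw⟩ : ∃ w, p.1 - p.2 = 2 * w := ⟨(p.1 - p.2) / 2, by omega⟩
    rw [Finset.mem_filter, key2, Finset.mem_product, Finset.mem_Icc, Finset.mem_Icc]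
    simp only
    rw [hu, hw, Int.mul_ediv_cancel_left _ (by norm_num), Int.mul_ediv_cancel_left _ (by norm_num)]
    have e1 : p.1 = u + w := by linarith
    have e2 : p.2 = u - w := by linarith
    rw [e1, e2] at hp
    have e : 24 * u ^ 2 + 24 * w ^ 2 = s := by linear_combination hp
    refine ⟨⟨hb _ ?_, hb _ ?_⟩, e⟩
    · nlinarith [sq_nonneg u, sq_nonneg w]
    · nlinarith [sq_nonneg u, sq_nonneg w]
  · intro p _
    obtain ⟨u, w⟩ := p
    simp only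
    rw [show u + w + (u - w) = 2 * u by ring, show u + w - (u - w) = 2 * w by ring,
      Int.mul_ediv_cancel_left _ (by norm_num), Int.mul_ediv_cancel_left _ (by norm_num)]
  · intro p hp
    rw [Finset.mem_filter] at hp
    obtain ⟨y, z⟩ := p
    simp only at hp ⊢
    ext
    · simp only; omega
    · simp only; omega
  · intro p _
    simp only
    rw [sg_mul, one_mul]
    exact sg_congr (by omega)

theorem odd_part (n s : ℕ) :
    ∑ p ∈ ((Icc (-(n : ℤ)) n ×ˢ Icc (-(n : ℤ)) n).filter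
      (fun p => 12 * p.1.natAbs ^ 2 + 12 * p.2.natAbs ^ 2 = s)).filter
        (fun p => ¬ (p.1 + p.2) % 2 = 0), (1 : ℤ) * sg p.2 = 0 := by
  have h : ∑ p ∈ ((Icc (-(n : ℤ)) n ×ˢ Icc (-(n : ℤ)) n).filter
      (fun p => 12 * p.1.natAbs ^ 2 + 12 * p.2.natAbs ^ 2 = s)).filter
        (fun p => ¬ (p.1 + p.2) % 2 = 0), (1 : ℤ) * sg p.2 =
      ∑ p ∈ ((Icc (-(n : ℤ)) n ×ˢ Icc (-(n : ℤ)) n).filter
      (fun p => 12 * p.1.natAbs ^ 2 + 12 * p.2.natAbs ^ 2 = s)).filter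
        (fun p => ¬ (p.1 + p.2) % 2 = 0), -((1 : ℤ) * sg p.2) := by
    have key : ∀ p ∈ ((Icc (-(n : ℤ)) n ×ˢ Icc (-(n : ℤ)) n).filter
      (fun p => 12 * p.1.natAbs ^ 2 + 12 * p.2.natAbs ^ 2 = s)).filter
        (fun p => ¬ (p.1 + p.2) % 2 = 0), (p.2, p.1) ∈
        ((Icc (-(n : ℤ)) n ×ˢ Icc (-(n : ℤ)) n).filter
      (fun p => 12 * p.1.natAbs ^ 2 + 12 * p.2.natAbs ^ 2 = s)).filter
        (fun p => ¬ (p.1 + p.2) % 2 = 0) := by
      intro p hp
      rw [Finset.mem_filter, Finset.mem_filter, Finset.mem_product] at hp ⊢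
      refine ⟨⟨⟨hp.1.1.2, hp.1.1.1⟩, ?_⟩, ?_⟩
      · rw [← hp.1.2]
        simp only
        ring
      · have := hp.2
        simp only
        omega
    refine Finset.sum_nbij' (fun p => (p.2, p.1)) (fun p => (p.2, p.1)) key key ?_ ?_ ?_
    · intro p _; rfl
    · intro p _; rfl
    · intro p hp
      rw [Finset.mem_filter] at hp
      simp only
      rcases Int.emod_two_eq_zero_or_one (p.2 - p.1) with h0 | h0
      · exfalso
        have := hp.2
        omega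
      · rw [sg_anti (x := p.2) (y := p.1) h0]
        ring
  rw [Finset.sum_neg_distrib] at h
  linarith

theorem Q34 (n s : ℕ) (hs : s ≤ n) : (Q3 n * Q4 n).coeff s = (expand ℤ 24 (Ph n ^ 2)).coeff s := by
  rw [map_pow, sq, Ph_exp, coeff_two]
  unfold Q3 Q4
  rw [coeff_two, ← Finset.sum_filter_add_sum_filter_not _ (fun p => (p.1 + p.2) % 2 = 0), odd_part,
    even_part n s hs, add_zero]

theorem Q34_congr (n : ℕ) : (X ^ (n + 1) : ℤ[X]) ∣ Q3 n * Q4 n - expand ℤ 24 (Ph n ^ 2) := by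
  rw [X_pow_dvd_iff]
  intro m hm
  rw [coeff_sub, Q34 n m (by omega), sub_self]

theorem TA_congr (n : ℕ) : (X ^ (n + 1) : ℤ[X]) ∣ TA n - C 2 * (X * expand ℤ 24 (PP n)) := by
  rw [X_pow_dvd_iff]
  intro s hs
  rw [coeff_sub, coeff_TA n s (by omega), coeff_C_mul]
  rcases Nat.eq_zero_or_pos s with rfl | hs0
  · simp
  · obtain ⟨t, rfl⟩ : ∃ t, s = t + 1 := ⟨s - 1, by omega⟩
    rw [coeff_X_mul, coeff_expand (by norm_num), Nat.add_sub_cancel]
    by_cases h : 24 ∣ t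
    · rw [if_pos ⟨h, by omega⟩, if_pos h, PP_coeff n _ (by omega), sub_self]
    · rw [if_neg (fun h2 => h h2.1), if_neg h, mul_zero, sub_self]

theorem prod_eq (n : ℕ) : (TA n * (Q3 n * Q4 n)).coeff n =
    (C 2 * (X * expand ℤ 24 (PP n * Ph n ^ 2)) : ℤ[X]).coeff n := by
  have h : (X ^ (n + 1) : ℤ[X]) ∣ TA n * (Q3 n * Q4 n) - C 2 * (X * expand ℤ 24 (PP n * Ph n ^ 2)) := by
    have e : TA n * (Q3 n * Q4 n) - C 2 * (X * expand ℤ 24 (PP n * Ph n ^ 2)) =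
        TA n * (Q3 n * Q4 n - expand ℤ 24 (Ph n ^ 2)) +
        (TA n - C 2 * (X * expand ℤ 24 (PP n))) * expand ℤ 24 (Ph n ^ 2) := by
      rw [map_mul (expand ℤ 24) (PP n)]
      ring
    rw [e]
    exact dvd_add ((Q34_congr n).mul_left _) ((TA_congr n).mul_right _)
  have h1 := X_pow_dvd_iff.1 h n (by omega)
  rwa [coeff_sub, sub_eq_zero] at h1

theorem sum_eq_coeff (n : ℕ) :
    ∑ v ∈ (Fintype.piFinset fun _ : Fin 3 => Icc (-(n : ℤ)) n).filter (fun v : Fin 3 → ℤ =>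
      v 0 ^ 2 + 12 * v 1 ^ 2 + 12 * v 2 ^ 2 = n), chi12 (v 0) * (-1) ^ (v 2).natAbs =
    (TA n * (Q3 n * Q4 n)).coeff n := by
  classical
  have h1 : TA n * (Q3 n * Q4 n) = ∏ i : Fin 3, ∑ a ∈ Icc (-(n : ℤ)) n,
      C ((![Pool.Agent.Z700.chi12, fun _ => 1, sg] : Fin 3 → ℤ → ℤ) i a) *
        X ^ ((![1, 12, 12] : Fin 3 → ℕ) i * a.natAbs ^ 2) := by
    rw [Fin.prod_univ_three, mul_assoc]
    unfold TA Q3 Q4
    simp
  rw [h1, Finset.prod_univ_sum, finsetSum_coeff, Finset.sum_filter]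
  refine Finset.sum_congr rfl fun v _ => ?_
  rw [Finset.prod_mul_distrib, Finset.prod_pow_eq_pow_sum, ← map_prod, coeff_C_mul, coeff_X_pow,
    mul_ite, mul_one, mul_zero, Fin.sum_univ_three, Fin.prod_univ_three]
  have e1 : (![Pool.Agent.Z700.chi12, fun _ => 1, sg] : Fin 3 → ℤ → ℤ) 0 (v 0) = chi12 (v 0) := rfl
  have e2 : (![Pool.Agent.Z700.chi12, fun _ => 1, sg] : Fin 3 → ℤ → ℤ) 1 (v 1) = 1 := rfl
  have e3 : (![Pool.Agent.Z700.chi12, fun _ => 1, sg] : Fin 3 → ℤ → ℤ) 2 (v 2) = sg (v 2) := rfl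
  have e4 : (![1, 12, 12] : Fin 3 → ℕ) 0 = 1 := rfl
  have e5 : (![1, 12, 12] : Fin 3 → ℕ) 1 = 12 := rfl
  have e6 : (![1, 12, 12] : Fin 3 → ℕ) 2 = 12 := rfl
  rw [e1, e2, e3, e4, e5, e6, sg_natAbs, mul_one]
  refine if_congr ?_ rfl rfl
  rw [← natAbs_sq_cast (v 0), ← natAbs_sq_cast (v 1), ← natAbs_sq_cast (v 2)]
  constructor
  · intro h
    rw [one_mul]
    exact_mod_cast h.symm
  · intro h
    rw [one_mul] at h
    exact_mod_cast h.symm

theorem t_JAC : S_JAC := by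
  intro n hn8 hns
  rw [show (∑ v ∈ (Fintype.piFinset fun _ : Fin 3 => Icc (-(n : ℤ)) n).filter
    fun v : Pool.Agent.Z700.V3 => v 0 ^ 2 + 12 * v 1 ^ 2 + 12 * v 2 ^ 2 = n,
      chi12 (v 0) * (-1) ^ (v 2).natAbs) = _ from sum_eq_coeff n, prod_eq, coeff_C_mul]
  obtain ⟨t, rfl⟩ : ∃ t, n = t + 1 := ⟨n - 1, by omega⟩
  rw [coeff_X_mul, coeff_expand (by norm_num)]
  split_ifs with h
  · obtain ⟨m, rfl⟩ := h
    rw [Nat.mul_div_cancel_left m (by norm_num), gordon_coeff (by omega), mul_zero]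
    intro k hk
    apply hns
    have h5 := sq_six k
    refine ⟨(6 * k - 1).natAbs, ?_⟩
    zify
    rw [← sq, sq_abs, h5, hk]
  · rw [mul_zero]

end Pool.Agent.H757_X15.BB
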