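import Pool.Agent.H757_X15.StmB

/-!
# The sums over the vectors with given line, type and orientation (S_SG)
-/

set_option autoImplicit false

namespace Pool.Agent.H757_X15.BB

open Finset Matrix
open Pool.Agent.Z700 (V3 fac hh)
open Pool.Agent.H757_X15.DD (Fm)

namespace SGx

theorem mem_vec {n : ℤ} {v : V3} : v ∈ vec n ↔ nm v = n := by
  unfold vec
  rw [Finset.mem_filter, Fintype.mem_piFinset]
  refine ⟨fun h => h.2, fun h => ⟨fun i => ?_, h⟩⟩
  unfold nm at h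
  have h4 : 4 * n = 12 * v 0 ^ 2 + (2 * v 1 - v 2) ^ 2 + 3 * v 2 ^ 2 := by rw [← h]; ring
  have h5 : 4 * n = 12 * v 0 ^ 2 + (v 1 - 2 * v 2) ^ 2 + 3 * v 1 ^ 2 := by rw [← h]; ring
  have key : ∀ x : ℤ, 3 * x ^ 2 ≤ 4 * n → x ∈ Icc (-n) n := by
    intro x hx
    have hn : 0 ≤ n := by nlinarith [sq_nonneg x]
    rw [Finset.mem_Icc]
    constructor
    · by_contra hc
      have : x ≤ -n - 1 := by omega
      nlinarith
    · by_contra hc
      have : n + 1 ≤ x := by omega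
      nlinarith
  apply key
  fin_cases i
  · show 3 * v 0 ^ 2 ≤ 4 * n
    nlinarith [sq_nonneg (2 * v 1 - v 2), sq_nonneg (v 2), sq_nonneg (v 0)]
  · show 3 * v 1 ^ 2 ≤ 4 * n
    nlinarith [sq_nonneg (v 1 - 2 * v 2), sq_nonneg (v 2), sq_nonneg (v 0)]
  · show 3 * v 2 ^ 2 ≤ 4 * n
    nlinarith [sq_nonneg (2 * v 1 - v 2), sq_nonneg (v 2), sq_nonneg (v 0)]

theorem zm4 : ∀ p q s : ZMod 4, 3 * p ^ 2 + q ^ 2 - q * s + s ^ 2 = 1 →
    (p = 0 ∨ p = 2) ∧ (((q = 1 ∨ q = 3) ∧ s = 0) ∨ (q = 0 ∧ (s = 1 ∨ s = 3)) ∨ (q = 1 ∧ s = 1) ∨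
      (q = 3 ∧ s = 3)) := by decide

theorem c4 {a : ℤ} (k : ℤ) (h : (a : ZMod 4) = (k : ZMod 4)) : a % 4 = k % 4 := by
  have := (ZMod.intCast_eq_intCast_iff' a k 4).1 h
  exact_mod_cast this

/-- the residues modulo `4` of the vectors of norm `1` modulo `4` -/
theorem cls4 {D : ℕ} (hD : D % 4 = 1) {v : V3} (hv : v ∈ vec D) : v 0 % 2 = 0 ∧
    (((v 1 % 4 = 1 ∨ v 1 % 4 = 3) ∧ v 2 % 4 = 0) ∨ (v 1 % 4 = 0 ∧ (v 2 % 4 = 1 ∨ v 2 % 4 = 3)) ∨
      (v 1 % 4 = 1 ∧ v 2 % 4 = 1) ∨ (v 1 % 4 = 3 ∧ v 2 % 4 = 3)) := by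
  rw [mem_vec, nm] at hv
  have h0 : ((D : ℤ) : ZMod 4) = 1 := by
    have : ((D : ℤ) : ZMod 4) = ((1 : ℤ) : ZMod 4) :=
      (ZMod.intCast_eq_intCast_iff' _ _ 4).2 (by omega)
    simpa using this
  have h1 : 3 * ((v 0 : ℤ) : ZMod 4) ^ 2 + ((v 1 : ℤ) : ZMod 4) ^ 2 -
      ((v 1 : ℤ) : ZMod 4) * ((v 2 : ℤ) : ZMod 4) + ((v 2 : ℤ) : ZMod 4) ^ 2 = 1 := by
    rw [← h0, ← hv]
    push_cast
    ring
  obtain ⟨a, b⟩ := zm4 _ _ _ h1
  refine ⟨?_, ?_⟩
  · rcases a with a | a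
    · have := c4 0 (by simpa using a)
      omega
    · have := c4 2 (by simpa using a)
      omega
  · rcases b with ⟨b | b, c⟩ | ⟨b, c | c⟩ | ⟨b, c⟩ | ⟨b, c⟩
    · have e1 := c4 1 (by simpa using b)
      have e2 := c4 0 (by simpa using c)
      omega
    · have e1 := c4 3 (by simpa using b)
      have e2 := c4 0 (by simpa using c)
      omega
    · have e1 := c4 0 (by simpa using b)
      have e2 := c4 1 (by simpa using c)
      omega
    · have e1 := c4 0 (by simpa using b)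
      have e2 := c4 3 (by simpa using c)
      omega
    · have e1 := c4 1 (by simpa using b)
      have e2 := c4 1 (by simpa using c)
      omega
    · have e1 := c4 3 (by simpa using b)
      have e2 := c4 3 (by simpa using c)
      omega

/-- the sum of the coordinates is prime to `3` -/
theorem cls3 {D : ℕ} (hD : D % 3 = 1) {v : V3} (hv : v ∈ vec D) :
    (v 1 + v 2) % 3 = 1 ∨ (v 1 + v 2) % 3 = 2 := by
  rw [mem_vec, nm] at hv
  by_contra hc
  have h0 : (v 1 + v 2) % 3 = 0 := by omega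
  obtain ⟨k, hk⟩ := Int.dvd_of_emod_eq_zero h0
  have h2 : v 2 = 3 * k - v 1 := by linarith
  rw [h2] at hv
  have : (D : ℤ) = 3 * (v 0 ^ 2 + v 1 ^ 2 - 3 * k * v 1 + 3 * k ^ 2) := by rw [← hv]; ring
  omega

/-- transport of the sums along a bijection -/
theorem tg_map (D : ℕ) (n n' : Fin 3 → ZMod 5) (β : ZMod 5) (i i' : Fin 3) (ε ε' δ : ℤ)
    (T S : V3 → V3)
    (hT : ∀ v ∈ vec D, ty v = i → nm (T v) = nm v ∧ ty (T v) = i' ∧ S (T v) = v ∧
      (Ln n' β (T v) ↔ Ln n β v) ∧ (ep (T v) = ε' ↔ ep v = ε) ∧ chv (T v) = δ * chv v)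
    (hS : ∀ v ∈ vec D, ty v = i' → nm (S v) = nm v ∧ ty (S v) = i ∧ T (S v) = v) :
    Tg D β n' i' ε' = δ * Tg D β n i ε := by
  unfold Tg
  rw [Finset.mul_sum]
  symm
  refine Finset.sum_nbij' T S ?_ ?_ ?_ ?_ ?_
  · intro v hv
    rw [Finset.mem_filter] at hv ⊢
    obtain ⟨hv, hL, hi, he⟩ := hv
    obtain ⟨t1, t2, t3, t4, t5, t6⟩ := hT v hv hi
    refine ⟨?_, t4.2 hL, t2, t5.2 he⟩
    rw [mem_vec, t1, ← mem_vec]
    exact hv
  · intro v hv
    rw [Finset.mem_filter] at hv ⊢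
    obtain ⟨hv, hL, hi, he⟩ := hv
    obtain ⟨s1, s2, s3⟩ := hS v hv hi
    have hw : S v ∈ vec D := by
      rw [mem_vec, s1, ← mem_vec]
      exact hv
    obtain ⟨t1, t2, t3, t4, t5, t6⟩ := hT (S v) hw s2
    rw [s3] at t4 t5
    exact ⟨hw, t4.1 hL, s2, t5.1 he⟩
  · intro v hv
    rw [Finset.mem_filter] at hv
    exact (hT v hv.1 hv.2.2.1).2.2.1
  · intro v hv
    rw [Finset.mem_filter] at hv
    exact (hS v hv.1 hv.2.2.1).2.2
  · intro v hv
    rw [Finset.mem_filter] at hv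
    exact (hT v hv.1 hv.2.2.1).2.2.2.2.2.symm

theorem nm_mk (a b c : ℤ) : nm ![a, b, c] = 3 * a ^ 2 + b ^ 2 - b * c + c ^ 2 := rfl

theorem ep_mk (a b c : ℤ) : ep ![a, b, c] = if (b + c) % 3 = 1 then 1 else -1 := rfl

theorem ty_mk (a b c : ℤ) : ty ![a, b, c] = if c % 4 = 0 then 0 else if b % 4 = 0 then 1 else 2 :=
  rfl

theorem chv_mk (a b c : ℤ) : chv ![a, b, c] = if c % 4 = 0 then chi4 b else if b % 4 = 0 then
    chi4 c else -chi4 b := rfl

theorem ty_eq (v : V3) : ty v = if v 2 % 4 = 0 then 0 else if v 1 % 4 = 0 then 1 else 2 :=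
  rfl

theorem chv_eq (v : V3) : chv v = if v 2 % 4 = 0 then chi4 (v 1) else if v 1 % 4 = 0 then
    chi4 (v 2) else -chi4 (v 1) := rfl

theorem ep_cases (v : V3) : ep v = 1 ∨ ep v = -1 := by
  unfold ep
  split_ifs
  · exact Or.inl rfl
  · exact Or.inr rfl

/-- multiplication by `ω` on lines -/
def om (n : Fin 3 → ZMod 5) : Fin 3 → ZMod 5 := ![n 0, -n 2, n 1 - n 2]

theorem tg_om {D : ℕ} (hD : D % 4 = 1) (n : Fin 3 → ZMod 5) (β : ZMod 5) (i : Fin 3) (ε : ℤ) :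
    Tg D β (om n) (i + 1) ε = Tg D β n i ε := by
  have := tg_map D n (om n) β i (i + 1) ε ε 1 (fun v => ![v 0, -v 2, v 1 - v 2])
    (fun v => ![v 0, v 2 - v 1, -v 1]) ?_ ?_
  · rw [this, one_mul]
  · intro v hv hi
    have h4 := cls4 hD hv
    refine ⟨?_, ?_, ?_, ?_, ?_, ?_⟩
    · rw [nm_mk, nm]
      ring
    · subst hi
      rw [ty_mk, ty_eq]
      split_ifs <;> first | rfl | omega
    · ext j
      fin_cases j <;> simp
    · unfold Ln om
      simp only [Matrix.cons_val_zero, Matrix.cons_val_one, Matrix.cons_val]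
      push_cast
      constructor
      · rintro ⟨h1, h2, h3⟩
        refine ⟨?_, ?_, ?_⟩
        · linear_combination h1
        · linear_combination h3 - h2
        · linear_combination - h2
      · rintro ⟨h1, h2, h3⟩
        refine ⟨?_, ?_, ?_⟩
        · linear_combination h1
        · linear_combination - h3
        · linear_combination h2 - h3
    · have : (-v 2 + (v 1 - v 2)) % 3 = (v 1 + v 2) % 3 := by omega
      rw [ep_mk, this]
      rfl
    · rw [chv_mk, chv_eq]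
      unfold chi4
      split_ifs <;> first | rfl | omega
  · intro v hv hi
    have h4 := cls4 hD hv
    refine ⟨?_, ?_, ?_⟩
    · rw [nm_mk, nm]
      ring
    · have : i = ty v - 1 := by rw [hi]; simp
      subst this
      rw [ty_mk, ty_eq]
      split_ifs <;> first | rfl | omega
    · ext j
      fin_cases j <;> simp

theorem tg_neg {D : ℕ} (hD : D % 4 = 1) (hD3 : D % 3 = 1) (n : Fin 3 → ZMod 5) (β : ZMod 5)
    (i : Fin 3) (ε : ℤ) (hε : ε = 1 ∨ ε = -1) :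
    Tg D β ![n 0, -n 1, -n 2] i (-ε) = -Tg D β n i ε := by
  have := tg_map D n ![n 0, -n 1, -n 2] β i i ε (-ε) (-1) (fun v => ![v 0, -v 1, -v 2])
    (fun v => ![v 0, -v 1, -v 2]) ?_ ?_
  · rw [this]; ring
  · intro v hv hi
    have h4 := cls4 hD hv
    have h3 := cls3 hD3 hv
    refine ⟨?_, ?_, ?_, ?_, ?_, ?_⟩
    · rw [nm_mk, nm]
      ring
    · subst hi
      rw [ty_mk, ty_eq]
      split_ifs <;> first | rfl | omega
    · ext j
      fin_cases j <;> simp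
    · unfold Ln
      simp only [Matrix.cons_val_zero, Matrix.cons_val_one, Matrix.cons_val]
      push_cast
      constructor
      · rintro ⟨h1, h2, h3⟩
        refine ⟨?_, ?_, ?_⟩
        · linear_combination h1
        · linear_combination - h2
        · linear_combination - h3
      · rintro ⟨h1, h2, h3⟩
        refine ⟨?_, ?_, ?_⟩
        · linear_combination h1
        · linear_combination - h2
        · linear_combination - h3
    · rw [ep_mk, ep]
      rcases h3 with h3 | h3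
      · have : ¬ (-v 1 + -v 2) % 3 = 1 := by omega
        rw [if_neg this, if_pos h3]
        rcases hε with rfl | rfl <;> simp
      · have a : (-v 1 + -v 2) % 3 = 1 := by omega
        have b : ¬ (v 1 + v 2) % 3 = 1 := by omega
        rw [if_pos a, if_neg b]
        rcases hε with rfl | rfl <;> simp
    · rw [chv_mk, chv_eq]
      unfold chi4
      split_ifs <;> first | rfl | omega
  · intro v hv hi
    have h4 := cls4 hD hv
    refine ⟨?_, ?_, ?_⟩
    · rw [nm_mk, nm]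
      ring
    · subst hi
      rw [ty_mk, ty_eq]
      split_ifs <;> first | rfl | omega
    · ext j
      fin_cases j <;> simp

theorem tg_ta {D : ℕ} (hD : D % 4 = 1) (n : Fin 3 → ZMod 5) (β : ZMod 5)
    (i : Fin 3) (ε : ℤ) :
    Tg D β ![-n 0, n 1 - n 2, -n 2] (-i) ε = Tg D β n i ε := by
  have := tg_map D n ![-n 0, n 1 - n 2, -n 2] β i (-i) ε ε 1 (fun v => ![-v 0, v 1 - v 2, -v 2])
    (fun v => ![-v 0, v 1 - v 2, -v 2]) ?_ ?_
  · rw [this, one_mul]
  · intro v hv hi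
    have h4 := cls4 hD hv
    refine ⟨?_, ?_, ?_, ?_, ?_, ?_⟩
    · rw [nm_mk, nm]
      ring
    · subst hi
      rw [ty_mk, ty_eq]
      split_ifs <;> first | rfl | omega
    · ext j
      fin_cases j <;> simp
    · unfold Ln
      simp only [Matrix.cons_val_zero, Matrix.cons_val_one, Matrix.cons_val]
      push_cast
      constructor
      · rintro ⟨h1, h2, h3⟩
        refine ⟨?_, ?_, ?_⟩
        · linear_combination - h1
        · linear_combination h2 - h3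
        · linear_combination - h3
      · rintro ⟨h1, h2, h3⟩
        refine ⟨?_, ?_, ?_⟩
        · linear_combination - h1
        · linear_combination h2 - h3
        · linear_combination - h3
    · have : (v 1 - v 2 + -v 2) % 3 = (v 1 + v 2) % 3 := by omega
      rw [ep_mk, this]
      rfl
    · rw [chv_mk, chv_eq]
      unfold chi4
      split_ifs <;> first | rfl | omega
  · intro v hv hi
    have h4 := cls4 hD hv
    refine ⟨?_, ?_, ?_⟩
    · rw [nm_mk, nm]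
      ring
    · have : i = -ty v := by rw [hi]; simp
      subst this
      rw [ty_mk, ty_eq]
      split_ifs <;> first | rfl | omega
    · ext j
      fin_cases j <;> simp

instance : Fact (Nat.Prime 5) := ⟨by norm_num⟩

theorem tg_smul (D : ℕ) (n : Fin 3 → ZMod 5) (β k : ZMod 5) (i : Fin 3) (ε : ℤ) (hk : k ≠ 0) :
    Tg D β (fun j => k * n j) i ε = Tg D β n i ε := by
  unfold Tg
  have : ∀ v, Ln (fun j => k * n j) β v ↔ Ln n β v := by
    intro v
    unfold Ln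
    constructor
    · rintro ⟨h1, h2, h3⟩
      refine ⟨mul_left_cancel₀ hk ?_, mul_left_cancel₀ hk ?_, mul_left_cancel₀ hk ?_⟩
      · linear_combination h1
      · linear_combination h2
      · linear_combination h3
    · rintro ⟨h1, h2, h3⟩
      refine ⟨?_, ?_, ?_⟩
      · linear_combination k * h1
      · linear_combination k * h2
      · linear_combination k * h3
  refine Finset.sum_congr ?_ fun _ _ => rfl
  ext v
  simp only [Finset.mem_filter, this]

/-- the quadratic form of the vectors of type `0` modulo `8` -/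
theorem mod8 (q y z : ℤ) (hq : q % 2 = 1) :
    (12 * y ^ 2 + q ^ 2 - 4 * q * z + 16 * z ^ 2) % 8 = (1 + 4 * (y + z)) % 8 := by
  obtain ⟨t, ht⟩ : ∃ t, q = 2 * t + 1 := ⟨q / 2, by omega⟩
  obtain ⟨a, ha⟩ : ∃ a, y * (3 * y - 1) = 2 * a := by
    rcases Int.even_or_odd' y with ⟨c, hc | hc⟩
    · exact ⟨c * (3 * y - 1), by rw [hc]; ring⟩
    · exact ⟨y * (3 * c + 1), by rw [hc]; ring⟩
  obtain ⟨b, hb⟩ : ∃ b, t * (t + 1) = 2 * b := by
    rcases Int.even_or_odd' t with ⟨c, hc | hc⟩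
    · exact ⟨c * (t + 1), by rw [hc]; ring⟩
    · exact ⟨t * (c + 1), by rw [hc]; ring⟩
  have : 12 * y ^ 2 + q ^ 2 - 4 * q * z + 16 * z ^ 2 =
      1 + 4 * (y + z) + 8 * (a + b - t * z - z + 2 * z ^ 2) := by
    rw [ht]
    linear_combination 4 * ha + 4 * hb
  rw [this, Int.add_mul_emod_self_left]

theorem ty_zero {v : V3} (h : ty v = 0) : v 2 % 4 = 0 := by
  unfold ty at h
  split_ifs at h with h1 h2
  · exact h1
  · exact absurd h (by decide)
  · exact absurd h (by decide)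

/-- the additional rotation -/
theorem tg_t0 {D : ℕ} (hD : D % 4 = 1) (n : Fin 3 → ZMod 5) (β : ZMod 5) (ε : ℤ) :
    Tg D β ![2 * n 2, n 1 + 2 * n 2 + n 0, 2 * n 0] 0 ε =
      (if D % 8 = 1 then 1 else -1) * Tg D β n 0 ε := by
  refine tg_map D n _ β 0 0 ε ε _ (fun v => ![-(v 2 / 2), v 1 - v 2 / 2 + v 0, 2 * v 0])
    (fun v => ![v 2 / 2, v 1 - v 2 / 2 - v 0, -2 * v 0]) ?_ ?_
  · intro v hv hi
    have h4 := cls4 hD hv
    have h2 := ty_zero hi
    obtain ⟨y, hy⟩ : ∃ y, v 0 = 2 * y := ⟨v 0 / 2, by omega⟩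
    obtain ⟨z, hz⟩ : ∃ z, v 2 = 4 * z := ⟨v 2 / 4, by omega⟩
    have hz2 : v 2 / 2 = 2 * z := by omega
    have hq : v 1 % 2 = 1 := by omega
    have h8 := mod8 (v 1) y z hq
    rw [mem_vec, nm, hy, hz] at hv
    have h9 : (D : ℤ) % 8 = (1 + 4 * (y + z)) % 8 := by
      rw [← h8, ← hv]; congr 1; ring
    refine ⟨?_, ?_, ?_, ?_, ?_, ?_⟩
    · rw [nm_mk, nm, hz2, hy, hz]
      ring
    · rw [ty_mk, if_pos (by omega)]
    · ext j
      fin_cases j
      · show 2 * v 0 / 2 = v 0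
        omega
      · show v 1 - v 2 / 2 + v 0 - 2 * v 0 / 2 - -(v 2 / 2) = v 1
        omega
      · show -2 * -(v 2 / 2) = v 2
        omega
    · unfold Ln
      simp only [Matrix.cons_val_zero, Matrix.cons_val_one, Matrix.cons_val]
      rw [hz2, hy, hz]
      push_cast
      have h5 : (5 : ZMod 5) = 0 := by decide
      constructor
      · rintro ⟨h1, h2, h3⟩
        refine ⟨?_, ?_, ?_⟩
        · linear_combination 3 * h3 + (3 * (v 1 : ZMod 5) * n 2 + β * n 0) * h5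
        · linear_combination h2 + 4 * h1 + 2 * h3 + (10 * (y : ZMod 5) * n 1 +
            16 * (y : ZMod 5) * n 2 + 2 * n 1 * (z : ZMod 5) - 5 * n 0 * (v 1 : ZMod 5) +
            10 * n 0 * (z : ZMod 5) + n 0 * β + 2 * (v 1 : ZMod 5) * n 2 + 2 * n 2 * β) * h5
        · linear_combination 3 * h1 + (8 * (y : ZMod 5) * n 1 + 14 * (y : ZMod 5) * n 2 -
            4 * n 0 * (v 1 : ZMod 5) + 8 * n 0 * (z : ZMod 5) + n 2 * β) * h5
      · rintro ⟨h1, h2, h3⟩
        refine ⟨?_, ?_, ?_⟩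
        · linear_combination 2 * h3 + (2 * (v 1 : ZMod 5) * n 0 - 4 * (z : ZMod 5) * n 0 -
            4 * (y : ZMod 5) * n 1 - 4 * (y : ZMod 5) * n 2) * h5
        · linear_combination h2 + 2 * h3 + h1 + (2 * (z : ZMod 5) * n 1 -
            2 * (z : ZMod 5) * n 0 - 2 * n 1 * (y : ZMod 5) - n 2 * (v 1 : ZMod 5) +
            4 * n 2 * (y : ZMod 5) + n 0 * (v 1 : ZMod 5)) * h5
        · linear_combination 2 * h1 + (4 * (z : ZMod 5) * n 1 - 2 * n 2 * (v 1 : ZMod 5)) * h5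
    · have : (v 1 - v 2 / 2 + v 0 + 2 * v 0) % 3 = (v 1 + v 2) % 3 := by omega
      rw [ep_mk, this]
      rfl
    · rw [chv_mk, chv_eq]
      unfold chi4
      split_ifs <;> first | rfl | omega
  · intro v hv hi
    have h4 := cls4 hD hv
    have h2 := ty_zero hi
    obtain ⟨y, hy⟩ : ∃ y, v 0 = 2 * y := ⟨v 0 / 2, by omega⟩
    obtain ⟨z, hz⟩ : ∃ z, v 2 = 4 * z := ⟨v 2 / 4, by omega⟩
    have hz2 : v 2 / 2 = 2 * z := by omega
    refine ⟨?_, ?_, ?_⟩
    · rw [nm_mk, nm, hz2, hy, hz]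
      ring
    · rw [ty_mk, if_pos (by omega)]
    · ext j
      fin_cases j
      · show -(-2 * v 0 / 2) = v 0
        omega
      · show v 1 - v 2 / 2 - v 0 - -2 * v 0 / 2 + v 2 / 2 = v 1
        omega
      · show 2 * (v 2 / 2) = v 2
        omega

/-- the base lines -/
def bl (s : Bool) : Fin 3 → ZMod 5 := if s then ![1, 2, 4] else ![1, 3, 1]

/-- the sums over the base lines -/
noncomputable def AA (D : ℕ) (β : ZMod 5) (s : Bool) (k : Fin 3) (ε : ℤ) : ℤ := Tg D β (bl s) k ε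

theorem aa1 {D : ℕ} (hD : D % 4 = 1) (β : ZMod 5) (s : Bool) (i : Fin 3) (ε : ℤ) :
    Tg D β (om (bl s)) i ε = AA D β s (i - 1) ε := by
  rw [AA, ← tg_om hD (bl s) β (i - 1) ε, sub_add_cancel]

theorem aa2 {D : ℕ} (hD : D % 4 = 1) (β : ZMod 5) (s : Bool) (i : Fin 3) (ε : ℤ) :
    Tg D β (om (om (bl s))) i ε = AA D β s (i - 2) ε := by
  rw [AA, ← tg_om hD (bl s) β (i - 2) ε, ← tg_om hD (om (bl s)) β (i - 2 + 1) ε]
  congr 1
  rw [add_assoc, show (1 : Fin 3) + 1 = 2 from rfl, sub_add_cancel]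

set_option synthInstance.maxSize 2000 in
theorem clsL : ∀ x y z : ZMod 5, 3 * x ^ 2 + y ^ 2 - y * z + z ^ 2 = 0 →
    ¬ (x = 0 ∧ y = 0 ∧ z = 0) → ∃ k : ZMod 5, k ≠ 0 ∧ (
      ((x = k * 1 ∧ y = k * 2 ∧ z = k * 4) ∧ y * z * (z - y) = x ^ 3 ∧ z = 2 * y) ∨
      ((x = k * 1 ∧ y = k * 1 ∧ z = k * 3) ∧ y * z * (z - y) = x ^ 3 ∧ ¬ z = 2 * y ∧ y = 2 * z) ∨
      ((x = k * 1 ∧ y = k * 2 ∧ z = k * 3) ∧ y * z * (z - y) = x ^ 3 ∧ ¬ z = 2 * y ∧ ¬ y = 2 * z) ∨
      ((x = k * 1 ∧ y = k * 3 ∧ z = k * 1) ∧ ¬ y * z * (z - y) = x ^ 3 ∧ z = 2 * y) ∨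
      ((x = k * 1 ∧ y = k * 4 ∧ z = k * 2) ∧ ¬ y * z * (z - y) = x ^ 3 ∧ ¬ z = 2 * y ∧ y = 2 * z) ∨
      ((x = k * 1 ∧ y = k * 3 ∧ z = k * 2) ∧ ¬ y * z * (z - y) = x ^ 3 ∧ ¬ z = 2 * y ∧
        ¬ y = 2 * z)) := by
  decide +kernel

theorem ne_zero3 {n : Fin 3 → ZMod 5} (h : n ≠ 0) : ¬ (n 0 = 0 ∧ n 1 = 0 ∧ n 2 = 0) := by
  rintro ⟨h0, h1, h2⟩
  apply h
  ext i
  fin_cases i
  · exact h0
  · exact h1
  · exact h2

theorem tg_norm (D : ℕ) (β : ZMod 5) (i : Fin 3) (ε : ℤ) (n m : Fin 3 → ZMod 5) (k : ZMod 5)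
    (hk : k ≠ 0) (h : n 0 = k * m 0 ∧ n 1 = k * m 1 ∧ n 2 = k * m 2) :
    Tg D β n i ε = Tg D β m i ε := by
  have hn : n = fun j => k * m j := by
    ext j
    fin_cases j
    · exact h.1
    · exact h.2.1
    · exact h.2.2
  rw [hn, tg_smul _ _ _ _ _ _ hk]

/-- the dependence on the line -/
theorem line {D : ℕ} (hD : D % 4 = 1) (β : ZMod 5) (n : Fin 3 → ZMod 5) (hn : Iso n) :
    ∃ s : Bool, (sgl n = if s then 1 else -1) ∧
      ∀ i ε, Tg D β n i ε = AA D β s (i - tl n) ε := by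
  obtain ⟨k, hk, h⟩ := clsL _ _ _ hn.2 (ne_zero3 hn.1)
  rcases h with ⟨h, hs, ht⟩ | ⟨h, hs, ht, ht'⟩ | ⟨h, hs, ht, ht'⟩ | ⟨h, hs, ht⟩ | ⟨h, hs, ht, ht'⟩ |
    ⟨h, hs, ht, ht'⟩
  · refine ⟨true, by rw [sgl, if_pos hs]; rfl, fun i ε => ?_⟩
    rw [tl, if_pos ht, sub_zero]
    exact tg_norm _ _ _ _ _ (bl true) k hk h
  · refine ⟨true, by rw [sgl, if_pos hs]; rfl, fun i ε => ?_⟩
    rw [tl, if_neg ht, if_pos ht', ← aa1 hD]
    refine tg_norm _ _ _ _ _ _ k hk ?_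
    rw [show om (bl true) = ![1, 1, 3] by decide]
    exact h
  · refine ⟨true, by rw [sgl, if_pos hs]; rfl, fun i ε => ?_⟩
    rw [tl, if_neg ht, if_neg ht', ← aa2 hD]
    refine tg_norm _ _ _ _ _ _ k hk ?_
    rw [show om (om (bl true)) = ![1, 2, 3] by decide]
    exact h
  · refine ⟨false, by rw [sgl, if_neg hs]; rfl, fun i ε => ?_⟩
    rw [tl, if_pos ht, sub_zero]
    exact tg_norm _ _ _ _ _ (bl false) k hk h
  · refine ⟨false, by rw [sgl, if_neg hs]; rfl, fun i ε => ?_⟩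
    rw [tl, if_neg ht, if_pos ht', ← aa1 hD]
    refine tg_norm _ _ _ _ _ _ k hk ?_
    rw [show om (bl false) = ![1, 4, 2] by decide]
    exact h
  · refine ⟨false, by rw [sgl, if_neg hs]; rfl, fun i ε => ?_⟩
    rw [tl, if_neg ht, if_neg ht', ← aa2 hD]
    refine tg_norm _ _ _ _ _ _ k hk ?_
    rw [show om (om (bl false)) = ![1, 3, 2] by decide]
    exact h

theorem aa_tau {D : ℕ} (hD : D % 4 = 1) (β : ZMod 5) (s : Bool) (ε : ℤ) :
    AA D β s 2 ε = AA D β s 1 ε := by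
  rw [AA, AA, ← tg_ta hD (bl s) β 1 ε]
  show Tg D β (bl s) (-1) ε = _
  refine tg_norm _ _ _ _ _ _ (-1) (by decide) ?_
  cases s
  · decide
  · decide

theorem aa_neg {D : ℕ} (hD : D % 4 = 1) (hD3 : D % 3 = 1) (β : ZMod 5) (k : Fin 3) (ε : ℤ)
    (hε : ε = 1 ∨ ε = -1) : AA D β false k (-ε) = -AA D β true k ε := by
  rw [AA, AA, ← tg_neg hD hD3 (bl true) β k ε hε]
  rw [show ![bl true 0, -bl true 1, -bl true 2] = bl false by decide]

theorem aa_t0 {D : ℕ} (hD : D % 4 = 1) (β : ZMod 5) (s : Bool) (ε : ℤ) :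
    AA D β s 0 ε = (if D % 8 = 1 then 1 else -1) * AA D β s 0 ε := by
  conv_rhs => rw [AA, ← tg_t0 hD (bl s) β ε]
  rw [AA]
  cases s
  · exact tg_norm _ _ _ _ _ _ 3 (by decide) (by decide)
  · exact tg_norm _ _ _ _ _ _ 2 (by decide) (by decide)

theorem aa_t1 {D : ℕ} (hD : D % 4 = 1) (β : ZMod 5) (ε : ℤ) :
    AA D β false 1 ε = (if D % 8 = 1 then 1 else -1) * AA D β true 1 ε := by
  have h1 := tg_t0 hD (om (bl true)) β ε
  rw [aa1 hD, show (0 : Fin 3) - 1 = 2 from rfl, aa_tau hD] at h1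
  rw [← h1, show (1 : Fin 3) = 0 - 2 from rfl, ← aa2 hD]
  refine tg_norm _ _ _ _ _ _ 1 (by decide) (by decide)

theorem ty_cases (v : V3) : ty v = 0 ∨ ty v = 1 ∨ ty v = 2 := by
  unfold ty
  split_ifs
  · exact Or.inl rfl
  · exact Or.inr (Or.inl rfl)
  · exact Or.inr (Or.inr rfl)

theorem split_all (D : ℕ) (n : Fin 3 → ZMod 5) (β : ZMod 5) :
    ∑ v ∈ (vec D).filter (fun v => Ln n β v), chv v =
      ∑ i : Fin 3, (Tg D β n i 1 + Tg D β n i (-1)) := by
  unfold Tg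
  simp only [Finset.sum_filter]
  rw [Fin.sum_univ_three, ← Finset.sum_add_distrib, ← Finset.sum_add_distrib,
    ← Finset.sum_add_distrib, ← Finset.sum_add_distrib, ← Finset.sum_add_distrib]
  refine Finset.sum_congr rfl fun v _ => ?_
  by_cases hL : Ln n β v
  · rcases ty_cases v with ht | ht | ht <;> rcases ep_cases v with he | he <;> simp [hL, ht, he]
  · simp [hL]

set_option synthInstance.maxSize 2000 in
theorem uniq : ∀ x y z b : ZMod 5, b ≠ 0 → 3 * x ^ 2 + y ^ 2 - y * z + z ^ 2 = -b ^ 2 →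
    ((if (3 * (y * 4 - z * 2) = b * 1 ∧ (x * 2 - 1 * y) - 2 * (x * 4 - 1 * z) = b * 2 ∧
        2 * (x * 2 - 1 * y) - (x * 4 - 1 * z) = b * 4) then (1 : ℤ) else 0) +
     (if (3 * (y * 3 - z * 1) = b * 1 ∧ (x * 1 - 1 * y) - 2 * (x * 3 - 1 * z) = b * 1 ∧
        2 * (x * 1 - 1 * y) - (x * 3 - 1 * z) = b * 3) then (1 : ℤ) else 0) +
     (if (3 * (y * 3 - z * 2) = b * 1 ∧ (x * 2 - 1 * y) - 2 * (x * 3 - 1 * z) = b * 2 ∧
        2 * (x * 2 - 1 * y) - (x * 3 - 1 * z) = b * 3) then (1 : ℤ) else 0) +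
     (if (3 * (y * 1 - z * 3) = b * 1 ∧ (x * 3 - 1 * y) - 2 * (x * 1 - 1 * z) = b * 3 ∧
        2 * (x * 3 - 1 * y) - (x * 1 - 1 * z) = b * 1) then (1 : ℤ) else 0) +
     (if (3 * (y * 2 - z * 4) = b * 1 ∧ (x * 4 - 1 * y) - 2 * (x * 2 - 1 * z) = b * 4 ∧
        2 * (x * 4 - 1 * y) - (x * 2 - 1 * z) = b * 2) then (1 : ℤ) else 0) +
     (if (3 * (y * 2 - z * 3) = b * 1 ∧ (x * 3 - 1 * y) - 2 * (x * 2 - 1 * z) = b * 3 ∧
        2 * (x * 3 - 1 * y) - (x * 2 - 1 * z) = b * 2) then (1 : ℤ) else 0)) = 1 := by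
  decide +kernel

theorem uniqL {D : ℕ} {β : ZMod 5} (hβ : β ≠ 0) (hN : β ^ 2 = -(D : ZMod 5)) {v : V3}
    (hv : v ∈ vec D) :
    (if Ln (bl true) β v then (1 : ℤ) else 0) + (if Ln (om (bl true)) β v then (1 : ℤ) else 0) +
    (if Ln (om (om (bl true))) β v then (1 : ℤ) else 0) +
    (if Ln (bl false) β v then (1 : ℤ) else 0) + (if Ln (om (bl false)) β v then (1 : ℤ) else 0) +
    (if Ln (om (om (bl false))) β v then (1 : ℤ) else 0) = 1 := by
  rw [mem_vec, nm] at hv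
  have h : 3 * (v 0 : ZMod 5) ^ 2 + (v 1 : ZMod 5) ^ 2 - (v 1 : ZMod 5) * (v 2 : ZMod 5) +
      (v 2 : ZMod 5) ^ 2 = -β ^ 2 := by
    have : ((D : ℤ) : ZMod 5) = (D : ZMod 5) := by simp
    rw [hN, neg_neg, ← this, ← hv]
    push_cast
    ring
  have key := uniq _ _ _ _ hβ h
  refine Eq.trans ?_ key
  rw [show om (bl true) = ![1, 1, 3] by decide, show om (bl false) = ![1, 4, 2] by decide,
    show om ![1, 1, 3] = ![1, 2, 3] by decide, show om ![1, 4, 2] = ![1, 3, 2] by decide]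
  rfl

/-- the sum over all vectors of type `0` with a given orientation -/
theorem sum_lines {D : ℕ} (hD : D % 4 = 1) {β : ZMod 5} (hβ : β ≠ 0)
    (hN : β ^ 2 = -(D : ZMod 5)) (ε : ℤ) :
    AA D β true 0 ε + AA D β true 2 ε + AA D β true 1 ε +
      AA D β false 0 ε + AA D β false 2 ε + AA D β false 1 ε =
      ∑ v ∈ (vec D).filter (fun v => ty v = 0 ∧ ep v = ε), chv v := by
  have e1 : ∀ s, AA D β s 2 ε = Tg D β (om (bl s)) 0 ε := fun s => by
    rw [aa1 hD]; rfl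
  have e2 : ∀ s, AA D β s 1 ε = Tg D β (om (om (bl s))) 0 ε := fun s => by
    rw [aa2 hD]; rfl
  rw [e1, e1, e2, e2, AA, AA]
  unfold Tg
  simp only [Finset.sum_filter]
  rw [← Finset.sum_add_distrib, ← Finset.sum_add_distrib,
    ← Finset.sum_add_distrib, ← Finset.sum_add_distrib, ← Finset.sum_add_distrib]
  refine Finset.sum_congr rfl fun v hv => ?_
  have h := uniqL hβ hN hv
  by_cases hc : ty v = 0 ∧ ep v = ε
  · obtain ⟨h1, h2⟩ := hc
    simp only [h1, h2, and_true, if_true]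
    have h3 : chv v = chv v * ((if Ln (bl true) β v then (1 : ℤ) else 0) +
      (if Ln (om (bl true)) β v then (1 : ℤ) else 0) +
      (if Ln (om (om (bl true))) β v then (1 : ℤ) else 0) +
      (if Ln (bl false) β v then (1 : ℤ) else 0) + (if Ln (om (bl false)) β v then (1 : ℤ) else 0) +
      (if Ln (om (om (bl false))) β v then (1 : ℤ) else 0)) := by rw [h, mul_one]
    conv_rhs => rw [h3]
    simp only [mul_add, mul_ite, mul_one, mul_zero]
  · rw [if_neg hc]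
    have : ∀ m : Fin 3 → ZMod 5, ¬ (Ln m β v ∧ ty v = 0 ∧ ep v = ε) := fun m h => hc h.2
    simp only [this, if_false, add_zero]

theorem pow_abs (z : ℤ) : (-1 : ℤ) ^ z.natAbs = if z % 2 = 0 then 1 else -1 := by
  split_ifs with h
  · have : Even z.natAbs := Int.natAbs_even.2 (Int.even_iff.2 h)
    exact this.neg_one_pow
  · have : Odd z.natAbs := Int.natAbs_odd.2 (Int.odd_iff.2 (by omega))
    exact this.neg_one_pow

/-- the sum with the orientation is a theta series -/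
theorem sum_theta {D : ℕ} (hD : D % 4 = 1) (hD3 : D % 3 = 1) :
    ∑ v ∈ (vec D).filter (fun v => ty v = 0), chv v * ep v =
      ∑ v ∈ (Fintype.piFinset fun _ : Fin 3 => Icc (-(D : ℤ)) D).filter fun v : V3 =>
        v 0 ^ 2 + 12 * v 1 ^ 2 + 12 * v 2 ^ 2 = D, chi12 (v 0) * (-1) ^ (v 2).natAbs := by
  symm
  refine Finset.sum_nbij' (fun v => ![2 * v 1, v 0 + 2 * v 2, 4 * v 2])
    (fun v => ![v 1 - v 2 / 2, v 0 / 2, v 2 / 4]) ?_ ?_ ?_ ?_ ?_
  · intro v hv
    rw [Finset.mem_filter] at hv ⊢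
    refine ⟨?_, ?_⟩
    · rw [mem_vec, nm_mk, ← hv.2]
      ring
    · rw [ty_mk, if_pos (by omega)]
  · intro v hv
    rw [Finset.mem_filter] at hv ⊢
    obtain ⟨hv, ht⟩ := hv
    have h4 := cls4 hD hv
    have h2 := ty_zero ht
    obtain ⟨y, hy⟩ : ∃ y, v 0 = 2 * y := ⟨v 0 / 2, by omega⟩
    obtain ⟨z, hz⟩ : ∃ z, v 2 = 4 * z := ⟨v 2 / 4, by omega⟩
    have hz2 : v 2 / 2 = 2 * z := by omega
    have hz4 : v 2 / 4 = z := by omega
    have hy2 : v 0 / 2 = y := by omega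
    rw [mem_vec, nm, hy, hz] at hv
    have hE : (v 1 - 2 * z) ^ 2 + 12 * y ^ 2 + 12 * z ^ 2 = (D : ℤ) := by rw [← hv]; ring
    rw [hz2, hz4, hy2]
    refine ⟨?_, hE⟩
    rw [Fintype.mem_piFinset]
    have key : ∀ x : ℤ, x ^ 2 ≤ D → x ∈ Icc (-(D : ℤ)) D := by
      intro x hx
      rw [Finset.mem_Icc]
      constructor <;> nlinarith
    intro i
    apply key
    fin_cases i
    · show (v 1 - 2 * z) ^ 2 ≤ (D : ℤ)
      nlinarith [sq_nonneg y, sq_nonneg z]
    · show y ^ 2 ≤ (D : ℤ)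
      nlinarith [sq_nonneg y, sq_nonneg z, sq_nonneg (v 1 - 2 * z)]
    · show z ^ 2 ≤ (D : ℤ)
      nlinarith [sq_nonneg y, sq_nonneg z, sq_nonneg (v 1 - 2 * z)]
  · intro v _
    ext i
    fin_cases i
    · show v 0 + 2 * v 2 - 4 * v 2 / 2 = v 0
      omega
    · show 2 * v 1 / 2 = v 1
      omega
    · show 4 * v 2 / 4 = v 2
      omega
  · intro v hv
    rw [Finset.mem_filter] at hv
    obtain ⟨hv, ht⟩ := hv
    have h4 := cls4 hD hv
    have h2 := ty_zero ht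
    ext i
    fin_cases i
    · show 2 * (v 0 / 2) = v 0
      omega
    · show v 1 - v 2 / 2 + 2 * (v 2 / 4) = v 1
      omega
    · show 4 * (v 2 / 4) = v 2
      omega
  · intro v hv
    rw [Finset.mem_filter] at hv
    have h1 : v 0 % 2 = 1 := by
      by_contra hc
      obtain ⟨t, ht⟩ : ∃ t, v 0 = 2 * t := ⟨v 0 / 2, by omega⟩
      have : (D : ℤ) = 4 * (t ^ 2 + 3 * v 1 ^ 2 + 3 * v 2 ^ 2) := by rw [← hv.2, ht]; ring
      omega
    have h3 : v 0 % 3 ≠ 0 := by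
      intro hc
      obtain ⟨t, ht⟩ : ∃ t, v 0 = 3 * t := ⟨v 0 / 3, by omega⟩
      have : (D : ℤ) = 3 * (3 * t ^ 2 + 4 * v 1 ^ 2 + 4 * v 2 ^ 2) := by rw [← hv.2, ht]; ring
      omega
    rw [pow_abs, chv_mk, ep_mk]
    unfold chi12 chi4
    have h6 : (v 0 + 2 * v 2 + 4 * v 2) % 3 = v 0 % 3 := by omega
    rw [h6]
    split_ifs <;> first | rfl | omega

theorem sum_ori (D : ℕ) :
    ∑ v ∈ (vec D).filter (fun v => ty v = 0 ∧ ep v = 1), chv v -
      ∑ v ∈ (vec D).filter (fun v => ty v = 0 ∧ ep v = -1), chv v =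
      ∑ v ∈ (vec D).filter (fun v => ty v = 0), chv v * ep v := by
  simp only [Finset.sum_filter]
  rw [← Finset.sum_sub_distrib]
  refine Finset.sum_congr rfl fun v _ => ?_
  by_cases ht : ty v = 0
  · rcases ep_cases v with he | he <;> simp [ht, he]
  · simp [ht]

end SGx

open SGx

theorem t_SG (hJ : S_JAC) : S_SG := by
  intro D hsq hF β hβ n hn
  have hD4 : D % 4 = 1 := by unfold Fm at hF; omega
  have hD3 : D % 3 = 1 := by unfold Fm at hF; omega
  have hβ0 : β ≠ 0 := by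
    rintro rfl
    have h5 : (D : ZMod 5) = 0 := by
      have : (0 : ZMod 5) ^ 2 = -(D : ZMod 5) := hβ
      simpa using this.symm
    have := (ZMod.natCast_eq_zero_iff D 5).1 h5
    unfold Fm at hF
    omega
  -- the relations
  have t1 := aa_tau hD4 β true 1
  have t2 := aa_tau hD4 β true (-1)
  have t3 := aa_tau hD4 β false 1
  have t4 := aa_tau hD4 β false (-1)
  have m0 := fun k => aa_neg hD4 hD3 β k 1 (Or.inl rfl)
  have m1 : ∀ k, AA D β false k 1 = -AA D β true k (-1) := fun k => by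
    have := aa_neg hD4 hD3 β k (-1) (Or.inr rfl)
    rwa [neg_neg] at this
  have z1 := aa_t0 hD4 β true 1
  have z2 := aa_t0 hD4 β true (-1)
  have w1 := aa_t1 hD4 β 1
  have w2 := aa_t1 hD4 β (-1)
  have hpii : pii D β = (AA D β true 0 1 + AA D β true 0 (-1)) +
      2 * (AA D β true 1 1 + AA D β true 1 (-1)) := by
    have h0 : n0 = om (bl true) := by decide
    have h1 : pii D β = ∑ v ∈ (vec D).filter (fun v => Ln n0 β v), chv v := rfl
    rw [h1, split_all, Fin.sum_univ_three, h0, aa1 hD4, aa1 hD4, aa1 hD4, aa1 hD4, aa1 hD4, aa1 hD4]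
    rw [show (0 : Fin 3) - 1 = 2 from rfl, show (1 : Fin 3) - 1 = 0 from rfl,
      show (2 : Fin 3) - 1 = 1 from rfl, t1, t2]
    ring
  have hB : D ≠ 1 → AA D β true 0 1 + 2 * AA D β true 1 1 =
      AA D β true 0 (-1) + 2 * AA D β true 1 (-1) := by
    intro hD1
    by_cases h8 : D % 8 = 1
    · have hns : ¬ IsSquare D := by
        rintro ⟨r, hr⟩
        have := hsq r (by rw [hr])
        rw [Nat.isUnit_iff] at this
        rw [this] at hr
        exact hD1 hr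
      have h1 := hJ D h8 hns
      rw [← sum_theta hD4 hD3, ← sum_ori D, ← sum_lines hD4 hβ0 hβ, ← sum_lines hD4 hβ0 hβ] at h1
      rw [t1, t2, t3, t4, m1 0, m1 1, m0 0, m0 1] at h1
      linarith
    · rw [if_neg h8] at z1 z2 w1 w2
      rw [m1 1] at w1
      linarith
  obtain ⟨s, hs, hT⟩ := line hD4 β n hn
  have hsum : ∀ ε, ∑ i : Fin 3, AA D β s (i - tl n) ε = AA D β s 0 ε + AA D β s 1 ε + AA D β s 2 ε := by
    intro ε
    rw [Fin.sum_univ_three]
    generalize tl n = j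
    fin_cases j
    · rfl
    · show AA D β s 2 ε + AA D β s 0 ε + AA D β s 1 ε = _
      ring
    · show AA D β s 1 ε + AA D β s 2 ε + AA D β s 0 ε = _
      ring
  have hne : ∀ i, i ≠ tl n → ∀ ε, AA D β s (i - tl n) ε = AA D β s 1 ε := by
    intro i hi ε
    have : i - tl n = 1 ∨ i - tl n = 2 := by
      revert hi
      generalize tl n = j
      revert i j
      decide
    rcases this with h | h
    · rw [h]
    · rw [h]; exact aa_tau hD4 β s ε
  refine ⟨?_, ?_, ?_, ?_⟩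
  · simp only [hT]
    rw [Finset.sum_add_distrib, hsum, hsum, hs, hpii]
    cases s
    · rw [t3, t4, m1 0, m1 1, m0 0, m0 1]
      simp only [Bool.false_eq_true, if_false]
      ring
    · rw [t1, t2]
      simp only [if_true]
      ring
  · intro h8 i hi
    rw [if_pos h8] at w1 w2
    rw [hT, hT, hne i hi, hne i hi]
    cases s
    · rw [m1 1, m0 1] at *
      linarith
    · rw [m1 1] at w1
      linarith
  · intro h8
    have h8' : ¬ D % 8 = 1 := by omega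
    rw [if_neg h8'] at z1 z2 w1 w2
    have w1' := w1
    rw [m1 1] at w1'
    have e0 : ∀ ε, ε = 1 ∨ ε = -1 → AA D β s 0 ε = 0 := by
      intro ε hε
      have := aa_t0 hD4 β s ε
      rw [if_neg h8'] at this
      linarith
    have e1 : AA D β s 1 1 = AA D β s 1 (-1) := by
      cases s
      · rw [m1 1, m0 1]; linarith
      · linarith
    refine ⟨fun i => ?_, ?_, fun i hi => ?_⟩
    · rw [hT, hT]
      by_cases hi : i = tl n
      · rw [hi, sub_self, e0 1 (Or.inl rfl), e0 (-1) (Or.inr rfl)]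
      · rw [hne i hi, hne i hi, e1]
    · rw [hT, sub_self, e0 1 (Or.inl rfl)]
    · rw [hT, hne i hi, hs, hpii]
      cases s
      · rw [m1 1]
        simp only [Bool.false_eq_true, if_false]
        linarith
      · simp only [if_true]
        linarith
  · intro hD1
    have hb := hB hD1
    simp only [hT]
    rw [hsum, hsum]
    cases s
    · rw [t3, t4, m1 0, m1 1, m0 0, m0 1]
      linarith
    · rw [t1, t2]
      linarith

end Pool.Agent.H757_X15.BB
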