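import Pool.Agent.H757_X15.BS.XCc

/-!
# Counting the parameters: assembly
-/

set_option autoImplicit false

namespace Pool.Agent.H757_X15.BB.XCn

open Finset
open Pool.Agent.Z700 (fac hh)

/-- the pairs `(e, β)` -/
def TT (n1 D : ℕ) : Finset (ℕ × ℕ) :=
  (EE D).biUnion fun e =>
    ((range (D / (3 * e ^ 2))).filter fun β => (D / (3 * e ^ 2)) ∣ β ^ 2 + 4 * n1).image
      fun β => (e, β)

theorem mem_TT (n1 D : ℕ) (hD : 0 < D) (t : ℕ × ℕ) : t ∈ TT n1 D ↔ 0 < t.1 ∧ 3 * t.1 ^ 2 ∣ D ∧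
    t.2 < D / (3 * t.1 ^ 2) ∧ (D / (3 * t.1 ^ 2)) ∣ t.2 ^ 2 + 4 * n1 := by
  unfold TT
  rw [Finset.mem_biUnion]
  constructor
  · rintro ⟨e, he, ht⟩
    obtain ⟨β, hβ, rfl⟩ := Finset.mem_image.1 ht
    have he := (mem_EE _ _ hD).1 he
    have hβ := Finset.mem_filter.1 hβ
    exact ⟨he.1, he.2, Finset.mem_range.1 hβ.1, hβ.2⟩
  · rintro ⟨h2, h3, h4, h5⟩
    exact ⟨t.1, (mem_EE _ _ hD).2 ⟨h2, h3⟩, Finset.mem_image.2
      ⟨t.2, Finset.mem_filter.2 ⟨Finset.mem_range.2 h4, h5⟩, rfl⟩⟩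

theorem sum_TT (n1 D : ℕ) (g : ℕ × ℕ → ℕ) : ∑ t ∈ TT n1 D, g t =
    ∑ e ∈ EE D, ∑ β ∈ (range (D / (3 * e ^ 2))).filter fun β => (D / (3 * e ^ 2)) ∣ β ^ 2 + 4 * n1,
      g (e, β) := by
  unfold TT
  rw [Finset.sum_biUnion]
  · refine Finset.sum_congr rfl fun e _ => ?_
    rw [Finset.sum_image]
    intro x _ y _ h
    exact (Prod.ext_iff.1 h).2
  · intro e _ e' _ hee
    rw [Function.onFun, Finset.disjoint_left]
    intro t ht ht'
    obtain ⟨β, _, rfl⟩ := Finset.mem_image.1 ht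
    obtain ⟨β', _, h⟩ := Finset.mem_image.1 ht'
    exact hee (Prod.ext_iff.1 h).1.symm

/-- the fibres -/
theorem fib (n1 : ℕ) (a1 : n1 % 12 = 1) (b : ℤ) (D : ℕ) (hD : 0 < D) (t : ℕ × ℕ)
    (ht : t ∈ TT n1 D) :
    ((XX n1 b D).filter fun q => (q.1, q.2.2.1) = t).card =
      C2 t.1 b (D / (3 * t.1 ^ 2)) t.2 ((4 * n1 + t.2 ^ 2) / (D / (3 * t.1 ^ 2))) *
      Y155.Z7.C (3 * t.1) (3 * b) (3 * (D / (3 * t.1 ^ 2))) (3 * t.2)
        (3 * ((4 * n1 + t.2 ^ 2) / (D / (3 * t.1 ^ 2)))) n1 := by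
  have hn1 : 0 < n1 := by omega
  have c2 : Nat.Coprime 2 n1 := by
    rw [Nat.coprime_two_left, Nat.odd_iff]; omega
  have c3 : Nat.Coprime 3 n1 := by
    rw [Nat.Prime.coprime_iff_not_dvd Nat.prime_three]; omega
  rw [← card_fib _ _ _ _ _ _ hn1 c2 c3]
  obtain ⟨h2, h3, h4, h5⟩ := (mem_TT n1 D hD t).1 ht
  have h1 : t.1 < D + 1 := by
    have := Nat.le_of_dvd hD h3
    nlinarith
  refine Finset.card_nbij' (fun q => (q.2.1, q.2.2.2)) (fun p => (t.1, p.1, t.2, p.2)) ?_ ?_ ?_ ?_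
  · intro q hq
    have hq := Finset.mem_filter.1 (Finset.mem_coe.1 hq)
    obtain ⟨hq1, hq2⟩ := hq
    unfold XX at hq1
    have hq1 := Finset.mem_filter.1 hq1
    have hq3 := Finset.mem_product.1 hq1.1
    have hq4 := Finset.mem_product.1 hq3.2
    have hq5 := Finset.mem_product.1 hq4.2
    rw [← hq2]
    exact Finset.mem_coe.2 (Finset.mem_filter.2 ⟨Finset.mem_product.2 ⟨hq4.1, hq5.2⟩,
      hq1.2.2.2.2.1, hq1.2.2.2.2.2.1, hq1.2.2.2.2.2.2.2.1, hq1.2.2.2.2.2.2.2.2⟩)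
  · intro p hp
    have hp := Finset.mem_filter.1 (Finset.mem_coe.1 hp)
    have hp1 := Finset.mem_product.1 hp.1
    refine Finset.mem_coe.2 (Finset.mem_filter.2 ⟨?_, rfl⟩)
    unfold XX
    refine Finset.mem_filter.2 ⟨Finset.mem_product.2 ⟨Finset.mem_range.2 h1, Finset.mem_product.2
      ⟨hp1.1, Finset.mem_product.2 ⟨Finset.mem_range.2 (h4.trans_le (Nat.div_le_self _ _)),
        hp1.2⟩⟩⟩, h2, h3, h4, hp.2.1, hp.2.2.1, h5, hp.2.2.2.1, hp.2.2.2.2⟩
  · intro q hq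
    have hq := Finset.mem_filter.1 (Finset.mem_coe.1 hq)
    obtain ⟨_, hq2⟩ := hq
    rw [← hq2]
  · intro p _
    rfl

/-- the number of parameters as a product -/
theorem card_XX (n1 n2 : ℕ) (b : ℤ) (D : ℕ) (hs : Squarefree n1) (a1 : n1 % 12 = 1)
    (hD : 0 < D) (hDD : (D : ℤ) = 4 * n1 * n2 - b ^ 2) :
    ((XX n1 b D).card : ℤ) = ((∑ e ∈ EE D, Bs n1 b e (D / (3 * e ^ 2)) : ℕ) : ℤ) *
      ∏ l ∈ n1.primeFactors, if l ∣ D then 1 + hh n1 D l else 1 := by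
  have h2 : (∑ e ∈ EE D, Bs n1 b e (D / (3 * e ^ 2))) = ∑ t ∈ TT n1 D,
      C2 t.1 b (D / (3 * t.1 ^ 2)) t.2 ((4 * n1 + t.2 ^ 2) / (D / (3 * t.1 ^ 2))) := by
    rw [sum_TT]
    rfl
  rw [h2, Finset.card_eq_sum_card_fiberwise (f := fun q => (q.1, q.2.2.1)) (t := TT n1 D),
    Nat.cast_sum, Nat.cast_sum, Finset.sum_mul]
  · refine Finset.sum_congr rfl fun t ht => ?_
    rw [fib n1 a1 b D hD t ht, Nat.cast_mul]
    obtain ⟨g2, g3, g4, g5⟩ := (mem_TT n1 D hD t).1 ht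
    rw [C_loc n1 n2 b D hs a1 hD hDD t.1 (D / (3 * t.1 ^ 2)) t.2 _ (Nat.mul_div_cancel' g3).symm
      (gam n1 _ t.2 g5).symm]
  · intro q hq
    have hq := Finset.mem_coe.1 hq
    unfold XX at hq
    have hq := Finset.mem_filter.1 hq
    exact Finset.mem_coe.2 ((mem_TT n1 D hD _).2 ⟨hq.2.1, hq.2.2.1,
      hq.2.2.2.1, hq.2.2.2.2.2.2.1⟩)

/-- nothing if `3` divides `D / (3 e²)` -/
theorem Bs_three (n1 : ℕ) (a1 : n1 % 12 = 1) (b : ℤ) (e δ : ℕ) (h : 3 ∣ δ) : Bs n1 b e δ = 0 := by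
  unfold Bs
  refine Finset.sum_eq_zero fun β hβ => ?_
  exfalso
  have h1 : 3 ∣ β ^ 2 + 4 * n1 := h.trans (Finset.mem_filter.1 hβ).2
  have h2 : β % 3 < 3 := Nat.mod_lt _ (by norm_num)
  have h3 : β ^ 2 % 3 = (β % 3) ^ 2 % 3 := Nat.pow_mod _ _ _
  interval_cases β % 3 <;> omega

/-- nothing if `b` is divisible by four -/
theorem Bs_four (n1 n2 : ℕ) (b : ℤ) (D e δ : ℕ) (a1 : n1 % 4 = 1) (a2 : n2 % 4 = 1)
    (hD : 0 < D) (hDD : (D : ℤ) = 4 * n1 * n2 - b ^ 2) (hb : b % 4 = 0) (hDe : D = 3 * e ^ 2 * δ) :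
    Bs n1 b e δ = 0 := by
  have hδ : 0 < δ := by
    rcases Nat.eq_zero_or_pos δ with h | h
    · rw [h] at hDe; omega
    · exact h
  -- `D ≡ 4` modulo `16`
  have hD16 : D % 16 = 4 := by
    obtain ⟨c, rfl⟩ : ∃ c, b = 4 * c := ⟨b / 4, by omega⟩
    obtain ⟨x, rfl⟩ : ∃ x, n1 = 4 * x + 1 := ⟨n1 / 4, by omega⟩
    obtain ⟨y, rfl⟩ : ∃ y, n2 = 4 * y + 1 := ⟨n2 / 4, by omega⟩
    have : (D : ℤ) = 16 * (4 * x * y + x + y - c ^ 2) + 4 := by
      rw [hDD]; push_cast; ring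
    omega
  refine Bs_zero n1 b e δ hδ ?_
  intro β γ hγ
  refine C2_zero _ _ _ _ _ ?_
  rintro x y hx hy ⟨h1, h2, h3, h4⟩
  simp only at h1 h2 h3 h4
  rcases Nat.mod_two_eq_zero_or_one e with he | he
  · -- `e` even
    obtain ⟨k, rfl⟩ : ∃ k, e = 2 * k := ⟨e / 2, by omega⟩
    have e1 : D = 4 * (3 * k ^ 2 * δ) := by rw [hDe]; ring
    have e2 : (3 * k ^ 2 * δ) % 4 = 1 := by omega
    have hk := sq_mod8 k
    have e3 : (3 * k ^ 2 * δ) % 4 = ((3 * k ^ 2) % 4) * (δ % 4) % 4 := Nat.mul_mod _ _ _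
    have hd : δ % 4 = 3 := by
      have h5 : δ % 4 < 4 := Nat.mod_lt _ (by norm_num)
      rw [e2] at e3
      have h6 : (3 * k ^ 2) % 4 = 0 ∨ (3 * k ^ 2) % 4 = 3 := by split_ifs at hk <;> omega
      rcases h6 with h6 | h6
      · rw [h6] at e3; omega
      · rw [h6] at e3
        interval_cases δ % 4 <;> omega
    interval_cases x <;> omega
  · -- `e` odd
    have he2 := sq_mod8 e
    rw [if_pos he] at he2
    have e3 : (3 * e ^ 2 * δ) % 8 = ((3 * e ^ 2) % 8) * (δ % 8) % 8 := Nat.mul_mod _ _ _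
    have hd8 : δ % 8 = 4 := by
      have h5 : δ % 8 < 8 := Nat.mod_lt _ (by norm_num)
      have h6 : (3 * e ^ 2) % 8 = 3 := by omega
      rw [← hDe, h6] at e3
      interval_cases δ % 8 <;> omega
    obtain ⟨m, hm⟩ : ∃ m, δ = 4 * m := ⟨δ / 4, by omega⟩
    have hm4 : m % 4 = 3 := by
      have e4 : D = 4 * (3 * e ^ 2 * m) := by rw [hDe, hm]; ring
      have e5 : (3 * e ^ 2 * m) % 4 = 1 := by omega
      have e6 : (3 * e ^ 2 * m) % 4 = ((3 * e ^ 2) % 4) * (m % 4) % 4 := Nat.mul_mod _ _ _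
      have h6 : (3 * e ^ 2) % 4 = 3 := by omega
      rw [e5, h6] at e6
      have h5 : m % 4 < 4 := Nat.mod_lt _ (by norm_num)
      interval_cases m % 4 <;> omega
    have hx0 : x = 0 := by
      interval_cases x
      · rfl
      · exfalso; omega
    subst hx0
    obtain ⟨k, rfl⟩ : ∃ k, β = 2 * k := ⟨β / 2, by omega⟩
    have hg : m * γ = k ^ 2 + n1 := by
      have : 4 * (m * γ) = 4 * (k ^ 2 + n1) := by
        calc 4 * (m * γ) = δ * γ := by rw [hm]; ring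
          _ = (2 * k) ^ 2 + 4 * n1 := hγ
          _ = _ := by ring
      omega
    have hk := sq_mod8 k
    have e7 : (m * γ) % 4 = (m % 4) * (γ % 4) % 4 := Nat.mul_mod _ _ _
    rw [hm4, hg] at e7
    have hγ4 : γ % 4 = 0 ∨ γ % 4 = 1 := by interval_cases y <;> omega
    rcases hγ4 with h | h <;> rw [h] at e7 <;> split_ifs at hk <;> omega

theorem J_two (n1 : ℕ) (a : n1 % 4 = 1) : jacobiSym 2 n1 = if n1 % 8 = 1 then 1 else -1 := by
  rw [jacobiSym.at_two (Nat.odd_iff.2 (by omega))]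
  rw [ZMod.χ₈_nat_eq_if_mod_eight]
  split_ifs <;> omega

/-- `D` for `b ≡ 2` modulo `4` -/
theorem D_h (n1 n2 : ℕ) (b : ℤ) (D : ℕ) (a1 : n1 % 4 = 1) (a2 : n2 % 4 = 1)
    (hDD : (D : ℤ) = 4 * n1 * n2 - b ^ 2) (hb : b % 4 = 2) : 16 ∣ D := by
  obtain ⟨c, rfl⟩ : ∃ c, b = 4 * c + 2 := ⟨b / 4, by omega⟩
  obtain ⟨x, rfl⟩ : ∃ x, n1 = 4 * x + 1 := ⟨n1 / 4, by omega⟩
  obtain ⟨y, rfl⟩ : ∃ y, n2 = 4 * y + 1 := ⟨n2 / 4, by omega⟩
  have : (D : ℤ) = 16 * (4 * x * y + x + y - c ^ 2 - c) := by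
    rw [hDD]; push_cast; ring
  omega

/-- the sum of the factors at two -/
theorem sum_K2 (n1 D h Do : ℕ) (a1 : n1 % 4 = 1) (hh4 : 4 ≤ h) (hDo : Do % 2 = 1)
    (hD : D = 2 ^ h * Do) :
    ((∑ j ∈ range (h / 2 + 1), K2 n1 (3 * Do) (h - 2 * j) : ℕ) : ℤ) = 2 * kap n1 D := by
  have hDo0 : 0 < Do := by omega
  have hf : D.factorization 2 = h := by
    rw [hD, Nat.factorization_mul (by positivity) hDo0.ne', Finsupp.add_apply,
      Nat.Prime.factorization_pow Nat.prime_two, Finsupp.single_eq_same,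
      Nat.factorization_eq_zero_of_not_dvd (by omega), add_zero]
  have hq : D / 2 ^ D.factorization 2 = Do := by
    rw [hf, hD]
    exact Nat.mul_div_cancel_left _ (by positivity)
  have hJ := J_two n1 a1
  have hJ2 : jacobiSym 2 n1 ^ 2 = 1 := by
    rw [hJ]; split_ifs <;> norm_num
  unfold kap
  rw [hq, hf]
  rcases Nat.even_or_odd' h with ⟨m, hm | hm⟩
  · obtain ⟨k, rfl⟩ : ∃ k, m = k + 1 := ⟨m - 1, by omega⟩
    have e1 : h / 2 + 1 = k + 1 + 1 := by omega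
    rw [e1, Finset.sum_range_succ, Finset.sum_range_succ]
    have e2 : ∑ j ∈ range k, K2 n1 (3 * Do) (h - 2 * j) = 0 := by
      refine Finset.sum_eq_zero fun j hj => ?_
      have hj := Finset.mem_range.1 hj
      unfold K2
      rw [if_neg (by omega), if_neg (by omega)]
    have e3 : h - 2 * k = 2 := by omega
    have e4 : h - 2 * (k + 1) = 0 := by omega
    rw [e2, e3, e4]
    have e5 : jacobiSym 2 n1 ^ h = 1 := by rw [hm, pow_mul, hJ2, one_pow]
    rw [e5]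
    unfold K2 chi4
    have h4 : Do % 4 = 1 ∨ Do % 4 = 3 := by omega
    rcases h4 with h4 | h4
    · have h5 : (3 * Do) % 4 = 3 := by omega
      have h6 : ((Do : ℕ) : ℤ) % 4 = 1 := by omega
      simp [h5, h6]
    · have h5 : (3 * Do) % 4 = 1 := by omega
      have h6 : ((Do : ℕ) : ℤ) % 4 = 3 := by omega
      simp [h5, h6]
  · obtain ⟨k, rfl⟩ : ∃ k, m = k + 1 := ⟨m - 1, by omega⟩
    have e1 : h / 2 + 1 = k + 1 + 1 := by omega
    rw [e1, Finset.sum_range_succ, Finset.sum_range_succ]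
    have e2 : ∑ j ∈ range k, K2 n1 (3 * Do) (h - 2 * j) = 0 := by
      refine Finset.sum_eq_zero fun j hj => ?_
      have hj := Finset.mem_range.1 hj
      unfold K2
      rw [if_neg (by omega), if_neg (by omega)]
    have e3 : h - 2 * k = 3 := by omega
    have e4 : h - 2 * (k + 1) = 1 := by omega
    rw [e2, e3, e4]
    have e5 : jacobiSym 2 n1 ^ h = jacobiSym 2 n1 := by
      rw [hm, pow_succ, pow_mul, hJ2, one_pow, one_mul]
    rw [e5, hJ]
    unfold K2 chi4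
    have h4 : Do % 4 = 1 ∨ Do % 4 = 3 := by omega
    have h8 : n1 % 8 = 1 ∨ n1 % 8 = 5 := by omega
    rcases h4 with h4 | h4 <;> rcases h8 with h8 | h8
    · have h5 : (2 * (3 * Do)) % 8 = 6 := by omega
      have h6 : ((Do : ℕ) : ℤ) % 4 = 1 := by omega
      have h7 : (1 + n1) % 8 = 2 := by omega
      simp [h5, h6, h7, h8]
    · have h5 : (2 * (3 * Do)) % 8 = 6 := by omega
      have h6 : ((Do : ℕ) : ℤ) % 4 = 1 := by omega
      have h7 : (1 + n1) % 8 = 6 := by omega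
      simp [h5, h6, h7, h8]
    · have h5 : (2 * (3 * Do)) % 8 = 2 := by omega
      have h6 : ((Do : ℕ) : ℤ) % 4 = 3 := by omega
      have h7 : (1 + n1) % 8 = 2 := by omega
      simp [h5, h6, h7, h8]
    · have h5 : (2 * (3 * Do)) % 8 = 2 := by omega
      have h6 : ((Do : ℕ) : ℤ) % 4 = 3 := by omega
      have h7 : (1 + n1) % 8 = 6 := by omega
      simp [h5, h6, h7, h8]

theorem K2_congr (n1 x y w : ℕ) (h : x % 4 = y % 4) : K2 n1 x w = K2 n1 y w := by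
  unfold K2
  have e : (2 * x) % 8 = (2 * y) % 8 := by omega
  rw [h, e]

/-- the sum over `e` for `b ≡ 2` modulo `4` -/
theorem sum_even (n1 : ℕ) (b : ℤ) (h Do : ℕ) (a1 : n1 % 4 = 1) (hb : b % 4 = 2) (hh4 : 4 ≤ h)
    (hDo : Do % 2 = 1) :
    ∑ e ∈ EE (2 ^ h * Do), Bs n1 b e (2 ^ h * Do / (3 * e ^ 2)) =
      (∑ j ∈ range (h / 2 + 1), K2 n1 (3 * Do) (h - 2 * j)) * TS n1 Do := by
  have hDo0 : 0 < Do := by omega
  rw [sum_EE h Do hDo, Finset.sum_mul]
  refine Finset.sum_congr rfl fun j hj => ?_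
  have hj := Finset.mem_range.1 hj
  unfold TS
  rw [Finset.mul_sum]
  refine Finset.sum_congr rfl fun e he => ?_
  obtain ⟨h1, h2⟩ := (mem_EE Do e hDo0).1 he
  have heo := EE_odd hDo h2
  obtain ⟨δ0, hδ0⟩ := h2
  have e3 : 0 < 3 * e ^ 2 := by positivity
  have e1 : Do / (3 * e ^ 2) = δ0 := by
    rw [hδ0]; exact Nat.mul_div_cancel_left _ e3
  have e2 : 2 ^ h * Do / (3 * (2 ^ j * e) ^ 2) = 2 ^ (h - 2 * j) * δ0 := by
    have : 2 ^ h * Do = 3 * (2 ^ j * e) ^ 2 * (2 ^ (h - 2 * j) * δ0) := by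
      have h5 : 2 ^ h = 2 ^ (2 * j) * 2 ^ (h - 2 * j) := by
        rw [← pow_add]; congr 1; omega
      rw [hδ0, h5]; ring
    rw [this]
    exact Nat.mul_div_cancel_left _ (by positivity)
  rw [e1, e2]
  have hδo : δ0 % 2 = 1 := by
    by_contra hne
    obtain ⟨k, rfl⟩ : ∃ k, δ0 = 2 * k := ⟨δ0 / 2, by omega⟩
    have : 3 * e ^ 2 * (2 * k) = 2 * (3 * e ^ 2 * k) := by ring
    omega
  rw [Bs_even n1 b (2 ^ j * e) (h - 2 * j) δ0 a1 hb hδo]
  · congr 1
    refine K2_congr _ _ _ _ ?_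
    have h8 := sq_mod8 e
    rw [if_pos heo] at h8
    have h9 : (3 * e ^ 2 * δ0) % 4 = ((3 * e ^ 2) % 4) * (δ0 % 4) % 4 := Nat.mul_mod _ _ _
    have h10 : (3 * e ^ 2) % 4 = 3 := by omega
    rw [h10, ← hδ0] at h9
    omega
  · intro hw
    obtain ⟨i, rfl⟩ : ∃ i, j = i + 1 := ⟨j - 1, by omega⟩
    have : 2 ^ (i + 1) * e = 2 * (2 ^ i * e) := by ring
    omega

/-- XC -/
theorem t_XC_aux : S_XC := by
  intro n1 n2 b D hs a1 a2 hD hDD
  have hn1 : 0 < n1 := by omega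
  have h41 : n1 % 4 = 1 := by omega
  have h42 : n2 % 4 = 1 := by omega
  rw [card_XX n1 n2 b D hs a1 hD hDD]
  split_ifs with h3
  · -- the product
    obtain ⟨h, Do, hDo', hDh⟩ := Nat.exists_eq_two_pow_mul_odd (n := D) hD.ne'
    have hDo : Do % 2 = 1 := Nat.odd_iff.1 hDo'
    have hDo0 : 0 < Do := by omega
    have h4 : ∏ l ∈ n1.primeFactors, (if l ∣ D then 1 + hh n1 D l else 1) =
        ∏ l ∈ pf3 D, (if l ∣ n1 then 1 + hh n1 D l else 1) := by
      rw [← Finset.prod_filter, ← Finset.prod_filter]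
      refine Finset.prod_congr ?_ fun _ _ => rfl
      ext l
      unfold pf3
      simp only [Finset.mem_filter, Finset.mem_erase, Nat.mem_primeFactors]
      constructor
      · rintro ⟨⟨b1, b2, _⟩, b4⟩
        refine ⟨⟨?_, ?_, b1, b4, hD.ne'⟩, b2⟩
        · rintro rfl; omega
        · rintro rfl; omega
      · rintro ⟨⟨_, _, b1, b4, _⟩, b2⟩
        exact ⟨⟨b1, b2, hn1.ne'⟩, b4⟩
    have h5 : ((∑ e ∈ EE D, Bs n1 b e (D / (3 * e ^ 2)) : ℕ) : ℤ) = c2 n1 D b * TS n1 Do := by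
      have hb4 : b % 2 = 1 ∨ b % 4 = 2 ∨ b % 4 = 0 := by omega
      rcases hb4 with hb | hb | hb
      · -- odd `b`
        have hD8 : D % 8 = 3 := by
          obtain ⟨c, rfl⟩ : ∃ c, b = 2 * c + 1 := ⟨b / 2, by omega⟩
          obtain ⟨x, rfl⟩ : ∃ x, n1 = 4 * x + 1 := ⟨n1 / 4, by omega⟩
          obtain ⟨y, rfl⟩ : ∃ y, n2 = 4 * y + 1 := ⟨n2 / 4, by omega⟩
          obtain ⟨z, hz⟩ : ∃ z : ℤ, c ^ 2 + c = 2 * z := by
            rcases Int.even_or_odd' c with ⟨k, hk | hk⟩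
            · exact ⟨2 * k ^ 2 + k, by rw [hk]; ring⟩
            · exact ⟨2 * k ^ 2 + 3 * k + 1, by rw [hk]; ring⟩
          have : (D : ℤ) = 8 * (8 * x * y + 2 * x + 2 * y - z) + 3 := by
            rw [hDD]; push_cast; linear_combination (-4 : ℤ) * hz
          omega
        have hh0 : h = 0 := by
          by_contra hne
          obtain ⟨k, rfl⟩ : ∃ k, h = k + 1 := ⟨h - 1, by omega⟩
          have : 2 ^ (k + 1) * Do = 2 * (2 ^ k * Do) := by ring
          omega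
        rw [hh0, pow_zero, one_mul] at hDh
        subst hDh
        have hc : c2 n1 D b = 1 := by simp [c2, hb]
        rw [hc, one_mul]
        congr 1
        unfold TS
        refine Finset.sum_congr rfl fun e he => ?_
        obtain ⟨_, h2⟩ := (mem_EE D e hD).1 he
        have heo := EE_odd hDo h2
        obtain ⟨δ, hδ⟩ := h2
        have e3 : 0 < 3 * e ^ 2 := by
          have : 0 < e := by omega
          positivity
        have e1 : D / (3 * e ^ 2) = δ := by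
          rw [hδ]; exact Nat.mul_div_cancel_left _ e3
        rw [e1]
        refine Bs_odd n1 b e δ hb heo ?_
        have h8 := sq_mod8 e
        rw [if_pos heo] at h8
        have h9 : (3 * e ^ 2 * δ) % 8 = ((3 * e ^ 2) % 8) * (δ % 8) % 8 := Nat.mul_mod _ _ _
        have h10 : (3 * e ^ 2) % 8 = 3 := by omega
        rw [h10, ← hδ] at h9
        omega
      · -- `b ≡ 2` modulo `4`
        have h16 := D_h n1 n2 b D h41 h42 hDD hb
        have hh4 : 4 ≤ h := by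
          have hc : Nat.Coprime 16 Do := by
            have h2 : Nat.Coprime 2 Do := by rw [Nat.coprime_two_left]; exact hDo'
            exact Nat.Coprime.pow_left 4 h2
          rw [hDh] at h16
          have h17 : 2 ^ 4 ∣ 2 ^ h := hc.dvd_of_dvd_mul_right h16
          exact (Nat.pow_dvd_pow_iff_le_right (by norm_num)).1 h17
        have hc : c2 n1 D b = 2 * kap n1 D := by
          unfold c2
          rw [if_neg (by omega), if_pos hb]
        rw [hc, ← sum_K2 n1 D h Do h41 hh4 hDo hDh, ← Nat.cast_mul, ← sum_even n1 b h Do h41 hb hh4 hDo,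
          hDh]
      · have hc : c2 n1 D b = 0 := by
          unfold c2
          rw [if_neg (by omega), if_neg (by omega)]
        rw [hc, zero_mul]
        rw [Finset.sum_eq_zero, Nat.cast_zero]
        intro e he
        obtain ⟨_, h2⟩ := (mem_EE D e hD).1 he
        exact Bs_four n1 n2 b D e _ h41 h42 hD hDD hb (Nat.mul_div_cancel' h2).symm
    rw [h5, h4, TS_prod n1 D hs a1 hD h Do hDh hDo h3, mul_assoc, ← Finset.prod_mul_distrib]
    congr 1
    refine Finset.prod_congr rfl fun l _ => ?_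
    unfold Pool.Agent.Z700.fac
    split_ifs with h
    · rw [one_mul]
    · rw [mul_one]
  · rw [Finset.sum_eq_zero, Nat.cast_zero, zero_mul]
    intro e he
    obtain ⟨h1, h2⟩ := (mem_EE D e hD).1 he
    refine Bs_three n1 a1 b e _ ?_
    by_contra hn
    apply h3
    have e1 : D = 3 * e ^ 2 * (D / (3 * e ^ 2)) := (Nat.mul_div_cancel' h2).symm
    have hδ0 : D / (3 * e ^ 2) ≠ 0 := by
      intro h0
      rw [h0, mul_zero] at e1
      omega
    have he2 : e ^ 2 ≠ 0 := by positivity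
    rw [e1, Nat.factorization_mul (by positivity) hδ0, Nat.factorization_mul (by norm_num) he2,
      Nat.factorization_pow, Finsupp.add_apply, Finsupp.add_apply,
      Nat.factorization_eq_zero_of_not_dvd hn, add_zero, Finsupp.smul_apply, smul_eq_mul,
      Nat.Prime.factorization Nat.prime_three, Finsupp.single_eq_same, add_comm]
    exact ⟨_, rfl⟩

end Pool.Agent.H757_X15.BB.XCn

namespace Pool.Agent.H757_X15.BB

/-- B3 (XC): evaluation of the number of parameters -/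
theorem t_XC : S_XC := XCn.t_XC_aux

end Pool.Agent.H757_X15.BB
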