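import Pool.Agent.H757_X15.BS.UQ
import Pool.Agent.H757_X15.BS.CNT
import Pool.Agent.H757_X15.BS.XC
import Pool.Agent.H757_X15.BS.JAC
import Pool.Agent.H757_X15.BS.SG
import Pool.Agent.H757_X15.BS.Bil1
import Pool.Agent.H757_X15.BS.Bil2a
import Pool.Agent.H757_X15.BS.BIL2B

/-!
# X15-B8: assembly of part B (helper822)

`t_PC : S_PC` (the number of pairs of vectors with given Gram matrix) and
`t_BIL : S_BIL` (the bilinear identity).
-/

set_option autoImplicit false

namespace Pool.Agent.H757_X15.BB

/-- PC: the number of pairs of vectors with given Gram matrix -/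
theorem t_PC : S_PC := pc_of t_UQ t_CNT t_XC

/-- BIL: the bilinear identity -/
theorem t_BIL : S_BIL := bil_of (t_BIL1 (t_SG t_JAC)) t_BIL2A t_BIL2B t_PC

end Pool.Agent.H757_X15.BB
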