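import Pool.Agent.Y246.Z700.JAC

/-!
# X15-B5 (helper219): Gauss's identity `(q)² = (q²;q²) ∑ (-1)^j q^(j²)` for polynomials
-/

set_option autoImplicit false

namespace Pool.Agent.H757_X15.BB

open Finset Polynomial Pool.Agent.H464R3.J Pool.Agent.Y246.Z700

section field

variable {F : Type*} [Field F]

theorem g_dn {q : F} (hq : q ≠ 0) (M : ℕ) :
    (∏ j ∈ range M, (1 - q * (q ^ (2 * M))⁻¹ * (q ^ 2) ^ j)) * q ^ (M ^ 2) =
      (-1) ^ M * ∏ j ∈ range M, (1 - q ^ (2 * j + 1)) := by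
  induction M with
  | zero => simp
  | succ M ih =>
    have h1 : ∀ j ∈ range M, (1 - q * (q ^ (2 * (M + 1)))⁻¹ * (q ^ 2) ^ (j + 1)) =
        1 - q * (q ^ (2 * M))⁻¹ * (q ^ 2) ^ j := by
      intro j _
      rw [show 2 * (M + 1) = 2 * M + 2 by ring, pow_add, pow_succ (q ^ 2) j]
      field_simp
    rw [Finset.prod_range_succ', Finset.prod_congr rfl h1,
      Finset.prod_range_succ (fun j => 1 - q ^ (2 * j + 1)), pow_succ (-1 : F)]
    have h2 : (1 - q * (q ^ (2 * (M + 1)))⁻¹ * (q ^ 2) ^ 0) * q ^ (2 * M + 1) =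
        -(1 - q ^ (2 * M + 1)) := by
      rw [pow_zero, show 2 * (M + 1) = 2 * M + 1 + 1 by ring, pow_succ q (2 * M + 1)]
      field_simp
      ring
    have h3 : q ^ ((M + 1) ^ 2) = q ^ (M ^ 2) * q ^ (2 * M + 1) := by
      rw [← pow_add]; congr 1; ring
    calc _ = ((∏ j ∈ range M, (1 - q * (q ^ (2 * M))⁻¹ * (q ^ 2) ^ j)) * q ^ (M ^ 2)) *
          ((1 - q * (q ^ (2 * (M + 1)))⁻¹ * (q ^ 2) ^ 0) * q ^ (2 * M + 1)) := by
            rw [h3]; ring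
      _ = _ := by
        rw [ih, h2]; ring

theorem g_up {q : F} (hq : q ≠ 0) (M : ℕ) :
    ∏ j ∈ range M, (1 - q * (q ^ (2 * M))⁻¹ * (q ^ 2) ^ (M + j)) =
      ∏ j ∈ range M, (1 - q ^ (2 * j + 1)) := by
  refine Finset.prod_congr rfl fun j _ => ?_
  rw [← pow_mul, show 2 * (M + j) = 2 * M + 2 * j by ring, pow_add, pow_succ]
  field_simp

theorem sq_natAbs_exp {q : F} (hq : q ≠ 0) (M a : ℕ) :
    q ^ (M ^ 2) * ((q ^ 2) ^ (a.choose 2) * (q * (q ^ (2 * M))⁻¹) ^ a) =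
      q ^ (((a : ℤ) - M).natAbs ^ 2) := by
  have h1 : 2 * a.choose 2 + a = a ^ 2 := by
    rcases a with _ | a
    · rfl
    · rw [two_tri]; ring
  have h2 : (q ^ 2) ^ (a.choose 2) * (q * (q ^ (2 * M))⁻¹) ^ a = q ^ (a ^ 2) * (q ^ (2 * M * a))⁻¹ := by
    rw [← h1, mul_pow, ← pow_mul, inv_pow, ← pow_mul, pow_add]
    ring
  rw [h2]
  have h3 : ((a : ℤ) - M).natAbs ^ 2 + 2 * M * a = M ^ 2 + a ^ 2 := by
    zify
    rw [sq_abs]
    ring
  have h4 : q ^ (((a : ℤ) - M).natAbs ^ 2) * q ^ (2 * M * a) = q ^ (M ^ 2) * q ^ (a ^ 2) := by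
    rw [← pow_add, h3, pow_add]
  have h5 : q ^ (2 * M * a) ≠ 0 := pow_ne_zero _ hq
  rw [← mul_assoc, ← h4, mul_assoc, mul_inv_cancel₀ h5, mul_one]

theorem neg_one_natAbs (M a : ℕ) : ((-1 : F)) ^ M * (-1) ^ a = (-1) ^ (((a : ℤ) - M).natAbs) := by
  rcases Nat.le_total M a with h | h
  · obtain ⟨k, rfl⟩ := Nat.exists_eq_add_of_le h
    have e : (((M + k : ℕ) : ℤ) - M).natAbs = k := by omega
    rw [e, pow_add, ← mul_assoc, ← mul_pow]
    simp
  · obtain ⟨k, rfl⟩ := Nat.exists_eq_add_of_le h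
    have e : ((a : ℤ) - ((a + k : ℕ) : ℤ)).natAbs = k := by omega
    rw [e, pow_add]
    have : ((-1 : F)) ^ a * (-1) ^ a = 1 := by rw [← mul_pow]; simp
    linear_combination (-1 : F) ^ k * this

/-- the finite form of Gauss's identity -/
theorem fin_gauss {q : F} (hq : q ≠ 0) (M : ℕ) (hg : Gen (q ^ 2) (2 * M)) :
    (∏ j ∈ range M, (1 - q ^ (2 * j + 1))) ^ 2 = ∑ a ∈ range (2 * M + 1),
      (-1) ^ (((a : ℤ) - M).natAbs) * q ^ (((a : ℤ) - M).natAbs ^ 2) *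
        (f (q ^ 2) (2 * M) / (f (q ^ 2) a * f (q ^ 2) (2 * M - a))) := by
  have h := qbinom (q := q ^ 2) (q * (q ^ (2 * M))⁻¹) (2 * M) hg
  have hs : ∏ j ∈ range (2 * M), (1 - q * (q ^ (2 * M))⁻¹ * (q ^ 2) ^ j) =
      (∏ j ∈ range M, (1 - q * (q ^ (2 * M))⁻¹ * (q ^ 2) ^ j)) *
      ∏ j ∈ range M, (1 - q * (q ^ (2 * M))⁻¹ * (q ^ 2) ^ (M + j)) := by
    conv_lhs => rw [show range (2 * M) = range (M + M) by rw [two_mul], Finset.prod_range_add]
  rw [hs, g_up hq] at h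
  have h2 := g_dn hq M
  have h3 : ((-1 : F)) ^ M * (-1) ^ M = 1 := by rw [← mul_pow]; simp
  have h4 : (∏ j ∈ range M, (1 - q ^ (2 * j + 1))) ^ 2 = (-1) ^ M * q ^ (M ^ 2) *
      ((∏ j ∈ range M, (1 - q * (q ^ (2 * M))⁻¹ * (q ^ 2) ^ j)) *
        ∏ j ∈ range M, (1 - q ^ (2 * j + 1))) := by
    have : (-1) ^ M * q ^ (M ^ 2) *
      ((∏ j ∈ range M, (1 - q * (q ^ (2 * M))⁻¹ * (q ^ 2) ^ j)) *
        ∏ j ∈ range M, (1 - q ^ (2 * j + 1))) = (-1) ^ M *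
        ((∏ j ∈ range M, (1 - q * (q ^ (2 * M))⁻¹ * (q ^ 2) ^ j)) * q ^ (M ^ 2)) *
        ∏ j ∈ range M, (1 - q ^ (2 * j + 1)) := by ring
    rw [this, h2]
    linear_combination (-(∏ j ∈ range M, (1 - q ^ (2 * j + 1))) ^ 2) * h3
  rw [h4, h, Finset.mul_sum]
  refine Finset.sum_congr rfl fun a _ => ?_
  rw [← neg_one_natAbs M a, ← sq_natAbs_exp hq M a]
  ring

end field

/-! ### polynomials -/

/-- the product of the `1 - X^(2(j+1))` -/
noncomputable def P2 (n : ℕ) : ℤ[X] := ∏ j ∈ range n, (1 - (X ^ 2) ^ (j + 1))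

theorem P2_eq (n : ℕ) : P2 n = expand ℤ 2 (PP n) := by
  unfold P2 PP
  rw [map_prod]
  refine Finset.prod_congr rfl fun j _ => ?_
  rw [map_sub, map_one, map_pow, expand_X]

/-- the odd factors -/
noncomputable def OD (n : ℕ) : ℤ[X] := ∏ j ∈ range n, (1 - X ^ (2 * j + 1))

theorem PP_two_mul (M : ℕ) : PP (2 * M) = P2 M * OD M := by
  induction M with
  | zero => simp [PP, P2, OD]
  | succ M ih =>
    have e : PP (2 * (M + 1)) = PP (2 * M) * (1 - X ^ (2 * M + 1)) * (1 - X ^ (2 * M + 1 + 1)) := by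
      unfold PP
      rw [show 2 * (M + 1) = 2 * M + 1 + 1 by ring, Finset.prod_range_succ, Finset.prod_range_succ]
    rw [e, ih]
    unfold P2 OD
    rw [Finset.prod_range_succ, Finset.prod_range_succ, ← pow_mul,
      show 2 * (M + 1) = 2 * M + 1 + 1 by ring]
    ring

/-- the two products -/
noncomputable def WW (M k : ℕ) : ℤ[X] := (∏ j ∈ Ico (M - k) M, (1 - (X ^ 2) ^ (j + 1))) *
  ∏ j ∈ Ico (M + k) (2 * M), (1 - (X ^ 2) ^ (j + 1))

theorem poly_gauss (M : ℕ) : (PP (2 * M)) ^ 2 = P2 M * ∑ a ∈ range (2 * M + 1),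
    (-1) ^ (((a : ℤ) - M).natAbs) * X ^ (((a : ℤ) - M).natAbs ^ 2) *
      WW M (((a : ℤ) - M).natAbs) := by
  let F := FractionRing ℤ[X]
  have hinj : Function.Injective (algebraMap ℤ[X] F) := IsFractionRing.injective ℤ[X] F
  set q : F := algebraMap ℤ[X] F X with hq
  have hq0 : q ≠ 0 := by
    rw [hq, Ne, map_eq_zero_iff _ hinj]
    exact X_ne_zero
  have hg : ∀ N, Gen (q ^ 2) N := by
    intro N j h1 h2
    have h3 : (1 : ℤ[X]) - X ^ (2 * j) ≠ 0 := by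
      intro h
      have h4 := congrArg (fun p => Polynomial.coeff p (2 * j)) h
      simp only [coeff_sub, coeff_one, coeff_X_pow, if_true, coeff_zero] at h4
      rw [if_neg (by omega)] at h4
      norm_num at h4
    intro h
    apply h3
    apply hinj
    rw [map_sub, map_one, map_pow, map_zero, pow_mul]
    exact h
  have hf : ∀ N, f (q ^ 2) N = algebraMap ℤ[X] F (P2 N) := by
    intro N
    unfold f P2
    rw [map_prod]
    refine Finset.prod_congr rfl fun j _ => ?_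
    rw [map_sub, map_one, map_pow, map_pow]
  have hPne : ∀ N, algebraMap ℤ[X] F (P2 N) ≠ 0 := fun N => by
    rw [← hf]
    exact (hg N).f_ne le_rfl
  have hO : ∏ j ∈ range M, (1 - q ^ (2 * j + 1)) = algebraMap ℤ[X] F (OD M) := by
    unfold OD
    rw [map_prod]
    refine Finset.prod_congr rfl fun j _ => ?_
    rw [map_sub, map_one, map_pow]
  apply hinj
  have h := fin_gauss hq0 M (hg _)
  rw [PP_two_mul, map_pow, map_mul, map_mul, map_sum, ← hO, mul_pow, h, sq, mul_assoc]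
  congr 1
  rw [Finset.mul_sum]
  refine Finset.sum_congr rfl fun a ha => ?_
  have ha2 : a ≤ 2 * M := Nat.lt_succ_iff.1 (Finset.mem_range.1 ha)
  set k := ((a : ℤ) - M).natAbs with hk
  have hkM : k ≤ M := by omega
  have e0 : f (q ^ 2) a * f (q ^ 2) (2 * M - a) = f (q ^ 2) (M - k) * f (q ^ 2) (M + k) := by
    rcases Nat.le_total M a with h1 | h1
    · rw [mul_comm, show 2 * M - a = M - k by omega, show M + k = a by omega]
    · rw [show 2 * M - a = M + k by omega, show M - k = a by omega]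
  have e1 : P2 M = P2 (M - k) * ∏ j ∈ Ico (M - k) M, (1 - (X ^ 2) ^ (j + 1)) := by
    unfold P2
    rw [Finset.prod_range_mul_prod_Ico _ (Nat.sub_le _ _)]
  have e2 : P2 (2 * M) = P2 (M + k) * ∏ j ∈ Ico (M + k) (2 * M), (1 - (X ^ 2) ^ (j + 1)) := by
    unfold P2
    rw [Finset.prod_range_mul_prod_Ico _ (by omega)]
  rw [e0, hf, hf, hf]
  have h3 := hPne (M - k)
  have h4 := hPne (M + k)
  unfold WW
  simp only [map_mul, map_pow, map_neg, map_one]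
  have e1' := congrArg (algebraMap ℤ[X] F) e1
  have e2' := congrArg (algebraMap ℤ[X] F) e2
  rw [map_mul] at e1' e2'
  rw [e1', e2', ← hq]
  rw [mul_comm]
  exact alg_aux _ _ _ _ _ h3 h4

/-- the truncated theta series -/
noncomputable def Ph (n : ℕ) : ℤ[X] :=
  ∑ j ∈ Icc (-(n : ℤ)) n, C ((-1) ^ j.natAbs) * X ^ (j.natAbs ^ 2)

theorem Ph_eq (M : ℕ) : Ph M = ∑ a ∈ range (2 * M + 1),
    (-1) ^ (((a : ℤ) - M).natAbs) * X ^ (((a : ℤ) - M).natAbs ^ 2) := by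
  unfold Ph
  symm
  refine Finset.sum_nbij' (fun a => (a : ℤ) - M) (fun j => (j + M).toNat) ?_ ?_ ?_ ?_ ?_
  · intro a ha
    rw [Finset.mem_range] at ha
    rw [Finset.mem_Icc]
    constructor <;> omega
  · intro j hj
    rw [Finset.mem_Icc] at hj
    rw [Finset.mem_range]
    omega
  · intro a _
    simp
  · intro j hj
    rw [Finset.mem_Icc] at hj
    omega
  · intro a _
    simp

theorem dvd_prod2_sub_one (a : ℕ) (s : Finset ℕ) (h : ∀ j ∈ s, a ≤ j) :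
    (X ^ (2 * (a + 1)) : ℤ[X]) ∣ ∏ j ∈ s, (1 - (X ^ 2) ^ (j + 1)) - 1 := by
  have h1 := dvd_prod_sub_one a s h
  have h2 := map_dvd (expand ℤ 2) h1
  rw [map_sub, map_one, map_prod, map_pow, expand_X, ← pow_mul] at h2
  convert h2 using 2
  refine Finset.prod_congr rfl fun j _ => ?_
  rw [map_sub, map_one, map_pow, expand_X]

/-- Gauss's identity modulo a power of the variable -/
theorem gauss_dvd (M : ℕ) : (X ^ (2 * M + 1) : ℤ[X]) ∣ (PP (2 * M)) ^ 2 - P2 M * Ph M := by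
  rw [poly_gauss, Ph_eq, ← mul_sub, ← Finset.sum_sub_distrib]
  refine Dvd.dvd.mul_left ?_ _
  refine Finset.dvd_sum fun a ha => ?_
  have ha2 : a ≤ 2 * M := Nat.lt_succ_iff.1 (Finset.mem_range.1 ha)
  obtain ⟨k, hk⟩ : ∃ k, k = ((a : ℤ) - M).natAbs := ⟨_, rfl⟩
  have hkM : k ≤ M := by omega
  rw [← hk]
  set U : ℤ[X] := ∏ j ∈ Ico (M - k) M, (1 - (X ^ 2) ^ (j + 1)) with hU
  set V : ℤ[X] := ∏ j ∈ Ico (M + k) (2 * M), (1 - (X ^ 2) ^ (j + 1)) with hV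
  have h1 : (X ^ (2 * (M - k + 1)) : ℤ[X]) ∣ U - 1 :=
    dvd_prod2_sub_one _ _ fun j hj => (Finset.mem_Ico.1 hj).1
  have h2 : (X ^ (2 * (M - k + 1)) : ℤ[X]) ∣ V - 1 :=
    dvd_prod2_sub_one _ _ fun j hj => by
      have := (Finset.mem_Ico.1 hj).1
      omega
  have h3 : (X ^ (2 * (M - k + 1)) : ℤ[X]) ∣ U * V - 1 := by
    have e : U * V - 1 = (U - 1) * V + (V - 1) := by ring
    rw [e]
    exact dvd_add (h1.mul_right _) h2
  have h4 : (X ^ (2 * M + 1) : ℤ[X]) ∣ X ^ (k ^ 2) * X ^ (2 * (M - k + 1)) := by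
    rw [← pow_add]
    refine pow_dvd_pow _ ?_
    obtain ⟨r, rfl⟩ := Nat.exists_eq_add_of_le hkM
    rw [Nat.add_sub_cancel_left]
    have : 2 * k ≤ k ^ 2 + 1 := by
      zify
      nlinarith [sq_nonneg ((k : ℤ) - 1)]
    omega
  have h5 : (X ^ (2 * M + 1) : ℤ[X]) ∣ X ^ (k ^ 2) * (U * V - 1) :=
    h4.trans (mul_dvd_mul_left _ h3)
  have e : (-1) ^ k * X ^ (k ^ 2) * WW M k - (-1) ^ k * X ^ (k ^ 2) =
      (-1) ^ k * (X ^ (k ^ 2) * (U * V - 1)) := by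
    unfold WW
    ring
  rw [e]
  exact h5.mul_left _

end Pool.Agent.H757_X15.BB
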