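import Pool.Agent.H757_X15.BS.JacA

/-!
# X15-B5 (helper219): the lattice identity (the quintuple product identity as a product of two theta
series, in derivative form)
-/

set_option autoImplicit false

namespace Pool.Agent.H757_X15.BB

open Finset Polynomial Pool.Agent.H464R3.J Pool.Agent.Y246.Z700

/-- the sign `(-1)^x` -/
def sg (x : ℤ) : ℤ := if x % 2 = 0 then 1 else -1

theorem sg_natAbs (x : ℤ) : (-1 : ℤ) ^ x.natAbs = sg x := by
  unfold sg
  rcases Nat.even_or_odd x.natAbs with h | h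
  · rw [h.neg_one_pow, if_pos]
    obtain ⟨r, hr⟩ := h
    omega
  · rw [h.neg_one_pow, if_neg]
    obtain ⟨r, hr⟩ := h
    omega

theorem sg_mul (x y : ℤ) : sg x * sg y = sg (x + y) := by
  unfold sg
  rcases Int.emod_two_eq_zero_or_one x with h | h <;>
  rcases Int.emod_two_eq_zero_or_one y with h' | h'
  · rw [if_pos h, if_pos h', if_pos (by omega)]; rfl
  · rw [if_pos h, if_neg (by omega), if_neg (by omega)]; rfl
  · rw [if_neg (by omega), if_pos h', if_neg (by omega)]; rfl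
  · rw [if_neg (by omega), if_neg (by omega), if_pos (by omega)]; rfl

theorem sg_congr {x y : ℤ} (h : (x - y) % 2 = 0) : sg x = sg y := by
  unfold sg
  by_cases hx : x % 2 = 0
  · rw [if_pos hx, if_pos (by omega)]
  · rw [if_neg hx, if_neg (by omega)]

theorem sg_anti {x y : ℤ} (h : (x - y) % 2 = 1) : sg x = -sg y := by
  unfold sg
  by_cases hx : x % 2 = 0
  · rw [if_pos hx, if_neg (by omega)]; rfl
  · rw [if_neg hx, if_pos (by omega)]

/-- the box -/
noncomputable def bx (m : ℕ) : Finset (ℤ × ℤ) := Icc (-(2 * (m : ℤ) + 2)) (2 * m + 2) ×ˢ Icc (-(2 * (m : ℤ) + 2)) (2 * m + 2)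

/-- the points of `k (k + 1) + 2 j ^ 2 = 2 m` -/
noncomputable def SS (m : ℕ) : Finset (ℤ × ℤ) := (bx m).filter fun p => p.1 * (p.1 + 1) + 2 * p.2 ^ 2 = 2 * m

/-- the points of `t (3 t - 1) + 2 i (3 i - 1) = 2 m` -/
noncomputable def TT (m : ℕ) : Finset (ℤ × ℤ) :=
  (bx m).filter fun p => p.1 * (3 * p.1 - 1) + 2 * (p.2 * (3 * p.2 - 1)) = 2 * m

theorem mem_SS (m : ℕ) (p : ℤ × ℤ) : p ∈ SS m ↔ p.1 * (p.1 + 1) + 2 * p.2 ^ 2 = 2 * m := by
  unfold SS bx
  rw [Finset.mem_filter, Finset.mem_product, Finset.mem_Icc, Finset.mem_Icc]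
  refine ⟨fun h => h.2, fun h => ⟨⟨⟨?_, ?_⟩, ?_, ?_⟩, h⟩⟩ <;> nlinarith [sq_nonneg (p.1 + 1), sq_nonneg p.2, sq_nonneg p.1, sq_nonneg (p.2 + 1), sq_nonneg (p.2 - 1)]

theorem mem_TT (m : ℕ) (p : ℤ × ℤ) :
    p ∈ TT m ↔ p.1 * (3 * p.1 - 1) + 2 * (p.2 * (3 * p.2 - 1)) = 2 * m := by
  unfold TT bx
  rw [Finset.mem_filter, Finset.mem_product, Finset.mem_Icc, Finset.mem_Icc]
  have h1 : 0 ≤ p.1 * (3 * p.1 - 1) := by
    rcases le_or_gt p.1 0 with h | h <;> nlinarith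
  have h2 : 0 ≤ p.2 * (3 * p.2 - 1) := by
    rcases le_or_gt p.2 0 with h | h <;> nlinarith
  have h3 : |p.1| ≤ p.1 * (3 * p.1 - 1) + 1 := by
    rcases abs_cases p.1 with ⟨e, _⟩ | ⟨e, _⟩ <;> rw [e] <;> nlinarith
  have h4 : |p.2| ≤ p.2 * (3 * p.2 - 1) + 1 := by
    rcases abs_cases p.2 with ⟨e, _⟩ | ⟨e, _⟩ <;> rw [e] <;> nlinarith
  rw [abs_le] at h3 h4
  refine ⟨fun h => h.2, fun h => ⟨⟨⟨?_, ?_⟩, ?_, ?_⟩, h⟩⟩ <;> linarith

/-- the weight on `SS` -/
def wS (p : ℤ × ℤ) : ℤ := sg (p.1 + p.2) * (2 * p.1 + 1)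

/-- the weight on `TT` -/
def wT (p : ℤ × ℤ) : ℤ := sg p.2 * (1 - 6 * p.1)

/-- the new weight on `SS` -/
def wR (p : ℤ × ℤ) : ℤ := sg (p.1 + p.2) * (2 * (p.1 + 2 * p.2) + 1)

theorem sum_wR (m : ℕ) : ∑ p ∈ SS m, wS p = ∑ p ∈ SS m, wR p := by
  have h1 : ∑ p ∈ SS m, sg (p.1 + p.2) * p.2 = ∑ p ∈ SS m, -(sg (p.1 + p.2) * p.2) := by
    refine Finset.sum_nbij' (fun p => (p.1, -p.2)) (fun p => (p.1, -p.2)) ?_ ?_ ?_ ?_ ?_
    · intro p hp
      rw [mem_SS] at hp ⊢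
      simp only
      linarith [hp, neg_sq p.2]
    · intro p hp
      rw [mem_SS] at hp ⊢
      simp only
      linarith [hp, neg_sq p.2]
    · intro p _; simp
    · intro p _; simp
    · intro p _
      simp only
      rw [sg_congr (x := p.1 + p.2) (y := p.1 + -p.2) (by omega)]
      ring
  rw [Finset.sum_neg_distrib] at h1
  have h2 : ∑ p ∈ SS m, sg (p.1 + p.2) * p.2 = 0 := by linarith
  have h3 : ∑ p ∈ SS m, wR p = ∑ p ∈ SS m, wS p + 4 * ∑ p ∈ SS m, sg (p.1 + p.2) * p.2 := by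
    rw [Finset.mul_sum, ← Finset.sum_add_distrib]
    refine Finset.sum_congr rfl fun p _ => ?_
    unfold wR wS
    ring
  rw [h3, h2]
  ring

theorem sum_r0 (m : ℕ) : ∑ p ∈ (SS m).filter (fun p => (p.1 + 2 * p.2) % 3 = 0), wR p =
    ∑ p ∈ TT m, wT p := by
  symm
  refine Finset.sum_nbij' (fun p => (-p.1 - 2 * p.2, p.2 - p.1))
    (fun p => (-((p.1 + 2 * p.2) / 3), p.2 - (p.1 + 2 * p.2) / 3)) ?_ ?_ ?_ ?_ ?_
  · intro p hp
    rw [mem_TT] at hp
    rw [Finset.mem_filter, mem_SS]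
    constructor
    · simp only
      linear_combination hp
    · simp only
      omega
  · intro p hp
    rw [Finset.mem_filter, mem_SS] at hp
    obtain ⟨hp, hr⟩ := hp
    obtain ⟨t, ht⟩ : ∃ t, p.1 + 2 * p.2 = 3 * t := ⟨(p.1 + 2 * p.2) / 3, by omega⟩
    rw [mem_TT]
    simp only
    rw [ht, Int.mul_ediv_cancel_left _ (by norm_num)]
    have e : p.1 = 3 * t - 2 * p.2 := by linarith
    rw [e] at hp
    linear_combination hp
  · intro p _
    obtain ⟨t, i⟩ := p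
    simp only
    rw [show -t - 2 * i + 2 * (i - t) = 3 * (-t) by ring, Int.mul_ediv_cancel_left _ (by norm_num)]
    ext <;> simp
  · intro p hp
    rw [Finset.mem_filter] at hp
    obtain ⟨t, ht⟩ : ∃ t, p.1 + 2 * p.2 = 3 * t := ⟨(p.1 + 2 * p.2) / 3, by omega⟩
    obtain ⟨k, j⟩ := p
    simp only at ht ⊢
    rw [ht, Int.mul_ediv_cancel_left _ (by norm_num)]
    ext
    · simp only; linarith
    · simp only; linarith
  · intro p _
    unfold wT wR
    simp only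
    rw [sg_congr (x := p.2) (y := -p.1 - 2 * p.2 + (p.2 - p.1)) (by omega)]
    ring

theorem sum_r2 (m : ℕ) : ∑ p ∈ (SS m).filter (fun p => (p.1 + 2 * p.2) % 3 = 2), wR p =
    ∑ p ∈ TT m, wT p := by
  symm
  refine Finset.sum_nbij' (fun p => (p.1 - 1 + 2 * p.2, p.1 - p.2))
    (fun p => ((p.1 + 2 * p.2 + 1) / 3, (p.1 + 2 * p.2 + 1) / 3 - p.2)) ?_ ?_ ?_ ?_ ?_
  · intro p hp
    rw [mem_TT] at hp
    rw [Finset.mem_filter, mem_SS]
    constructor
    · simp only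
      linear_combination hp
    · simp only
      omega
  · intro p hp
    rw [Finset.mem_filter, mem_SS] at hp
    obtain ⟨hp, hr⟩ := hp
    obtain ⟨t, ht⟩ : ∃ t, p.1 + 2 * p.2 + 1 = 3 * t := ⟨(p.1 + 2 * p.2 + 1) / 3, by omega⟩
    rw [mem_TT]
    simp only
    rw [ht, Int.mul_ediv_cancel_left _ (by norm_num)]
    have e : p.1 = 3 * t - 1 - 2 * p.2 := by linarith
    rw [e] at hp
    linear_combination hp
  · intro p _
    obtain ⟨t, i⟩ := p
    simp only
    rw [show t - 1 + 2 * i + 2 * (t - i) + 1 = 3 * t by ring,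
      Int.mul_ediv_cancel_left _ (by norm_num)]
    ext <;> simp
  · intro p hp
    rw [Finset.mem_filter] at hp
    obtain ⟨t, ht⟩ : ∃ t, p.1 + 2 * p.2 + 1 = 3 * t := ⟨(p.1 + 2 * p.2 + 1) / 3, by omega⟩
    obtain ⟨k, j⟩ := p
    simp only at ht ⊢
    rw [ht, Int.mul_ediv_cancel_left _ (by norm_num)]
    ext
    · simp only; linarith
    · simp only; linarith
  · intro p _
    unfold wT wR
    simp only
    rw [sg_anti (x := p.1 - 1 + 2 * p.2 + (p.1 - p.2)) (y := p.2) (by omega)]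
    ring

theorem sum_r1 (m : ℕ) : ∑ p ∈ (SS m).filter (fun p => (p.1 + 2 * p.2) % 3 = 1), wR p = 0 := by
  have h : ∑ p ∈ (SS m).filter (fun p => (p.1 + 2 * p.2) % 3 = 1), wR p =
      ∑ p ∈ (SS m).filter (fun p => (p.1 + 2 * p.2) % 3 = 1), -wR p := by
    have key : ∀ p ∈ (SS m).filter (fun p => (p.1 + 2 * p.2) % 3 = 1),
        (p.1 + 2 * p.2 - 2 * (2 * ((p.1 + 2 * p.2) / 3) + 1 - p.2),
          2 * ((p.1 + 2 * p.2) / 3) + 1 - p.2) ∈
          (SS m).filter (fun p => (p.1 + 2 * p.2) % 3 = 1) := by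
      intro p hp
      rw [Finset.mem_filter, mem_SS] at hp ⊢
      obtain ⟨hp, hr⟩ := hp
      obtain ⟨t, ht⟩ : ∃ t, (p.1 + 2 * p.2) / 3 = t := ⟨_, rfl⟩
      have e : p.1 = 3 * t + 1 - 2 * p.2 := by omega
      rw [ht]
      simp only
      constructor
      · rw [e] at hp ⊢
        linear_combination hp
      · omega
    refine Finset.sum_nbij' (fun p => (p.1 + 2 * p.2 - 2 * (2 * ((p.1 + 2 * p.2) / 3) + 1 - p.2),
          2 * ((p.1 + 2 * p.2) / 3) + 1 - p.2)) (fun p => (p.1 + 2 * p.2 - 2 * (2 * ((p.1 + 2 * p.2) / 3) + 1 - p.2),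
          2 * ((p.1 + 2 * p.2) / 3) + 1 - p.2)) key key ?_ ?_ ?_
    · intro p hp
      rw [Finset.mem_filter] at hp
      obtain ⟨k, j⟩ := p
      simp only at hp ⊢
      ext
      · simp only; omega
      · simp only; omega
    · intro p hp
      rw [Finset.mem_filter] at hp
      obtain ⟨k, j⟩ := p
      simp only at hp ⊢
      ext
      · simp only; omega
      · simp only; omega
    · intro p hp
      rw [Finset.mem_filter] at hp
      unfold wR
      simp only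
      rw [sg_anti (x := p.1 + p.2) (y := p.1 + 2 * p.2 - 2 * (2 * ((p.1 + 2 * p.2) / 3) + 1 - p.2) +
          (2 * ((p.1 + 2 * p.2) / 3) + 1 - p.2)) (by omega)]
      ring
  rw [Finset.sum_neg_distrib] at h
  linarith

/-- the lattice identity -/
theorem lat (m : ℕ) : ∑ p ∈ SS m, wS p = 2 * ∑ p ∈ TT m, wT p := by
  rw [sum_wR, ← Finset.sum_filter_add_sum_filter_not (SS m) (fun p => (p.1 + 2 * p.2) % 3 = 0),
    sum_r0, ← Finset.sum_filter_add_sum_filter_not ((SS m).filter fun p => ¬ (p.1 + 2 * p.2) % 3 = 0)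
      (fun p => (p.1 + 2 * p.2) % 3 = 1), Finset.filter_filter, Finset.filter_filter]
  have e1 : (SS m).filter (fun p => ¬ (p.1 + 2 * p.2) % 3 = 0 ∧ (p.1 + 2 * p.2) % 3 = 1) =
      (SS m).filter (fun p => (p.1 + 2 * p.2) % 3 = 1) := by
    refine Finset.filter_congr fun p _ => ?_
    omega
  have e2 : (SS m).filter (fun p => ¬ (p.1 + 2 * p.2) % 3 = 0 ∧ ¬ (p.1 + 2 * p.2) % 3 = 1) =
      (SS m).filter (fun p => (p.1 + 2 * p.2) % 3 = 2) := by
    refine Finset.filter_congr fun p _ => ?_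
    omega
  rw [e1, e2, sum_r1, sum_r2]
  ring

/-- the half of the sum over `SS` -/
theorem half (m : ℕ) : ∑ p ∈ SS m, wS p = 2 * ∑ p ∈ (SS m).filter (fun p => 0 ≤ p.1), wS p := by
  rw [← Finset.sum_filter_add_sum_filter_not (SS m) (fun p => 0 ≤ p.1), two_mul]
  congr 1
  refine Finset.sum_nbij' (fun p => (-1 - p.1, p.2)) (fun p => (-1 - p.1, p.2)) ?_ ?_ ?_ ?_ ?_
  · intro p hp
    rw [Finset.mem_filter, mem_SS] at hp ⊢
    simp only
    constructor
    · linear_combination hp.1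
    · omega
  · intro p hp
    rw [Finset.mem_filter, mem_SS] at hp ⊢
    simp only
    constructor
    · linear_combination hp.1
    · omega
  · intro p _; simp
  · intro p _; simp
  · intro p _
    unfold wS
    simp only
    rw [sg_anti (x := p.1 + p.2) (y := -1 - p.1 + p.2) (by omega)]
    ring

/-- the lattice identity, final form -/
theorem lat2 (m : ℕ) : ∑ p ∈ (SS m).filter (fun p => 0 ≤ p.1), wS p = ∑ p ∈ TT m, wT p := by
  have h1 := lat m
  rw [half] at h1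
  linarith

end Pool.Agent.H757_X15.BB
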