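import Pool.Agent.H757_X15.StmB
import Pool.Agent.Y288.Z7.Tors

/-!
# X15-B1: positive even ternary lattices of determinant six

Each of them is isometric to the lattice with Gram matrix `GM`, which has 12 rotations
(after `Y288.Z7.Tors`).
-/

set_option autoImplicit false
set_option linter.all false

namespace Pool.Agent.H757_X15.BB

open Finset Matrix
open Pool.Agent.Y288.Z7 (exists_round cols cols_eq dd3 det_cols)

namespace UQ

/-- the bilinear form of `GM` -/
def bq (v w : Fin 3 → ℤ) : ℤ :=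
  2 * (v 0 * w 0) + 2 * (v 1 * w 1) - v 1 * w 2 - v 2 * w 1 + 2 * (v 2 * w 2)

theorem bq_comm (v w : Fin 3 → ℤ) : bq v w = bq w v := by
  unfold bq; ring

/-- vectors with a given Gram matrix -/
def Rep (a b c d e f : ℤ) : Prop := ∃ v w z : Fin 3 → ℤ,
  bq v v = a ∧ bq v w = b ∧ bq v z = c ∧ bq w w = d ∧ bq w z = e ∧ bq z z = f

theorem Rep.shear12 {a b c d e f : ℤ} (t : ℤ)
    (h : Rep a (b - t * a) c (d - 2 * t * b + t ^ 2 * a) (e - t * c) f) : Rep a b c d e f := by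
  obtain ⟨v, w, z, h1, h2, h3, h4, h5, h6⟩ := h
  refine ⟨v, w + t • v, z, h1, ?_, h3, ?_, ?_, h6⟩ <;>
    simp only [bq, Pi.add_apply, Pi.smul_apply, smul_eq_mul] at *
  · linear_combination h2 + t * h1
  · linear_combination h4 + 2 * t * h2 + t ^ 2 * h1
  · linear_combination h5 + t * h3

theorem Rep.shear23 {a b c d e f : ℤ} (s : ℤ)
    (h : Rep a b (c - s * b) d (e - s * d) (f - 2 * s * e + s ^ 2 * d)) : Rep a b c d e f := by
  obtain ⟨v, w, z, h1, h2, h3, h4, h5, h6⟩ := h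
  refine ⟨v, w, z + s • w, h1, h2, ?_, h4, ?_, ?_⟩ <;>
    simp only [bq, Pi.add_apply, Pi.smul_apply, smul_eq_mul] at *
  · linear_combination h3 + s * h2
  · linear_combination h5 + s * h4
  · linear_combination h6 + 2 * s * h5 + s ^ 2 * h4

theorem Rep.swap12 {a b c d e f : ℤ} (h : Rep d b e a c f) : Rep a b c d e f := by
  obtain ⟨v, w, z, h1, h2, h3, h4, h5, h6⟩ := h
  exact ⟨w, v, z, h4, by rw [bq_comm, h2], h5, h1, h3, h6⟩

theorem Rep.swap23 {a b c d e f : ℤ} (h : Rep a c b f e d) : Rep a b c d e f := by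
  obtain ⟨v, w, z, h1, h2, h3, h4, h5, h6⟩ := h
  exact ⟨v, z, w, h1, h3, h2, h6, by rw [bq_comm, h5], h4⟩

theorem rep_of (N : ℕ) : ∀ a b c d e f : ℤ, 0 < a → 0 < a * d - b ^ 2 →
    a * d * f + 2 * b * c * e - a * e ^ 2 - d * c ^ 2 - f * b ^ 2 = 6 →
    Even a → Even d → Even f →
    a + (a * d - b ^ 2) ≤ N → Rep a b c d e f := by
  induction N with
  | zero =>
    intro a b c d e f ha hD _ _ _ _ hN
    exfalso
    push_cast at hN
    linarith
  | succ N ih =>
    intro a b c d e f ha hD hdet hae hde hfe hN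
    push_cast at hN
    obtain ⟨t, ht1, ht2⟩ := exists_round b a ha
    apply Rep.shear12 t
    obtain ⟨b', hb'⟩ : ∃ b', b' = b - t * a := ⟨_, rfl⟩
    obtain ⟨d', hd'⟩ : ∃ d', d' = d - 2 * t * b + t ^ 2 * a := ⟨_, rfl⟩
    obtain ⟨e', he'⟩ : ∃ e', e' = e - t * c := ⟨_, rfl⟩
    rw [← hb', ← hd', ← he']
    rw [← hb'] at ht1 ht2
    have hde' : Even d' := by
      rw [hd', mul_assoc 2 t b]
      exact (hde.sub (even_two_mul _)).add (hae.mul_left _)
    have hD' : a * d' - b' ^ 2 = a * d - b ^ 2 := by rw [hd', hb']; ring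
    have hdet' : a * d' * f + 2 * b' * c * e' - a * e' ^ 2 - d' * c ^ 2 - f * b' ^ 2 = 6 := by
      rw [← hdet, hd', hb', he']; ring
    rw [← hD'] at hD hN
    have hd'0 : 0 < d' := by
      by_contra hcon
      push Not at hcon
      nlinarith [sq_nonneg b']
    have hb2 : 4 * b' ^ 2 ≤ a ^ 2 := by nlinarith
    by_cases hlt : d' < a
    · apply Rep.swap12
      apply ih d' b' e' a c f hd'0 (by linarith) (by linarith) hde' hae hfe
      have : d' * a - b' ^ 2 = a * d' - b' ^ 2 := by ring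
      rw [this]
      linarith
    push Not at hlt
    obtain ⟨D2, hD2⟩ : ∃ D2, D2 = a * d' - b' ^ 2 := ⟨_, rfl⟩
    rw [← hD2] at hD hN
    have h34 : 3 * a ^ 2 ≤ 4 * D2 := by nlinarith
    obtain ⟨s, hs1, hs2⟩ := exists_round (a * e' - b' * c) D2 hD
    apply Rep.shear23 s
    obtain ⟨c2, hc2⟩ : ∃ c2, c2 = c - s * b' := ⟨_, rfl⟩
    obtain ⟨e2, he2⟩ : ∃ e2, e2 = e' - s * d' := ⟨_, rfl⟩
    obtain ⟨f2, hf2⟩ : ∃ f2, f2 = f - 2 * s * e' + s ^ 2 * d' := ⟨_, rfl⟩
    rw [← hc2, ← he2, ← hf2]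
    have hfe2 : Even f2 := by
      rw [hf2, mul_assoc 2 s e']
      exact (hfe.sub (even_two_mul _)).add (hde'.mul_left _)
    have hdet2 : a * d' * f2 + 2 * b' * c2 * e2 - a * e2 ^ 2 - d' * c2 ^ 2 - f2 * b' ^ 2 = 6 := by
      rw [← hdet', hc2, he2, hf2]; ring
    obtain ⟨K, hK⟩ : ∃ K, K = a * e2 - b' * c2 := ⟨_, rfl⟩
    have hK2 : K = a * e' - b' * c - s * D2 := by rw [hK, he2, hc2, hD2]; ring
    rw [← hK2] at hs1 hs2
    have hKK : 4 * K ^ 2 ≤ D2 ^ 2 := by nlinarith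
    have hid : D2 * (a * f2 - c2 ^ 2) = K ^ 2 + a * 6 := by
      have : K ^ 2 + a * (a * d' * f2 + 2 * b' * c2 * e2 - a * e2 ^ 2 - d' * c2 ^ 2 - f2 * b' ^ 2) =
          D2 * (a * f2 - c2 ^ 2) := by
        rw [hK, hD2]; ring
      rw [← this, hdet2]
    have hD3 : 0 < a * f2 - c2 ^ 2 := by
      by_contra hcon
      push Not at hcon
      nlinarith [sq_nonneg K]
    by_cases hlt2 : a * f2 - c2 ^ 2 < D2
    · apply Rep.swap23
      apply ih a c2 b' f2 e2 d' ha hD3 (by linarith) hae hfe2 hde'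
      linarith
    push Not at hlt2
    have h36 : D2 * D2 ≤ K ^ 2 + a * 6 := by
      rw [← hid]
      exact mul_le_mul_of_nonneg_left hlt2 hD.le
    have h35 : D2 * D2 ≤ 8 * a := by
      rw [pow_two D2] at hKK
      linarith
    have ha2 : a = 2 := by
      by_contra hne
      have ha4 : 4 ≤ a := by
        obtain ⟨k, hk⟩ := hae
        omega
      have h37 : 4 * a ≤ a ^ 2 := by
        rw [pow_two]
        exact mul_le_mul_of_nonneg_right ha4 ha.le
      have h38 : 3 * a ≤ D2 := by linarith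
      have h39 : (3 * a) * (3 * a) ≤ D2 * D2 :=
        mul_self_le_mul_self (by linarith) h38
      have h40 : (3 * a) * (3 * a) = 9 * a ^ 2 := by ring
      linarith
    subst ha2
    have hD24 : D2 ≤ 4 := by
      by_contra hcon
      push Not at hcon
      have h3 : 5 * 5 ≤ D2 * D2 := mul_self_le_mul_self (by norm_num) hcon
      linarith
    have hD23 : 3 ≤ D2 := by linarith
    have hb' : b' = -1 ∨ b' = 0 ∨ b' = 1 := by omega
    have hb2' : b' ^ 2 ≤ 1 := by rcases hb' with rfl | rfl | rfl <;> norm_num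
    have hd2 : d' = 2 := by
      obtain ⟨k, hk⟩ := hde'
      have : 2 * d' ≤ 5 := by linarith
      omega
    subst hd2
    obtain ⟨F, hF⟩ := hfe2
    have hKc : K = 2 * e2 - b' * c2 := hK
    rcases hb' with rfl | rfl | rfl
    · -- `b' = -1`
      have hD2' : D2 = 3 := by rw [hD2]; norm_num
      have hK0 : K = 0 := by
        have : K = -1 ∨ K = 0 ∨ K = 1 := by omega
        rcases this with rfl | rfl | rfl
        · exfalso; rw [hD2'] at hid; omega
        · rfl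
        · exfalso; rw [hD2'] at hid; omega
      rw [hD2', hK0] at hid
      rw [hK0] at hKc
      obtain ⟨c', hc'⟩ : ∃ c', c2 = 2 * c' := ⟨-e2, by linarith⟩
      have he : e2 = -c' := by linarith
      refine ⟨![0, 1, 0], ![0, 0, 1], ![1, c', 0], ?_, ?_, ?_, ?_, ?_, ?_⟩ <;> simp [bq]
      · linarith
      · linarith
      · rw [hc'] at hid; linarith
    · -- `b' = 0`
      have hD2' : D2 = 4 := by rw [hD2]; norm_num
      have hKe : K = 2 * e2 := by linarith
      have he : e2 = -1 ∨ e2 = 0 ∨ e2 = 1 := by omega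
      have he' : e2 ^ 2 = 1 := by
        rcases he with rfl | rfl | rfl
        · norm_num
        · exfalso
          rw [hD2', hKe] at hid
          rw [hD2'] at hlt2
          norm_num at hid
          linarith
        · norm_num
      rw [hD2', hKe, mul_pow, he'] at hid
      have hc2e : Even c2 := by
        have : Even (c2 ^ 2) := ⟨2 * F - 2, by linarith⟩
        exact (Int.even_pow.1 this).1
      obtain ⟨c', hc'⟩ := hc2e
      refine ⟨![1, 0, 0], ![0, 1, 0], ![c', 0, -e2], ?_, ?_, ?_, ?_, ?_, ?_⟩ <;> simp [bq]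
      · linarith
      · rw [hc'] at hid; nlinarith
    · -- `b' = 1`
      have hD2' : D2 = 3 := by rw [hD2]; norm_num
      have hK0 : K = 0 := by
        have : K = -1 ∨ K = 0 ∨ K = 1 := by omega
        rcases this with rfl | rfl | rfl
        · exfalso; rw [hD2'] at hid; omega
        · rfl
        · exfalso; rw [hD2'] at hid; omega
      rw [hD2', hK0] at hid
      rw [hK0] at hKc
      obtain ⟨c', hc'⟩ : ∃ c', c2 = 2 * c' := ⟨e2, by linarith⟩
      have he : e2 = c' := by linarith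
      refine ⟨![0, 1, 0], ![0, 0, -1], ![1, c', 0], ?_, ?_, ?_, ?_, ?_, ?_⟩ <;> simp [bq]
      · linarith
      · linarith
      · rw [hc'] at hid; linarith

theorem mul_entry (A : Matrix (Fin 3) (Fin 3) ℤ) (i j : Fin 3) :
    (Aᵀ * GM * A) i j = bq (fun k => A k i) (fun k => A k j) := by
  simp only [Matrix.mul_apply, Fin.sum_univ_three, GM, bq, Matrix.transpose_apply]
  simp
  ring

theorem gram_iff (v w z : Fin 3 → ℤ) (M : Matrix (Fin 3) (Fin 3) ℤ) (hM : Mᵀ = M) :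
    (cols v w z)ᵀ * GM * cols v w z = M ↔ bq v v = M 0 0 ∧ bq v w = M 0 1 ∧ bq v z = M 0 2 ∧
      bq w w = M 1 1 ∧ bq w z = M 1 2 ∧ bq z z = M 2 2 := by
  have h10 : M 1 0 = M 0 1 := congrFun (congrFun hM 0) 1
  have h20 : M 2 0 = M 0 2 := congrFun (congrFun hM 0) 2
  have h21 : M 2 1 = M 1 2 := congrFun (congrFun hM 1) 2
  have e : ∀ i j, ((cols v w z)ᵀ * GM * cols v w z) i j =
      bq (fun k => cols v w z k i) (fun k => cols v w z k j) := mul_entry _
  constructor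
  · intro h
    have hh : ∀ i j, bq (fun k => cols v w z k i) (fun k => cols v w z k j) = M i j :=
      fun i j => by rw [← e, h]
    exact ⟨hh 0 0, hh 0 1, hh 0 2, hh 1 1, hh 1 2, hh 2 2⟩
  · rintro ⟨h1, h2, h3, h4, h5, h6⟩
    ext i j
    rw [e]
    fin_cases i <;> fin_cases j
    · exact h1
    · exact h2
    · exact h3
    · exact (bq_comm _ _).trans (h2.trans h10.symm)
    · exact h4
    · exact h5
    · exact (bq_comm _ _).trans (h3.trans h20.symm)
    · exact (bq_comm _ _).trans (h5.trans h21.symm)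
    · exact h6

theorem det_GM : GM.det = 6 := by
  rw [det_fin_three, GM]; simp

theorem symm_GM : GMᵀ = GM := by
  ext i j
  fin_cases i <;> fin_cases j <;> rfl

/-- existence -/
theorem exists_A {M : Matrix (Fin 3) (Fin 3) ℤ} (hM : PosE M) :
    ∃ A : Matrix (Fin 3) (Fin 3) ℤ, Aᵀ * GM * A = M ∧ A.det = 1 := by
  obtain ⟨hs, h0, hD, hdet, e0, e1, e2⟩ := hM
  have h10 : M 1 0 = M 0 1 := congrFun (congrFun hs 0) 1
  have h20 : M 2 0 = M 0 2 := congrFun (congrFun hs 0) 2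
  have h21 : M 2 1 = M 1 2 := congrFun (congrFun hs 1) 2
  have hdet' := hdet
  rw [det_fin_three, h10, h20, h21] at hdet'
  obtain ⟨v, w, z, h⟩ := rep_of
    (M 0 0 + (M 0 0 * M 1 1 - M 0 1 ^ 2)).toNat (M 0 0) (M 0 1) (M 0 2) (M 1 1) (M 1 2) (M 2 2)
    h0 hD (by linarith) e0 e1 e2 (by rw [Int.toNat_of_nonneg (by linarith)])
  have hA : (cols v w z)ᵀ * GM * cols v w z = M := (gram_iff v w z M hs).2 h
  set A := cols v w z with hAdef
  have hd2 : A.det * A.det = 1 := by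
    have := congrArg det hA
    rw [det_mul, det_mul, det_transpose, hdet, det_GM] at this
    linarith
  rcases mul_self_eq_one_iff.1 hd2 with h | h
  · exact ⟨A, hA, h⟩
  · refine ⟨-A, ?_, ?_⟩
    · rw [transpose_neg, neg_mul, neg_mul_neg, hA]
    · rw [det_neg, h]
      simp

/-- the eight vectors of norm `2` -/
def un8 : Fin 8 → Fin 3 → ℤ := ![![1, 0, 0], ![-1, 0, 0], ![0, 1, 0], ![0, -1, 0], ![0, 0, 1],
  ![0, 0, -1], ![0, 1, 1], ![0, -1, -1]]

theorem un8_surj {v : Fin 3 → ℤ} (h : bq v v = 2) : ∃ i, un8 i = v := by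
  unfold bq at h
  have hv : v = ![v 0, v 1, v 2] := by ext i; fin_cases i <;> rfl
  rw [hv]
  generalize v 0 = x at *
  generalize v 1 = y at *
  generalize v 2 = z at *
  have b0 : x ≤ 1 := by nlinarith [sq_nonneg (y - z), sq_nonneg (y + z), sq_nonneg y, sq_nonneg z]
  have b0' : -1 ≤ x := by nlinarith [sq_nonneg (y - z), sq_nonneg (y + z), sq_nonneg y, sq_nonneg z]
  have b1 : y ≤ 1 := by nlinarith [sq_nonneg x, sq_nonneg (2 * z - y)]
  have b1' : -1 ≤ y := by nlinarith [sq_nonneg x, sq_nonneg (2 * z - y)]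
  have b2 : z ≤ 1 := by nlinarith [sq_nonneg x, sq_nonneg (2 * y - z)]
  have b2' : -1 ≤ z := by nlinarith [sq_nonneg x, sq_nonneg (2 * y - z)]
  have hx : x = -1 ∨ x = 0 ∨ x = 1 := by omega
  have hy : y = -1 ∨ y = 0 ∨ y = 1 := by omega
  have hz : z = -1 ∨ z = 0 ∨ z = 1 := by omega
  rcases hx with rfl | rfl | rfl <;> rcases hy with rfl | rfl | rfl <;>
    rcases hz with rfl | rfl | rfl <;>
    first
    | exact ⟨0, rfl⟩
    | exact ⟨1, rfl⟩
    | exact ⟨2, rfl⟩
    | exact ⟨3, rfl⟩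
    | exact ⟨4, rfl⟩
    | exact ⟨5, rfl⟩
    | exact ⟨6, rfl⟩
    | exact ⟨7, rfl⟩
    | (exfalso; revert h; decide)

theorem un8_inj : Function.Injective un8 := by
  intro i j h
  have h0 := congrFun h 0
  have h1 := congrFun h 1
  have h2 := congrFun h 2
  revert h0 h1 h2 i j
  decide

def chk (p : Fin 8 × Fin 8 × Fin 8) : Bool :=
  bq (un8 p.1) (un8 p.2.1) = 0 && bq (un8 p.1) (un8 p.2.2) = 0 &&
    bq (un8 p.2.1) (un8 p.2.2) = -1 && dd3 (un8 p.1) (un8 p.2.1) (un8 p.2.2) = 1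

theorem chk_card : (Finset.univ.filter fun p : Fin 8 × Fin 8 × Fin 8 => chk p = true).card = 12 := by
  decide +kernel

theorem card_rot : Nat.card {R : Matrix (Fin 3) (Fin 3) ℤ // Rᵀ * GM * R = GM ∧ R.det = 1} = 12 := by
  have key : ∀ v w z : Fin 3 → ℤ, ((cols v w z)ᵀ * GM * cols v w z = GM ∧ (cols v w z).det = 1) ↔
      (bq v v = 2 ∧ bq v w = 0 ∧ bq v z = 0 ∧ bq w w = 2 ∧ bq w z = -1 ∧ bq z z = 2) ∧
        dd3 v w z = 1 := by
    intro v w z
    rw [det_cols, gram_iff v w z GM symm_GM]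
    simp [GM]
  have hn : ∀ i, bq (un8 i) (un8 i) = 2 := by decide
  let F : {p : Fin 8 × Fin 8 × Fin 8 // chk p = true} →
      {R : Matrix (Fin 3) (Fin 3) ℤ // Rᵀ * GM * R = GM ∧ R.det = 1} := fun p =>
    ⟨cols (un8 p.1.1) (un8 p.1.2.1) (un8 p.1.2.2), (key _ _ _).2 (by
      have h := p.2
      simp only [chk, Bool.and_eq_true, decide_eq_true_eq] at h
      exact ⟨⟨hn _, h.1.1.1, h.1.1.2, hn _, h.1.2, hn _⟩, h.2⟩)⟩
  have hF : Function.Bijective F := by
    constructor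
    · rintro ⟨⟨i, j, k⟩, hp⟩ ⟨⟨i', j', k'⟩, hp'⟩ h
      have h1 := congrArg Subtype.val h
      have h2 : ∀ r c, cols (un8 i) (un8 j) (un8 k) r c = cols (un8 i') (un8 j') (un8 k') r c :=
        fun r c => congrFun (congrFun h1 r) c
      have e1 : i = i' := un8_inj (funext fun r => h2 r 0)
      have e2 : j = j' := un8_inj (funext fun r => h2 r 1)
      have e3 : k = k' := un8_inj (funext fun r => h2 r 2)
      subst e1; subst e2; subst e3
      rfl
    · rintro ⟨R, hR⟩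
      have hR' := hR
      rw [cols_eq R, key] at hR'
      obtain ⟨⟨h1, h2, h3, h4, h5, h6⟩, h7⟩ := hR'
      obtain ⟨i, hi⟩ := un8_surj (v := fun i => R i 0) h1
      obtain ⟨j, hj⟩ := un8_surj (v := fun i => R i 1) h4
      obtain ⟨k, hk⟩ := un8_surj (v := fun i => R i 2) h6
      refine ⟨⟨(i, j, k), ?_⟩, ?_⟩
      · simp only [chk, Bool.and_eq_true, decide_eq_true_eq, hi, hj, hk]
        exact ⟨⟨⟨h2, h3⟩, h5⟩, h7⟩
      · apply Subtype.ext
        show cols (un8 i) (un8 j) (un8 k) = R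
        rw [hi, hj, hk]
        exact (cols_eq R).symm
  rw [← Nat.card_eq_of_bijective F hF, Nat.card_eq_fintype_card, Fintype.card_subtype]
  exact chk_card

end UQ

open UQ in
theorem t_UQ : S_UQ := by
  intro M hM
  obtain ⟨A0, hA0, hd0⟩ := exists_A hM
  rw [← card_rot]
  have hu : IsUnit A0.det := by rw [hd0]; exact isUnit_one
  have h1 : A0 * A0⁻¹ = 1 := mul_nonsing_inv A0 hu
  have h2 : A0⁻¹ * A0 = 1 := nonsing_inv_mul A0 hu
  have h3 : A0⁻¹ᵀ * A0ᵀ = 1 := by rw [← transpose_mul, h1, transpose_one]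
  have h4 : A0⁻¹.det = 1 := by
    have := congrArg det h1
    rwa [det_mul, hd0, one_mul, det_one] at this
  refine Nat.card_congr ?_
  refine ⟨fun A => ⟨A.1 * A0⁻¹, ?_, ?_⟩, fun R => ⟨R.1 * A0, ?_, ?_⟩, ?_, ?_⟩
  · calc (A.1 * A0⁻¹)ᵀ * GM * (A.1 * A0⁻¹) = A0⁻¹ᵀ * (A.1ᵀ * GM * A.1) * A0⁻¹ := by
          rw [transpose_mul]; simp only [Matrix.mul_assoc]
      _ = A0⁻¹ᵀ * (A0ᵀ * GM * A0) * A0⁻¹ := by rw [A.2.1, hA0]
      _ = (A0⁻¹ᵀ * A0ᵀ) * GM * (A0 * A0⁻¹) := by simp only [Matrix.mul_assoc]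
      _ = GM := by rw [h3, h1, Matrix.one_mul, Matrix.mul_one]
  · rw [det_mul, A.2.2, h4, one_mul]
  · calc (R.1 * A0)ᵀ * GM * (R.1 * A0) = A0ᵀ * (R.1ᵀ * GM * R.1) * A0 := by
          rw [transpose_mul]; simp only [Matrix.mul_assoc]
      _ = M := by rw [R.2.1, hA0]
  · rw [det_mul, R.2.2, hd0, one_mul]
  · intro A
    apply Subtype.ext
    show A.1 * A0⁻¹ * A0 = A.1
    rw [Matrix.mul_assoc, h2, Matrix.mul_one]
  · intro R
    apply Subtype.ext
    show R.1 * A0 * A0⁻¹ = R.1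
    rw [Matrix.mul_assoc, h1, Matrix.mul_one]

end Pool.Agent.H757_X15.BB
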