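import Pool.Agent.H757_X15.StmB
import Pool.Agent.Y155.Z7.XCc

/-!
# Counting the parameters: Chinese remainder theorem and the primes dividing `n1`
-/

set_option autoImplicit false

namespace Pool.Agent.H757_X15.BB.XCn

open Finset
open Pool.Agent.Z700 (fac hh)

theorem xc_mod_ex (k n : ℕ) (hk : 0 < k) (hn : 0 < n) (h : k.Coprime n) (a b : ℕ) (ha : a < k)
    (hb : b < n) : ∃ x < k * n, x % k = a ∧ x % n = b := by
  obtain ⟨x, h1, h2⟩ := Nat.chineseRemainder h a b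
  refine ⟨x % (k * n), Nat.mod_lt _ (Nat.mul_pos hk hn), ?_, ?_⟩
  · rw [Nat.mod_mul_right_mod, h1, Nat.mod_eq_of_lt ha]
  · rw [Nat.mod_mul_left_mod, h2, Nat.mod_eq_of_lt hb]

theorem xc_mod_inj (k n : ℕ) (h : k.Coprime n) (x y : ℕ) (hx : x < k * n)
    (hy : y < k * n) (h1 : x % k = y % k) (h2 : x % n = y % n) : x = y := by
  have h3 : x ≡ y [MOD k * n] := (Nat.modEq_and_modEq_iff_modEq_mul h).1 ⟨h1, h2⟩
  have h4 : x % (k * n) = y % (k * n) := h3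
  rwa [Nat.mod_eq_of_lt hx, Nat.mod_eq_of_lt hy] at h4

theorem card_crt1 (k n : ℕ) (hk : 0 < k) (hn : 0 < n) (h : k.Coprime n) (P Q : ℕ → Prop)
    [DecidablePred P] [DecidablePred Q] :
    ((range (k * n)).filter fun x => P (x % k) ∧ Q (x % n)).card =
      ((range k).filter P).card * ((range n).filter Q).card := by
  rw [← Finset.card_product]
  refine Finset.card_nbij (fun x => (x % k, x % n)) ?_ ?_ ?_
  · intro x hx
    have hx := Finset.mem_filter.1 (Finset.mem_coe.1 hx)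
    refine Finset.mem_coe.2 (Finset.mem_product.2 ⟨Finset.mem_filter.2
      ⟨Finset.mem_range.2 (Nat.mod_lt _ hk), hx.2.1⟩, Finset.mem_filter.2
      ⟨Finset.mem_range.2 (Nat.mod_lt _ hn), hx.2.2⟩⟩)
  · intro x hx y hy hxy
    have hx := Finset.mem_filter.1 (Finset.mem_coe.1 hx)
    have hy := Finset.mem_filter.1 (Finset.mem_coe.1 hy)
    obtain ⟨h1, h2⟩ := Prod.ext_iff.1 hxy
    exact xc_mod_inj k n h x y (Finset.mem_range.1 hx.1) (Finset.mem_range.1 hy.1) h1 h2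
  · intro y hy
    obtain ⟨h1, h2⟩ := Finset.mem_product.1 (Finset.mem_coe.1 hy)
    have h1 := Finset.mem_filter.1 h1
    have h2 := Finset.mem_filter.1 h2
    obtain ⟨x, hx, hx1, hx2⟩ := xc_mod_ex k n hk hn h y.1 y.2 (Finset.mem_range.1 h1.1)
      (Finset.mem_range.1 h2.1)
    refine ⟨x, Finset.mem_coe.2 (Finset.mem_filter.2 ⟨Finset.mem_range.2 hx, ?_, ?_⟩),
      Prod.ext hx1 hx2⟩
    · rw [hx1]; exact h1.2
    · rw [hx2]; exact h2.2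

theorem card_crt2 (k n : ℕ) (hk : 0 < k) (hn : 0 < n) (h : k.Coprime n) (P Q : ℕ × ℕ → Prop)
    [DecidablePred P] [DecidablePred Q] :
    ((range (k * n) ×ˢ range (k * n)).filter fun q =>
        P (q.1 % k, q.2 % k) ∧ Q (q.1 % n, q.2 % n)).card =
      ((range k ×ˢ range k).filter P).card * ((range n ×ˢ range n).filter Q).card := by
  rw [← Finset.card_product]
  refine Finset.card_nbij (fun q => ((q.1 % k, q.2 % k), (q.1 % n, q.2 % n))) ?_ ?_ ?_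
  · intro x hx
    have hx := Finset.mem_filter.1 (Finset.mem_coe.1 hx)
    refine Finset.mem_coe.2 (Finset.mem_product.2 ⟨Finset.mem_filter.2
      ⟨Finset.mem_product.2 ⟨Finset.mem_range.2 (Nat.mod_lt _ hk),
        Finset.mem_range.2 (Nat.mod_lt _ hk)⟩, hx.2.1⟩, Finset.mem_filter.2
      ⟨Finset.mem_product.2 ⟨Finset.mem_range.2 (Nat.mod_lt _ hn),
        Finset.mem_range.2 (Nat.mod_lt _ hn)⟩, hx.2.2⟩⟩)
  · intro x hx y hy hxy
    have hx := Finset.mem_product.1 (Finset.mem_filter.1 (Finset.mem_coe.1 hx)).1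
    have hy := Finset.mem_product.1 (Finset.mem_filter.1 (Finset.mem_coe.1 hy)).1
    obtain ⟨h1, h2⟩ := Prod.ext_iff.1 hxy
    obtain ⟨h3, h4⟩ := Prod.ext_iff.1 h1
    obtain ⟨h5, h6⟩ := Prod.ext_iff.1 h2
    exact Prod.ext
      (xc_mod_inj k n h _ _ (Finset.mem_range.1 hx.1) (Finset.mem_range.1 hy.1) h3 h5)
      (xc_mod_inj k n h _ _ (Finset.mem_range.1 hx.2) (Finset.mem_range.1 hy.2) h4 h6)
  · intro y hy
    obtain ⟨h1, h2⟩ := Finset.mem_product.1 (Finset.mem_coe.1 hy)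
    have h1 := Finset.mem_filter.1 h1
    have h2 := Finset.mem_filter.1 h2
    have h3 := Finset.mem_product.1 h1.1
    have h4 := Finset.mem_product.1 h2.1
    obtain ⟨x, hx, hx1, hx2⟩ := xc_mod_ex k n hk hn h y.1.1 y.2.1 (Finset.mem_range.1 h3.1)
      (Finset.mem_range.1 h4.1)
    obtain ⟨z, hz, hz1, hz2⟩ := xc_mod_ex k n hk hn h y.1.2 y.2.2 (Finset.mem_range.1 h3.2)
      (Finset.mem_range.1 h4.2)
    refine ⟨(x, z), Finset.mem_coe.2 (Finset.mem_filter.2 ⟨Finset.mem_product.2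
      ⟨Finset.mem_range.2 hx, Finset.mem_range.2 hz⟩, ?_, ?_⟩), ?_⟩
    · change P (x % k, z % k)
      rw [hx1, hz1]; exact h1.2
    · change Q (x % n, z % n)
      rw [hx2, hz2]; exact h2.2
    · change ((x % k, z % k), (x % n, z % n)) = y
      rw [hx1, hx2, hz1, hz2]

/-- the conditions modulo a divisor of `n1` -/
def QN (e : ℕ) (b : ℤ) (δ β γ n : ℕ) (p : ℕ × ℕ) : Prop :=
  (n : ℤ) ∣ 3 * e * p.1 - b ∧ n ∣ 3 * p.1 ^ 2 + δ ∧ n ∣ β + 3 * p.1 * p.2 ∧ n ∣ γ + 3 * p.2 ^ 2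

/-- the conditions modulo `2` -/
def Q2 (e : ℕ) (b : ℤ) (δ β γ : ℕ) (p : ℕ × ℕ) : Prop :=
  (2 : ℤ) ∣ 3 * e * p.1 - b ∧ 4 ∣ 3 * p.1 ^ 2 + δ ∧ 2 ∣ β + 3 * p.1 * p.2 ∧ 4 ∣ γ + 3 * p.2 ^ 2

instance (e : ℕ) (b : ℤ) (δ β γ n : ℕ) : DecidablePred (QN e b δ β γ n) := fun p => by
  unfold QN; infer_instance

instance (e : ℕ) (b : ℤ) (δ β γ : ℕ) : DecidablePred (Q2 e b δ β γ) := fun p => by
  unfold Q2; infer_instance

/-- the number of `(μ, ν)` modulo `2` -/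
def C2 (e : ℕ) (b : ℤ) (δ β γ : ℕ) : ℕ := ((range 2 ×ˢ range 2).filter (Q2 e b δ β γ)).card

/-- the conditions modulo `m` as equations in `ZMod m` -/
theorem QN_iff (e : ℕ) (b : ℤ) (δ β γ m : ℕ) (p : ℕ × ℕ) : QN e b δ β γ m p ↔
    (3 * (e : ZMod m) * p.1 - b = 0 ∧ 3 * (p.1 : ZMod m) ^ 2 + δ = 0 ∧
      (β : ZMod m) + 3 * p.1 * p.2 = 0 ∧ (γ : ZMod m) + 3 * (p.2 : ZMod m) ^ 2 = 0) := by
  unfold QN
  rw [← ZMod.intCast_zmod_eq_zero_iff_dvd, ← ZMod.natCast_eq_zero_iff,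
    ← ZMod.natCast_eq_zero_iff, ← ZMod.natCast_eq_zero_iff]
  push_cast
  rfl

/-- the conditions modulo `n` depend on the residues only -/
theorem QN_mod (e : ℕ) (b : ℤ) (δ β γ n : ℕ) (p : ℕ × ℕ) :
    QN e b δ β γ n (p.1 % n, p.2 % n) ↔ QN e b δ β γ n p := by
  rw [QN_iff, QN_iff]
  simp only [ZMod.natCast_mod]

/-- the count modulo `n` -/
theorem card_QN (e : ℕ) (b : ℤ) (δ β γ n : ℕ) (hn : 0 < n) (h3 : Nat.Coprime 3 n) :
    ((range n ×ˢ range n).filter (QN e b δ β γ n)).card =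
      Y155.Z7.C (3 * e) (3 * b) (3 * δ) (3 * β) (3 * γ) n := by
  classical
  have : NeZero n := ⟨hn.ne'⟩
  let u : (ZMod n)ˣ := ZMod.unitOfCoprime 3 h3
  have hu : (u : ZMod n) = 3 := ZMod.coe_unitOfCoprime 3 h3
  have hui : (3 : ZMod n) * ((u⁻¹ : (ZMod n)ˣ) : ZMod n) = 1 := by
    rw [← hu]; exact Units.mul_inv u
  have hz : ∀ x : ZMod n, 3 * x = 0 ↔ x = 0 := by
    intro x
    rw [← hu]
    exact Units.mul_right_eq_zero u
  have key : ∀ x y : ZMod n, Y155.Z7.EQ (3 * e) (3 * b) (3 * δ) (3 * β) (3 * γ) n (3 * x, 3 * y) ↔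
      (3 * (e : ZMod n) * x - b = 0 ∧ 3 * x ^ 2 + δ = 0 ∧
      (β : ZMod n) + 3 * x * y = 0 ∧ (γ : ZMod n) + 3 * y ^ 2 = 0) := by
    intro x y
    unfold Y155.Z7.EQ
    push_cast
    have e1 : (3 : ZMod n) * e * (3 * x) - 3 * b = 3 * (3 * (e : ZMod n) * x - b) := by ring
    have e2 : ((3 : ZMod n) * x) ^ 2 + 3 * δ = 3 * (3 * x ^ 2 + δ) := by ring
    have e3 : (3 : ZMod n) * β + 3 * x * (3 * y) = 3 * ((β : ZMod n) + 3 * x * y) := by ring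
    have e4 : (3 : ZMod n) * γ + (3 * y) ^ 2 = 3 * ((γ : ZMod n) + 3 * y ^ 2) := by ring
    rw [e1, e2, e3, e4, hz, hz, hz, hz]
  unfold Y155.Z7.C
  rw [Nat.card_eq_fintype_card, Fintype.card_subtype]
  refine Finset.card_nbij' (fun x : ℕ × ℕ => (3 * (x.1 : ZMod n), 3 * (x.2 : ZMod n)))
    (fun x : ZMod n × ZMod n => ((((u⁻¹ : (ZMod n)ˣ) : ZMod n) * x.1).val,
      (((u⁻¹ : (ZMod n)ˣ) : ZMod n) * x.2).val)) ?_ ?_ ?_ ?_
  · intro x hx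
    have hx := Finset.mem_filter.1 (Finset.mem_coe.1 hx)
    exact Finset.mem_coe.2 (Finset.mem_filter.2 ⟨Finset.mem_univ _,
      (key _ _).2 ((QN_iff _ _ _ _ _ _ _).1 hx.2)⟩)
  · intro x hx
    have hx := Finset.mem_filter.1 (Finset.mem_coe.1 hx)
    refine Finset.mem_coe.2 (Finset.mem_filter.2 ⟨Finset.mem_product.2
      ⟨Finset.mem_range.2 (ZMod.val_lt _), Finset.mem_range.2 (ZMod.val_lt _)⟩, ?_⟩)
    rw [QN_iff]
    simp only [ZMod.natCast_zmod_val]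
    rw [← key]
    rw [← mul_assoc, ← mul_assoc, hui, one_mul, one_mul]
    exact hx.2
  · intro x hx
    have hx := Finset.mem_product.1 (Finset.mem_filter.1 (Finset.mem_coe.1 hx)).1
    have h1 : ∀ a : ℕ, ((u⁻¹ : (ZMod n)ˣ) : ZMod n) * (3 * (a : ZMod n)) = a := by
      intro a
      rw [← mul_assoc, mul_comm _ (3 : ZMod n), hui, one_mul]
    refine Prod.ext ?_ ?_
    · change (((u⁻¹ : (ZMod n)ˣ) : ZMod n) * (3 * (x.1 : ZMod n))).val = x.1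
      rw [h1]
      exact ZMod.val_cast_of_lt (Finset.mem_range.1 hx.1)
    · change (((u⁻¹ : (ZMod n)ˣ) : ZMod n) * (3 * (x.2 : ZMod n))).val = x.2
      rw [h1]
      exact ZMod.val_cast_of_lt (Finset.mem_range.1 hx.2)
  · intro x _
    refine Prod.ext ?_ ?_
    · change 3 * ((((((u⁻¹ : (ZMod n)ˣ) : ZMod n) * x.1).val : ℕ)) : ZMod n) = x.1
      rw [ZMod.natCast_zmod_val, ← mul_assoc, hui, one_mul]
    · change 3 * ((((((u⁻¹ : (ZMod n)ˣ) : ZMod n) * x.2).val : ℕ)) : ZMod n) = x.2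
      rw [ZMod.natCast_zmod_val, ← mul_assoc, hui, one_mul]

/-- the conditions modulo `2` depend on the residues only -/
theorem Q2_mod (e : ℕ) (b : ℤ) (δ β γ : ℕ) (p : ℕ × ℕ) :
    Q2 e b δ β γ (p.1 % 2, p.2 % 2) ↔ Q2 e b δ β γ p := by
  obtain ⟨x, y⟩ := p
  have hx := Nat.div_add_mod x 2
  have hy := Nat.div_add_mod y 2
  unfold Q2
  simp only
  generalize x % 2 = x0 at *
  generalize x / 2 = x1 at *
  generalize y % 2 = y0 at *
  generalize y / 2 = y1 at *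
  subst hx hy
  have h1 : (2 : ℤ) ∣ 3 * e * (x0 : ℤ) - b ↔ (2 : ℤ) ∣ 3 * e * ((2 * x1 + x0 : ℕ) : ℤ) - b := by
    have e1 : 3 * (e : ℤ) * ((2 * x1 + x0 : ℕ) : ℤ) - b = (3 * e * (x0 : ℤ) - b) +
      2 * (3 * e * x1) := by push_cast; ring
    rw [e1]
    exact (Int.dvd_add_left (Dvd.intro _ rfl)).symm
  have h2 : 4 ∣ 3 * x0 ^ 2 + δ ↔ 4 ∣ 3 * (2 * x1 + x0) ^ 2 + δ := by
    have e1 : 3 * (2 * x1 + x0) ^ 2 + δ = (3 * x0 ^ 2 + δ) + 4 * (3 * x1 ^ 2 + 3 * x1 * x0) := by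
      ring
    rw [e1]
    exact (Nat.dvd_add_left (Dvd.intro _ rfl)).symm
  have h3 : 2 ∣ β + 3 * x0 * y0 ↔ 2 ∣ β + 3 * (2 * x1 + x0) * (2 * y1 + y0) := by
    have e1 : β + 3 * (2 * x1 + x0) * (2 * y1 + y0) = (β + 3 * x0 * y0) +
      2 * (3 * x1 * (2 * y1 + y0) + 3 * x0 * y1) := by ring
    rw [e1]
    exact (Nat.dvd_add_left (Dvd.intro _ rfl)).symm
  have h4 : 4 ∣ γ + 3 * y0 ^ 2 ↔ 4 ∣ γ + 3 * (2 * y1 + y0) ^ 2 := by
    have e1 : γ + 3 * (2 * y1 + y0) ^ 2 = (γ + 3 * y0 ^ 2) + 4 * (3 * y1 ^ 2 + 3 * y1 * y0) := by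
      ring
    rw [e1]
    exact (Nat.dvd_add_left (Dvd.intro _ rfl)).symm
  rw [h1, h2, h3, h4]

/-- the count modulo `2 n` -/
theorem card_fib (e : ℕ) (b : ℤ) (δ β γ n : ℕ) (hn : 0 < n) (h2 : Nat.Coprime 2 n)
    (h3 : Nat.Coprime 3 n) :
    ((range (2 * n) ×ˢ range (2 * n)).filter fun p : ℕ × ℕ =>
      (2 * n : ℤ) ∣ 3 * e * p.1 - b ∧ 4 * n ∣ 3 * p.1 ^ 2 + δ ∧
      2 * n ∣ β + 3 * p.1 * p.2 ∧ 4 * n ∣ γ + 3 * p.2 ^ 2).card =
      C2 e b δ β γ * Y155.Z7.C (3 * e) (3 * b) (3 * δ) (3 * β) (3 * γ) n := by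
  rw [C2, ← card_QN e b δ β γ n hn h3, ← card_crt2 2 n two_pos hn h2]
  congr 1
  refine Finset.filter_congr fun p _ => ?_
  rw [Q2_mod, QN_mod]
  have c4 : Nat.Coprime 4 n := Nat.Coprime.pow_left 2 h2
  have a1 : ∀ z : ℤ, ((2 * n : ℤ) ∣ z ↔ (2 : ℤ) ∣ z ∧ (n : ℤ) ∣ z) := by
    intro z
    refine ⟨fun h => ⟨(Dvd.intro _ rfl).trans h, (Dvd.intro_left _ rfl).trans h⟩, fun h => ?_⟩
    exact IsCoprime.mul_dvd (Nat.isCoprime_iff_coprime.2 h2) h.1 h.2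
  have a2 : ∀ z : ℕ, (4 * n ∣ z ↔ 4 ∣ z ∧ n ∣ z) := by
    intro z
    refine ⟨fun h => ⟨(Dvd.intro _ rfl).trans h, (Dvd.intro_left _ rfl).trans h⟩, fun h => ?_⟩
    exact Nat.Coprime.mul_dvd_of_dvd_of_dvd c4 h.1 h.2
  have a3 : ∀ z : ℕ, (2 * n ∣ z ↔ 2 ∣ z ∧ n ∣ z) := by
    intro z
    refine ⟨fun h => ⟨(Dvd.intro _ rfl).trans h, (Dvd.intro_left _ rfl).trans h⟩, fun h => ?_⟩
    exact Nat.Coprime.mul_dvd_of_dvd_of_dvd h2 h.1 h.2
  rw [a1, a2, a3, a2]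
  unfold Q2 QN
  tauto

/-- invariance of the symbol -/
theorem hh_scale (n1 D l : ℕ) (hp : l.Prime) (h2 : l ≠ 2) (h3 : l ≠ 3) (hln : l ∣ n1) (hD : 0 < D) :
    hh (36 * n1) (9 * D) l = hh n1 D l := by
  have c3 : ¬ l ∣ 3 := fun h => h3 ((Nat.prime_dvd_prime_iff_eq hp Nat.prime_three).1 h)
  have c2 : ¬ l ∣ 2 := fun h => h2 ((Nat.prime_dvd_prime_iff_eq hp Nat.prime_two).1 h)
  have c18 : ¬ l ∣ 18 := by
    intro h
    have e : 18 = 2 * (3 * 3) := rfl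
    rw [e] at h
    rcases hp.dvd_mul.1 h with h | h
    · exact c2 h
    · rcases hp.dvd_mul.1 h with h | h
      · exact c3 h
      · exact c3 h
  have c9 : ¬ l ∣ 9 := by
    intro h
    have e : 9 = 3 * 3 := rfl
    rw [e] at h
    rcases hp.dvd_mul.1 h with h | h
    · exact c3 h
    · exact c3 h
  have f1 : (9 * D).factorization l = D.factorization l := by
    rw [Nat.factorization_mul (by norm_num) hD.ne', Finsupp.add_apply,
      Nat.factorization_eq_zero_of_not_dvd c9, zero_add]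
  have f2 : 9 * D / l ^ D.factorization l = 9 * (D / l ^ D.factorization l) :=
    Nat.mul_div_assoc _ (Nat.ordProj_dvd D l)
  have f3 : 36 * n1 / l = 36 * (n1 / l) := Nat.mul_div_assoc _ hln
  unfold Pool.Agent.Z700.hh
  rw [f1, f2, f3]
  congr 1
  · rw [← Y155.Z7.J_sq l hp (-((D / l ^ D.factorization l : ℕ) : ℤ)) 3 c3]
    congr 1
    push_cast
    ring
  · rw [← Y155.Z7.J_sq l hp (-((n1 / l * (D / l ^ D.factorization l) : ℕ) : ℤ)) 18 c18]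
    congr 1
    push_cast
    ring

/-- the factors at the primes dividing `n1` -/
theorem C_loc (n1 n2 : ℕ) (b : ℤ) (D : ℕ) (hs : Squarefree n1) (a1 : n1 % 12 = 1) (hD : 0 < D)
    (hDD : (D : ℤ) = 4 * n1 * n2 - b ^ 2) (e δ β γ : ℕ) (hDe : D = 3 * e ^ 2 * δ)
    (hβ : β ^ 2 + 4 * n1 = δ * γ) :
    (Y155.Z7.C (3 * e) (3 * b) (3 * δ) (3 * β) (3 * γ) n1 : ℤ) =
      ∏ l ∈ n1.primeFactors, if l ∣ D then 1 + hh n1 D l else 1 := by
  have hδ : 0 < 3 * δ := by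
    rcases Nat.eq_zero_or_pos δ with h | h
    · rw [h] at hDe; omega
    · omega
  rw [Y155.Z7.C_prod _ _ _ _ _ hδ hs, Nat.cast_prod]
  refine Finset.prod_congr rfl fun l hl => ?_
  have hp := Nat.prime_of_mem_primeFactors hl
  have hln := Nat.dvd_of_mem_primeFactors hl
  have h2 : l ≠ 2 := by rintro rfl; omega
  have h3 : l ≠ 3 := by rintro rfl; omega
  have c3 : ¬ l ∣ 3 := fun h => h3 ((Nat.prime_dvd_prime_iff_eq hp Nat.prime_three).1 h)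
  have c2 : ¬ l ∣ 2 := fun h => h2 ((Nat.prime_dvd_prime_iff_eq hp Nat.prime_two).1 h)
  have hl2 : ¬ l ^ 2 ∣ n1 := by
    intro h
    rw [pow_two] at h
    exact hp.one_lt.ne' (Nat.isUnit_iff.1 (hs l h))
  have c36 : Nat.Coprime (l ^ 2) 36 := by
    have q2 : Nat.Coprime l 2 := (Nat.Prime.coprime_iff_not_dvd hp).2 c2
    have q3 : Nat.Coprime l 3 := (Nat.Prime.coprime_iff_not_dvd hp).2 c3
    have : Nat.Coprime l (2 * 2 * (3 * 3)) :=
      Nat.Coprime.mul_right (Nat.Coprime.mul_right q2 q2) (Nat.Coprime.mul_right q3 q3)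
    exact Nat.Coprime.pow_left 2 this
  have hl36 : ¬ l ^ 2 ∣ 36 * n1 := fun h => hl2 (c36.dvd_of_dvd_mul_left h)
  have hD9 : ((9 * D : ℕ) : ℤ) = ((36 * n1 : ℕ) : ℤ) * (n2 : ℤ) - (3 * b) ^ 2 := by
    push_cast
    rw [hDD]
    ring
  have hm := Y155.Z7.C_local (n1 := 36 * n1) (e := 3 * e) (D' := 3 * δ) (β := 3 * β) (γ := 3 * γ)
    (D := 9 * D) (l := l) (n2 := (n2 : ℤ)) (b := 3 * b) hp h2 (hln.mul_left 36) hl36 (by omega) hD9
    (by rw [hDe]; ring) (by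
      have : (3 * β) ^ 2 + 36 * n1 = 9 * (β ^ 2 + 4 * n1) := by ring
      rw [this, hβ]; ring)
  rw [hm, hh_scale n1 D l hp h2 h3 hln hD]
  have hdv : l ∣ 9 * D ↔ l ∣ D := by
    refine ⟨fun h => ?_, fun h => h.mul_left 9⟩
    rcases hp.dvd_mul.1 h with h | h
    · exact absurd (hp.dvd_of_dvd_pow (show l ∣ 3 ^ 2 from h)) c3
    · exact h
  simp only [hdv]

end Pool.Agent.H757_X15.BB.XCn
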