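import Pool.Agent.H757_X15.BS.XCa

/-!
# Counting the parameters: the prime `2`
-/

set_option autoImplicit false

namespace Pool.Agent.H757_X15.BB.XCn

open Finset
open Pool.Agent.Z700 (fac hh)

theorem C2_congr (e : ℕ) (b : ℤ) (δ β γ e' : ℕ) (b' : ℤ) (δ' β' γ' : ℕ) (he : e % 2 = e' % 2)
    (hb : b % 2 = b' % 2) (hδ : δ % 4 = δ' % 4) (hβ : β % 2 = β' % 2) (hγ : γ % 4 = γ' % 4) :
    C2 e b δ β γ = C2 e' b' δ' β' γ' := by
  unfold C2
  congr 1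
  refine Finset.filter_congr fun p hp => ?_
  obtain ⟨x, y⟩ := p
  have h := Finset.mem_product.1 hp
  have hx := Finset.mem_range.1 h.1
  have hy := Finset.mem_range.1 h.2
  simp only at hx hy
  unfold Q2
  simp only
  have g1 : (2 : ℤ) ∣ 3 * e * x - b ↔ (2 : ℤ) ∣ 3 * e' * x - b' := by
    interval_cases x
    · simp only [Nat.cast_zero, mul_zero]; omega
    · simp only [Nat.cast_one, mul_one]; omega
  have g2 : 4 ∣ 3 * x ^ 2 + δ ↔ 4 ∣ 3 * x ^ 2 + δ' := by omega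
  have g3 : 2 ∣ β + 3 * x * y ↔ 2 ∣ β' + 3 * x * y := by
    generalize 3 * x * y = z
    omega
  have g4 : 4 ∣ γ + 3 * y ^ 2 ↔ 4 ∣ γ' + 3 * y ^ 2 := by omega
  rw [g1, g2, g3, g4]

/-- the number of roots of `x² + 4 n1` modulo `δ₀`, as a number of residues -/
theorem R_card (n1 m : ℕ) (hm : 0 < m) :
    ((range m).filter fun x => m ∣ x ^ 2 + 4 * n1).card = Y155.Z7.R (4 * n1) m :=
  (Y155.Z7.R_eq _ _ hm).symm

/-- the sum over `β` -/
def Bs (n1 : ℕ) (b : ℤ) (e δ : ℕ) : ℕ :=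
  ∑ β ∈ (range δ).filter fun β => δ ∣ β ^ 2 + 4 * n1, C2 e b δ β ((4 * n1 + β ^ 2) / δ)

/-- `γ` -/
theorem gam (n1 δ β : ℕ) (h : δ ∣ β ^ 2 + 4 * n1) :
    δ * ((4 * n1 + β ^ 2) / δ) = β ^ 2 + 4 * n1 := by
  rw [Nat.mul_div_cancel' (by rwa [add_comm]), add_comm]

theorem Bs_const (n1 : ℕ) (b : ℤ) (e δ c : ℕ) (hδ : 0 < δ)
    (h : ∀ β γ, δ * γ = β ^ 2 + 4 * n1 → C2 e b δ β γ = c) :
    Bs n1 b e δ = c * Y155.Z7.R (4 * n1) δ := by
  unfold Bs
  rw [Finset.sum_congr rfl (g := fun _ => c), Finset.sum_const, R_card n1 δ hδ, smul_eq_mul,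
    mul_comm]
  intro β hβ
  exact h _ _ (gam n1 δ β (Finset.mem_filter.1 hβ).2)

/-- odd `b` -/
theorem Bs_odd (n1 : ℕ) (b : ℤ) (e δ : ℕ) (hb : b % 2 = 1) (he : e % 2 = 1)
    (hδ : δ % 4 = 1) : Bs n1 b e δ = Y155.Z7.R (4 * n1) δ := by
  rw [Bs_const n1 b e δ 1 (by omega), one_mul]
  intro β γ hγ
  have h1 : γ % 4 = β ^ 2 % 4 := by
    have := congrArg (fun z => z % 4) hγ
    simp only [Nat.mul_mod δ γ 4, hδ, one_mul, Nat.mod_mod, Nat.add_mul_mod_self_left] at this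
    exact this
  rcases Nat.mod_two_eq_zero_or_one β with h | h
  · have h2 : β ^ 2 % 4 = 0 := by
      obtain ⟨k, rfl⟩ : ∃ k, β = 2 * k := ⟨β / 2, by omega⟩
      have : (2 * k) ^ 2 = 4 * k ^ 2 := by ring
      omega
    rw [C2_congr e b δ β γ 1 1 1 0 0 (by omega) (by omega) (by omega) (by omega) (by omega)]
    decide
  · have h2 : β ^ 2 % 4 = 1 := by
      obtain ⟨k, rfl⟩ : ∃ k, β = 2 * k + 1 := ⟨β / 2, by omega⟩
      have : (2 * k + 1) ^ 2 = 4 * (k ^ 2 + k) + 1 := by ring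
      omega
    rw [C2_congr e b δ β γ 1 1 1 1 1 (by omega) (by omega) (by omega) (by omega) (by omega)]
    decide

/-- the factor at `2` for `b ≡ 2` modulo `4` and given `w = v₂(δ)` -/
def K2 (n1 δ0 w : ℕ) : ℕ :=
  if w = 0 ∨ w = 2 then (if δ0 % 4 = 1 then 1 else 0)
  else if w = 3 then (if (2 * δ0) % 8 = (1 + n1) % 8 then 2 else 0) else 0

theorem sq_mod8 (x : ℕ) : x ^ 2 % 8 = if x % 2 = 1 then 1 else if x % 4 = 0 then 0 else 4 := by
  have : x % 8 < 8 := Nat.mod_lt _ (by norm_num)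
  have h1 : x % 2 = (x % 8) % 2 := by omega
  have h2 : x % 4 = (x % 8) % 4 := by omega
  rw [Nat.pow_mod, h1, h2]
  interval_cases x % 8 <;> simp

theorem Bs_w0 (n1 : ℕ) (b : ℤ) (e δ : ℕ) (hb : b % 4 = 2) (he : e % 2 = 0)
    (hδ : δ % 2 = 1) : Bs n1 b e δ = K2 n1 δ 0 * Y155.Z7.R (4 * n1) δ := by
  refine Bs_const n1 b e δ _ (by omega) ?_
  intro β γ hγ
  by_cases h : δ % 4 = 1
  · have hK : K2 n1 δ 0 = 1 := by simp [K2, h]
    rw [hK]
    have h1 : γ % 4 = β ^ 2 % 4 := by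
      have := congrArg (fun z => z % 4) hγ
      simp only [Nat.mul_mod δ γ 4, h, one_mul, Nat.mod_mod, Nat.add_mul_mod_self_left] at this
      exact this
    have h8 := sq_mod8 β
    rcases Nat.mod_two_eq_zero_or_one β with h2 | h2
    · rw [C2_congr e b δ β γ 0 0 1 0 0 (by omega) (by omega) (by omega) (by omega)
        (by split_ifs at h8 <;> omega)]
      decide
    · rw [C2_congr e b δ β γ 0 0 1 1 1 (by omega) (by omega) (by omega) (by omega)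
        (by split_ifs at h8; omega)]
      decide
  · have hK : K2 n1 δ 0 = 0 := by simp [K2, h]
    rw [hK]
    unfold C2
    rw [Finset.card_eq_zero, Finset.filter_eq_empty_iff]
    rintro ⟨x, y⟩ hp ⟨_, h2, _⟩
    have hx := Finset.mem_range.1 (Finset.mem_product.1 hp).1
    simp only at hx h2
    interval_cases x <;> omega

theorem Bs_zero (n1 : ℕ) (b : ℤ) (e δ : ℕ) (hδ : 0 < δ)
    (h : ∀ β γ, δ * γ = β ^ 2 + 4 * n1 → C2 e b δ β γ = 0) : Bs n1 b e δ = 0 := by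
  rw [Bs_const n1 b e δ 0 hδ h, zero_mul]

theorem C2_zero (e : ℕ) (b : ℤ) (δ β γ : ℕ) (h : ∀ x y, x < 2 → y < 2 → ¬ Q2 e b δ β γ (x, y)) :
    C2 e b δ β γ = 0 := by
  unfold C2
  rw [Finset.card_eq_zero, Finset.filter_eq_empty_iff]
  rintro ⟨x, y⟩ hp
  exact h x y (Finset.mem_range.1 (Finset.mem_product.1 hp).1)
    (Finset.mem_range.1 (Finset.mem_product.1 hp).2)

theorem Bs_w1 (n1 : ℕ) (b : ℤ) (e δ : ℕ) (hδ : δ % 4 = 2) : Bs n1 b e δ = 0 := by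
  refine Bs_zero n1 b e δ (by omega) ?_
  intro β γ _
  refine C2_zero _ _ _ _ _ ?_
  rintro x y hx hy ⟨_, h2, _⟩
  simp only at h2
  interval_cases x <;> omega

/-- `β` is even if `4 ∣ δ` and there are solutions -/
theorem C2_even (e : ℕ) (b : ℤ) (δ β γ : ℕ) (hδ : δ % 4 = 0) (h : C2 e b δ β γ ≠ 0) :
    β % 2 = 0 ∧ (γ % 4 = 0 ∨ γ % 4 = 1) := by
  have : ¬ ∀ x y, x < 2 → y < 2 → ¬ Q2 e b δ β γ (x, y) := fun h' => h (C2_zero _ _ _ _ _ h')
  push Not at this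
  obtain ⟨x, y, hx, hy, h1, h2, h3, h4⟩ := this
  simp only at h1 h2 h3 h4
  interval_cases x
  · constructor
    · omega
    · interval_cases y <;> omega
  · omega

theorem C2_one (e : ℕ) (b : ℤ) (δ β γ : ℕ) (hb : b % 2 = 0) (hδ : δ % 4 = 0) (hβ : β % 2 = 0)
    (hγ : γ % 4 = 0 ∨ γ % 4 = 1) : C2 e b δ β γ = 1 := by
  rcases Nat.mod_two_eq_zero_or_one e with he | he <;> rcases hγ with hγ | hγ
  · rw [C2_congr e b δ β γ 0 0 0 0 0 (by omega) (by omega) (by omega) (by omega) (by omega)]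
    decide
  · rw [C2_congr e b δ β γ 0 0 0 0 1 (by omega) (by omega) (by omega) (by omega) (by omega)]
    decide
  · rw [C2_congr e b δ β γ 1 0 0 0 0 (by omega) (by omega) (by omega) (by omega) (by omega)]
    decide
  · rw [C2_congr e b δ β γ 1 0 0 0 1 (by omega) (by omega) (by omega) (by omega) (by omega)]
    decide

theorem Bs_w4 (n1 : ℕ) (b : ℤ) (e δ : ℕ) (hn1 : n1 % 4 = 1) (hδ : δ % 16 = 0) (hδ0 : 0 < δ) :
    Bs n1 b e δ = 0 := by
  refine Bs_zero n1 b e δ hδ0 ?_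
  intro β γ hγ
  by_contra hc
  obtain ⟨h1, _⟩ := C2_even e b δ β γ (by omega) hc
  obtain ⟨k, rfl⟩ : ∃ k, β = 2 * k := ⟨β / 2, by omega⟩
  obtain ⟨m, rfl⟩ : ∃ m, δ = 16 * m := ⟨δ / 16, by omega⟩
  have h2 : 4 * (m * γ) = k ^ 2 + n1 := by
    have : 4 * (4 * (m * γ)) = 4 * (k ^ 2 + n1) := by
      calc 4 * (4 * (m * γ)) = 16 * m * γ := by ring
        _ = (2 * k) ^ 2 + 4 * n1 := hγ
        _ = _ := by ring
    omega
  have h8 := sq_mod8 k
  split_ifs at h8 <;> omega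

/-- the general evaluation of the sum over `β` by a condition modulo a power of two -/
theorem Bs_of (n1 : ℕ) (b : ℤ) (e k δ0 : ℕ) (hk : 0 < k) (hδ0 : 0 < δ0) (hc : k.Coprime δ0)
    (P : ℕ → Prop) [DecidablePred P]
    (h1 : ∀ β γ, k * δ0 * γ = β ^ 2 + 4 * n1 → C2 e b (k * δ0) β γ = if P (β % k) then 1 else 0)
    (h2 : ∀ β, P (β % k) → k ∣ β ^ 2 + 4 * n1) :
    Bs n1 b e (k * δ0) = ((range k).filter P).card * Y155.Z7.R (4 * n1) δ0 := by
  unfold Bs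
  rw [Finset.sum_congr rfl (g := fun β => if P (β % k) then 1 else 0)]
  · rw [← Finset.card_filter, Finset.filter_filter, ← R_card n1 δ0 hδ0,
      ← card_crt1 k δ0 hk hδ0 hc P (fun x => δ0 ∣ x ^ 2 + 4 * n1)]
    congr 1
    refine Finset.filter_congr fun β _ => ?_
    have h3 : δ0 ∣ (β % δ0) ^ 2 + 4 * n1 ↔ δ0 ∣ β ^ 2 + 4 * n1 := by
      rw [← ZMod.natCast_eq_zero_iff, ← ZMod.natCast_eq_zero_iff]
      push_cast
      rw [ZMod.natCast_mod]
    rw [h3]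
    constructor
    · rintro ⟨a1, a2⟩
      exact ⟨a2, (Dvd.intro_left _ rfl).trans a1⟩
    · rintro ⟨a1, a2⟩
      exact ⟨Nat.Coprime.mul_dvd_of_dvd_of_dvd hc (h2 β a1) a2, a1⟩
  · intro β hβ
    exact h1 _ _ (gam n1 _ β (Finset.mem_filter.1 hβ).2)

theorem Bs_w2 (n1 : ℕ) (b : ℤ) (e δ0 : ℕ) (hn1 : n1 % 4 = 1) (hb : b % 4 = 2)
    (hδ : δ0 % 2 = 1) : Bs n1 b e (4 * δ0) = K2 n1 δ0 2 * Y155.Z7.R (4 * n1) δ0 := by
  have hc : Nat.Coprime 4 δ0 := by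
    have h2 : Nat.Coprime 2 δ0 := by rw [Nat.coprime_two_left]; exact Nat.odd_iff.2 hδ
    exact Nat.Coprime.pow_left 2 h2
  rw [Bs_of n1 b e 4 δ0 (by norm_num) (by omega) hc (fun x => x = 0 ∧ δ0 % 4 = 1)]
  · congr 1
    unfold K2
    rw [if_pos (Or.inr rfl)]
    by_cases h : δ0 % 4 = 1
    · rw [if_pos h]
      simp only [h, and_true]
      decide
    · simp [h]
  · intro β γ hγ
    have e4 : 4 * δ0 % 4 = 0 := Nat.mul_mod_right 4 δ0
    have key : ∀ k, β = 2 * k → δ0 * γ = k ^ 2 + n1 := by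
      rintro k rfl
      have : 4 * (δ0 * γ) = 4 * (k ^ 2 + n1) := by
        calc 4 * (δ0 * γ) = 4 * δ0 * γ := by ring
          _ = (2 * k) ^ 2 + 4 * n1 := hγ
          _ = _ := by ring
      omega
    by_cases hP : β % 4 = 0 ∧ δ0 % 4 = 1
    · rw [if_pos hP]
      refine C2_one e b _ β γ (by omega) e4 (by omega) ?_
      obtain ⟨k, hk⟩ : ∃ k, β = 2 * k := ⟨β / 2, by omega⟩
      have h1 := key k hk
      have h2 : γ % 4 = (k ^ 2 + n1) % 4 := by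
        have := congrArg (fun z => z % 4) h1
        simp only [Nat.mul_mod δ0 γ 4, hP.2, one_mul, Nat.mod_mod] at this
        exact this
      have h8 := sq_mod8 k
      split_ifs at h8 <;> omega
    · rw [if_neg hP]
      by_contra hcc
      obtain ⟨h1, h3⟩ := C2_even e b _ β γ e4 hcc
      obtain ⟨k, hk⟩ : ∃ k, β = 2 * k := ⟨β / 2, by omega⟩
      have h4 := key k hk
      have h5 : (δ0 % 4) * (γ % 4) % 4 = (k ^ 2 + n1) % 4 := by rw [← Nat.mul_mod, h4]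
      have h8 := sq_mod8 k
      have h9 : δ0 % 4 = 1 ∨ δ0 % 4 = 3 := by omega
      rcases h3 with h3 | h3 <;> rcases h9 with h9 | h9 <;> rw [h3, h9] at h5 <;>
        split_ifs at h8 <;> omega
  · intro β hβ
    obtain ⟨k, hk⟩ : ∃ k, β = 4 * k := ⟨β / 4, by omega⟩
    refine ⟨4 * k ^ 2 + n1, ?_⟩
    rw [hk]; ring

theorem Bs_w3 (n1 : ℕ) (b : ℤ) (e δ0 : ℕ) (hn1 : n1 % 4 = 1) (hb : b % 4 = 2)
    (hδ : δ0 % 2 = 1) : Bs n1 b e (8 * δ0) = K2 n1 δ0 3 * Y155.Z7.R (4 * n1) δ0 := by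
  have hc : Nat.Coprime 8 δ0 := by
    have h2 : Nat.Coprime 2 δ0 := by rw [Nat.coprime_two_left]; exact Nat.odd_iff.2 hδ
    exact Nat.Coprime.pow_left 3 h2
  rw [Bs_of n1 b e 8 δ0 (by norm_num) (by omega) hc
    (fun x => x % 4 = 2 ∧ (2 * δ0) % 8 = (1 + n1) % 8)]
  · congr 1
    unfold K2
    rw [if_neg (by omega), if_pos rfl]
    by_cases h : (2 * δ0) % 8 = (1 + n1) % 8
    · rw [if_pos h]
      simp only [h, and_true]
      decide
    · simp [h]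
  · intro β γ hγ
    have e4 : 8 * δ0 % 4 = 0 := by omega
    have emod : β % 8 % 4 = β % 4 := by omega
    rw [emod]
    have key : ∀ k, β = 2 * k → 2 * (δ0 * γ) = k ^ 2 + n1 := by
      rintro k rfl
      have : 4 * (2 * (δ0 * γ)) = 4 * (k ^ 2 + n1) := by
        calc 4 * (2 * (δ0 * γ)) = 8 * δ0 * γ := by ring
          _ = (2 * k) ^ 2 + 4 * n1 := hγ
          _ = _ := by ring
      omega
    -- if `β` is even then `γ` is odd, and `γ δ0 ≡ (1 + n1) / 2`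
    have key2 : ∀ k, β = 2 * k → k % 2 = 1 ∧ γ % 2 = 1 ∧
        2 * ((δ0 % 4) * (γ % 4)) % 8 = (1 + n1) % 8 := by
      intro k hk
      have h1 := key k hk
      have h8 := sq_mod8 k
      have h9 : (2 * (δ0 * γ)) % 8 = 2 * ((δ0 % 4) * (γ % 4)) % 8 := by
        have : (δ0 * γ) % 4 = ((δ0 % 4) * (γ % 4)) % 4 := Nat.mul_mod _ _ _
        omega
      have hk2 : k % 2 = 1 := by
        by_contra hne
        split_ifs at h8 <;> omega
      rw [if_pos hk2] at h8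
      refine ⟨hk2, ?_, by omega⟩
      by_contra hne
      obtain ⟨g, rfl⟩ : ∃ g, γ = 2 * g := ⟨γ / 2, by omega⟩
      have : 2 * (δ0 * (2 * g)) = 4 * (δ0 * g) := by ring
      omega
    by_cases hP : β % 4 = 2 ∧ (2 * δ0) % 8 = (1 + n1) % 8
    · rw [if_pos hP]
      refine C2_one e b _ β γ (by omega) e4 (by omega) ?_
      obtain ⟨k, hk⟩ : ∃ k, β = 2 * k := ⟨β / 2, by omega⟩
      obtain ⟨h1, h2, h3⟩ := key2 k hk
      right
      have h9 : δ0 % 4 = 1 ∨ δ0 % 4 = 3 := by omega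
      have h10 : γ % 4 = 1 ∨ γ % 4 = 3 := by omega
      rcases h10 with h10 | h10
      · exact h10
      · exfalso
        rcases h9 with h9 | h9 <;> rw [h9, h10] at h3 <;> omega
    · rw [if_neg hP]
      by_contra hcc
      obtain ⟨h1, h3⟩ := C2_even e b _ β γ e4 hcc
      obtain ⟨k, hk⟩ : ∃ k, β = 2 * k := ⟨β / 2, by omega⟩
      obtain ⟨g1, g2, g3⟩ := key2 k hk
      have h10 : γ % 4 = 1 := by omega
      rw [h10] at g3
      apply hP
      constructor <;> omega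
  · intro β hβ
    obtain ⟨k, hk⟩ : ∃ k, β = 4 * k + 2 := ⟨β / 4, by omega⟩
    obtain ⟨m, hm⟩ : ∃ m, n1 = 4 * m + 1 := ⟨n1 / 4, by omega⟩
    refine ⟨2 * k ^ 2 + 2 * k + 2 * m + 1, ?_⟩
    rw [hk, hm]; ring

/-- the sum over `β` for `b ≡ 2` modulo `4` -/
theorem Bs_even (n1 : ℕ) (b : ℤ) (e w δ0 : ℕ) (hn1 : n1 % 4 = 1) (hb : b % 4 = 2)
    (hδ : δ0 % 2 = 1) (he : w = 0 → e % 2 = 0) :
    Bs n1 b e (2 ^ w * δ0) = K2 n1 δ0 w * Y155.Z7.R (4 * n1) δ0 := by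
  rcases Nat.lt_or_ge w 4 with hw | hw
  · interval_cases w
    · rw [pow_zero, one_mul]
      exact Bs_w0 n1 b e δ0 hb (he rfl) hδ
    · rw [Bs_w1 n1 b e _ (by omega)]
      simp [K2]
    · exact Bs_w2 n1 b e δ0 hn1 hb hδ
    · exact Bs_w3 n1 b e δ0 hn1 hb hδ
  · obtain ⟨v, rfl⟩ : ∃ v, w = v + 4 := ⟨w - 4, by omega⟩
    have hK : K2 n1 δ0 (v + 4) = 0 := by
      unfold K2
      rw [if_neg (by omega), if_neg (by omega)]
    rw [hK, zero_mul]
    refine Bs_w4 n1 b e _ hn1 ?_ (Nat.mul_pos (by positivity) (by omega))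
    have : 2 ^ (v + 4) * δ0 = 16 * (2 ^ v * δ0) := by ring
    omega

end Pool.Agent.H757_X15.BB.XCn
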