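import Pool.Agent.H757_X15.BS.XCb

/-!
# Counting the parameters: the sum over `e`
-/

set_option autoImplicit false

namespace Pool.Agent.H757_X15.BB.XCn

open Finset
open Pool.Agent.Z700 (fac hh)

/-- the possible `e` -/
def EE (D : ℕ) : Finset ℕ := (range (D + 1)).filter fun e => 0 < e ∧ 3 * e ^ 2 ∣ D

theorem mem_EE (D e : ℕ) (hD : 0 < D) : e ∈ EE D ↔ 0 < e ∧ 3 * e ^ 2 ∣ D := by
  unfold EE
  rw [Finset.mem_filter, Finset.mem_range]
  refine ⟨fun h => h.2, fun h => ⟨?_, h⟩⟩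
  have := Nat.le_of_dvd hD h.2
  nlinarith [h.1]

theorem EE_odd {Do e : ℕ} (hDo : Do % 2 = 1) (h : 3 * e ^ 2 ∣ Do) : e % 2 = 1 := by
  by_contra hne
  obtain ⟨k, rfl⟩ : ∃ k, e = 2 * k := ⟨e / 2, by omega⟩
  obtain ⟨c, hc⟩ := h
  have : 3 * (2 * k) ^ 2 * c = 2 * (6 * k ^ 2 * c) := by ring
  omega

/-- splitting off the power of two of `e` -/
theorem sum_EE (h Do : ℕ) (hDo : Do % 2 = 1) (f : ℕ → ℕ) :
    ∑ e ∈ EE (2 ^ h * Do), f e = ∑ j ∈ range (h / 2 + 1), ∑ e ∈ EE Do, f (2 ^ j * e) := by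
  have hDo0 : 0 < Do := by omega
  have hD : 0 < 2 ^ h * Do := Nat.mul_pos (by positivity) hDo0
  rw [← Finset.sum_product']
  symm
  refine Finset.sum_nbij (fun p => 2 ^ p.1 * p.2) ?_ ?_ ?_ ?_
  · rintro ⟨j, e⟩ hp
    obtain ⟨h1, h2⟩ := Finset.mem_product.1 hp
    have h1 := Finset.mem_range.1 h1
    obtain ⟨h3, h4⟩ := (mem_EE Do e hDo0).1 h2
    simp only at h1 h3 h4
    refine (mem_EE _ _ hD).2 ⟨Nat.mul_pos (by positivity) h3, ?_⟩
    have e1 : 3 * (2 ^ j * e) ^ 2 = 2 ^ (2 * j) * (3 * e ^ 2) := by ring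
    change 3 * (2 ^ j * e) ^ 2 ∣ _
    rw [e1]
    exact Nat.mul_dvd_mul (pow_dvd_pow 2 (by omega)) h4
  · rintro ⟨j, e⟩ hp ⟨j', e'⟩ hp' heq
    obtain ⟨_, h2⟩ := Finset.mem_product.1 (Finset.mem_coe.1 hp)
    obtain ⟨_, h2'⟩ := Finset.mem_product.1 (Finset.mem_coe.1 hp')
    have ho := EE_odd hDo ((mem_EE Do e hDo0).1 h2).2
    have ho' := EE_odd hDo ((mem_EE Do e' hDo0).1 h2').2
    simp only at heq ho ho'
    have key : ∀ j j' e e' : ℕ, j ≤ j' → e % 2 = 1 → e' % 2 = 1 → 2 ^ j * e = 2 ^ j' * e' →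
        j = j' ∧ e = e' := by
      intro j j' e e' hle ho ho' heq
      obtain ⟨i, rfl⟩ : ∃ i, j' = j + i := ⟨j' - j, by omega⟩
      rw [pow_add, mul_assoc] at heq
      have h5 := Nat.eq_of_mul_eq_mul_left (by positivity) heq
      rcases i with _ | i
      · exact ⟨by omega, by simpa using h5⟩
      · exfalso
        have : 2 ^ (i + 1) * e' = 2 * (2 ^ i * e') := by ring
        omega
    rcases le_total j j' with hle | hle
    · obtain ⟨a1, a2⟩ := key j j' e e' hle ho ho' heq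
      rw [a1, a2]
    · obtain ⟨a1, a2⟩ := key j' j e' e hle ho' ho heq.symm
      rw [a1, a2]
  · intro e he
    obtain ⟨h1, h2⟩ := (mem_EE _ e hD).1 (Finset.mem_coe.1 he)
    obtain ⟨j, m, hm, rfl⟩ := Nat.exists_eq_two_pow_mul_odd (n := e) h1.ne'
    have hm2 : m % 2 = 1 := Nat.odd_iff.1 hm
    have e1 : 3 * (2 ^ j * m) ^ 2 = 2 ^ (2 * j) * (3 * m ^ 2) := by ring
    rw [e1] at h2
    have c1 : Nat.Coprime (2 ^ (2 * j)) Do := by
      apply Nat.Coprime.pow_left
      rw [Nat.coprime_two_left]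
      exact Nat.odd_iff.2 hDo
    have c2 : Nat.Coprime (3 * m ^ 2) (2 ^ h) := by
      apply Nat.Coprime.pow_right
      apply Nat.Coprime.symm
      rw [Nat.coprime_two_left]
      exact Odd.mul (by decide) hm.pow
    have d1 : 2 ^ (2 * j) ∣ 2 ^ h := c1.dvd_of_dvd_mul_right ((Dvd.intro _ rfl).trans h2)
    have d2 : 3 * m ^ 2 ∣ Do := c2.dvd_of_dvd_mul_left ((Dvd.intro_left _ rfl).trans h2)
    have d3 : 2 * j ≤ h := (Nat.pow_dvd_pow_iff_le_right (by norm_num)).1 d1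
    have hm0 : 0 < m := by omega
    exact ⟨(j, m), Finset.mem_coe.2 (Finset.mem_product.2 ⟨Finset.mem_range.2 (by
      change j < h / 2 + 1; omega), (mem_EE Do m hDo0).2 ⟨hm0, d2⟩⟩), rfl⟩
  · rintro ⟨j, e⟩ _
    rfl

/-- the sum over `e` of the numbers of roots -/
noncomputable def TS (n1 Do : ℕ) : ℕ := ∑ e ∈ EE Do, Y155.Z7.R (4 * n1) (Do / (3 * e ^ 2))

theorem TS_eq (n1 D1 : ℕ) (hD1 : 0 < D1) : TS n1 (3 * D1) = Y155.Z7.S (4 * n1) D1 := by
  unfold TS Y155.Z7.S
  have h0 : EE (3 * D1) = (range (D1 + 1)).filter fun e => 0 < e ∧ e ^ 2 ∣ D1 := by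
    ext e
    rw [mem_EE _ _ (by omega), Finset.mem_filter, Finset.mem_range]
    constructor
    · rintro ⟨h1, h2⟩
      have h3 : e ^ 2 ∣ D1 := Nat.dvd_of_mul_dvd_mul_left (by norm_num) h2
      refine ⟨?_, h1, h3⟩
      have := Nat.le_of_dvd hD1 h3
      nlinarith
    · rintro ⟨_, h1, h2⟩
      exact ⟨h1, Nat.mul_dvd_mul_left 3 h2⟩
  rw [h0]
  refine Finset.sum_congr rfl fun e _ => ?_
  rw [Nat.mul_div_mul_left _ _ (by norm_num : 0 < 3)]

/-- evaluation of the sum over `e` -/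
theorem TS_prod (n1 D : ℕ) (hs : Squarefree n1) (a1 : n1 % 12 = 1) (hD : 0 < D) (h Do : ℕ)
    (hDh : D = 2 ^ h * Do) (hDo : Do % 2 = 1) (h3 : Odd (D.factorization 3)) :
    (TS n1 Do : ℤ) = ∏ l ∈ pf3 D, if l ∣ n1 then 1 else
      ∑ j ∈ range (D.factorization l + 1), (jacobiSym (-(n1 : ℤ)) l) ^ j := by
  have hDo0 : 0 < Do := by omega
  have hf : ∀ l, l ≠ 2 → D.factorization l = Do.factorization l := by
    intro l hl
    rw [hDh, Nat.factorization_mul (by positivity) hDo0.ne', Finsupp.add_apply,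
      Nat.Prime.factorization_pow Nat.prime_two, Finsupp.single_apply, if_neg (Ne.symm hl), zero_add]
  have h3D : 3 ∣ Do := by
    rw [hf 3 (by norm_num)] at h3
    by_contra hn
    rw [Nat.factorization_eq_zero_of_not_dvd hn] at h3
    exact absurd h3 (by decide)
  obtain ⟨D1, rfl⟩ := h3D
  have hD1 : 0 < D1 := by omega
  have hD1o : D1 % 2 = 1 := by omega
  have h4n : 0 < 4 * n1 := by omega
  rw [TS_eq n1 D1 hD1, Y155.Z7.S_prod (4 * n1) h4n D1 hD1, Nat.cast_prod]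
  have hf3 : (3 * D1).factorization 3 = D1.factorization 3 + 1 := by
    rw [Nat.factorization_mul (by norm_num) hD1.ne', Finsupp.add_apply,
      Nat.Prime.factorization Nat.prime_three, Finsupp.single_eq_same, add_comm]
  have hf1 : ∀ l, l ≠ 3 → (3 * D1).factorization l = D1.factorization l := by
    intro l hl
    rw [Nat.factorization_mul (by norm_num) hD1.ne', Finsupp.add_apply,
      Nat.Prime.factorization Nat.prime_three, Finsupp.single_apply, if_neg (Ne.symm hl), zero_add]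
  have hev : Even (D1.factorization 3) := by
    rw [hf 3 (by norm_num), hf3] at h3
    rcases Nat.even_or_odd (D1.factorization 3) with h | h
    · exact h
    · exact absurd h3 (by rw [Nat.not_odd_iff_even]; exact h.add_one)
  have hJ : ∀ l : ℕ, l.Prime → l ≠ 2 →
      jacobiSym (-((4 * n1 : ℕ) : ℤ)) l = jacobiSym (-(n1 : ℤ)) l := by
    intro l hp h2
    have c2 : ¬ l ∣ 2 := fun h => h2 ((Nat.prime_dvd_prime_iff_eq hp Nat.prime_two).1 h)
    rw [← Y155.Z7.J_sq l hp (-(n1 : ℤ)) 2 c2]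
    congr 1
    push_cast
    ring
  have hJ3 : jacobiSym (-(n1 : ℤ)) 3 = -1 := by
    have : jacobiSym (-(n1 : ℤ)) 3 = jacobiSym (2 : ℤ) 3 := by
      refine jacobiSym.mod_left' ?_
      omega
    rw [this]
    norm_num
  -- the factor at `3`
  have h33 : (Y155.Z7.S (4 * n1) (3 ^ D1.factorization 3) : ℤ) = 1 := by
    rw [Y155.Z7.S_unram (4 * n1) h4n 3 Nat.prime_three (by norm_num) (by omega),
      hJ 3 Nat.prime_three (by norm_num), hJ3]
    obtain ⟨k, hk⟩ := hev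
    rw [hk, ← two_mul]
    clear hk
    induction k with
    | zero => simp
    | succ k ih =>
      have e1 : 2 * (k + 1) + 1 = (2 * k + 1) + 1 + 1 := by ring
      rw [e1, Finset.sum_range_succ, Finset.sum_range_succ, ih]
      have e2 : (-1 : ℤ) ^ (2 * k + 1) = -1 := by
        rw [pow_succ, pow_mul]; norm_num
      have e3 : (-1 : ℤ) ^ (2 * k + 1 + 1) = 1 := by
        rw [pow_succ, e2]; norm_num
      rw [e2, e3]
      norm_num
  have hpf : pf3 D = D1.primeFactors.erase 3 := by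
    unfold pf3
    ext l
    simp only [Finset.mem_erase, Nat.mem_primeFactors]
    constructor
    · rintro ⟨b3, b2, bp, bd, _⟩
      refine ⟨b3, bp, ?_, hD1.ne'⟩
      rw [hDh] at bd
      rcases bp.dvd_mul.1 bd with h | h
      · exact absurd ((Nat.prime_dvd_prime_iff_eq bp Nat.prime_two).1 (bp.dvd_of_dvd_pow h)) b2
      · rcases bp.dvd_mul.1 h with h | h
        · exact absurd ((Nat.prime_dvd_prime_iff_eq bp Nat.prime_three).1 h) b3
        · exact h
    · rintro ⟨b3, bp, bd, _⟩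
      refine ⟨b3, ?_, bp, ?_, hD.ne'⟩
      · rintro rfl
        omega
      · rw [hDh]
        exact (bd.mul_left 3).mul_left _
  rw [hpf]
  have hrest : ∀ l ∈ D1.primeFactors.erase 3, (Y155.Z7.S (4 * n1) (l ^ D1.factorization l) : ℤ) =
      if l ∣ n1 then 1 else
      ∑ j ∈ range (D.factorization l + 1), (jacobiSym (-(n1 : ℤ)) l) ^ j := by
    intro l hl
    obtain ⟨b3, hl⟩ := Finset.mem_erase.1 hl
    have bp := Nat.prime_of_mem_primeFactors hl
    have bd := Nat.dvd_of_mem_primeFactors hl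
    have b2 : l ≠ 2 := by
      rintro rfl
      omega
    have c2 : ¬ l ∣ 2 := fun h => b2 ((Nat.prime_dvd_prime_iff_eq bp Nat.prime_two).1 h)
    rw [hf l b2, hf1 l b3]
    split_ifs with hln
    · rw [Y155.Z7.S_ram (4 * n1) h4n l bp (hln.mul_left 4) ?_, Nat.cast_one]
      intro h
      have c4 : Nat.Coprime (l ^ 2) 4 := by
        have q2 : Nat.Coprime l 2 := (Nat.Prime.coprime_iff_not_dvd bp).2 c2
        exact Nat.Coprime.pow_left 2 (Nat.Coprime.pow_right 2 q2)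
      have h5 := c4.dvd_of_dvd_mul_left h
      rw [pow_two] at h5
      exact bp.one_lt.ne' (Nat.isUnit_iff.1 (hs l h5))
    · rw [Y155.Z7.S_unram (4 * n1) h4n l bp b2, hJ l bp b2]
      intro h
      rcases bp.dvd_mul.1 h with h | h
      · exact c2 (bp.dvd_of_dvd_pow (show l ∣ 2 ^ 2 from h))
      · exact hln h
  by_cases hm3 : 3 ∈ D1.primeFactors
  · rw [← Finset.mul_prod_erase _ _ hm3, h33, one_mul]
    exact Finset.prod_congr rfl hrest
  · rw [Finset.erase_eq_of_notMem hm3] at hrest ⊢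
    exact Finset.prod_congr rfl hrest

end Pool.Agent.H757_X15.BB.XCn
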